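import Pool.Agent.H708.ET.Seq

/-!
# Counting the representations, and the numbers which are covered
-/

set_option autoImplicit false

namespace Pool.Agent.H708.ET

open Finset Pool.Agent.H125R2.ET Pool.Agent.Helper667_AS

/-- the classes which matter for a given number -/
theorem two_count (W : ℕ → Finset ℕ) (n : ℕ) (I : Finset ℕ)
    (hI : ∀ i j a b, j ≤ i → a ∈ W i → b ∈ W j → a + b = n → i ∈ I) :
    rA (bigA W) n ≤
      ∑ i ∈ I, (repF (W i) (W i) n + 2 * (W i ∩ refl n ((range i).biUnion W)).card) := by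
  classical
  set T1 : ℕ → Finset (ℕ × ℕ) := fun i => (W i ×ˢ W i).filter (fun x => x.1 + x.2 = n) with hT1
  set L : ℕ → Finset ℕ := fun i => W i ∩ refl n ((range i).biUnion W) with hL
  set T2 : ℕ → Finset (ℕ × ℕ) := fun i => (L i).image (fun b => (n - b, b)) with hT2
  set T3 : ℕ → Finset (ℕ × ℕ) := fun i => (L i).image (fun a => (a, n - a)) with hT3
  have hlow : ∀ {i j c d : ℕ}, j < i → c ∈ W j → d ∈ W i → c + d = n → d ∈ L i := by
    intro i j c d hij hc hd hcd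
    rw [hL, mem_inter, mem_refl]
    refine ⟨hd, by omega, ?_⟩
    rw [mem_biUnion]
    refine ⟨j, mem_range.mpr hij, ?_⟩
    have : n - d = c := by omega
    rw [this]
    exact hc
  have hsub : {x : ℕ × ℕ | x.1 ∈ bigA W ∧ x.2 ∈ bigA W ∧ x.1 + x.2 = n} ⊆
      ((I.biUnion (fun i => T1 i ∪ (T2 i ∪ T3 i)) : Finset (ℕ × ℕ)) : Set (ℕ × ℕ)) := by
    rintro ⟨a, b⟩ ⟨⟨ia, ha⟩, ⟨ib, hb⟩, hab⟩
    simp only at ha hb hab
    rw [mem_coe, mem_biUnion]
    rcases lt_trichotomy ia ib with hlt | heq | hgt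
    · refine ⟨ib, hI ib ia b a hlt.le hb ha (by omega),
        mem_union_right _ (mem_union_left _ ?_)⟩
      rw [hT2, mem_image]
      refine ⟨b, hlow hlt ha hb hab, ?_⟩
      rw [Prod.mk.injEq]
      exact ⟨by omega, rfl⟩
    · subst heq
      refine ⟨ia, hI ia ia a b le_rfl ha hb hab, mem_union_left _ ?_⟩
      rw [hT1, mem_filter, mem_product]
      exact ⟨⟨ha, hb⟩, hab⟩
    · refine ⟨ia, hI ia ib a b hgt.le ha hb hab,
        mem_union_right _ (mem_union_right _ ?_)⟩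
      rw [hT3, mem_image]
      refine ⟨a, hlow hgt hb ha (by omega), ?_⟩
      rw [Prod.mk.injEq]
      exact ⟨rfl, by omega⟩
  calc rA (bigA W) n ≤ ((I.biUnion (fun i => T1 i ∪ (T2 i ∪ T3 i)) : Finset (ℕ × ℕ)) :
        Set (ℕ × ℕ)).ncard := Set.ncard_le_ncard hsub (Finset.finite_toSet _)
    _ = (I.biUnion (fun i => T1 i ∪ (T2 i ∪ T3 i))).card := Set.ncard_coe_finset _
    _ ≤ ∑ i ∈ I, (T1 i ∪ (T2 i ∪ T3 i)).card := card_biUnion_le
    _ ≤ ∑ i ∈ I, (repF (W i) (W i) n + 2 * (L i).card) := by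
        refine sum_le_sum (fun i _ => ?_)
        have h1 := card_union_le (T1 i) (T2 i ∪ T3 i)
        have h2 := card_union_le (T2 i) (T3 i)
        have h3 : (T2 i).card ≤ (L i).card := card_image_le
        have h4 : (T3 i).card ≤ (L i).card := card_image_le
        have h5 : (T1 i).card = repF (W i) (W i) n := rfl
        omega

theorem repF_union (S T S' T' : Finset ℕ) (n : ℕ) :
    repF (S ∪ T) (S' ∪ T') n ≤ (repF S S' n + repF S T' n) + (repF T S' n + repF T T' n) := by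
  classical
  unfold repF
  have h : ((S ∪ T) ×ˢ (S' ∪ T')).filter (fun x => x.1 + x.2 = n) ⊆
      ((S ×ˢ S').filter (fun x => x.1 + x.2 = n) ∪ (S ×ˢ T').filter (fun x => x.1 + x.2 = n)) ∪
      ((T ×ˢ S').filter (fun x => x.1 + x.2 = n) ∪ (T ×ˢ T').filter (fun x => x.1 + x.2 = n)) := by
    intro x hx
    rw [mem_filter, mem_product, mem_union, mem_union] at hx
    obtain ⟨⟨h1, h2⟩, h3⟩ := hx
    rw [mem_union, mem_union, mem_union, mem_filter, mem_filter, mem_filter, mem_filter,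
      mem_product, mem_product, mem_product, mem_product]
    tauto
  refine (card_le_card h).trans ((card_union_le _ _).trans ?_)
  exact Nat.add_le_add (card_union_le _ _) (card_union_le _ _)

/-- the window bound for a class -/
def CBd {C : ℕ} (s : TSys C) (i n R : ℕ) : Prop :=
  ∀ N, n / (s.p i) ^ 8 - (2 * C + 2 * s.H i + 4) ≤ N → N ≤ n / (s.p i) ^ 8 →
    repF (s.Z i) (s.Z i) N ≤ R ∧ repF (s.Z i) (s.M i) N ≤ R ∧ repF (s.M i) (s.Z i) N ≤ R ∧
      repF (s.M i) (s.M i) N ≤ R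

theorem class_rep {C : ℕ} (s : TSys C) (i n R : ℕ) (h : CBd s i n R) (ω : (s.W i).Ω) :
    repF ((s.W i).S ω) ((s.W i).S ω) n ≤ 4 * (2 * C * C) ^ 4 * R := by
  obtain ⟨t1, h1⟩ := s.S1 i ω.1
  obtain ⟨t2, h2⟩ := s.S2 i ω.2
  have hC := s.Cp i
  have hH := s.Hpos i
  have e : (s.W i).S ω = (s.W1 i).S ω.1 ∪ (s.W2 i).S ω.2 := rfl
  rw [e, h1, h2]
  refine (repF_union _ _ _ _ _).trans ?_
  have b1 := blk_rep (s.prime i).pos one_pos one_pos (by omega) (by omega) (s.base i) (s.Z i)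
    (s.Z i) R n (fun N g1 g2 => (h N (by omega) g2).1) t1 t1
  have b2 := blk_rep (s.prime i).pos one_pos (s.Hpos i) (by omega) (by omega) (s.base i) (s.Z i)
    (s.M i) R n (fun N g1 g2 => (h N (by omega) g2).2.1) t1 t2
  have b3 := blk_rep (s.prime i).pos (s.Hpos i) one_pos (by omega) (by omega) (s.base i) (s.M i)
    (s.Z i) R n (fun N g1 g2 => (h N (by omega) g2).2.2.1) t2 t1
  have b4 := blk_rep (s.prime i).pos (s.Hpos i) (s.Hpos i) (by omega) (by omega) (s.base i) (s.M i)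
    (s.M i) R n (fun N g1 g2 => (h N (by omega) g2).2.2.2) t2 t2
  have e4 : 4 * (2 * C * C) ^ 4 * R = ((2 * C * C) ^ 4 * R + (2 * C * C) ^ 4 * R) +
      ((2 * C * C) ^ 4 * R + (2 * C * C) ^ 4 * R) := by ring
  rw [e4]
  exact Nat.add_le_add (Nat.add_le_add b1 b2) (Nat.add_le_add b3 b4)

theorem p8_lo {C : ℕ} (s : TSys C) (i : ℕ) : 2 ^ (8 * s.κ i) ≤ (s.p i) ^ 8 := by
  calc 2 ^ (8 * s.κ i) = (2 ^ s.κ i) ^ 8 := by rw [← pow_mul, mul_comm]
    _ ≤ (s.p i) ^ 8 := Nat.pow_le_pow_left (s.lo i).le 8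

theorem p8_hi {C : ℕ} (s : TSys C) (i : ℕ) : (s.p i) ^ 8 ≤ 2 ^ (8 * s.κ i + 8) := by
  calc (s.p i) ^ 8 ≤ (2 ^ (s.κ i + 1)) ^ 8 := Nat.pow_le_pow_left (s.hi i) 8
    _ = 2 ^ (8 * s.κ i + 8) := by rw [← pow_mul]; ring_nf

/-- the classes of a representation -/
theorem class_pos {C : ℕ} (s : TSys C) (ω : ∀ i, (s.W i).Ω) {n i j a b : ℕ} (hij : j ≤ i)
    (ha : a ∈ (s.W i).S (ω i)) (hb : b ∈ (s.W j).S (ω j)) (hab : a + b = n) :
    2 ^ (8 * s.κ i) ≤ n ∧ n < 2 ^ (8 * s.κ (i + 1) + 23) := by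
  have h1 := s.range i (ω i) a ha
  have h2 := s.range j (ω j) b hb
  have h3 := p8_lo s i
  have h4 := p8_hi s i
  have hu : 28 ≤ s.u i := by have := s.γu i; omega
  have ht := s.touch i
  have h5 : b < 2 ^ (s.u i + 2) * (s.p i) ^ 8 := by
    rcases hij.eq_or_lt with rfl | hlt
    · exact h2.2
    · have e1 := s.topj hlt
      have e2 : 2 ^ 22 * 2 ^ (8 * s.κ i) ≤ 2 ^ (s.u i + 2) * (s.p i) ^ 8 :=
        Nat.mul_le_mul (Nat.pow_le_pow_right (by norm_num) (by omega)) h3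
      omega
  refine ⟨by omega, ?_⟩
  have e3 : 2 ^ (s.u i + 2) * (s.p i) ^ 8 + 2 ^ (s.u i + 2) * (s.p i) ^ 8 ≤
      2 ^ (8 * s.κ (i + 1) + 23) := by
    calc 2 ^ (s.u i + 2) * (s.p i) ^ 8 + 2 ^ (s.u i + 2) * (s.p i) ^ 8
        = 2 ^ (s.u i + 3) * (s.p i) ^ 8 := by ring
      _ ≤ 2 ^ (s.u i + 3) * 2 ^ (8 * s.κ i + 8) := Nat.mul_le_mul_left _ h4
      _ = 2 ^ (8 * s.κ (i + 1) + 23) := by
          rw [← pow_add]
          congr 1
          omega
  omega

/-- **Touching classes.** -/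
theorem touch_set (C : ℕ) :
    ∃ C5 K0 : ℕ, ∀ (s : TSys C), (∀ i, K0 ≤ s.κ i) → (∀ i, K0 ≤ s.γ i) → ∀ γz : ℕ → ℕ,
      (∀ i, 1 ≤ γz i) → (∀ i, 2 ^ (2 * γz i) ≤ s.κ i) → (∀ i, γz i ≤ s.γ i) →
      (∀ i, ∀ b ∈ s.Z i, b < 2 ^ (8 * s.γ i + 6)) →
      (∀ i N, N < 2 ^ (8 * s.γ i + 6) → ∃ b ∈ s.Z i, ∃ b' ∈ s.Z i, b + b' = N) →
      (∀ i N, 2 * s.H i ≤ N → N < 2 ^ s.u i → ∃ b ∈ s.M i, ∃ b' ∈ s.M i, b + b' = N) →
      ∃ A : Set ℕ,
      (∀ n < 2 ^ (8 * s.κ 0), rA A n = 0) ∧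
      (∀ t n R, 2 ^ (8 * s.κ t + 8 * s.γ t + 16) ≤ n → n < 2 ^ (8 * s.κ (t + 1)) →
        CBd s t n R → (rA A n : ℝ) ≤ C5 * (R + s.κ t / s.γ t)) ∧
      (∀ t n R, 2 ^ (8 * s.κ t) ≤ n → n < 2 ^ (8 * s.κ (t + 1)) →
        CBd s t n R → CBd s (t - 1) n R →
        (rA A n : ℝ) ≤ C5 * (R + s.κ t / γz t + s.κ (t - 1) / γz (t - 1))) ∧
      (∀ n, 14 * (s.p 0) ^ 8 ≤ n → ∃ a ∈ A, ∃ b ∈ A, a + b = n) := by
  obtain ⟨C3, K0, hgood⟩ := good_T C
  refine ⟨8 * (2 * C * C) ^ 4 + 8 * C3, K0 + C + 30, ?_⟩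
  intro s hK hKγ γz hγz1 hγz hγzγ hZlt hZc hMc
  obtain ⟨ω, hω⟩ := hgood s (fun i => by have := hK i; omega) (fun i => by have := hKγ i; omega)
    γz hγz1 hγz
  set Wf : ℕ → Finset ℕ := fun i => (s.W i).S (ω i) with hWf
  have hgap : ∀ i, s.κ i + 3 ≤ s.κ (i + 1) := by
    intro i
    have h1 := s.touch i
    have h2 := s.γu i
    have h3 := hKγ i
    omega
  have hmon : ∀ i j, i < j → s.κ i + 3 ≤ s.κ j := by
    intro i j hij
    have h1 := hgap i
    have h2 := s.κmono (Nat.succ_le_of_lt hij)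
    have h3 : i.succ = i + 1 := rfl
    rw [h3] at h2
    omega
  -- real form of a class
  have hC3 : (0 : ℝ) ≤ C3 := Nat.cast_nonneg _
  refine ⟨bigA Wf, ?_, ?_, ?_, ?_⟩
  · -- small numbers
    intro n hn
    have he : {x : ℕ × ℕ | x.1 ∈ bigA Wf ∧ x.2 ∈ bigA Wf ∧ x.1 + x.2 = n} = ∅ := by
      rw [Set.eq_empty_iff_forall_notMem]
      rintro ⟨a, b⟩ ⟨⟨ia, ha⟩, -, hab⟩
      simp only at ha hab
      have h1 := (s.range ia (ω ia) a ha).1
      have h2 := p8_lo s ia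
      have h3 : 2 ^ (8 * s.κ 0) ≤ 2 ^ (8 * s.κ ia) := by
        refine Nat.pow_le_pow_right (by norm_num) ?_
        have := s.κmono (Nat.zero_le ia)
        omega
      omega
    unfold rA
    rw [he, Set.ncard_empty]
  · -- outside of the zones
    intro t n R hn1 hn2 hR
    have hI : ∀ i j a b, j ≤ i → a ∈ Wf i → b ∈ Wf j → a + b = n → i ∈ ({t} : Finset ℕ) := by
      intro i j a b hij ha hb hab
      obtain ⟨h1, h2⟩ := class_pos s ω hij ha hb hab
      rw [mem_singleton]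
      rcases lt_trichotomy i t with hlt | heq | hgt
      · exfalso
        have e1 := s.κmono (Nat.succ_le_of_lt hlt)
        have e2 : i.succ = i + 1 := rfl
        rw [e2] at e1
        have e3 : 2 ^ (8 * s.κ (i + 1) + 23) ≤ 2 ^ (8 * s.κ t + 8 * s.γ t + 16) :=
          Nat.pow_le_pow_right (by norm_num) (by have := hKγ t; omega)
        omega
      · exact heq
      · exfalso
        have e1 := s.κmono (Nat.succ_le_of_lt hgt)
        have e2 : t.succ = t + 1 := rfl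
        rw [e2] at e1
        have e3 : 2 ^ (8 * s.κ (t + 1)) ≤ 2 ^ (8 * s.κ i) :=
          Nat.pow_le_pow_right (by norm_num) (by omega)
        omega
    have h1 := two_count Wf n {t} hI
    rw [sum_singleton] at h1
    have h2 := class_rep s t n R hR (ω t)
    -- the zone block does not matter
    have hY : ∀ y ∈ (range t).biUnion Wf, y < 2 ^ 22 * (s.p t) ^ 8 := by
      intro y hy
      have := T18.S_pt s.W ω t
      rw [← this] at hy
      exact s.pre_lt t _ hy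
    have hzero : ((s.W1 t).S (ω t).1) ∩ refl n ((range t).biUnion Wf) = ∅ := by
      rw [← Finset.not_nonempty_iff_eq_empty]
      rintro ⟨v, hv⟩
      rw [mem_inter, mem_refl] at hv
      obtain ⟨hv1, hv2, hv3⟩ := hv
      obtain ⟨t1, ht1⟩ := s.S1 t (ω t).1
      rw [ht1] at hv1
      have a1 := (blk_range (s.prime t).pos one_pos (by have := s.Cp t; omega)
        (by have := s.Cp t; omega) (s.base t) (hZlt t) _ v hv1).2
      have a2 := hY _ hv3
      have a3 : n < (C + 1 + 2 ^ (8 * s.γ t + 6) + 4) * (s.p t) ^ 8 + 2 ^ 22 * (s.p t) ^ 8 := by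
        omega
      have hγt := hKγ t
      have a4 : C + 1 + 2 ^ (8 * s.γ t + 6) + 4 + 2 ^ 22 ≤ 2 ^ (8 * s.γ t + 8) := by
        have e1 : 2 ^ (8 * s.γ t + 8) = 2 ^ (8 * s.γ t + 6) + 2 ^ (8 * s.γ t + 6) +
            (2 ^ (8 * s.γ t + 6) + 2 ^ (8 * s.γ t + 6)) := by ring
        have e2 : 2 ^ 22 ≤ 2 ^ (8 * s.γ t + 6) := Nat.pow_le_pow_right (by norm_num) (by omega)
        have e3 : 8 * s.γ t + 6 < 2 ^ (8 * s.γ t + 6) := Nat.lt_two_pow_self
        omega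
      have a5 : (C + 1 + 2 ^ (8 * s.γ t + 6) + 4) * (s.p t) ^ 8 + 2 ^ 22 * (s.p t) ^ 8 ≤
          2 ^ (8 * s.κ t + 8 * s.γ t + 16) := by
        calc (C + 1 + 2 ^ (8 * s.γ t + 6) + 4) * (s.p t) ^ 8 + 2 ^ 22 * (s.p t) ^ 8
            = (C + 1 + 2 ^ (8 * s.γ t + 6) + 4 + 2 ^ 22) * (s.p t) ^ 8 := by ring
          _ ≤ 2 ^ (8 * s.γ t + 8) * 2 ^ (8 * s.κ t + 8) := Nat.mul_le_mul a4 (p8_hi s t)
          _ = 2 ^ (8 * s.κ t + 8 * s.γ t + 16) := by rw [← pow_add]; congr 1; ring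
      omega
    have h3 : (Wf t ∩ refl n ((range t).biUnion Wf)).card ≤
        (((s.W2 t).S (ω t).2) ∩ refl n ((range t).biUnion Wf)).card := by
      refine card_le_card ?_
      intro v hv
      rw [mem_inter] at hv
      rcases mem_union.1 hv.1 with hv1 | hv1
      · exfalso
        have : v ∈ ((s.W1 t).S (ω t).1) ∩ refl n ((range t).biUnion Wf) :=
          mem_inter.2 ⟨hv1, hv.2⟩
        rw [hzero] at this
        exact notMem_empty _ this
      · exact mem_inter.2 ⟨hv1, hv.2⟩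
    have h4 := (hω t n).2
    have h5 : (rA (bigA Wf) n : ℝ) ≤ ((4 * (2 * C * C) ^ 4 * R : ℕ) : ℝ) +
        2 * ((((s.W2 t).S (ω t).2) ∩ refl n ((range t).biUnion Wf)).card : ℝ) := by
      have : rA (bigA Wf) n ≤ 4 * (2 * C * C) ^ 4 * R +
          2 * (((s.W2 t).S (ω t).2) ∩ refl n ((range t).biUnion Wf)).card :=
        h1.trans (Nat.add_le_add h2 (Nat.mul_le_mul_left _ h3))
      exact_mod_cast this
    have hR0 : (0 : ℝ) ≤ R := Nat.cast_nonneg _
    have hq0 : (0 : ℝ) ≤ (s.κ t : ℝ) / s.γ t := by positivity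
    have hCC : (0 : ℝ) ≤ (2 * (C : ℝ) * C) ^ 4 := by positivity
    calc (rA (bigA Wf) n : ℝ) ≤ ((4 * (2 * C * C) ^ 4 * R : ℕ) : ℝ) +
          2 * (C3 * s.κ t / s.γ t) := h5.trans (by
            have := mul_le_mul_of_nonneg_left h4 (show (0 : ℝ) ≤ 2 by norm_num)
            linarith)
      _ = 4 * (2 * (C : ℝ) * C) ^ 4 * R + 2 * C3 * (s.κ t / s.γ t) := by push_cast; ring
      _ ≤ (8 * (2 * (C : ℝ) * C) ^ 4 + 8 * C3) * (R + s.κ t / s.γ t) := by
          nlinarith [mul_nonneg hCC hR0, mul_nonneg hC3 hq0, mul_nonneg hCC hq0,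
            mul_nonneg hC3 hR0]
      _ = ((8 * (2 * C * C) ^ 4 + 8 * C3 : ℕ) : ℝ) * (R + s.κ t / s.γ t) := by push_cast; ring
  · -- all numbers
    intro t n R hn1 hn2 hR hR'
    have hI : ∀ i j a b, j ≤ i → a ∈ Wf i → b ∈ Wf j → a + b = n →
        i ∈ ({t, t - 1} : Finset ℕ) := by
      intro i j a b hij ha hb hab
      obtain ⟨h1, h2⟩ := class_pos s ω hij ha hb hab
      rw [mem_insert, mem_singleton]
      rcases lt_or_ge i t with hlt | hge
      · right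
        by_contra hne
        have e0 : i + 1 < t := by omega
        have e1 := hmon _ _ e0
        have e3 : 2 ^ (8 * s.κ (i + 1) + 23) ≤ 2 ^ (8 * s.κ t) :=
          Nat.pow_le_pow_right (by norm_num) (by omega)
        omega
      · left
        by_contra hne
        have e0 : t + 1 ≤ i := by omega
        have e1 := s.κmono e0
        have e3 : 2 ^ (8 * s.κ (t + 1)) ≤ 2 ^ (8 * s.κ i) :=
          Nat.pow_le_pow_right (by norm_num) (by omega)
        omega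
    have hcls : ∀ i, CBd s i n R → ((repF (Wf i) (Wf i) n +
        2 * (Wf i ∩ refl n ((range i).biUnion Wf)).card : ℕ) : ℝ) ≤
        4 * (2 * (C : ℝ) * C) ^ 4 * R + 2 * (C3 * s.κ i / γz i + C3 * s.κ i / s.γ i) := by
      intro i hRi
      have h2 := class_rep s i n R hRi (ω i)
      have h3 : (Wf i ∩ refl n ((range i).biUnion Wf)).card ≤
          (((s.W1 i).S (ω i).1) ∩ refl n ((range i).biUnion Wf)).card +
          (((s.W2 i).S (ω i).2) ∩ refl n ((range i).biUnion Wf)).card := by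
        have e : Wf i = (s.W1 i).S (ω i).1 ∪ (s.W2 i).S (ω i).2 := rfl
        rw [e, Finset.union_inter_distrib_right]
        exact card_union_le _ _
      obtain ⟨h4, h5⟩ := hω i n
      have h3' : ((Wf i ∩ refl n ((range i).biUnion Wf)).card : ℝ) ≤
          ((((s.W1 i).S (ω i).1) ∩ refl n ((range i).biUnion Wf)).card : ℝ) +
          ((((s.W2 i).S (ω i).2) ∩ refl n ((range i).biUnion Wf)).card : ℝ) := by
        exact_mod_cast h3
      have h2' : (repF (Wf i) (Wf i) n : ℝ) ≤ 4 * (2 * (C : ℝ) * C) ^ 4 * R := by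
        have : ((4 * (2 * C * C) ^ 4 * R : ℕ) : ℝ) = 4 * (2 * (C : ℝ) * C) ^ 4 * R := by
          push_cast
          ring
        rw [← this]
        exact_mod_cast h2
      push_cast
      linarith
    have h1 := two_count Wf n {t, t - 1} hI
    have hsum : ((∑ i ∈ ({t, t - 1} : Finset ℕ), (repF (Wf i) (Wf i) n +
        2 * (Wf i ∩ refl n ((range i).biUnion Wf)).card) : ℕ) : ℝ) ≤
        (4 * (2 * (C : ℝ) * C) ^ 4 * R + 2 * (C3 * s.κ t / γz t + C3 * s.κ t / s.γ t)) +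
        (4 * (2 * (C : ℝ) * C) ^ 4 * R + 2 * (C3 * s.κ (t - 1) / γz (t - 1) +
          C3 * s.κ (t - 1) / s.γ (t - 1))) := by
      have e1 := hcls t hR
      have e2 := hcls (t - 1) hR'
      by_cases h : t = t - 1
      · rw [← h, Finset.pair_eq_singleton, sum_singleton]
        refine e1.trans ?_
        have : (0 : ℝ) ≤ 4 * (2 * (C : ℝ) * C) ^ 4 * R + 2 * (C3 * s.κ t / γz t +
          C3 * s.κ t / s.γ t) := by positivity
        linarith
      · rw [sum_pair h, Nat.cast_add]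
        exact add_le_add e1 e2
    have h5 : (rA (bigA Wf) n : ℝ) ≤ ((∑ i ∈ ({t, t - 1} : Finset ℕ), (repF (Wf i) (Wf i) n +
        2 * (Wf i ∩ refl n ((range i).biUnion Wf)).card) : ℕ) : ℝ) := by exact_mod_cast h1
    have hcmp : ∀ i, (C3 : ℝ) * s.κ i / s.γ i ≤ C3 * s.κ i / γz i := by
      intro i
      have e1 : (0 : ℝ) < γz i := by exact_mod_cast hγz1 i
      have e2 : (γz i : ℝ) ≤ s.γ i := by exact_mod_cast hγzγ i
      exact div_le_div_of_nonneg_left (by positivity) e1 e2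
    have hR0 : (0 : ℝ) ≤ R := Nat.cast_nonneg _
    have hq1 : (0 : ℝ) ≤ (s.κ t : ℝ) / γz t := by positivity
    have hq2 : (0 : ℝ) ≤ (s.κ (t - 1) : ℝ) / γz (t - 1) := by positivity
    have hCC : (0 : ℝ) ≤ (2 * (C : ℝ) * C) ^ 4 := by positivity
    calc (rA (bigA Wf) n : ℝ) ≤
        (4 * (2 * (C : ℝ) * C) ^ 4 * R + 2 * (C3 * s.κ t / γz t + C3 * s.κ t / s.γ t)) +
        (4 * (2 * (C : ℝ) * C) ^ 4 * R + 2 * (C3 * s.κ (t - 1) / γz (t - 1) +
          C3 * s.κ (t - 1) / s.γ (t - 1))) := h5.trans hsum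
      _ ≤ (4 * (2 * (C : ℝ) * C) ^ 4 * R + 2 * (C3 * s.κ t / γz t + C3 * s.κ t / γz t)) +
        (4 * (2 * (C : ℝ) * C) ^ 4 * R + 2 * (C3 * s.κ (t - 1) / γz (t - 1) +
          C3 * s.κ (t - 1) / γz (t - 1))) := by
          have e1 := hcmp t
          have e2 := hcmp (t - 1)
          linarith
      _ = 8 * (2 * (C : ℝ) * C) ^ 4 * R + 4 * C3 * (s.κ t / γz t) +
          4 * C3 * (s.κ (t - 1) / γz (t - 1)) := by ring
      _ ≤ (8 * (2 * (C : ℝ) * C) ^ 4 + 8 * C3) * (R + s.κ t / γz t +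
          s.κ (t - 1) / γz (t - 1)) := by
          nlinarith [mul_nonneg hCC hR0, mul_nonneg hC3 hq1, mul_nonneg hCC hq1,
            mul_nonneg hC3 hR0, mul_nonneg hC3 hq2, mul_nonneg hCC hq2]
      _ = ((8 * (2 * C * C) ^ 4 + 8 * C3 : ℕ) : ℝ) * (R + s.κ t / γz t +
          s.κ (t - 1) / γz (t - 1)) := by push_cast; ring
  · -- covering
    intro n hn
    have hex : ∃ t, n < 14 * (s.p t) ^ 8 := by
      refine ⟨n, ?_⟩
      have h1 := p8_lo s n
      have h2 := s.idx n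
      have h3 : 2 ^ n ≤ 2 ^ (8 * s.κ n) := Nat.pow_le_pow_right (by norm_num) (by omega)
      have h4 : n < 2 ^ n := Nat.lt_two_pow_self
      omega
    classical
    obtain ⟨t0, ht0, hmin⟩ : ∃ t, n < 14 * (s.p t) ^ 8 ∧ ∀ i < t, ¬ n < 14 * (s.p i) ^ 8 :=
      ⟨Nat.find hex, Nat.find_spec hex, fun i hi => Nat.find_min hex hi⟩
    have hm0 : t0 ≠ 0 := by
      rintro rfl
      omega
    obtain ⟨t, rfl⟩ := Nat.exists_eq_succ_of_ne_zero hm0
    have hnt : 14 * (s.p t) ^ 8 ≤ n := not_lt.1 (hmin t (Nat.lt_succ_self t))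
    have e5 : t.succ = t + 1 := rfl
    rw [e5] at ht0
    have htop : n < (s.p t) ^ 8 * 2 ^ s.u t := by
      have h1 := p8_hi s (t + 1)
      have h2 := p8_lo s t
      have h3 := s.touch t
      have h4 : 14 * 2 ^ (8 * s.κ (t + 1) + 8) ≤ (s.p t) ^ 8 * 2 ^ s.u t := by
        calc 14 * 2 ^ (8 * s.κ (t + 1) + 8) ≤ 2 ^ 4 * 2 ^ (8 * s.κ (t + 1) + 8) :=
              Nat.mul_le_mul_right _ (by norm_num)
          _ = 2 ^ (8 * s.κ t + s.u t) := by rw [← pow_add]; congr 1; omega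
          _ = 2 ^ (8 * s.κ t) * 2 ^ s.u t := pow_add _ _ _
          _ ≤ (s.p t) ^ 8 * 2 ^ s.u t := Nat.mul_le_mul_right _ h2
      omega
    rcases lt_or_ge n ((s.p t) ^ 8 * 2 ^ (8 * s.γ t + 6)) with hlt | hge
    · -- the zone
      obtain ⟨t1, ht1⟩ := s.S1 t (ω t).1
      have hcov := blk_cov (s.prime t).pos one_pos (by have := s.Cp t; omega) (s.base t)
        (x := 0) (y := 2 ^ (8 * s.γ t + 6)) (B := s.Z t) (fun N _ hN => hZc t N hN)
      obtain ⟨a, ha, b, hb, hab⟩ := hcov t1 t1 n (by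
        rw [mul_comm]
        exact hnt) hlt
      rw [← ht1] at ha hb
      exact ⟨a, ⟨t, mem_union_left _ ha⟩, b, ⟨t, mem_union_left _ hb⟩, hab⟩
    · -- the main part
      obtain ⟨t2, ht2⟩ := s.S2 t (ω t).2
      have hcov := blk_cov (s.prime t).pos (s.Hpos t) (by have := s.Cp t; omega) (s.base t)
        (x := 2 * s.H t) (y := 2 ^ s.u t) (B := s.M t) (fun N h1 h2 => hMc t N h1 h2)
      obtain ⟨a, ha, b, hb, hab⟩ := hcov t2 t2 n (by
        refine le_trans (Nat.mul_le_mul_left _ ?_) hge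
        have e1 : 2 ^ (8 * s.γ t + 6) = 64 * s.H t := by
          unfold TSys.H
          rw [pow_add]
          ring
        have e2 := s.Hpos t
        omega) htop
      rw [← ht2] at ha hb
      exact ⟨a, ⟨t, mem_union_right _ ha⟩, b, ⟨t, mem_union_right _ hb⟩, hab⟩

end Pool.Agent.H708.ET
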