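import Pool.Agent.H708.ET.Top
import Pool.Graph.R_pool_sql_team_seeded_620a6dc7.Helper667_AS.Wide

/-!
# Covering, representations and range of the blocks `blk`
-/

set_option autoImplicit false

namespace Pool.Agent.H708.ET

open Finset Pool.Agent.H125R2.ET Pool.Agent.Helper667_AS

/-! ### covering -/

theorem topH_cov {P H : ℕ} (hP : 0 < P) {hH : 0 < H} {D B : Finset ℕ}
    (hD : ∀ n, 6 * P ≤ n → n < 7 * P → ∃ a ∈ D, ∃ b ∈ D, a + b = n) {x y : ℕ}
    (hB : ∀ n, x ≤ n → n < y → ∃ b ∈ B, ∃ b' ∈ B, b + b' = n) :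
    Cov (topH P H hH D B) (P * (x + 2 * H + 7)) (P * y) := by
  intro t t' n hn hn'
  have hmod : n % P < P := Nat.mod_lt _ hP
  obtain ⟨a0, ha0, b0, hb0, hab⟩ := hD (6 * P + n % P) (by omega) (by omega)
  have h1 : x + 2 * H + 7 ≤ n / P := (Nat.le_div_iff_mul_le hP).2 (by rw [mul_comm]; exact hn)
  have h2 : n / P < y := Nat.div_lt_of_lt_mul hn'
  have ht : (t ⟨a0, ha0⟩).1 < H := (t ⟨a0, ha0⟩).2
  have ht' : (t' ⟨b0, hb0⟩).1 < H := (t' ⟨b0, hb0⟩).2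
  obtain ⟨s, hs, s', hs', hss⟩ := hB
    (n / P - 6 - (t ⟨a0, ha0⟩).1 - (t' ⟨b0, hb0⟩).1) (by omega) (by omega)
  refine ⟨a0 + P * ((t ⟨a0, ha0⟩).1 + s), ?_, b0 + P * ((t' ⟨b0, hb0⟩).1 + s'), ?_, ?_⟩
  · exact mem_topH_S.2 ⟨⟨a0, ha0⟩, s, hs, rfl⟩
  · exact mem_topH_S.2 ⟨⟨b0, hb0⟩, s', hs', rfl⟩
  · have h3 : a0 + P * ((t ⟨a0, ha0⟩).1 + s) + (b0 + P * ((t' ⟨b0, hb0⟩).1 + s')) =
        (a0 + b0) + P * ((t ⟨a0, ha0⟩).1 + (t' ⟨b0, hb0⟩).1 + (s + s')) := by ring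
    have h4 : (t ⟨a0, ha0⟩).1 + (t' ⟨b0, hb0⟩).1 + (s + s') = n / P - 6 := by
      rw [hss]
      omega
    rw [h3, h4, hab, Nat.mul_sub]
    have h5 := Nat.mod_add_div n P
    have h6 : P * 6 ≤ P * (n / P) := Nat.mul_le_mul_left _ (by omega)
    omega

theorem blk_cov {C p H : ℕ} (hp : 0 < p) (hH : 0 < H) (h7 : 7 < p) {D B : Finset ℕ}
    (hD : IsBase C p D) {x y : ℕ}
    (hB : ∀ n, x ≤ n → n < y → ∃ b ∈ B, ∃ b' ∈ B, b + b' = n) :
    Cov (blk p H hp hH D B) (p ^ 8 * (x + 2 * H + 12)) (p ^ 8 * y) := by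
  have hP := pow_pos hp 2
  obtain ⟨P, hPe⟩ : ∃ P, P = p ^ 2 := ⟨_, rfl⟩
  have hP64 : 64 ≤ P := by
    rw [hPe]
    calc 64 = 8 ^ 2 := by norm_num
      _ ≤ p ^ 2 := Nat.pow_le_pow_left (by omega) 2
  have hc : ∀ n, 6 * p ^ 2 ≤ n → n < 7 * p ^ 2 → ∃ a ∈ D, ∃ b ∈ D, a + b = n :=
    fun n h1 h2 => hD.cover n h1 (by omega)
  have h0 := topH_cov (H := H) (hH := hH) hP hc hB
  have h1 := Cov_mono_T5 (a' := P ^ 2 * (x + 2 * H + 10)) (Cov_step_T5 hP hc h0) (by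
    rw [← hPe]
    have h7P : 7 * P ≤ P ^ 2 := by nlinarith
    calc P * (P * (x + 2 * H + 7) + 2 * P + 7) = P ^ 2 * (x + 2 * H + 9) + 7 * P := by ring
      _ ≤ P ^ 2 * (x + 2 * H + 9) + P ^ 2 := by omega
      _ = P ^ 2 * (x + 2 * H + 10) := by ring)
  have h2 := Cov_mono_T5 (a' := P ^ 3 * (x + 2 * H + 11)) (Cov_step_T5 hP hc h1) (by
    rw [← hPe]
    have h5 : 2 * P + 7 ≤ P ^ 2 := by nlinarith
    calc P * (P ^ 2 * (x + 2 * H + 10) + 2 * P + 7) ≤ P * (P ^ 2 * (x + 2 * H + 10) + P ^ 2) :=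
          Nat.mul_le_mul_left _ (by omega)
      _ = P ^ 3 * (x + 2 * H + 11) := by ring)
  have h3 := Cov_mono_T5 (a' := P ^ 4 * (x + 2 * H + 12)) (Cov_step_T5 hP hc h2) (by
    rw [← hPe]
    have h5 : 2 * P + 7 ≤ P ^ 2 := by nlinarith
    have h6 : P ^ 2 ≤ P ^ 3 := Nat.pow_le_pow_right (by omega) (by norm_num)
    calc P * (P ^ 3 * (x + 2 * H + 11) + 2 * P + 7) ≤ P * (P ^ 3 * (x + 2 * H + 11) + P ^ 3) :=
          Nat.mul_le_mul_left _ (by omega)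
      _ = P ^ 4 * (x + 2 * H + 12) := by ring)
  have e1 : p ^ 8 * (x + 2 * H + 12) = P ^ 4 * (x + 2 * H + 12) := by rw [hPe]; ring
  have e2 : p ^ 8 * y = p ^ 2 * (p ^ 2 * (p ^ 2 * (p ^ 2 * y))) := by ring
  rw [e1, e2]
  exact h3

/-! ### representations -/

/-- `N`-th representation count of two digit sets with different tails -/
theorem digit_rep {C p : ℕ} (hp : 0 < p) {D : Finset ℕ} (hD : IsBase C p D) (f g : D → ℕ)
    (F G : D → Finset ℕ) (n R σ : ℕ) (hfg : ∀ a b, f a + g b ≤ σ)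
    (h : ∀ a b N, n / p ^ 2 - (2 * C + σ) ≤ N → N ≤ n / p ^ 2 → repF (F a) (G b) N ≤ R) :
    repF (Finset.univ.biUnion (fun a : D => (F a).image (fun s => a.1 + p ^ 2 * (f a + s))))
      (Finset.univ.biUnion (fun a : D => (G a).image (fun s => a.1 + p ^ 2 * (g a + s)))) n ≤
      2 * C * C * R := by
  classical
  set P := p ^ 2 with hPdef
  have hP : 0 < P := pow_pos hp 2
  let Q : Finset (D × D) := univ.filter (fun x => (x.1.1 + x.2.1) % P = n % P)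
  let N : D × D → ℕ := fun x => (n - (x.1.1 + x.2.1)) / P - (f x.1 + g x.2)
  let W : D × D → Finset (ℕ × ℕ) := fun x =>
    ((F x.1 ×ˢ G x.2).filter (fun y => y.1 + y.2 = N x)).image
      (fun y => (x.1.1 + P * (f x.1 + y.1), x.2.1 + P * (g x.2 + y.2)))
  have h1 : (((Finset.univ.biUnion (fun a : D => (F a).image (fun s => a.1 + P * (f a + s)))) ×ˢ
      (Finset.univ.biUnion (fun a : D => (G a).image (fun s => a.1 + P * (g a + s))))).filter
        (fun x => x.1 + x.2 = n)) ⊆ Q.biUnion W := by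
    rintro ⟨u, u'⟩ h
    rw [mem_filter, mem_product, mem_biUnion, mem_biUnion] at h
    obtain ⟨⟨⟨a, -, hu⟩, ⟨b, -, hu'⟩⟩, hn⟩ := h
    rw [mem_image] at hu hu'
    obtain ⟨s, hs, hu⟩ := hu
    obtain ⟨s', hs', hu'⟩ := hu'
    simp only at hu hu' hn
    have hsum : n = (a.1 + b.1) + P * (f a + g b + (s + s')) := by
      rw [← hn, ← hu, ← hu']
      ring
    rw [mem_biUnion]
    refine ⟨(a, b), ?_, ?_⟩
    · simp only [Q, mem_filter, mem_univ, true_and]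
      rw [hsum, Nat.add_mul_mod_self_left]
    · simp only [W, mem_image, mem_filter, mem_product]
      refine ⟨(s, s'), ⟨⟨hs, hs'⟩, ?_⟩, ?_⟩
      · simp only [N]
        rw [hsum, Nat.add_sub_cancel_left, Nat.mul_div_cancel_left _ hP]
        omega
      · rw [hu, hu']
  have h2 : Q.card ≤ 2 * C * C := by
    have h3 : Q.image (fun x => (x.1.1, x.2.1)) ⊆ (range (2 * C)).biUnion
        (fun j => (D ×ˢ D).filter (fun x => x.1 + x.2 = n % P + P * j)) := by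
      rintro ⟨a, b⟩ h
      rw [mem_image] at h
      obtain ⟨⟨a', b'⟩, h4, h5⟩ := h
      simp only [Q, mem_filter, mem_univ, true_and] at h4
      simp only [Prod.mk.injEq] at h5
      have ha : a ∈ D := h5.1 ▸ a'.2
      have hb : b ∈ D := h5.2 ▸ b'.2
      rw [h5.1, h5.2] at h4
      rw [mem_biUnion]
      refine ⟨(a + b) / P, ?_, ?_⟩
      · rw [mem_range]
        have h6 := hD.hi a ha
        have h7 := hD.hi b hb
        rw [Nat.div_lt_iff_lt_mul hP]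
        nlinarith
      · rw [mem_filter, mem_product]
        refine ⟨⟨ha, hb⟩, ?_⟩
        simp only
        rw [← h4]
        exact (Nat.mod_add_div (a + b) P).symm
    have h8 : (Q.image (fun x => (x.1.1, x.2.1))).card = Q.card := by
      apply card_image_of_injective
      rintro ⟨a, b⟩ ⟨a', b'⟩ h
      simp only [Prod.mk.injEq] at h
      exact Prod.ext (Subtype.ext h.1) (Subtype.ext h.2)
    rw [← h8]
    refine (card_le_card h3).trans (card_biUnion_le.trans ?_)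
    refine (sum_le_sum (fun j _ => hD.rep (n % P + P * j))).trans ?_
    rw [sum_const, card_range, smul_eq_mul]
  have h9 : ∀ x ∈ Q, (W x).card ≤ R := by
    intro x _
    refine card_image_le.trans (h x.1 x.2 (N x) ?_ ?_)
    · have e1 : x.1.1 < C * P := hD.hi x.1.1 x.1.2
      have e2 : x.2.1 < C * P := hD.hi x.2.1 x.2.2
      have e3 : n / P - 2 * C ≤ (n - (x.1.1 + x.2.1)) / P := by
        have e4 : n - P * (2 * C) ≤ n - (x.1.1 + x.2.1) := by
          have : P * (2 * C) = C * P + C * P := by ring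
          omega
        have e5 : (n - P * (2 * C)) / P = n / P - 2 * C := Nat.sub_mul_div _ _ _
        rw [← e5]
        exact Nat.div_le_div_right e4
      have e6 := hfg x.1 x.2
      show n / P - (2 * C + σ) ≤ (n - (x.1.1 + x.2.1)) / P - (f x.1 + g x.2)
      omega
    · have e3 : (n - (x.1.1 + x.2.1)) / P ≤ n / P := Nat.div_le_div_right (Nat.sub_le _ _)
      exact (Nat.sub_le _ _).trans e3
  calc repF _ _ n ≤ (Q.biUnion W).card := card_le_card h1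
    _ ≤ ∑ x ∈ Q, (W x).card := card_biUnion_le
    _ ≤ ∑ x ∈ Q, R := sum_le_sum h9
    _ = Q.card * R := by rw [sum_const, smul_eq_mul]
    _ ≤ 2 * C * C * R := Nat.mul_le_mul_right R h2

/-- the representations by two blocks (of the same prime) with different tops -/
theorem blk_rep {C p H H' : ℕ} (hp : 0 < p) (hH : 0 < H) (hH' : 0 < H') (h7 : 7 < p)
    (hCp : 2 * C ≤ p) {D : Finset ℕ} (hD : IsBase C p D) (B B' : Finset ℕ) (R n : ℕ)
    (h : ∀ N, n / p ^ 8 - (2 * C + (H + H') + 4) ≤ N → N ≤ n / p ^ 8 → repF B B' N ≤ R)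
    (t : (blk p H hp hH D B).Ω) (t' : (blk p H' hp hH' D B').Ω) :
    repF ((blk p H hp hH D B).S t) ((blk p H' hp hH' D B').S t') n ≤
      (2 * C * C) ^ 4 * R := by
  obtain ⟨P, hPe⟩ : ∃ P, P = p ^ 2 := ⟨_, rfl⟩
  have hPp : p ≤ P := by rw [hPe]; nlinarith
  have hP : 0 < P := by omega
  have hp8 : p ^ 8 = P * P * P * P := by rw [hPe]; ring
  -- one level
  have lev : ∀ x n : ℕ, x / P - (2 * C + (P + P)) ≤ n → x / P / P ≤ n / P + 3 := by
    intro x n hx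
    have e1 : x / P ≤ n + 3 * P := by omega
    calc x / P / P ≤ (n + 3 * P) / P := Nat.div_le_div_right e1
      _ = n / P + 3 := Nat.add_mul_div_right _ _ hP
  have lev' : ∀ x n a : ℕ, a ≤ 4 → x ≤ n + 3 * P + a → x / P ≤ n / P + 4 := by
    intro x n a ha hx
    have e1 : x ≤ n + 4 * P := by omega
    calc x / P ≤ (n + 4 * P) / P := Nat.div_le_div_right e1
      _ = n / P + 4 := Nat.add_mul_div_right _ _ hP
  have e4 : (2 * C * C) ^ 4 * R = 2 * C * C * (2 * C * C * (2 * C * C * (2 * C * C * R))) := by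
    ring
  rw [e4]
  refine digit_rep hp hD (fun a => (t a).1.1) (fun a => (t' a).1.1) (fun a => _) (fun a => _) n _
    (P + P) (fun a b => ?_) (fun a1 b1 N1 hN1 hN1' => ?_)
  · have h1 := (t a).1.2
    have h2 := (t' b).1.2
    rw [hPe]
    exact Nat.add_le_add h1.le h2.le
  refine digit_rep hp hD (fun a => ((t a1).2 a).1.1) (fun a => ((t' b1).2 a).1.1) (fun a => _)
    (fun a => _) N1 _ (P + P) (fun a b => ?_) (fun a2 b2 N2 hN2 hN2' => ?_)
  · have h1 := ((t a1).2 a).1.2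
    have h2 := ((t' b1).2 b).1.2
    rw [hPe]
    exact Nat.add_le_add h1.le h2.le
  refine digit_rep hp hD (fun a => (((t a1).2 a2).2 a).1.1) (fun a => (((t' b1).2 b2).2 a).1.1)
    (fun a => _) (fun a => _) N2 _ (P + P) (fun a b => ?_) (fun a3 b3 N3 hN3 hN3' => ?_)
  · have h1 := (((t a1).2 a2).2 a).1.2
    have h2 := (((t' b1).2 b2).2 b).1.2
    rw [hPe]
    exact Nat.add_le_add h1.le h2.le
  refine digit_rep hp hD (fun a => ((((t a1).2 a2).2 a3).2 a).1)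
    (fun a => ((((t' b1).2 b2).2 b3).2 a).1)
    (fun a => B) (fun a => B') N3 _ (H + H') (fun a b => ?_) (fun a4 b4 N4 hN4 hN4' => ?_)
  · have h1 := ((((t a1).2 a2).2 a3).2 a).2
    have h2 := ((((t' b1).2 b2).2 b3).2 b).2
    exact Nat.add_le_add h1.le h2.le
  rw [← hPe] at hN1 hN1' hN2 hN2' hN3 hN3' hN4 hN4'
  have q2 : n / P / P / P / P = n / p ^ 8 := by
    rw [Nat.div_div_eq_div_mul, Nat.div_div_eq_div_mul, Nat.div_div_eq_div_mul, hp8]
    congr 1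
    ring
  refine h N4 ?_ ?_
  · have f1 := lev n N1 hN1
    have f2 : n / P / P ≤ N2 + 3 * P + 3 := by omega
    have f3 := lev' _ _ _ (by norm_num) f2
    have f4 : n / P / P / P ≤ N3 + 3 * P + 4 := by omega
    have f5 := lev' _ _ _ le_rfl f4
    rw [q2] at f5
    omega
  · have f1 : N2 ≤ n / P / P := hN2'.trans (Nat.div_le_div_right hN1')
    have f2 : N3 ≤ n / P / P / P := hN3'.trans (Nat.div_le_div_right f1)
    have f3 : N4 ≤ n / P / P / P / P := hN4'.trans (Nat.div_le_div_right f2)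
    rw [q2] at f3
    exact f3

/-! ### range -/

theorem range_step {P : ℕ} (hP : 0 < P) {D : Finset ℕ} {X : RFS} {A L U V : ℕ}
    (hA : ∀ a ∈ D, a < A)
    (hV : ∀ a τ s : ℕ, a < A → τ < P → s < U → a + P * (τ + s) < V)
    (hX : ∀ t, ∀ s ∈ X.S t, L ≤ s ∧ s < U) :
    ∀ t : (step P hP D X).Ω, ∀ s ∈ (step P hP D X).S t, P * L ≤ s ∧ s < V := by
  intro t s hs
  rw [mem_step_S] at hs
  obtain ⟨a, s', hs', rfl⟩ := hs
  obtain ⟨h1, h2⟩ := hX (t a).2 s' hs'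
  constructor
  · calc P * L ≤ P * s' := Nat.mul_le_mul_left _ h1
      _ ≤ P * ((t a).1.1 + s') := Nat.mul_le_mul_left _ (Nat.le_add_left _ _)
      _ ≤ _ := Nat.le_add_left _ _
  · exact hV _ _ _ (hA _ a.2) (t a).1.2 h2

theorem blk_range {C p H U : ℕ} (hp : 0 < p) (hH : 0 < H) (h7 : 7 < p) (hCp : C ≤ p)
    {D B : Finset ℕ} (hD : IsBase C p D) (hB : ∀ b ∈ B, b < U) :
    ∀ t : (blk p H hp hH D B).Ω, ∀ s ∈ (blk p H hp hH D B).S t,
      p ^ 8 ≤ s ∧ s < (C + H + U + 4) * p ^ 8 := by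
  obtain ⟨P, hPdef⟩ : ∃ P, P = p ^ 2 := ⟨_, rfl⟩
  have hP : 0 < P := by rw [hPdef]; exact pow_pos hp 2
  have hPp : p ≤ P := by rw [hPdef]; nlinarith
  have hP2 : 49 < P := by rw [hPdef]; nlinarith
  have hCP : C ≤ P := hCp.trans hPp
  have hhi : ∀ a ∈ D, a < C * P := by rw [hPdef]; exact hD.hi
  have hlo : ∀ a ∈ D, P ≤ a := by rw [hPdef]; exact hD.lo
  obtain ⟨W, hW⟩ : ∃ W, W = C + H + U := ⟨_, rfl⟩
  have h0 : ∀ t : (topH (p ^ 2) H hH D B).Ω, ∀ s ∈ (topH (p ^ 2) H hH D B).S t,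
      P ≤ s ∧ s < W * P := by
    intro t s hs
    rw [mem_topH_S] at hs
    obtain ⟨a, b, hb, rfl⟩ := hs
    have e1 := (t a).2
    have e2 := hB b hb
    have e3 := hhi a.1 a.2
    have e4 := hlo a.1 a.2
    rw [← hPdef]
    refine ⟨by omega, ?_⟩
    have e5 : P * ((t a).1 + b) ≤ P * (H + U) := Nat.mul_le_mul_left _ (by omega)
    calc a.1 + P * ((t a).1 + b) < C * P + P * (H + U) := by omega
      _ = W * P := by rw [hW]; ring
  have hP2' : 0 < p ^ 2 := pow_pos hp 2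
  rw [hPdef] at hhi h0
  have h1 := range_step (P := p ^ 2) hP2' (V := (W + 2) * (p ^ 2) ^ 2) hhi (by
      intro a τ s ha hτ hs
      rw [← hPdef] at ha hτ hs ⊢
      have e1 : τ + s + 2 ≤ P + W * P := by omega
      have e2 : P * (τ + s + 2) ≤ P * (P + W * P) := Nat.mul_le_mul_left _ e1
      have e3 : C * P ≤ P * P := Nat.mul_le_mul_right _ hCP
      nlinarith) h0
  have h2 := range_step (P := p ^ 2) hP2' (V := (W + 3) * (p ^ 2) ^ 3) hhi (by
      intro a τ s ha hτ hs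
      rw [← hPdef] at ha hτ hs ⊢
      have e1 : τ + s + 2 ≤ P + (W + 2) * P ^ 2 := by omega
      have e2 : P * (τ + s + 2) ≤ P * (P + (W + 2) * P ^ 2) := Nat.mul_le_mul_left _ e1
      have e3 : C * P ≤ P * P := Nat.mul_le_mul_right _ hCP
      have e4 : 2 * (P * P) ≤ P * (P * P) := Nat.mul_le_mul_right _ (by omega)
      nlinarith) h1
  have h3 := range_step (P := p ^ 2) hP2' (V := (W + 4) * (p ^ 2) ^ 4) hhi (by
      intro a τ s ha hτ hs
      rw [← hPdef] at ha hτ hs ⊢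
      have e1 : τ + s + 2 ≤ P + (W + 3) * P ^ 3 := by omega
      have e2 : P * (τ + s + 2) ≤ P * (P + (W + 3) * P ^ 3) := Nat.mul_le_mul_left _ e1
      have e3 : C * P ≤ P * P := Nat.mul_le_mul_right _ hCP
      have e4 : 2 * (P * P) ≤ P * (P * P) := Nat.mul_le_mul_right _ (by omega)
      have e5 : P * (P * P) ≤ P * (P * (P * P)) := Nat.le_mul_of_pos_left _ hP
      nlinarith) h2
  intro t s hs
  obtain ⟨h4, h5⟩ := h3 t s hs
  constructor
  · calc p ^ 8 = p ^ 2 * (p ^ 2 * (p ^ 2 * p ^ 2)) := by ring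
      _ ≤ s := h4
  · calc s < (W + 4) * (p ^ 2) ^ 4 := h5
      _ = (C + H + U + 4) * p ^ 8 := by rw [hW]; ring

/-! ### relation to the wide blocks -/

/-- the shifts of a block -/
def BT (p H : ℕ) (D : Finset ℕ) : Type :=
  D → Fin (p ^ 2) × (D → Fin (p ^ 2) × (D → Fin (p ^ 2) × (D → Fin H)))

/-- the shifts of a point -/
def toT {p H : ℕ} {hp : 0 < p} {hH : 0 < H} {D B : Finset ℕ} (t : (blk p H hp hH D B).Ω) :
    BT p H D := t

/-- the point with given shifts -/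
def ofT {p H : ℕ} (hp : 0 < p) (hH : 0 < H) (D B : Finset ℕ) (t : BT p H D) :
    (blk p H hp hH D B).Ω := t

theorem mem_blk_S {p H : ℕ} {hp : 0 < p} {hH : 0 < H} {D B : Finset ℕ}
    {t : BT p H D} {n : ℕ} :
    n ∈ (blk p H hp hH D B).S (ofT hp hH D B t) ↔ ∃ a1 a2 a3 a4 : D, ∃ b ∈ B,
      a1.1 + p ^ 2 * ((t a1).1.1 + (a2.1 + p ^ 2 * (((t a1).2 a2).1.1 +
        (a3.1 + p ^ 2 * ((((t a1).2 a2).2 a3).1.1 +
          (a4.1 + p ^ 2 * (((((t a1).2 a2).2 a3).2 a4).1 + b))))))) = n := by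
  have hP := pow_pos hp 2
  have l3 : ∀ (u : (topH (p ^ 2) H hH D B).Ω) (m : ℕ), m ∈ (topH (p ^ 2) H hH D B).S u ↔
      ∃ a : D, ∃ b ∈ B, a.1 + p ^ 2 * ((u a).1 + b) = m := fun u m => mem_topH_S
  have l2 : ∀ (u : (step (p ^ 2) hP D (topH (p ^ 2) H hH D B)).Ω) (m : ℕ),
      m ∈ (step (p ^ 2) hP D (topH (p ^ 2) H hH D B)).S u ↔
      ∃ a : D, ∃ s ∈ (topH (p ^ 2) H hH D B).S (u a).2, a.1 + p ^ 2 * ((u a).1.1 + s) = m :=
    fun u m => mem_step_S
  have l1 : ∀ (u : (step (p ^ 2) hP D (step (p ^ 2) hP D (topH (p ^ 2) H hH D B))).Ω) (m : ℕ),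
      m ∈ (step (p ^ 2) hP D (step (p ^ 2) hP D (topH (p ^ 2) H hH D B))).S u ↔
      ∃ a : D, ∃ s ∈ (step (p ^ 2) hP D (topH (p ^ 2) H hH D B)).S (u a).2,
        a.1 + p ^ 2 * ((u a).1.1 + s) = m :=
    fun u m => mem_step_S
  have l0 : ∀ (u : (blk p H hp hH D B).Ω) (m : ℕ),
      m ∈ (blk p H hp hH D B).S u ↔
      ∃ a : D, ∃ s ∈ (step (p ^ 2) hP D (step (p ^ 2) hP D (topH (p ^ 2) H hH D B))).S (u a).2,
        a.1 + p ^ 2 * ((u a).1.1 + s) = m :=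
    fun u m => mem_step_S
  constructor
  · intro h
    obtain ⟨a1, s1, h1, e1⟩ := (l0 t n).1 h
    obtain ⟨a2, s2, h2, e2⟩ := (l1 _ s1).1 h1
    obtain ⟨a3, s3, h3, e3⟩ := (l2 _ s2).1 h2
    obtain ⟨a4, b, hb, e4⟩ := (l3 _ s3).1 h3
    refine ⟨a1, a2, a3, a4, b, hb, ?_⟩
    rw [← e1, ← e2, ← e3, ← e4]
  · rintro ⟨a1, a2, a3, a4, b, hb, rfl⟩
    exact (l0 t _).2 ⟨a1, _, (l1 _ _).2 ⟨a2, _, (l2 _ _).2 ⟨a3, _,
      (l3 _ _).2 ⟨a4, b, hb, rfl⟩, rfl⟩, rfl⟩, rfl⟩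

theorem blk_eq_wd {p H : ℕ} (hp : 0 < p) (hH : 0 < H) (D B : Finset ℕ) (t : BT p H D) :
    (blk p H hp hH D B).S (ofT hp hH D B t) =
      wd (p ^ 8) B ((blk p H hp hH D {0}).S (ofT hp hH D {0} t)) := by
  ext n
  rw [mem_blk_S, mem_wd]
  constructor
  · rintro ⟨a1, a2, a3, a4, b, hb, rfl⟩
    refine ⟨b, hb, _, mem_blk_S.2 ⟨a1, a2, a3, a4, 0, mem_singleton_self 0, rfl⟩, ?_⟩
    ring
  · rintro ⟨b, hb, s, hs, rfl⟩
    obtain ⟨a1, a2, a3, a4, b', hb', rfl⟩ := mem_blk_S.1 hs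
    rw [mem_singleton] at hb'
    subst hb'
    refine ⟨a1, a2, a3, a4, b, hb, ?_⟩
    ring

/-- the block as a wide block -/
def wblk (p H : ℕ) (hp : 0 < p) (hH : 0 < H) (D B : Finset ℕ) : RFS :=
  wRFS (p ^ 8) B (blk p H hp hH D {0})

theorem wblk_S {p H : ℕ} (hp : 0 < p) (hH : 0 < H) (D B : Finset ℕ)
    (ω : (blk p H hp hH D {0}).Ω) :
    wd (p ^ 8) B ((blk p H hp hH D {0}).S ω) =
      (blk p H hp hH D B).S (ofT hp hH D B (toT ω)) :=
  (blk_eq_wd hp hH D B (toT ω)).symm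

theorem wblk_mom {p H : ℕ} (hp : 0 < p) (hH : 0 < H) (D B : Finset ℕ) (lam : ℝ) (V : Finset ℕ) :
    (wblk p H hp hH D B).mom lam V = (blk p H hp hH D B).mom lam V := by
  let e : (wblk p H hp hH D B).Ω ≃ (blk p H hp hH D B).Ω :=
    ⟨fun t => ofT hp hH D B (toT (hp := hp) (hH := hH) (B := {0}) t),
      fun t => ofT hp hH D {0} (toT t), fun _ => rfl, fun _ => rfl⟩
  unfold RFS.mom RFS.E
  rw [Fintype.card_congr e]
  congr 1
  refine Fintype.sum_equiv e _ _ (fun t => ?_)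
  have h : (wblk p H hp hH D B).S t = (blk p H hp hH D B).S (e t) := wblk_S hp hH D B t
  rw [h]

end Pool.Agent.H708.ET
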