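import Pool.Agent.H708.ET.MSucc

/-!
# The diagonal construction: one basis for all exponents
-/

set_option autoImplicit false

namespace Pool.Agent.H708.ET

open Finset Pool.Agent.H125R2.ET Pool.Agent.Helper667_AS

/-- integral roots -/
theorem iroot (k e : ℕ) (he : e ≠ 0) : ∃ x, x ^ e ≤ k ∧ k < (x + 1) ^ e := by
  classical
  have hex : ∃ x, k < (x + 1) ^ e := by
    refine ⟨k, ?_⟩
    have := Nat.le_self_pow he (k + 1)
    omega
  refine ⟨Nat.find hex, ?_, Nat.find_spec hex⟩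
  rcases Nat.eq_zero_or_pos (Nat.find hex) with h0 | h0
  · rw [h0, zero_pow he]
    exact Nat.zero_le _
  · have h1 := Nat.find_min hex (m := Nat.find hex - 1) (by omega)
    rw [not_lt, Nat.sub_add_cancel h0] at h1
    exact h1

/-- slowly growing exponents -/
theorem slow (F : ℕ → ℕ) : ∃ δ x : ℕ → ℕ, (∀ k, F 0 ^ 3 ≤ k → F (δ k) ≤ x k ∧
    x k ^ (δ k + 3) ≤ k ∧ k < (x k + 1) ^ (δ k + 3)) ∧ ∀ D, ∃ k1, ∀ k ≥ k1, D ≤ δ k := by
  classical
  obtain ⟨δ, hδ⟩ : ∃ δ : ℕ → ℕ, δ = fun k => Nat.findGreatest (fun D => F D ^ (D + 3) ≤ k) k :=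
    ⟨_, rfl⟩
  have h1 : ∀ k, ∃ x, x ^ (δ k + 3) ≤ k ∧ k < (x + 1) ^ (δ k + 3) := fun k =>
    iroot k _ (by omega)
  choose x hx using h1
  refine ⟨δ, x, fun k hk => ⟨?_, (hx k).1, (hx k).2⟩, fun D => ⟨D + F D ^ (D + 3), fun k hk => ?_⟩⟩
  · have h2 : F (δ k) ^ (δ k + 3) ≤ k := by
      rw [hδ]
      exact Nat.findGreatest_spec (P := fun D => F D ^ (D + 3) ≤ k) (m := 0) (Nat.zero_le k)
        (by simpa using hk)
    have h3 := lt_of_le_of_lt h2 (hx k).2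
    have h4 := (Nat.pow_lt_pow_iff_left (show δ k + 3 ≠ 0 by omega)).1 h3
    omega
  · rw [hδ]
    exact Nat.le_findGreatest (by omega) (by omega)

theorem diag : ∃ (A : Set ℕ) (c : ℕ), (∀ n, ∃ a ∈ A, ∃ b ∈ A, a + b = n) ∧
    (∀ n, rA A n * Nat.log 2 (Nat.log 2 n + 2) ≤ c * (Nat.log 2 n + 1)) ∧
    ∀ D, 1 ≤ D → ∃ c', ∀ K, (Sm A K) ^ D ≤ c' * K ^ (D + 3) := by
  obtain ⟨C, hC⟩ := base_exists
  obtain ⟨C7, K0, hmain⟩ := plan_set C hC
  choose B c hB using fun D => goodM_exists (D + 2) (by omega)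
  choose N1 hN1 using fun D => log_small (2 * ((D + 2) ^ 2 * (c D * 22) + (D + 2))) (D + 3)
  choose N2 hN2 using fun D => pow_le_two_pow (D + 3)
  obtain ⟨E, hE⟩ : ∃ E : ℕ → ℕ, E = fun D => C7 * ((D + 2) * 2 ^ (D + 3) +
    (D + 2) ^ 2 * (c D * 8 ^ (D + 4) + 1) + 2 ^ (D + 4)) + 2 ^ (D + 3) := ⟨_, rfl⟩
  obtain ⟨F, hF⟩ : ∃ F : ℕ → ℕ, F = fun D => N1 D + N2 D + 672 + 44 * c D + E D + K0 + C + 50 + D :=
    ⟨_, rfl⟩
  obtain ⟨δ, x, hx, hδ⟩ := slow F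
  obtain ⟨k0, hk0⟩ : ∃ k0, k0 = F 0 ^ 3 := ⟨_, rfl⟩
  rw [← hk0] at hx
  -- the sequence
  obtain ⟨κ, hκ0, hκs⟩ : ∃ κ : ℕ → ℕ, κ 0 = k0 ∧ ∀ i, κ (i + 1) = κ i +
      x (κ i) ^ (δ (κ i) + 2) :=
    ⟨fun i => Nat.rec k0 (fun _ k => k + x k ^ (δ k + 2)) i, rfl, fun _ => rfl⟩
  have hκk : ∀ i, k0 ≤ κ i := by
    intro i
    induction i with
    | zero => rw [hκ0]
    | succ i ih => rw [hκs]; omega
  have hFx : ∀ i, F (δ (κ i)) ≤ x (κ i) := fun i => (hx _ (hκk i)).1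
  have hlo : ∀ i, x (κ i) ^ (δ (κ i) + 3) ≤ κ i := fun i => (hx _ (hκk i)).2.1
  have hhi : ∀ i, κ i < (x (κ i) + 1) ^ (δ (κ i) + 3) := fun i => (hx _ (hκk i)).2.2
  have hx722 : ∀ i, 722 ≤ x (κ i) := by
    intro i
    have := hFx i
    rw [hF] at this
    simp only at this
    omega
  have hv1 : ∀ i, 1 ≤ x (κ i) ^ (δ (κ i) + 2) := fun i =>
    Nat.one_le_pow _ _ (by have := hx722 i; omega)
  have hv2 : ∀ i, x (κ i) ^ (δ (κ i) + 2) ≤ κ i := fun i =>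
    (Nat.pow_le_pow_right (by have := hx722 i; omega) (by omega)).trans (hlo i)
  have hκi : ∀ i, i ≤ κ i := by
    intro i
    induction i with
    | zero => exact Nat.zero_le _
    | succ i ih => have := hv1 i; rw [hκs]; omega
  have hup : ∀ i, κ i ≤ 2 ^ (δ (κ i) + 3) * x (κ i) ^ (δ (κ i) + 3) := by
    intro i
    refine (hhi i).le.trans ?_
    rw [← mul_pow]
    exact Nat.pow_le_pow_left (by have := hx722 i; omega) _
  have hlogM : ∀ i, ((δ (κ i) + 2) ^ 2 * (c (δ (κ i)) * 22) + (δ (κ i) + 2)) *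
      (Nat.log 2 (κ i) + 1) ≤ x (κ i) := by
    intro i
    obtain ⟨D, hD⟩ : ∃ D, D = δ (κ i) := ⟨_, rfl⟩
    obtain ⟨y, hy⟩ : ∃ y, y = x (κ i) := ⟨_, rfl⟩
    have h1 := hFx i
    have h2 := hhi i
    rw [← hD, ← hy] at h1 h2 ⊢
    rw [hF] at h1
    simp only at h1
    have h3 := hN1 D (y + 1) (by omega)
    have h4 : Nat.log 2 (κ i) ≤ Nat.log 2 ((y + 1) ^ (D + 3)) := Nat.log_mono_right h2.le
    have h5 : ((D + 2) ^ 2 * (c D * 22) + (D + 2)) * (Nat.log 2 (κ i) + 1) ≤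
        ((D + 2) ^ 2 * (c D * 22) + (D + 2)) * (Nat.log 2 ((y + 1) ^ (D + 3)) + 1) :=
      Nat.mul_le_mul_left _ (by omega)
    have h6 : 2 * (((D + 2) ^ 2 * (c D * 22) + (D + 2)) *
        (Nat.log 2 ((y + 1) ^ (D + 3)) + 1)) ≤ y + 1 := by
      rw [← mul_assoc]
      exact h3
    omega
  obtain ⟨P, hPκ, hPv, hPx, hPJ, hPB⟩ : ∃ P : Plan C K0, (∀ i, P.κ i = κ i) ∧
      (∀ i, P.v i = x (κ i) ^ (δ (κ i) + 2)) ∧ (∀ i, P.x i = x (κ i)) ∧
      (∀ i, P.J i = δ (κ i) + 1) ∧ (∀ i, P.B i = B (δ (κ i))) := by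
    refine ⟨{ κ := κ,
              v := fun i => x (κ i) ^ (δ (κ i) + 2),
              x := fun i => x (κ i), J := fun i => δ (κ i) + 1, c := fun i => c (δ (κ i)),
              B := fun i => B (δ (κ i)),
              bas := fun i => (hB (δ (κ i))).bas, all := fun i => all_crude (hB (δ (κ i))).all,
              κs := hκs, r1 := ?_, r2 := ?_, r3 := ?_, r4 := ?_, r5 := ?_, r6 := ?_, r7 := ?_,
              J1 := ?_ }, fun _ => rfl, fun _ => rfl, fun _ => rfl, fun _ => rfl, fun _ => rfl⟩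
    · intro i
      have h1 := hlo i
      have h2 := hFx i
      have h3 := hv1 i
      obtain ⟨D, hD⟩ : ∃ D, D = δ (κ i) := ⟨_, rfl⟩
      obtain ⟨y, hy⟩ : ∃ y, y = x (κ i) := ⟨_, rfl⟩
      rw [← hD, ← hy] at h1 h2 h3
      rw [hF] at h2
      simp only at h2
      show 32 * (8 * (x (κ i) ^ (δ (κ i) + 2)) + 13) ≤ κ i
      rw [← hD, ← hy]
      calc 32 * (8 * y ^ (D + 2) + 13) ≤ 672 * y ^ (D + 2) := by omega
        _ ≤ y * y ^ (D + 2) := Nat.mul_le_mul_right _ (by omega)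
        _ = y ^ (D + 3) := by ring
        _ ≤ κ i := h1
    · intro i
      have h1 := hlo i
      have h3 := hv1 i
      have h4 := hlogM i
      obtain ⟨D, hD⟩ : ∃ D, D = δ (κ i) := ⟨_, rfl⟩
      obtain ⟨y, hy⟩ : ∃ y, y = x (κ i) := ⟨_, rfl⟩
      rw [← hD, ← hy] at h1 h3 h4
      show (δ (κ i) + 1 + 1) ^ 2 * (c (δ (κ i)) * (8 * (x (κ i) ^ (δ (κ i) + 2)) + 14)) *
        (Nat.log 2 (κ i) + 1) ≤ κ i
      rw [← hD, ← hy]
      have h5 : (D + 2) ^ 2 * (c D * 22) * (Nat.log 2 (κ i) + 1) ≤ y :=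
        (Nat.mul_le_mul_right _ (Nat.le_add_right _ _)).trans h4
      calc (D + 1 + 1) ^ 2 * (c D * (8 * y ^ (D + 2) + 14)) * (Nat.log 2 (κ i) + 1)
          ≤ (D + 2) ^ 2 * (c D * (22 * y ^ (D + 2))) * (Nat.log 2 (κ i) + 1) :=
            Nat.mul_le_mul_right _ (Nat.mul_le_mul_left _ (Nat.mul_le_mul_left _ (by omega)))
        _ = (D + 2) ^ 2 * (c D * 22) * (Nat.log 2 (κ i) + 1) * y ^ (D + 2) := by ring
        _ ≤ y * y ^ (D + 2) := Nat.mul_le_mul_right _ h5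
        _ = y ^ (D + 3) := by ring
        _ ≤ κ i := h1
    · intro i
      have h2 := hFx i
      have h3 := hv1 i
      obtain ⟨D, hD⟩ : ∃ D, D = δ (κ i) := ⟨_, rfl⟩
      obtain ⟨y, hy⟩ : ∃ y, y = x (κ i) := ⟨_, rfl⟩
      rw [← hD, ← hy] at h2 h3
      rw [hF] at h2
      simp only at h2
      show 8 * x (κ i) ^ (δ (κ i) + 1) + C + 36 ≤ 8 * x (κ i) ^ (δ (κ i) + 2) + 12
      rw [← hD, ← hy]
      have h4 : y ≤ y ^ (D + 1) := Nat.le_self_pow (by omega) _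
      have h5 : y ^ (D + 2) = y ^ (D + 1) * y := pow_succ _ _
      have h6 : y ^ (D + 1) * 3 ≤ y ^ (D + 1) * y := Nat.mul_le_mul_left _ (by omega)
      omega
    · intro i
      have h1 := hlo i
      have h2 := hFx i
      have h3 := hv1 i
      obtain ⟨D, hD⟩ : ∃ D, D = δ (κ i) := ⟨_, rfl⟩
      obtain ⟨y, hy⟩ : ∃ y, y = x (κ i) := ⟨_, rfl⟩
      rw [← hD, ← hy] at h1 h2 h3
      rw [hF] at h2
      simp only at h2
      show 2 * (c (δ (κ i)) * (8 * x (κ i) ^ (δ (κ i) + 2) + 14)) ≤ 2 ^ (4 * x (κ i))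
      rw [← hD, ← hy]
      calc 2 * (c D * (8 * y ^ (D + 2) + 14)) ≤ 2 * (c D * (22 * y ^ (D + 2))) :=
            Nat.mul_le_mul_left _ (Nat.mul_le_mul_left _ (by omega))
        _ = 44 * c D * y ^ (D + 2) := by ring
        _ ≤ y * y ^ (D + 2) := Nat.mul_le_mul_right _ (by omega)
        _ = y ^ (D + 3) := by ring
        _ ≤ 2 ^ y := hN2 D y (by omega)
        _ ≤ 2 ^ (4 * y) := Nat.pow_le_pow_right (by norm_num) (by omega)
    · intro i
      show (δ (κ i) + 1 + 1) * (Nat.log 2 (κ i) + 1) ≤ x (κ i)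
      exact (Nat.mul_le_mul_right _ (Nat.le_add_left _ _)).trans (hlogM i)
    · intro i
      show ∑ i' ∈ range i, (δ (κ i') + 1 + 1) ≤ κ i
      induction i with
      | zero => simp
      | succ i ih =>
        rw [sum_range_succ, hκs]
        refine Nat.add_le_add ih ?_
        have h1 : δ (κ i) + 2 < 2 ^ (δ (κ i) + 2) := Nat.lt_two_pow_self
        have h2 : 2 ^ (δ (κ i) + 2) ≤ x (κ i) ^ (δ (κ i) + 2) :=
          Nat.pow_le_pow_left (by have := hx722 i; omega) _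
        omega
    · intro i
      have h2 := hFx i
      rw [hF] at h2
      simp only at h2
      show K0 + C + 50 ≤ x (κ i)
      omega
    · intro i
      show 1 ≤ δ (κ i) + 1
      omega
  obtain ⟨A, Cn, c1, hA1, hA2, hA3⟩ := hmain P
  -- the bound for a class
  have hclass : ∀ i, ∑ l ∈ range (8 * P.v i), mx A (8 * P.κ i + l) ≤
      (1 + Cn) * (P.v i * x (κ i) ^ 3) := by
    intro i
    refine (hA3 i).trans ?_
    rw [hPκ, hPx, hPJ, hPB, hPv]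
    have h2 := hFx i
    have h3 := hv1 i
    have h4 := hup i
    obtain ⟨D, hD⟩ : ∃ D, D = δ (κ i) := ⟨_, rfl⟩
    obtain ⟨y, hy⟩ : ∃ y, y = x (κ i) := ⟨_, rfl⟩
    rw [← hD, ← hy] at h2 h3 h4 ⊢
    rw [hF] at h2
    simp only at h2
    rw [hE] at h2
    simp only at h2
    have hy1 : 1 ≤ y := by
      have := hx722 i
      omega
    obtain ⟨s, hs⟩ : ∃ s, s = c D * 8 ^ (D + 4) + 1 := ⟨_, rfl⟩
    rw [← hs] at h2
    obtain ⟨q0, hq0⟩ : ∃ q0, q0 = 2 ^ (D + 3) := ⟨_, rfl⟩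
    obtain ⟨q1, hq1⟩ : ∃ q1, q1 = C7 * ((D + 2) * 2 ^ (D + 3) + (D + 2) ^ 2 * s + 2 ^ (D + 4)) :=
      ⟨_, rfl⟩
    rw [← hq1, ← hq0] at h2
    have g0 : y * κ i ≤ 2 ^ (D + 3) * y ^ (D + 4) := by
      calc y * κ i ≤ y * (2 ^ (D + 3) * y ^ (D + 3)) := Nat.mul_le_mul_left _ h4
        _ = 2 ^ (D + 3) * y ^ (D + 4) := by ring
    have g1 : Sm (B D) (8 * y ^ (D + 2)) ≤ s * y ^ (D + 4) := by
      refine (Nat.pow_le_pow_iff_left (show D + 2 ≠ 0 by omega)).1 (((hB D).sum _).trans ?_)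
      calc c D * (8 * y ^ (D + 2)) ^ (D + 2 + 2)
          = c D * 8 ^ (D + 4) * (y ^ (D + 4)) ^ (D + 2) := by
            rw [mul_pow, ← pow_mul, ← pow_mul, mul_comm (D + 2) (D + 2 + 2), mul_assoc]
        _ ≤ s ^ (D + 2) * (y ^ (D + 4)) ^ (D + 2) := by
            refine Nat.mul_le_mul_right _ ?_
            calc c D * 8 ^ (D + 4) ≤ s := by omega
              _ ≤ s ^ (D + 2) := Nat.le_self_pow (by omega) _
        _ = (s * y ^ (D + 4)) ^ (D + 2) := (mul_pow _ _ _).symm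
    have g2 : y ^ (D + 2) * (κ i / y ^ (D + 1) + 1) ≤ 2 ^ (D + 4) * y ^ (D + 4) := by
      have e1 : κ i / y ^ (D + 1) ≤ 2 ^ (D + 3) * y ^ 2 := by
        refine Nat.div_le_of_le_mul ?_
        calc κ i ≤ 2 ^ (D + 3) * y ^ (D + 3) := h4
          _ = y ^ (D + 1) * (2 ^ (D + 3) * y ^ 2) := by ring
      have e2 : 1 ≤ 2 ^ (D + 3) * y ^ 2 := by
        have f1 : 1 ≤ 2 ^ (D + 3) := Nat.one_le_pow _ _ (by norm_num)
        have f2 : 1 ≤ y ^ 2 := Nat.one_le_pow _ _ hy1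
        calc 1 = 1 * 1 := rfl
          _ ≤ 2 ^ (D + 3) * y ^ 2 := Nat.mul_le_mul f1 f2
      calc y ^ (D + 2) * (κ i / y ^ (D + 1) + 1) ≤ y ^ (D + 2) * (2 * (2 ^ (D + 3) * y ^ 2)) :=
            Nat.mul_le_mul_left _ (by omega)
        _ = 2 ^ (D + 4) * y ^ (D + 4) := by ring
    have g3 : Cn * κ i ≤ Cn * y ^ (D + 5) := by
      refine Nat.mul_le_mul_left _ (h4.trans ?_)
      rw [← hq0]
      calc q0 * y ^ (D + 3) ≤ y * y ^ (D + 3) := Nat.mul_le_mul_right _ (by omega)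
        _ = y ^ (D + 4) := by ring
        _ ≤ y ^ (D + 5) := Nat.pow_le_pow_right hy1 (by omega)
    have g4 : C7 * ((D + 2) * 2 ^ (D + 3) + (D + 2) ^ 2 * s + 2 ^ (D + 4)) ≤ y := by
      rw [← hq1]
      omega
    calc C7 * ((D + 1 + 1) * (y * κ i) + (D + 1 + 1) ^ 2 * Sm (B D) (8 * y ^ (D + 2)) +
          y ^ (D + 2) * (κ i / y ^ (D + 1) + 1)) + Cn * κ i
        ≤ C7 * ((D + 2) * (2 ^ (D + 3) * y ^ (D + 4)) + (D + 2) ^ 2 * (s * y ^ (D + 4)) +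
          2 ^ (D + 4) * y ^ (D + 4)) + Cn * y ^ (D + 5) := by
          refine Nat.add_le_add (Nat.mul_le_mul_left _ ?_) g3
          exact Nat.add_le_add (Nat.add_le_add (Nat.mul_le_mul_left _ g0)
            (Nat.mul_le_mul_left _ g1)) g2
      _ = C7 * ((D + 2) * 2 ^ (D + 3) + (D + 2) ^ 2 * s + 2 ^ (D + 4)) * y ^ (D + 4) +
          Cn * y ^ (D + 5) := by ring
      _ ≤ y * y ^ (D + 4) + Cn * y ^ (D + 5) :=
          Nat.add_le_add_right (Nat.mul_le_mul_right _ g4) _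
      _ = (1 + Cn) * (y ^ (D + 2) * y ^ 3) := by ring
  refine ⟨A, c1, hA1, hA2, fun D hD => ?_⟩
  -- the sum
  obtain ⟨k1, hk1⟩ := hδ D
  have hκmono : ∀ i j, i ≤ j → κ i ≤ κ j := by
    intro i j hij
    induction j, hij using Nat.le_induction with
    | base => exact le_rfl
    | succ j _ ih => rw [hκs]; omega
  obtain ⟨S0, hS0⟩ : ∃ S0, S0 = Sm A (8 * κ k1) := ⟨_, rfl⟩
  have hsum : ∀ K X, K < (X + 1) ^ D → ∀ m, k1 ≤ m → κ m ≤ K →
      Sm A (8 * κ m) ≤ S0 + (1 + Cn) * (8 * κ m * X ^ 3) := by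
    intro K X hX m hm
    induction m, hm using Nat.le_induction with
    | base => intro _; rw [← hS0]; exact Nat.le_add_right _ _
    | succ m hm ih =>
      intro hK
      have e0 : κ m ≤ κ (m + 1) := hκmono _ _ (Nat.le_succ m)
      have e1 := ih (by omega)
      have e2 : 8 * κ (m + 1) = 8 * P.κ m + 8 * P.v m := by
        rw [hPκ, hPv, hκs]; ring
      have e3 : Sm A (8 * κ (m + 1)) =
          Sm A (8 * κ m) + ∑ l ∈ range (8 * P.v m), mx A (8 * P.κ m + l) := by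
        rw [e2]
        unfold Sm
        rw [sum_range_add, hPκ]
      have e4 := hclass m
      have e5 : x (κ m) ≤ X := by
        have f1 : D ≤ δ (κ m) + 3 := by
          have := hk1 (κ m) (by have := hκi m; omega)
          omega
        have f2 : x (κ m) ^ D ≤ κ m :=
          (Nat.pow_le_pow_right (by have := hx722 m; omega) f1).trans (hlo m)
        have f3 : x (κ m) ^ D < (X + 1) ^ D := by omega
        have f4 := (Nat.pow_lt_pow_iff_left (show D ≠ 0 by omega)).1 f3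
        omega
      have e6 : x (κ m) ^ 3 ≤ X ^ 3 := Nat.pow_le_pow_left e5 3
      have e7 : P.v m * x (κ m) ^ 3 ≤ 8 * P.v m * X ^ 3 :=
        Nat.mul_le_mul (by omega) e6
      have e8 : (1 + Cn) * (P.v m * x (κ m) ^ 3) ≤ (1 + Cn) * (8 * P.v m * X ^ 3) :=
        Nat.mul_le_mul_left _ e7
      have e9 : (1 + Cn) * (8 * κ (m + 1) * X ^ 3) =
          (1 + Cn) * (8 * κ m * X ^ 3) + (1 + Cn) * (8 * P.v m * X ^ 3) := by
        rw [e2, hPκ]; ring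
      omega
  obtain ⟨c7, hc7⟩ : ∃ c7, c7 = S0 + (1 + Cn) * 8 := ⟨_, rfl⟩
  refine ⟨c7 ^ D, fun K => ?_⟩
  rcases Nat.eq_zero_or_pos K with h0 | h0
  · rw [h0]
    have : Sm A 0 = 0 := by unfold Sm; simp
    rw [this, zero_pow (by omega)]
    exact Nat.zero_le _
  obtain ⟨X, hX1, hX2⟩ := iroot K D (by omega)
  have hX0 : 1 ≤ X := by
    by_contra hX0
    have e1 : X = 0 := by omega
    rw [e1, zero_add, one_pow] at hX2
    omega
  have hmain2 : Sm A K ≤ c7 * (K * X ^ 3) := by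
    have g0 : 1 ≤ K * X ^ 3 := by
      calc 1 = 1 * 1 := rfl
        _ ≤ K * X ^ 3 := Nat.mul_le_mul h0 (Nat.one_le_pow _ _ hX0)
    have g1 : S0 ≤ S0 * (K * X ^ 3) := Nat.le_mul_of_pos_right _ g0
    have g2 : c7 * (K * X ^ 3) = S0 * (K * X ^ 3) + (1 + Cn) * (8 * K * X ^ 3) := by
      rw [hc7]; ring
    by_cases hK : K ≤ 8 * κ k1
    · have g3 : Sm A K ≤ S0 := by rw [hS0]; exact Sm_mono A hK
      omega
    · push Not at hK
      classical
      have hex : ∃ m, K ≤ 8 * κ m := ⟨K, by have := hκi K; omega⟩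
      obtain ⟨m, hm, hmin⟩ : ∃ m, K ≤ 8 * κ m ∧ ∀ i < m, ¬ K ≤ 8 * κ i :=
        ⟨Nat.find hex, Nat.find_spec hex, fun i hi => Nat.find_min hex hi⟩
      have hmk : k1 ≤ m := by
        by_contra hlt
        have := hκmono m k1 (by omega)
        omega
      have hm0 : m ≠ 0 := by
        rintro rfl
        have : k1 = 0 := by omega
        rw [this] at hK
        omega
      obtain ⟨i, rfl⟩ := Nat.exists_eq_succ_of_ne_zero hm0
      have hi : 8 * κ i < K := not_le.1 (hmin i (Nat.lt_succ_self i))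
      have e1 : κ (i + 1) ≤ 2 * κ i := by
        rw [hκs]
        have := hv2 i
        omega
      have e2 : κ (i + 1) ≤ K := by omega
      have e3 := hsum K X hX2 (i + 1) hmk e2
      have e4 : Sm A K ≤ Sm A (8 * κ (i + 1)) := Sm_mono A hm
      have e5 : (1 + Cn) * (8 * κ (i + 1) * X ^ 3) ≤ (1 + Cn) * (8 * K * X ^ 3) :=
        Nat.mul_le_mul_left _ (Nat.mul_le_mul_right _ (by omega))
      omega
  calc (Sm A K) ^ D ≤ (c7 * (K * X ^ 3)) ^ D := Nat.pow_le_pow_left hmain2 _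
    _ = c7 ^ D * (K ^ D * (X ^ D) ^ 3) := by
        rw [mul_pow, mul_pow, ← pow_mul, ← pow_mul, mul_comm D 3]
    _ ≤ c7 ^ D * (K ^ D * K ^ 3) :=
        Nat.mul_le_mul_left _ (Nat.mul_le_mul_left _ (Nat.pow_le_pow_left hX1 _))
    _ = c7 ^ D * K ^ (D + 3) := by rw [pow_add]

end Pool.Agent.H708.ET
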