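import Pool.Agent.H708.ET.Spr

/-!
# Hits between a block and the union of the lower classes
-/

set_option autoImplicit false

namespace Pool.Agent.H708.ET

open Finset Pool.Agent.H125R2.ET Pool.Agent.Helper667_AS Pool.Agent.H125R2.ET.T11aux

/-- hits from the moments -/
theorem hits_of_mom (X : RFS) (Y : Finset ℕ) {a k γ N Q : ℕ} (hγ : 1 ≤ γ)
    (ha : 1 ≤ a) (hX : ∀ ω, ∀ s ∈ X.S ω, s < N) (hY : ∀ y ∈ Y, y < N)
    (hN : 2 * N * 2 ^ (k + 3) ≤ 2 ^ (20 * k))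
    (hmom : ∀ n, X.mom (γ * Real.log 2 / a) (refl n Y) ≤ Real.exp (Q * k)) :
    X.Pr (fun ω => ¬ ∀ n, (((X.S ω) ∩ refl n Y).card : ℝ) ≤
      ((2 * a * (Q + 20) : ℕ) : ℝ) * k / γ) ≤ 1 / 2 ^ (k + 3) := by
  have hγR : (0 : ℝ) < γ := by exact_mod_cast hγ
  have haR : (0 : ℝ) < a := by exact_mod_cast ha
  have hkR : (0 : ℝ) ≤ k := Nat.cast_nonneg k
  set T : ℝ := ((2 * a * (Q + 20) : ℕ) : ℝ) * k / γ with hT
  have hT0 : 0 ≤ T := by positivity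
  -- the range
  have hrange : ∀ ω, ∀ n, 2 * N ≤ n → ((((X.S ω) ∩ refl n Y).card : ℕ) : ℝ) ≤ T := by
    intro ω n hn
    have he : (X.S ω) ∩ refl n Y = ∅ := by
      rw [Finset.eq_empty_iff_forall_notMem]
      intro s hs
      rw [mem_inter, mem_refl] at hs
      obtain ⟨hs1, hs2, hs3⟩ := hs
      have a1 := hX ω s hs1
      have a2 := hY _ hs3
      omega
    rw [he]
    simpa using hT0
  -- one value of n
  have hlog2 : 0 < Real.log 2 := Real.log_pos (by norm_num)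
  set lam : ℝ := γ * Real.log 2 / a with hlam
  have hlam0 : 0 ≤ lam := by rw [hlam]; positivity
  have hone : ∀ n, X.Pr (fun ω => T ≤ (((X.S ω) ∩ refl n Y).card : ℝ)) ≤
      Real.exp (-(20 * k)) := by
    intro n
    refine (Pr_hits_le X hlam0 (refl n Y) T).trans ?_
    have e2 : ((Q + 20 : ℕ) : ℝ) * k ≤ lam * T := by
      have f2 : (0 : ℝ) ≤ ((Q + 20 : ℕ) : ℝ) * k := by positivity
      have f3 : lam * T = (2 * Real.log 2) * (((Q + 20 : ℕ) : ℝ) * k) := by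
        rw [hlam, hT]
        push_cast
        field_simp
      have f4 : (1 : ℝ) ≤ 2 * Real.log 2 := by
        have := Real.log_two_gt_d9
        linarith
      rw [f3]
      nlinarith
    calc Real.exp (-(lam * T)) * X.mom lam (refl n Y)
        ≤ Real.exp (-(((Q + 20 : ℕ) : ℝ) * k)) * Real.exp (Q * k) := by
          refine mul_le_mul ?_ (hmom n) (mom_nonneg _ _ _) (Real.exp_pos _).le
          rw [Real.exp_le_exp]; linarith
      _ = Real.exp (-(((Q + 20 : ℕ) : ℝ) * k) + Q * k) := (Real.exp_add _ _).symm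
      _ ≤ Real.exp (-(20 * k)) := by
          rw [Real.exp_le_exp]
          push_cast
          linarith
  -- union bound
  calc X.Pr (fun ω => ¬ ∀ n, (((X.S ω) ∩ refl n Y).card : ℝ) ≤ T)
      ≤ X.Pr (fun ω => ∃ n ∈ range (2 * N), T ≤ (((X.S ω) ∩ refl n Y).card : ℝ)) := by
        apply Pr_mono
        intro ω hω
        push Not at hω
        obtain ⟨n, hn⟩ := hω
        refine ⟨n, ?_, hn.le⟩
        rw [mem_range]
        by_contra hc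
        have := hrange ω n (by omega)
        linarith
    _ ≤ ∑ n ∈ range (2 * N), X.Pr (fun ω => T ≤ (((X.S ω) ∩ refl n Y).card : ℝ)) :=
        Pr_exists_le _ _ _
    _ ≤ ∑ n ∈ range (2 * N), Real.exp (-(20 * k)) := Finset.sum_le_sum (fun n _ => hone n)
    _ = ((2 * N : ℕ) : ℝ) * Real.exp (-(20 * k)) := by
        rw [Finset.sum_const, card_range, nsmul_eq_mul]
    _ ≤ 1 / 2 ^ (k + 3) := by
        have d1 : (2 : ℝ) ^ (20 * k) ≤ Real.exp (20 * k) := by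
          have : (2 : ℝ) ≤ Real.exp 1 := by
            have := Real.add_one_le_exp (1 : ℝ)
            linarith
          calc (2 : ℝ) ^ (20 * k) ≤ (Real.exp 1) ^ (20 * k) := pow_le_pow_left₀ (by norm_num) this _
            _ = Real.exp (20 * k) := by
              rw [← Real.exp_nat_mul]
              push_cast
              rw [mul_one]
        have d3 : ((2 * N : ℕ) : ℝ) * 2 ^ (k + 3) ≤ 2 ^ (20 * k) := by exact_mod_cast hN
        rw [Real.exp_neg, ← div_eq_mul_inv, div_le_div_iff₀ (Real.exp_pos _) (by positivity)]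
        linarith

theorem exp_lam {γ a : ℕ} (ha : 1 ≤ a) :
    Real.exp ((γ * Real.log 2 / a) * (a : ℝ)) = 2 ^ γ := by
  have haR : (a : ℝ) ≠ 0 := by
    have : a ≠ 0 := by omega
    exact_mod_cast this
  rw [div_mul_cancel₀ _ haR, Real.exp_nat_mul, Real.exp_log (by norm_num)]

theorem fin_num {k u p : ℕ} (hhi : p ≤ 2 ^ (k + 1)) (hu : 32 * (u + 1) ≤ k) (hk : 20 ≤ k) :
    2 * (2 ^ (u + 2) * p ^ 8) * 2 ^ (k + 3) ≤ 2 ^ (20 * k) := by
  calc 2 * (2 ^ (u + 2) * p ^ 8) * 2 ^ (k + 3) ≤ 2 * (2 ^ (u + 2) * (2 ^ (k + 1)) ^ 8) *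
        2 ^ (k + 3) := by gcongr
    _ = 2 ^ (9 * k + u + 14) := by ring
    _ ≤ 2 ^ (20 * k) := Nat.pow_le_pow_right (by norm_num) (by omega)

/-- the hits of the zone blocks -/
def FinZ (C : ℕ) : Prop :=
  ∀ C2 : ℕ, ∃ C3 k0 : ℕ, ∀ k ≥ k0, ∀ γ : ℕ, 1 ≤ γ → 2 ^ (2 * γ) ≤ k → ∀ (p : ℕ) (hp : 0 < p)
    (D : Finset ℕ), 2 ^ k < p → p ≤ 2 ^ (k + 1) → IsBase C p D →
    ∀ (u : ℕ) (B : Finset ℕ), 32 * (u + 1) ≤ k → 28 ≤ u → (∀ b ∈ B, b < 2 ^ (u + 1)) →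
    C + 1 + 2 ^ (u + 1) + 4 ≤ 2 ^ (u + 2) →
    ∀ Y : Finset ℕ, (∀ y ∈ Y, y < 2 ^ 22 * p ^ 8) →
    ClsLE (p ^ 6) Y 66 → ∀ h : ℕ, ClsLE (p ^ 4) Y h → h ^ 2 ≤ 2 ^ k →
    ∀ G : ℕ, ClsLE (p ^ 2) Y G → G ≤ C2 * (Nat.sqrt k + 1) * p ^ 2 →
    (wblk p 1 hp one_pos D B).Pr (fun ω => ¬ ∀ n,
      ((((wblk p 1 hp one_pos D B).S ω) ∩ refl n Y).card : ℝ) ≤ C3 * k / γ) ≤ 1 / 2 ^ (k + 3)

theorem fin_Z (C : ℕ) : FinZ C := by
  intro C2
  obtain ⟨K, hK, hM⟩ := blk_mom C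
  obtain ⟨M, hMM⟩ := exists_nat_ge K
  obtain ⟨Q, hQ⟩ := exists_nat_ge (2 * K * C2)
  refine ⟨2 * 67 * (Q + 20), 4 * M + C + 40, ?_⟩
  intro k hk γ hγ1 hγ p hp D hp1 hp2 hD u B hu hu28 hB hW Y hY h6 h h4 hh G h2 hG
  have hk2k : k < 2 ^ k := Nat.lt_two_pow_self
  have hpR : (0 : ℝ) < p := by exact_mod_cast hp
  refine hits_of_mom _ Y (a := 67) (N := 2 ^ (u + 2) * p ^ 8) hγ1 (by norm_num)
    (fun ω s hs => ?_) (fun y hy => ?_) (fin_num hp2 hu (by omega)) (fun n => ?_)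
  · have hs' : s ∈ (blk p 1 hp one_pos D B).S
        (ofT hp one_pos D B (toT (hp := hp) (hH := one_pos) (B := {0}) ω)) := by
      have := wblk_S hp one_pos D B ω
      exact this ▸ hs
    exact lt_of_lt_of_le (blk_range hp one_pos (by omega) (by omega) hD hB _ s hs').2
      (Nat.mul_le_mul_right _ hW)
  · refine lt_of_lt_of_le (hY y hy) (Nat.mul_le_mul_right _ ?_)
    exact Nat.pow_le_pow_right (by norm_num) (by omega)
  -- the condition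
  have hsqrt : 2 ^ γ ≤ Nat.sqrt k := by
    rw [Nat.le_sqrt, ← pow_add]
    have : γ + γ = 2 * γ := by ring
    rw [this]
    exact hγ
  have hs2 : Nat.sqrt k * Nat.sqrt k ≤ k := Nat.sqrt_le k
  have hs3 : 2 ^ γ * (Nat.sqrt k + 1) ≤ 2 * k := by
    have h1 : Nat.sqrt k ≤ k := Nat.sqrt_le_self k
    calc 2 ^ γ * (Nat.sqrt k + 1) ≤ Nat.sqrt k * (Nat.sqrt k + 1) := Nat.mul_le_mul_right _ hsqrt
      _ = Nat.sqrt k * Nat.sqrt k + Nat.sqrt k := by ring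
      _ ≤ 2 * k := by omega
  have hcond : K * 2 ^ γ * (h : ℝ) ≤ p := by
    have e1 : (M * 2 ^ γ * h) ^ 2 ≤ p ^ 2 := by
      have f1 : M ^ 2 ≤ 2 ^ (2 * M) := by
        calc M ^ 2 ≤ (2 ^ M) ^ 2 := Nat.pow_le_pow_left Nat.lt_two_pow_self.le 2
          _ = 2 ^ (2 * M) := by rw [← pow_mul, mul_comm]
      have f2 : 2 ^ (2 * M) * k ≤ 2 ^ k := by
        have g1 : (2 ^ (2 * M) * k) ^ 2 ≤ (2 ^ k) ^ 2 := by
          calc (2 ^ (2 * M) * k) ^ 2 = 2 ^ (4 * M) * k ^ 2 := by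
                rw [mul_pow, ← pow_mul]; congr 2; ring
            _ ≤ 2 ^ k * 2 ^ k := Nat.mul_le_mul (Nat.pow_le_pow_right (by norm_num) (by omega))
                (sq_le_two_pow k (by omega))
            _ = (2 ^ k) ^ 2 := by ring
        exact (Nat.pow_le_pow_iff_left (by norm_num)).1 g1
      calc (M * 2 ^ γ * h) ^ 2 = M ^ 2 * 2 ^ (2 * γ) * h ^ 2 := by
            rw [mul_pow, mul_pow, ← pow_mul, mul_comm γ 2]
        _ ≤ 2 ^ (2 * M) * k * 2 ^ k :=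
            Nat.mul_le_mul (Nat.mul_le_mul f1 hγ) hh
        _ ≤ 2 ^ k * 2 ^ k := Nat.mul_le_mul_right _ f2
        _ = (2 ^ k) ^ 2 := by ring
        _ ≤ p ^ 2 := Nat.pow_le_pow_left hp1.le 2
    have e2 : M * 2 ^ γ * h ≤ p := (Nat.pow_le_pow_iff_left (by norm_num)).1 e1
    calc K * 2 ^ γ * (h : ℝ) ≤ M * 2 ^ γ * (h : ℝ) := by gcongr
      _ ≤ p := by exact_mod_cast e2
  have hexp := exp_lam (γ := γ) (a := 67) (by norm_num)
  have hlog2 : 0 < Real.log 2 := Real.log_pos (by norm_num)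
  rw [wblk_mom]
  refine (hM p 1 hp one_pos D B hD _ (by positivity) 67 h G (refl n Y)
    (T15_cls_mono (T15_cls_refl h6 n) (by norm_num)) (T15_cls_refl h4 n)
    (T15_cls_refl h2 n) (by rw [hexp]; exact hcond)).trans (Real.exp_le_exp.2 ?_)
  have hp0 : (0 : ℝ) < (p : ℝ) ^ 2 := by positivity
  rw [hexp, div_le_iff₀ hp0]
  have e1 : 2 ^ γ * G ≤ C2 * (2 * k) * p ^ 2 := by
    calc 2 ^ γ * G ≤ 2 ^ γ * (C2 * (Nat.sqrt k + 1) * p ^ 2) := Nat.mul_le_mul_left _ hG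
      _ = C2 * (2 ^ γ * (Nat.sqrt k + 1)) * p ^ 2 := by ring
      _ ≤ C2 * (2 * k) * p ^ 2 := Nat.mul_le_mul_right _ (Nat.mul_le_mul_left _ hs3)
  have e2 : (2 : ℝ) ^ γ * G ≤ C2 * (2 * k) * (p : ℝ) ^ 2 := by exact_mod_cast e1
  have hkR : (0 : ℝ) ≤ k := Nat.cast_nonneg k
  calc K * 2 ^ γ * (G : ℝ) = K * (2 ^ γ * G) := by ring
    _ ≤ K * (C2 * (2 * k) * (p : ℝ) ^ 2) := mul_le_mul_of_nonneg_left e2 hK.le
    _ = (2 * K * C2) * (k * (p : ℝ) ^ 2) := by ring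
    _ ≤ Q * (k * (p : ℝ) ^ 2) := mul_le_mul_of_nonneg_right hQ (by positivity)
    _ = Q * k * (p : ℝ) ^ 2 := by ring

/-- the hits of the main blocks -/
def FinM (C : ℕ) : Prop :=
  ∀ C2 : ℕ, ∃ C3 k0 : ℕ, ∀ k ≥ k0, ∀ γ : ℕ, k0 ≤ γ → ∀ (p : ℕ) (hp : 0 < p) (H : ℕ)
    (hH : 0 < H) (D : Finset ℕ), 2 ^ k < p → p ≤ 2 ^ (k + 1) → IsBase C p D →
    ∀ (u : ℕ) (B : Finset ℕ), 32 * (u + 1) ≤ k → 28 ≤ u → (∀ b ∈ B, b < 2 ^ (u + 1)) →
    C + H + 2 ^ (u + 1) + 4 ≤ 2 ^ (u + 2) →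
    ∀ β : ℕ, Win H B β → 2 ^ (2 * γ) * β ≤ H →
    ∀ Y : Finset ℕ, (∀ y ∈ Y, y < 2 ^ 22 * p ^ 8) →
    ClsLE (p ^ 6) Y 66 → ∀ h : ℕ, ClsLE (p ^ 4) Y h → h ^ 2 ≤ 2 ^ k →
    ∀ G : ℕ, ClsLE (p ^ 2) Y G → G ≤ C2 * (Nat.sqrt k + 1) * p ^ 2 →
    (wblk p H hp hH D B).Pr (fun ω => ¬ ∀ n,
      ((((wblk p H hp hH D B).S ω) ∩ refl n Y).card : ℝ) ≤ C3 * k / γ) ≤ 1 / 2 ^ (k + 3)

theorem fin_M (C : ℕ) : FinM C := by
  intro C2
  obtain ⟨K, hK, hM⟩ := blk_mom2 C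
  obtain ⟨M, hMM⟩ := exists_nat_ge K
  obtain ⟨Q, hQ⟩ := exists_nat_ge (2 * K * C2)
  refine ⟨2 * 67 * (Q + 20), 67 * M + C + 40, ?_⟩
  intro k hk γ hγ1 p hp H hH D hp1 hp2 hD u B hu hu28 hB hW β hβ hβH Y hY h6 h h4 hh G h2 hG
  have hk2k : k < 2 ^ k := Nat.lt_two_pow_self
  have hpR : (0 : ℝ) < p := by exact_mod_cast hp
  have hHR : (0 : ℝ) < H := by exact_mod_cast hH
  refine hits_of_mom _ Y (a := 67) (N := 2 ^ (u + 2) * p ^ 8) (by omega) (by norm_num)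
    (fun ω s hs => ?_) (fun y hy => ?_) (fin_num hp2 hu (by omega)) (fun n => ?_)
  · have hs' : s ∈ (blk p H hp hH D B).S
        (ofT hp hH D B (toT (hp := hp) (hH := hH) (B := {0}) ω)) := by
      have := wblk_S hp hH D B ω
      exact this ▸ hs
    exact lt_of_lt_of_le (blk_range hp hH (by omega) (by omega) hD hB _ s hs').2
      (Nat.mul_le_mul_right _ hW)
  · refine lt_of_lt_of_le (hY y hy) (Nat.mul_le_mul_right _ ?_)
    exact Nat.pow_le_pow_right (by norm_num) (by omega)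
  have hs3 : Nat.sqrt k + 1 ≤ 2 * k := by
    have h1 : Nat.sqrt k ≤ k := Nat.sqrt_le_self k
    omega
  -- the density of the top
  have h2γ : (0 : ℝ) < 2 ^ γ := by positivity
  have hκ0 : (2 : ℝ) ^ γ * β / H ≤ 1 / 2 ^ γ := by
    rw [div_le_div_iff₀ hHR h2γ]
    have e1 : (2 : ℝ) ^ (2 * γ) * β ≤ H := by exact_mod_cast hβH
    calc (2 : ℝ) ^ γ * β * 2 ^ γ = 2 ^ (2 * γ) * β := by rw [two_mul, pow_add]; ring
      _ ≤ 1 * H := by linarith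
  have hκ00 : (0 : ℝ) ≤ 2 ^ γ * β / H := by positivity
  have h1γ : (1 : ℝ) / 2 ^ γ ≤ 1 := by
    rw [div_le_one h2γ]
    exact one_le_pow₀ (by norm_num)
  have hKγ : K * 67 ≤ 2 ^ γ := by
    have e1 : M * 67 ≤ 2 ^ γ := by
      have : γ < 2 ^ γ := Nat.lt_two_pow_self
      omega
    have e2 : (M : ℝ) * 67 ≤ 2 ^ γ := by exact_mod_cast e1
    linarith
  have hexp := exp_lam (γ := γ) (a := 67) (by norm_num)
  have hlog2 : 0 < Real.log 2 := Real.log_pos (by norm_num)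
  have hc6 : K * (2 ^ γ * β / H) * ((67 : ℕ) : ℝ) ≤ 1 := by
    calc K * (2 ^ γ * β / H) * ((67 : ℕ) : ℝ) ≤ K * (1 / 2 ^ γ) * ((67 : ℕ) : ℝ) := by gcongr
      _ = K * 67 / 2 ^ γ := by push_cast; ring
      _ ≤ 1 := by rw [div_le_one h2γ]; exact hKγ
  have hc4 : K * (2 ^ γ * β / H) * (h : ℝ) ≤ p := by
    have e1 : (M * h) ^ 2 ≤ p ^ 2 := by
      have f1 : M ^ 2 ≤ 2 ^ k := by
        calc M ^ 2 ≤ (2 ^ M) ^ 2 := Nat.pow_le_pow_left Nat.lt_two_pow_self.le 2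
          _ = 2 ^ (2 * M) := by rw [← pow_mul, mul_comm]
          _ ≤ 2 ^ k := Nat.pow_le_pow_right (by norm_num) (by omega)
      calc (M * h) ^ 2 = M ^ 2 * h ^ 2 := mul_pow _ _ _
        _ ≤ 2 ^ k * 2 ^ k := Nat.mul_le_mul f1 hh
        _ = (2 ^ k) ^ 2 := by ring
        _ ≤ p ^ 2 := Nat.pow_le_pow_left hp1.le 2
    have e2 : M * h ≤ p := (Nat.pow_le_pow_iff_left (by norm_num)).1 e1
    have e3 : (M : ℝ) * h ≤ p := by exact_mod_cast e2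
    calc K * (2 ^ γ * β / H) * (h : ℝ) ≤ M * 1 * (h : ℝ) := by
          gcongr
          exact hκ0.trans h1γ
      _ ≤ p := by rw [mul_one]; exact e3
  rw [wblk_mom]
  refine (hM p H hp hH D B hD β hβ _ (by positivity) 67 67 h G (refl n Y)
    (T15_cls_mono (T15_cls_refl (T14aux.cls_dvd (pow_dvd_pow p (by norm_num)) h6) n) (by norm_num))
    (T15_cls_mono (T15_cls_refl h6 n) (by norm_num)) (T15_cls_refl h4 n)
    (T15_cls_refl h2 n) (by rw [hexp]; exact hc6) (by rw [hexp]; exact hc4)).trans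
    (Real.exp_le_exp.2 ?_)
  have hp0 : (0 : ℝ) < (p : ℝ) ^ 2 := by positivity
  rw [hexp, div_le_iff₀ hp0]
  have e1 : G ≤ C2 * (2 * k) * p ^ 2 :=
    hG.trans (Nat.mul_le_mul_right _ (Nat.mul_le_mul_left _ hs3))
  have e2 : (G : ℝ) ≤ C2 * (2 * k) * (p : ℝ) ^ 2 := by exact_mod_cast e1
  have hkR : (0 : ℝ) ≤ k := Nat.cast_nonneg k
  have hG0 : (0 : ℝ) ≤ G := Nat.cast_nonneg G
  calc K * (2 ^ γ * β / H) * (G : ℝ) ≤ K * 1 * (C2 * (2 * k) * (p : ℝ) ^ 2) := by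
        gcongr
        exact hκ0.trans h1γ
    _ = (2 * K * C2) * (k * (p : ℝ) ^ 2) := by ring
    _ ≤ Q * (k * (p : ℝ) ^ 2) := mul_le_mul_of_nonneg_right hQ (by positivity)
    _ = Q * k * (p : ℝ) ^ 2 := by ring

end Pool.Agent.H708.ET
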