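import Pool.Agent.H708.ET.MSeq
import Pool.Agent.H708.ET.Count

/-!
# Counting the representations, several amplitudes
-/

set_option autoImplicit false

namespace Pool.Agent.H708.ET

open Finset Pool.Agent.H125R2.ET Pool.Agent.Helper667_AS

theorem repF_biUnion (I I' : Finset ℕ) (S S' : ℕ → Finset ℕ) (n : ℕ) :
    repF (I.biUnion S) (I'.biUnion S') n ≤ ∑ i ∈ I, ∑ j ∈ I', repF (S i) (S' j) n := by
  classical
  unfold repF
  have h : ((I.biUnion S) ×ˢ (I'.biUnion S')).filter (fun x => x.1 + x.2 = n) ⊆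
      I.biUnion (fun i => I'.biUnion (fun j =>
        ((S i) ×ˢ (S' j)).filter (fun x => x.1 + x.2 = n))) := by
    intro x hx
    rw [mem_filter, mem_product, mem_biUnion, mem_biUnion] at hx
    obtain ⟨⟨⟨i, hi, h1⟩, ⟨j, hj, h2⟩⟩, h3⟩ := hx
    rw [mem_biUnion]
    refine ⟨i, hi, ?_⟩
    rw [mem_biUnion]
    exact ⟨j, hj, mem_filter.2 ⟨mem_product.2 ⟨h1, h2⟩, h3⟩⟩
  refine (card_le_card h).trans (card_biUnion_le.trans (sum_le_sum (fun i _ => ?_)))
  exact card_biUnion_le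

/-- the window bound for a class -/
def CBdM {C : ℕ} (s : MSys C) (i n R : ℕ) : Prop :=
  ∀ j j', j ≤ s.J i → j' ≤ s.J i →
    ∀ N, n / (s.p i) ^ 8 - (2 * C + (s.H i j + s.H i j') + 4) ≤ N → N ≤ n / (s.p i) ^ 8 →
    repF (s.T i j) (s.T i j') N ≤ R

theorem class_repM {C : ℕ} (s : MSys C) (i n R : ℕ) (h : CBdM s i n R)
    (ω : ∀ j, (s.V i j).Ω) :
    repF ((range (s.J i + 1)).biUnion (fun j => (s.V i j).S (ω j)))
      ((range (s.J i + 1)).biUnion (fun j => (s.V i j).S (ω j))) n ≤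
      (2 * C * C) ^ 4 * ((s.J i + 1) ^ 2 * R) := by
  have hC := s.Cp i
  refine (repF_biUnion _ _ _ _ _).trans ?_
  calc ∑ j ∈ range (s.J i + 1), ∑ j' ∈ range (s.J i + 1),
        repF ((s.V i j).S (ω j)) ((s.V i j').S (ω j')) n
      ≤ ∑ _j ∈ range (s.J i + 1), ∑ _j' ∈ range (s.J i + 1), (2 * C * C) ^ 4 * R := by
        refine sum_le_sum (fun j hj => sum_le_sum (fun j' hj' => ?_))
        obtain ⟨t1, h1⟩ := s.SV i j (ω j)
        obtain ⟨t2, h2⟩ := s.SV i j' (ω j')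
        rw [h1, h2]
        exact blk_rep (s.prime i).pos (s.Hpos i j) (s.Hpos i j') (by omega) (by omega) (s.base i)
          (s.T i j) (s.T i j') R n (fun N g1 g2 => h j j' (Nat.lt_succ_iff.1 (mem_range.1 hj))
            (Nat.lt_succ_iff.1 (mem_range.1 hj')) N g1 g2) t1 t2
    _ = (2 * C * C) ^ 4 * ((s.J i + 1) ^ 2 * R) := by
        rw [sum_const, sum_const, card_range, smul_eq_mul, smul_eq_mul]
        ring

theorem p8_loM {C : ℕ} (s : MSys C) (i : ℕ) : 2 ^ (8 * s.κ i) ≤ (s.p i) ^ 8 := by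
  calc 2 ^ (8 * s.κ i) = (2 ^ s.κ i) ^ 8 := by rw [← pow_mul, mul_comm]
    _ ≤ (s.p i) ^ 8 := Nat.pow_le_pow_left (s.lo i).le 8

theorem p8_hiM {C : ℕ} (s : MSys C) (i : ℕ) : (s.p i) ^ 8 ≤ 2 ^ (8 * s.κ i + 8) := by
  calc (s.p i) ^ 8 ≤ (2 ^ (s.κ i + 1)) ^ 8 := Nat.pow_le_pow_left (s.hi i) 8
    _ = 2 ^ (8 * s.κ i + 8) := by rw [← pow_mul]; ring_nf

/-- the class of the good point -/
def MSys.cl {C : ℕ} (s : MSys C) (ω : ∀ i j, (s.V i j).Ω) (i : ℕ) : Finset ℕ :=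
  (Finset.range (s.J i + 1)).biUnion (fun j => (s.V i j).S (ω i j))

theorem MSys.cl_range {C : ℕ} (s : MSys C) (ω : ∀ i j, (s.V i j).Ω) (i : ℕ) :
    ∀ v ∈ s.cl ω i, (s.p i) ^ 8 ≤ v ∧ v < 2 ^ (s.u i + 2) * (s.p i) ^ 8 := by
  intro v hv
  unfold MSys.cl at hv
  rw [mem_biUnion] at hv
  obtain ⟨j, hj, hv⟩ := hv
  have hj' : j ≤ s.J i := Nat.lt_succ_iff.1 (Finset.mem_range.1 hj)
  have h1 := s.rangeV hj' (ω i j) v hv
  refine ⟨h1.1, lt_of_lt_of_le h1.2 (Nat.mul_le_mul_right _ ?_)⟩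
  refine Nat.pow_le_pow_right (by norm_num) ?_
  have := s.wu i j hj'
  omega

theorem MSys.low_lt {C : ℕ} (s : MSys C) (ω : ∀ i j, (s.V i j).Ω) (i : ℕ) :
    ∀ y ∈ (Finset.range i).biUnion (s.cl ω), y < 2 ^ 22 * (s.p i) ^ 8 := by
  intro y hy
  rw [mem_biUnion] at hy
  obtain ⟨j, hj, hy⟩ := hy
  have h1 := (s.cl_range ω j y hy).2
  have h2 := s.topj (Finset.mem_range.1 hj)
  have h4 : 2 ^ 22 * 2 ^ (8 * s.κ i) ≤ 2 ^ 22 * (s.p i) ^ 8 := Nat.mul_le_mul_left _ (p8_loM s i)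
  omega

/-- the classes of a representation -/
theorem class_posM {C : ℕ} (s : MSys C) (ω : ∀ i j, (s.V i j).Ω) {n i j a b : ℕ} (hij : j ≤ i)
    (ha : a ∈ s.cl ω i) (hb : b ∈ s.cl ω j) (hab : a + b = n) :
    2 ^ (8 * s.κ i) ≤ n ∧ n < 2 ^ (8 * s.κ (i + 1) + 23) := by
  have h1 := s.cl_range ω i a ha
  have h2 := s.cl_range ω j b hb
  have h3 := p8_loM s i
  have h4 := p8_hiM s i
  have hu : 28 ≤ s.u i := by have := s.u28 i; omega
  have ht := s.touch i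
  have h5 : b < 2 ^ (s.u i + 2) * (s.p i) ^ 8 := by
    rcases hij.eq_or_lt with rfl | hlt
    · exact h2.2
    · have e1 := s.topj hlt
      have e2 : 2 ^ 22 * 2 ^ (8 * s.κ i) ≤ 2 ^ (s.u i + 2) * (s.p i) ^ 8 :=
        Nat.mul_le_mul (Nat.pow_le_pow_right (by norm_num) (by omega)) h3
      omega
  refine ⟨by omega, ?_⟩
  have e3 : 2 ^ (s.u i + 2) * (s.p i) ^ 8 + 2 ^ (s.u i + 2) * (s.p i) ^ 8 ≤
      2 ^ (8 * s.κ (i + 1) + 23) := by
    calc 2 ^ (s.u i + 2) * (s.p i) ^ 8 + 2 ^ (s.u i + 2) * (s.p i) ^ 8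
        = 2 ^ (s.u i + 3) * (s.p i) ^ 8 := by ring
      _ ≤ 2 ^ (s.u i + 3) * 2 ^ (8 * s.κ i + 8) := Nat.mul_le_mul_left _ h4
      _ = 2 ^ (8 * s.κ (i + 1) + 23) := by
          rw [← pow_add]
          congr 1
          omega
  omega

/-- the hits of a class -/
theorem hits_sum {C : ℕ} (s : MSys C) (ω : ∀ i j, (s.V i j).Ω) (i n : ℕ) (Y : Finset ℕ) :
    ((s.cl ω i ∩ refl n Y).card : ℝ) ≤
      ∑ j ∈ range (s.J i + 1), ((((s.V i j).S (ω i j)) ∩ refl n Y).card : ℝ) := by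
  classical
  have h : s.cl ω i ∩ refl n Y ⊆ (range (s.J i + 1)).biUnion
      (fun j => ((s.V i j).S (ω i j)) ∩ refl n Y) := by
    intro v hv
    rw [mem_inter] at hv
    obtain ⟨h1, h2⟩ := hv
    unfold MSys.cl at h1
    rw [mem_biUnion] at h1
    obtain ⟨j, hj, h1⟩ := h1
    rw [mem_biUnion]
    exact ⟨j, hj, mem_inter.2 ⟨h1, h2⟩⟩
  exact_mod_cast (card_le_card h).trans card_biUnion_le

/-- **Touching classes with several amplitudes.** -/
theorem touch_setM (C : ℕ) :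
    ∃ C5 K0 : ℕ, ∀ (s : MSys C), (∀ i, K0 ≤ s.κ i) →
      (∀ i j, 1 ≤ j → j ≤ s.J i → K0 ≤ s.γ i j) → ∀ γz : ℕ → ℕ,
      (∀ i, 1 ≤ γz i) → (∀ i, 2 ^ (2 * γz i) ≤ s.κ i) →
      (∀ i N, N < 2 ^ s.w i 0 → ∃ b ∈ s.T i 0, ∃ b' ∈ s.T i 0, b + b' = N) →
      (∀ i j N, 1 ≤ j → j ≤ s.J i → 2 * s.H i j ≤ N → N < 2 ^ s.w i j →
        ∃ b ∈ s.T i j, ∃ b' ∈ s.T i j, b + b' = N) →
      (∀ i j, j < s.J i → 8 * s.γ i (j + 1) + 6 ≤ s.w i j) →
      (∀ i, s.w i (s.J i) = s.u i) →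
      ∃ A : Set ℕ,
      (∀ n < 2 ^ (8 * s.κ 0), rA A n = 0) ∧
      (∀ t l n R, 23 ≤ l → 2 ^ (8 * s.κ t + l) ≤ n → n < 2 ^ (8 * s.κ (t + 1)) →
        CBdM s t n R → (rA A n : ℝ) ≤ C5 * (((s.J t + 1) ^ 2 * R : ℕ) +
          ∑ j ∈ range (s.J t + 1), if l < s.w t j + 11 then (s.κ t : ℝ) / s.gh γz t j else 0)) ∧
      (∀ t n R R', 2 ^ (8 * s.κ t) ≤ n → n < 2 ^ (8 * s.κ (t + 1)) →
        CBdM s t n R → CBdM s (t - 1) n R' →
        (rA A n : ℝ) ≤ C5 * (((s.J t + 1) ^ 2 * R + (s.J (t - 1) + 1) ^ 2 * R' : ℕ) +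
          (∑ j ∈ range (s.J t + 1), (s.κ t : ℝ) / s.gh γz t j) +
            ∑ j ∈ range (s.J (t - 1) + 1), (s.κ (t - 1) : ℝ) / s.gh γz (t - 1) j)) ∧
      (∀ n, 14 * (s.p 0) ^ 8 ≤ n → ∃ a ∈ A, ∃ b ∈ A, a + b = n) := by
  obtain ⟨C3, K0, hgood⟩ := good_M C
  refine ⟨(2 * C * C) ^ 4 + 2 * C3, K0 + C + 30, ?_⟩
  intro s hK hKγ γz hγz1 hγz hT0 hTj hgw hwJ
  obtain ⟨ω, hω⟩ := hgood s (fun i => by have := hK i; omega)
    (fun i j h1 h2 => by have := hKγ i j h1 h2; omega) γz hγz1 hγz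
  have hgap : ∀ i, s.κ i + 3 ≤ s.κ (i + 1) := by
    intro i
    have h1 := s.touch i
    have h5 := s.u28 i
    omega
  have hmon : ∀ i j, i < j → s.κ i + 3 ≤ s.κ j := by
    intro i j hij
    have h1 := hgap i
    have h2 := s.κmono (Nat.succ_le_of_lt hij)
    have h3 : i.succ = i + 1 := rfl
    rw [h3] at h2
    omega
  have hC3 : (0 : ℝ) ≤ C3 := Nat.cast_nonneg _
  have hCC : (0 : ℝ) ≤ (2 * (C : ℝ) * C) ^ 4 := by positivity
  refine ⟨bigA (s.cl ω), ?_, ?_, ?_, ?_⟩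
  · -- small numbers
    intro n hn
    have he : {x : ℕ × ℕ | x.1 ∈ bigA (s.cl ω) ∧ x.2 ∈ bigA (s.cl ω) ∧ x.1 + x.2 = n} = ∅ := by
      rw [Set.eq_empty_iff_forall_notMem]
      rintro ⟨a, b⟩ ⟨⟨ia, ha⟩, -, hab⟩
      simp only at ha hab
      have h1 := (s.cl_range ω ia a ha).1
      have h2 := p8_loM s ia
      have h3 : 2 ^ (8 * s.κ 0) ≤ 2 ^ (8 * s.κ ia) := by
        refine Nat.pow_le_pow_right (by norm_num) ?_
        have := s.κmono (Nat.zero_le ia)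
        omega
      omega
    unfold rA
    rw [he, Set.ncard_empty]
  · -- far from the beginning of the class
    intro t l n R hl hn1 hn2 hR
    have hI : ∀ i j a b, j ≤ i → a ∈ s.cl ω i → b ∈ s.cl ω j → a + b = n →
        i ∈ ({t} : Finset ℕ) := by
      intro i j a b hij ha hb hab
      obtain ⟨h1, h2⟩ := class_posM s ω hij ha hb hab
      rw [mem_singleton]
      rcases lt_trichotomy i t with hlt | heq | hgt
      · exfalso
        have e1 := s.κmono (Nat.succ_le_of_lt hlt)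
        have e2 : i.succ = i + 1 := rfl
        rw [e2] at e1
        have e3 : 2 ^ (8 * s.κ (i + 1) + 23) ≤ 2 ^ (8 * s.κ t + l) :=
          Nat.pow_le_pow_right (by norm_num) (by omega)
        omega
      · exact heq
      · exfalso
        have e1 := s.κmono (Nat.succ_le_of_lt hgt)
        have e2 : t.succ = t + 1 := rfl
        rw [e2] at e1
        have e3 : 2 ^ (8 * s.κ (t + 1)) ≤ 2 ^ (8 * s.κ i) :=
          Nat.pow_le_pow_right (by norm_num) (by omega)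
        omega
    have h1 := two_count (s.cl ω) n {t} hI
    rw [sum_singleton] at h1
    have h2 : repF (s.cl ω t) (s.cl ω t) n ≤ (2 * C * C) ^ 4 * ((s.J t + 1) ^ 2 * R) :=
      class_repM s t n R hR (ω t)
    have h3 := hits_sum s ω t n ((range t).biUnion (s.cl ω))
    have h4 : ∑ j ∈ range (s.J t + 1), ((((s.V t j).S (ω t j)) ∩
        refl n ((range t).biUnion (s.cl ω))).card : ℝ) ≤
        ∑ j ∈ range (s.J t + 1), C3 * (if l < s.w t j + 11 then (s.κ t : ℝ) / s.gh γz t j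
          else 0) := by
      refine Finset.sum_le_sum (fun j hj => ?_)
      have hj' : j ≤ s.J t := Nat.lt_succ_iff.1 (mem_range.1 hj)
      split_ifs with hlw
      · rw [← mul_div_assoc]
        exact hω t j hj' n
      · -- the block does not reach n
        have he : ((s.V t j).S (ω t j)) ∩ refl n ((range t).biUnion (s.cl ω)) = ∅ := by
          rw [← Finset.not_nonempty_iff_eq_empty]
          rintro ⟨v, hv⟩
          rw [mem_inter, mem_refl] at hv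
          obtain ⟨hv1, hv2, hv3⟩ := hv
          have a1 := (s.rangeV hj' (ω t j) v hv1).2
          have a2 := s.low_lt ω t _ hv3
          have a3 := s.γw t j hj'
          have a4 : 2 ^ 22 * (s.p t) ^ 8 ≤ 2 ^ (s.w t j + 2) * (s.p t) ^ 8 :=
            Nat.mul_le_mul_right _ (Nat.pow_le_pow_right (by norm_num) (by omega))
          have a5 : 2 ^ (s.w t j + 2) * (s.p t) ^ 8 + 2 ^ (s.w t j + 2) * (s.p t) ^ 8 ≤
              2 ^ (8 * s.κ t + l) := by
            calc 2 ^ (s.w t j + 2) * (s.p t) ^ 8 + 2 ^ (s.w t j + 2) * (s.p t) ^ 8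
                = 2 ^ (s.w t j + 3) * (s.p t) ^ 8 := by ring
              _ ≤ 2 ^ (s.w t j + 3) * 2 ^ (8 * s.κ t + 8) := Nat.mul_le_mul_left _ (p8_hiM s t)
              _ = 2 ^ (8 * s.κ t + (s.w t j + 11)) := by rw [← pow_add]; congr 1; ring
              _ ≤ 2 ^ (8 * s.κ t + l) := Nat.pow_le_pow_right (by norm_num) (by omega)
          omega
        rw [he]
        simp
    have h5 : (rA (bigA (s.cl ω)) n : ℝ) ≤ (((2 * C * C) ^ 4 * ((s.J t + 1) ^ 2 * R) : ℕ) : ℝ) +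
        2 * ((s.cl ω t ∩ refl n ((range t).biUnion (s.cl ω))).card : ℝ) := by
      have : rA (bigA (s.cl ω)) n ≤ (2 * C * C) ^ 4 * ((s.J t + 1) ^ 2 * R) +
          2 * (s.cl ω t ∩ refl n ((range t).biUnion (s.cl ω))).card :=
        h1.trans (Nat.add_le_add_right h2 _)
      exact_mod_cast this
    rw [← mul_sum] at h4
    set Sh : ℝ := ∑ j ∈ range (s.J t + 1),
      (if l < s.w t j + 11 then (s.κ t : ℝ) / s.gh γz t j else 0) with hSh
    have hS0 : 0 ≤ Sh := by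
      rw [hSh]
      refine Finset.sum_nonneg (fun j _ => ?_)
      split_ifs
      · positivity
      · exact le_rfl
    have hR0 : (0 : ℝ) ≤ (((s.J t + 1) ^ 2 * R : ℕ) : ℝ) := Nat.cast_nonneg _
    have e6 : (((2 * C * C) ^ 4 * ((s.J t + 1) ^ 2 * R) : ℕ) : ℝ) =
        (2 * (C : ℝ) * C) ^ 4 * (((s.J t + 1) ^ 2 * R : ℕ) : ℝ) := by push_cast; ring
    rw [e6] at h5
    have e7 : (((2 * C * C) ^ 4 + 2 * C3 : ℕ) : ℝ) = (2 * (C : ℝ) * C) ^ 4 + 2 * C3 := by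
      push_cast
      ring
    rw [e7]
    nlinarith [mul_nonneg hCC hS0, mul_nonneg hC3 hR0, mul_nonneg hC3 hS0]
  · -- all numbers
    intro t n R R' hn1 hn2 hR hR'
    have hI : ∀ i j a b, j ≤ i → a ∈ s.cl ω i → b ∈ s.cl ω j → a + b = n →
        i ∈ ({t, t - 1} : Finset ℕ) := by
      intro i j a b hij ha hb hab
      obtain ⟨h1, h2⟩ := class_posM s ω hij ha hb hab
      rw [mem_insert, mem_singleton]
      rcases lt_or_ge i t with hlt | hge
      · right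
        by_contra hne
        have e0 : i + 1 < t := by omega
        have e1 := hmon _ _ e0
        have e3 : 2 ^ (8 * s.κ (i + 1) + 23) ≤ 2 ^ (8 * s.κ t) :=
          Nat.pow_le_pow_right (by norm_num) (by omega)
        omega
      · left
        by_contra hne
        have e0 : t + 1 ≤ i := by omega
        have e1 := s.κmono e0
        have e3 : 2 ^ (8 * s.κ (t + 1)) ≤ 2 ^ (8 * s.κ i) :=
          Nat.pow_le_pow_right (by norm_num) (by omega)
        omega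
    have hcls : ∀ i Q, CBdM s i n Q → ((repF (s.cl ω i) (s.cl ω i) n +
        2 * (s.cl ω i ∩ refl n ((range i).biUnion (s.cl ω))).card : ℕ) : ℝ) ≤
        (2 * (C : ℝ) * C) ^ 4 * (((s.J i + 1) ^ 2 * Q : ℕ) : ℝ) +
          2 * (C3 * ∑ j ∈ range (s.J i + 1), (s.κ i : ℝ) / s.gh γz i j) := by
      intro i Q hRi
      have h2 : repF (s.cl ω i) (s.cl ω i) n ≤ (2 * C * C) ^ 4 * ((s.J i + 1) ^ 2 * Q) :=
        class_repM s i n Q hRi (ω i)
      have h3 := hits_sum s ω i n ((range i).biUnion (s.cl ω))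
      have h4 : ∑ j ∈ range (s.J i + 1), ((((s.V i j).S (ω i j)) ∩
          refl n ((range i).biUnion (s.cl ω))).card : ℝ) ≤
          ∑ j ∈ range (s.J i + 1), C3 * ((s.κ i : ℝ) / s.gh γz i j) := by
        refine Finset.sum_le_sum (fun j hj => ?_)
        have hj' : j ≤ s.J i := Nat.lt_succ_iff.1 (mem_range.1 hj)
        refine (hω i j hj' n).trans (le_of_eq ?_)
        rw [← mul_div_assoc]
      rw [← mul_sum] at h4
      have h2' : (repF (s.cl ω i) (s.cl ω i) n : ℝ) ≤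
          (2 * (C : ℝ) * C) ^ 4 * (((s.J i + 1) ^ 2 * Q : ℕ) : ℝ) := by
        have e : (((2 * C * C) ^ 4 * ((s.J i + 1) ^ 2 * Q) : ℕ) : ℝ) =
            (2 * (C : ℝ) * C) ^ 4 * (((s.J i + 1) ^ 2 * Q : ℕ) : ℝ) := by push_cast; ring
        rw [← e]
        exact_mod_cast h2
      rw [Nat.cast_add, Nat.cast_mul]
      have e2 : ((2 : ℕ) : ℝ) = 2 := by norm_num
      rw [e2]
      linarith
    have h1 := two_count (s.cl ω) n {t, t - 1} hI
    obtain ⟨a1, ha1⟩ : ∃ a : ℝ, a = (((s.J t + 1) ^ 2 * R : ℕ) : ℝ) := ⟨_, rfl⟩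
    obtain ⟨a2, ha2⟩ : ∃ a : ℝ, a = (((s.J (t - 1) + 1) ^ 2 * R' : ℕ) : ℝ) := ⟨_, rfl⟩
    obtain ⟨b1, hb1⟩ : ∃ a : ℝ, a = ∑ j ∈ range (s.J t + 1), (s.κ t : ℝ) / s.gh γz t j :=
      ⟨_, rfl⟩
    obtain ⟨b2, hb2⟩ : ∃ a : ℝ, a = ∑ j ∈ range (s.J (t - 1) + 1),
      (s.κ (t - 1) : ℝ) / s.gh γz (t - 1) j := ⟨_, rfl⟩
    have ha10 : 0 ≤ a1 := by rw [ha1]; exact Nat.cast_nonneg _
    have ha20 : 0 ≤ a2 := by rw [ha2]; exact Nat.cast_nonneg _
    have hb10 : 0 ≤ b1 := by rw [hb1]; exact Finset.sum_nonneg (fun j _ => by positivity)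
    have hb20 : 0 ≤ b2 := by rw [hb2]; exact Finset.sum_nonneg (fun j _ => by positivity)
    have e1 := hcls t R hR
    have e2 := hcls (t - 1) R' hR'
    rw [← ha1, ← hb1] at e1
    rw [← ha2, ← hb2] at e2
    have hsum : ((∑ i ∈ ({t, t - 1} : Finset ℕ), (repF (s.cl ω i) (s.cl ω i) n +
        2 * (s.cl ω i ∩ refl n ((range i).biUnion (s.cl ω))).card) : ℕ) : ℝ) ≤
        ((2 * (C : ℝ) * C) ^ 4 * a1 + 2 * (C3 * b1)) +
        ((2 * (C : ℝ) * C) ^ 4 * a2 + 2 * (C3 * b2)) := by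
      by_cases h : t = t - 1
      · have hp : ({t, t - 1} : Finset ℕ) = {t} := by rw [← h, Finset.pair_eq_singleton]
        rw [hp, sum_singleton]
        refine e1.trans ?_
        nlinarith [mul_nonneg hCC ha20, mul_nonneg hC3 hb20]
      · rw [sum_pair h, Nat.cast_add]
        exact add_le_add e1 e2
    have h5 : (rA (bigA (s.cl ω)) n : ℝ) ≤
        ((∑ i ∈ ({t, t - 1} : Finset ℕ), (repF (s.cl ω i) (s.cl ω i) n +
        2 * (s.cl ω i ∩ refl n ((range i).biUnion (s.cl ω))).card) : ℕ) : ℝ) := by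
      exact_mod_cast h1
    have e7 : (((2 * C * C) ^ 4 + 2 * C3 : ℕ) : ℝ) = (2 * (C : ℝ) * C) ^ 4 + 2 * C3 := by
      push_cast
      ring
    rw [Nat.cast_add ((s.J t + 1) ^ 2 * R), ← ha1, ← ha2, e7, ← hb1, ← hb2]
    refine (h5.trans hsum).trans ?_
    nlinarith [mul_nonneg hCC hb10, mul_nonneg hCC hb20, mul_nonneg hC3 ha10,
      mul_nonneg hC3 ha20]
  · -- covering
    intro n hn
    have hex : ∃ t, n < 14 * (s.p t) ^ 8 := by
      refine ⟨n, ?_⟩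
      have h1 := p8_loM s n
      have h2 := s.iκ n
      have h3 : 2 ^ n ≤ 2 ^ (8 * s.κ n) := Nat.pow_le_pow_right (by norm_num) (by omega)
      have h4 : n < 2 ^ n := Nat.lt_two_pow_self
      omega
    classical
    obtain ⟨t0, ht0, hmin⟩ : ∃ t, n < 14 * (s.p t) ^ 8 ∧ ∀ i < t, ¬ n < 14 * (s.p i) ^ 8 :=
      ⟨Nat.find hex, Nat.find_spec hex, fun i hi => Nat.find_min hex hi⟩
    have hm0 : t0 ≠ 0 := by
      rintro rfl
      omega
    obtain ⟨t, rfl⟩ := Nat.exists_eq_succ_of_ne_zero hm0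
    have hnt : 14 * (s.p t) ^ 8 ≤ n := not_lt.1 (hmin t (Nat.lt_succ_self t))
    have e5 : t.succ = t + 1 := rfl
    rw [e5] at ht0
    have htop : n < (s.p t) ^ 8 * 2 ^ s.u t := by
      have h1 := p8_hiM s (t + 1)
      have h2 := p8_loM s t
      have h3 := s.touch t
      have h4 : 14 * 2 ^ (8 * s.κ (t + 1) + 8) ≤ (s.p t) ^ 8 * 2 ^ s.u t := by
        calc 14 * 2 ^ (8 * s.κ (t + 1) + 8) ≤ 2 ^ 4 * 2 ^ (8 * s.κ (t + 1) + 8) :=
              Nat.mul_le_mul_right _ (by norm_num)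
          _ = 2 ^ (8 * s.κ t + s.u t) := by rw [← pow_add]; congr 1; omega
          _ = 2 ^ (8 * s.κ t) * 2 ^ s.u t := pow_add _ _ _
          _ ≤ (s.p t) ^ 8 * 2 ^ s.u t := Nat.mul_le_mul_right _ h2
      omega
    -- the smallest block which reaches `n`
    have hexj : ∃ j, j ≤ s.J t ∧ n < (s.p t) ^ 8 * 2 ^ s.w t j :=
      ⟨s.J t, le_rfl, by rw [hwJ t]; exact htop⟩
    obtain ⟨j, ⟨hjJ, hjn⟩, hjmin⟩ : ∃ j, (j ≤ s.J t ∧ n < (s.p t) ^ 8 * 2 ^ s.w t j) ∧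
        ∀ i < j, ¬ (i ≤ s.J t ∧ n < (s.p t) ^ 8 * 2 ^ s.w t i) :=
      ⟨Nat.find hexj, Nat.find_spec hexj, fun i hi => Nat.find_min hexj hi⟩
    obtain ⟨t1, ht1⟩ := s.SV t j (ω t j)
    have hmem : ∀ a, a ∈ (s.V t j).S (ω t j) → a ∈ bigA (s.cl ω) := by
      intro a ha
      refine ⟨t, ?_⟩
      unfold MSys.cl
      rw [mem_biUnion]
      exact ⟨j, Finset.mem_range.2 (by omega), ha⟩
    rcases Nat.eq_zero_or_pos j with hj0 | hj0
    · -- the zone
      subst hj0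
      have hcov := blk_cov (s.prime t).pos (s.Hpos t 0) (by have := s.Cp t; omega) (s.base t)
        (x := 0) (y := 2 ^ s.w t 0) (B := s.T t 0) (fun N _ hN => hT0 t N hN)
      obtain ⟨a, ha, b, hb, hab⟩ := hcov t1 t1 n (by
        rw [mul_comm, s.H0 t]
        exact hnt) hjn
      rw [← ht1] at ha hb
      exact ⟨a, hmem a ha, b, hmem b hb, hab⟩
    · -- the main part
      have hprev := hjmin (j - 1) (by omega)
      have hge : (s.p t) ^ 8 * 2 ^ s.w t (j - 1) ≤ n := by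
        by_contra hc
        exact hprev ⟨by omega, not_le.1 hc⟩
      have hg := hgw t (j - 1) (by omega)
      have ej : j - 1 + 1 = j := by omega
      rw [ej] at hg
      have hcov := blk_cov (s.prime t).pos (s.Hpos t j) (by have := s.Cp t; omega) (s.base t)
        (x := 2 * s.H t j) (y := 2 ^ s.w t j) (B := s.T t j)
        (fun N h1 h2 => hTj t j N hj0 hjJ h1 h2)
      obtain ⟨a, ha, b, hb, hab⟩ := hcov t1 t1 n (by
        refine le_trans (Nat.mul_le_mul_left _ ?_) hge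
        have e1 : 2 ^ (8 * s.γ t j + 6) = 64 * s.H t j := by
          unfold MSys.H
          rw [pow_add]
          ring
        have e2 := s.Hpos t j
        have e3 : 2 ^ (8 * s.γ t j + 6) ≤ 2 ^ s.w t (j - 1) :=
          Nat.pow_le_pow_right (by norm_num) hg
        omega) hjn
      rw [← ht1] at ha hb
      exact ⟨a, hmem a ha, b, hmem b hb, hab⟩

end Pool.Agent.H708.ET
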