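import Pool.Agent.H708.ET.Fin
import Pool.Graph.R_pool_sql_team_seeded_620a6dc7.Helper667_AS.Prep

/-!
# The good sequence
-/

set_option autoImplicit false

namespace Pool.Agent.H708.ET

open Finset Pool.Agent.H125R2.ET Pool.Agent.Helper667_AS

theorem RegH.mono {C1 C1' p k H : ℕ} {S : Finset ℕ} (h : RegH C1 p k H S) (hC : C1 ≤ C1') :
    RegH C1' p k H S :=
  fun d hd s => (h d hd s).trans (Nat.mul_le_mul_right _ hC)

/-- the number of elements in a class of the union of the lower classes -/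
def lowT {C : ℕ} (s : TSys C) (C1 d i : ℕ) : ℕ :=
  ∑ j ∈ range i, ((s.Z j).card + (s.M j).card) * (C1 * ((C + 6) * (s.p j) ^ 4 / d + s.κ j))

theorem low_clsT {C : ℕ} (s : TSys C) {C1 d i : ℕ} (S1 S2 : ℕ → Finset ℕ) (hd : 0 < d)
    (hpd : ∀ j < i, ¬ s.p j ∣ d)
    (hlt1 : ∀ j < i, ∀ x ∈ S1 j, x < (C + 1 + 1 + 4) * (s.p j) ^ 8)
    (hlt2 : ∀ j < i, ∀ x ∈ S2 j, x < (C + s.H j + 1 + 4) * (s.p j) ^ 8)
    (hreg1 : ∀ j < i, RegH C1 (s.p j) (s.κ j) 1 (S1 j))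
    (hreg2 : ∀ j < i, RegH C1 (s.p j) (s.κ j) (s.H j) (S2 j)) :
    ClsLE d ((range i).biUnion (fun j => wd ((s.p j) ^ 8) (s.Z j) (S1 j) ∪
      wd ((s.p j) ^ 8) (s.M j) (S2 j))) (lowT s C1 d i) := by
  intro c
  have hsub : ((range i).biUnion (fun j => wd ((s.p j) ^ 8) (s.Z j) (S1 j) ∪
      wd ((s.p j) ^ 8) (s.M j) (S2 j))).filter (fun x => x % d = c) ⊆
      (range i).biUnion (fun j => (wd ((s.p j) ^ 8) (s.Z j) (S1 j)).filter (fun x => x % d = c) ∪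
        (wd ((s.p j) ^ 8) (s.M j) (S2 j)).filter (fun x => x % d = c)) := by
    intro x hx
    rw [mem_filter, mem_biUnion] at hx
    obtain ⟨⟨j, hj, hx1⟩, hx2⟩ := hx
    rw [mem_biUnion]
    rcases mem_union.1 hx1 with hx1 | hx1
    · exact ⟨j, hj, mem_union_left _ (mem_filter.2 ⟨hx1, hx2⟩)⟩
    · exact ⟨j, hj, mem_union_right _ (mem_filter.2 ⟨hx1, hx2⟩)⟩
  refine (card_le_card hsub).trans (card_biUnion_le.trans (sum_le_sum fun j hj => ?_))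
  have hj' : j < i := mem_range.1 hj
  have hκ := s.Cκ j
  have hH := s.Hpos j
  have a1 := wd_class (m := (s.p j) ^ 8) (B := s.Z j) (fun c' => regH_class (M := C + 6)
    (hreg1 j hj') (fun x hx => by
      have := hlt1 j hj' x hx
      rw [mul_one]
      exact this) (s.prime j).pos one_pos (by omega) hd (hpd j hj') c') c
  have a2 := wd_class (m := (s.p j) ^ 8) (B := s.M j) (fun c' => regH_class (M := C + 6)
    (hreg2 j hj') (fun x hx => by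
      refine lt_of_lt_of_le (hlt2 j hj' x hx) (Nat.mul_le_mul_right _ ?_)
      nlinarith) (s.prime j).pos hH (by omega) hd (hpd j hj') c') c
  refine (card_union_le _ _).trans ?_
  rw [add_mul]
  exact Nat.add_le_add a1 a2

theorem ZMcard_le {C : ℕ} (s : TSys C) (j : ℕ) :
    (s.Z j).card + (s.M j).card ≤ 2 ^ (s.u j + 2) := by
  have h1 : (s.Z j).card ≤ 2 ^ (s.u j + 1) := by
    calc (s.Z j).card ≤ (range (2 ^ (s.u j + 1))).card :=
          card_le_card (fun b hb => mem_range.2 (s.Zlt j b hb))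
      _ = 2 ^ (s.u j + 1) := card_range _
  have h2 : (s.M j).card ≤ 2 ^ (s.u j + 1) := by
    calc (s.M j).card ≤ (range (2 ^ (s.u j + 1))).card :=
          card_le_card (fun b hb => mem_range.2 (s.Mlt j b hb))
      _ = 2 ^ (s.u j + 1) := card_range _
  have h3 : 2 ^ (s.u j + 2) = 2 ^ (s.u j + 1) + 2 ^ (s.u j + 1) := by ring
  omega

/-- a numerical fact -/
theorem num_kappa (C1 : ℕ) : ∃ K0 : ℕ, ∀ κ ≥ K0, (4 * C1 + 4) * κ ^ 2 * 2 ^ (κ / 32 + 1) ≤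
    2 ^ (κ / 2) := by
  obtain ⟨N, hN⟩ := pow_le_two_pow 12
  refine ⟨N + 64 * (4 * C1 + 4), fun κ hκ => ?_⟩
  have h1 : κ ^ 12 ≤ 2 ^ κ := hN κ (by omega)
  refine (Nat.pow_le_pow_iff_left (show 4 ≠ 0 by norm_num)).1 ?_
  have h2 : (4 * C1 + 4) * 16 ≤ κ := by omega
  calc ((4 * C1 + 4) * κ ^ 2 * 2 ^ (κ / 32 + 1)) ^ 4
      = (4 * C1 + 4) ^ 4 * 16 * (κ ^ 8) * (2 ^ (κ / 32)) ^ 4 := by rw [pow_succ 2]; ring
    _ ≤ (4 * C1 + 4) ^ 4 * 16 ^ 4 * (κ ^ 8) * (2 ^ (κ / 32)) ^ 4 := by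
        refine Nat.mul_le_mul_right _ (Nat.mul_le_mul_right _ (Nat.mul_le_mul_left _ ?_))
        norm_num
    _ = ((4 * C1 + 4) * 16) ^ 4 * (κ ^ 8) * 2 ^ (4 * (κ / 32)) := by
        rw [mul_pow ((4 * C1 + 4)) 16, ← pow_mul 2, mul_comm (κ / 32) 4]
    _ ≤ κ ^ 4 * (κ ^ 8) * 2 ^ (4 * (κ / 32)) :=
        Nat.mul_le_mul_right _ (Nat.mul_le_mul_right _ (Nat.pow_le_pow_left h2 4))
    _ = κ ^ 12 * 2 ^ (4 * (κ / 32)) := by ring
    _ ≤ 2 ^ κ * 2 ^ (4 * (κ / 32)) := Nat.mul_le_mul_right _ h1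
    _ = 2 ^ (κ + 4 * (κ / 32)) := (pow_add _ _ _).symm
    _ ≤ 2 ^ (4 * (κ / 2)) := Nat.pow_le_pow_right (by norm_num) (by omega)
    _ = (2 ^ (κ / 2)) ^ 4 := by rw [← pow_mul, mul_comm]

theorem lowT_four {C : ℕ} (s : TSys C) {C1 i : ℕ}
    (hK : (4 * C1 + 4) * (s.κ i) ^ 2 * 2 ^ (s.κ i / 32 + 1) ≤ 2 ^ (s.κ i / 2)) :
    (lowT s C1 ((s.p i) ^ 4) i) ^ 2 ≤ 2 ^ s.κ i := by
  have hCκ := s.Cκ i
  have h1 : ∀ j ∈ range i, ((s.Z j).card + (s.M j).card) *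
      (C1 * ((C + 6) * (s.p j) ^ 4 / (s.p i) ^ 4 + s.κ j)) ≤
      2 ^ (s.κ i / 32 + 1) * (C1 * (2 * s.κ i)) := by
    intro j hj
    have hj' : j < i := mem_range.1 hj
    have hp := s.plt hj'
    have hκ := s.κlt hj'
    have hu := s.ule j
    refine Nat.mul_le_mul ((ZMcard_le s j).trans (Nat.pow_le_pow_right (by norm_num) (by omega)))
      (Nat.mul_le_mul_left _ ?_)
    have h2 : (C + 6) * (s.p j) ^ 4 / (s.p i) ^ 4 ≤ C + 6 := by
      apply Nat.div_le_of_le_mul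
      rw [mul_comm]
      exact Nat.mul_le_mul_right _ (Nat.pow_le_pow_left hp.le 4)
    omega
  have h3 : lowT s C1 ((s.p i) ^ 4) i ≤ 2 ^ (s.κ i / 2) := by
    calc lowT s C1 ((s.p i) ^ 4) i ≤ i * (2 ^ (s.κ i / 32 + 1) * (C1 * (2 * s.κ i))) := by
          unfold lowT
          refine (Finset.sum_le_card_nsmul _ _ _ h1).trans ?_
          rw [card_range, smul_eq_mul]
      _ ≤ s.κ i * (2 ^ (s.κ i / 32 + 1) * (C1 * (2 * s.κ i))) := Nat.mul_le_mul_right _ (s.idx i)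
      _ = (2 * C1) * (s.κ i) ^ 2 * 2 ^ (s.κ i / 32 + 1) := by ring
      _ ≤ (4 * C1 + 4) * (s.κ i) ^ 2 * 2 ^ (s.κ i / 32 + 1) :=
          Nat.mul_le_mul_right _ (Nat.mul_le_mul_right _ (by omega))
      _ ≤ 2 ^ (s.κ i / 2) := hK
  calc (lowT s C1 ((s.p i) ^ 4) i) ^ 2 ≤ (2 ^ (s.κ i / 2)) ^ 2 := Nat.pow_le_pow_left h3 2
    _ = 2 ^ (2 * (s.κ i / 2)) := by rw [← pow_mul, mul_comm]
    _ ≤ 2 ^ s.κ i := Nat.pow_le_pow_right (by norm_num) (by omega)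

theorem sum_pow_κ {C : ℕ} (s : TSys C) (i : ℕ) :
    ∑ j ∈ range i, 2 ^ (4 * s.κ (j + 1)) ≤ 2 * 2 ^ (4 * s.κ i) := by
  induction i with
  | zero => simp
  | succ i ih =>
    rw [sum_range_succ]
    have h1 := s.κsucc i
    have h2 : 2 * 2 ^ (4 * s.κ i) ≤ 2 ^ (4 * s.κ (i + 1)) := by
      rw [← pow_succ']
      exact Nat.pow_le_pow_right (by norm_num) (by omega)
    omega

theorem card_p4 {C : ℕ} (s : TSys C) {i j : ℕ} (hj : j < i) {N : ℕ}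
    (hN : N ^ 2 ≤ 2 ^ (s.u j + 1) * s.κ j) :
    N * (s.p j) ^ 4 ≤ (Nat.sqrt (s.κ i) + 1) * 2 ^ 11 * 2 ^ (4 * s.κ (j + 1)) := by
  refine (Nat.pow_le_pow_iff_left (show 2 ≠ 0 by norm_num)).1 ?_
  have h1 : ((s.p j) ^ 4) ^ 2 ≤ 2 ^ (8 * s.κ j + 8) := by
    calc ((s.p j) ^ 4) ^ 2 = (s.p j) ^ 8 := by ring
      _ ≤ (2 ^ (s.κ j + 1)) ^ 8 := Nat.pow_le_pow_left (s.hi j) 8
      _ = 2 ^ (8 * s.κ j + 8) := by rw [← pow_mul]; ring_nf
  have h2 := s.touch j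
  have h3 : s.κ j ≤ (Nat.sqrt (s.κ i) + 1) ^ 2 := by
    have e1 := s.κlt hj
    have e2 := Nat.lt_succ_sqrt (s.κ i)
    rw [sq]
    have e3 : (Nat.sqrt (s.κ i)).succ = Nat.sqrt (s.κ i) + 1 := rfl
    rw [e3] at e2
    omega
  calc (N * (s.p j) ^ 4) ^ 2 = N ^ 2 * ((s.p j) ^ 4) ^ 2 := mul_pow _ _ _
    _ ≤ (2 ^ (s.u j + 1) * s.κ j) * 2 ^ (8 * s.κ j + 8) := Nat.mul_le_mul hN h1
    _ = s.κ j * 2 ^ (8 * s.κ j + s.u j + 9) := by
        rw [show 8 * s.κ j + s.u j + 9 = (s.u j + 1) + (8 * s.κ j + 8) by ring, pow_add]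
        ring
    _ ≤ (Nat.sqrt (s.κ i) + 1) ^ 2 * 2 ^ (22 + 8 * s.κ (j + 1)) :=
        Nat.mul_le_mul h3 (Nat.pow_le_pow_right (by norm_num) (by omega))
    _ = ((Nat.sqrt (s.κ i) + 1) * 2 ^ 11 * 2 ^ (4 * s.κ (j + 1))) ^ 2 := by
        rw [pow_add, mul_pow, mul_pow, ← pow_mul, ← pow_mul]
        ring_nf

theorem lowT_two {C : ℕ} (s : TSys C) {C1 i : ℕ}
    (hK : (4 * C1 + 4) * (s.κ i) ^ 2 * 2 ^ (s.κ i / 32 + 1) ≤ 2 ^ (s.κ i / 2)) :
    lowT s C1 ((s.p i) ^ 2) i ≤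
      (C1 * ((C + 6) * 2 ^ 13 + 1)) * (Nat.sqrt (s.κ i) + 1) * (s.p i) ^ 2 := by
  have hlo := s.lo i
  have hp4 := fun j (hj : j < i) => card_p4 s hj (s.Zcard j)
  have hp4' := fun j (hj : j < i) => card_p4 s hj (s.Mcard j)
  obtain ⟨q, hq⟩ : ∃ q, q = s.p i := ⟨_, rfl⟩
  obtain ⟨k, hk⟩ : ∃ k, k = s.κ i := ⟨_, rfl⟩
  obtain ⟨σ, hσ⟩ : ∃ σ, σ = Nat.sqrt (s.κ i) + 1 := ⟨_, rfl⟩
  rw [← hq, ← hk] at hlo
  rw [← hk] at hK
  rw [← hσ] at hp4 hp4'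
  rw [← hq, ← hσ]
  have hq2 : 0 < q ^ 2 := by
    have : 0 < q := lt_of_le_of_lt (Nat.zero_le _) hlo
    exact pow_pos this 2
  have hσ1 : 1 ≤ σ := by omega
  -- first part
  have h1 : ∑ j ∈ range i, ((s.Z j).card + (s.M j).card) * (s.p j) ^ 4 ≤ σ * 2 ^ 13 * q ^ 4 := by
    calc ∑ j ∈ range i, ((s.Z j).card + (s.M j).card) * (s.p j) ^ 4
        ≤ ∑ j ∈ range i, σ * 2 ^ 12 * 2 ^ (4 * s.κ (j + 1)) := by
          refine sum_le_sum (fun j hj => ?_)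
          have e1 := hp4 j (mem_range.1 hj)
          have e2 := hp4' j (mem_range.1 hj)
          have e3 : σ * 2 ^ 12 * 2 ^ (4 * s.κ (j + 1)) = σ * 2 ^ 11 * 2 ^ (4 * s.κ (j + 1)) +
              σ * 2 ^ 11 * 2 ^ (4 * s.κ (j + 1)) := by ring
          rw [add_mul, e3]
          exact Nat.add_le_add e1 e2
      _ = σ * 2 ^ 12 * ∑ j ∈ range i, 2 ^ (4 * s.κ (j + 1)) := by rw [mul_sum]
      _ ≤ σ * 2 ^ 12 * (2 * 2 ^ (4 * s.κ i)) := Nat.mul_le_mul_left _ (sum_pow_κ s i)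
      _ = σ * 2 ^ 13 * (2 ^ k) ^ 4 := by rw [← hk, ← pow_mul]; ring
      _ ≤ σ * 2 ^ 13 * q ^ 4 := Nat.mul_le_mul_left _ (Nat.pow_le_pow_left hlo.le 4)
  have h2 : ∑ j ∈ range i, ((s.Z j).card + (s.M j).card) * ((C + 6) * (s.p j) ^ 4 / q ^ 2) ≤
      (C + 6) * 2 ^ 13 * σ * q ^ 2 := by
    refine Nat.le_of_mul_le_mul_right ?_ hq2
    rw [sum_mul]
    calc ∑ j ∈ range i, ((s.Z j).card + (s.M j).card) * ((C + 6) * (s.p j) ^ 4 / q ^ 2) * q ^ 2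
        ≤ ∑ j ∈ range i, (C + 6) * (((s.Z j).card + (s.M j).card) * (s.p j) ^ 4) := by
          refine sum_le_sum (fun j _ => ?_)
          calc ((s.Z j).card + (s.M j).card) * ((C + 6) * (s.p j) ^ 4 / q ^ 2) * q ^ 2
              = ((s.Z j).card + (s.M j).card) * ((C + 6) * (s.p j) ^ 4 / q ^ 2 * q ^ 2) := by ring
            _ ≤ ((s.Z j).card + (s.M j).card) * ((C + 6) * (s.p j) ^ 4) :=
                Nat.mul_le_mul_left _ (Nat.div_mul_le_self _ _)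
            _ = (C + 6) * (((s.Z j).card + (s.M j).card) * (s.p j) ^ 4) := by ring
      _ = (C + 6) * ∑ j ∈ range i, ((s.Z j).card + (s.M j).card) * (s.p j) ^ 4 := by rw [mul_sum]
      _ ≤ (C + 6) * (σ * 2 ^ 13 * q ^ 4) := Nat.mul_le_mul_left _ h1
      _ = (C + 6) * 2 ^ 13 * σ * q ^ 2 * q ^ 2 := by ring
  -- second part
  have h3 : ∑ j ∈ range i, ((s.Z j).card + (s.M j).card) * s.κ j ≤ q ^ 2 := by
    have e1 : ∀ j ∈ range i, ((s.Z j).card + (s.M j).card) * s.κ j ≤ 2 ^ (k / 32 + 1) * k := by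
      intro j hj
      have hj' : j < i := mem_range.1 hj
      have hκ := s.κlt hj'
      have hu := s.ule j
      rw [hk]
      exact Nat.mul_le_mul ((ZMcard_le s j).trans (Nat.pow_le_pow_right (by norm_num) (by omega)))
        (by omega)
    calc ∑ j ∈ range i, ((s.Z j).card + (s.M j).card) * s.κ j
        ≤ i * (2 ^ (k / 32 + 1) * k) := by
          refine (Finset.sum_le_card_nsmul _ _ _ e1).trans ?_
          rw [card_range, smul_eq_mul]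
      _ ≤ k * (2 ^ (k / 32 + 1) * k) := Nat.mul_le_mul_right _ (by rw [hk]; exact s.idx i)
      _ = 1 * k ^ 2 * 2 ^ (k / 32 + 1) := by ring
      _ ≤ (4 * C1 + 4) * k ^ 2 * 2 ^ (k / 32 + 1) :=
          Nat.mul_le_mul_right _ (Nat.mul_le_mul_right _ (by omega))
      _ ≤ 2 ^ (k / 2) := hK
      _ ≤ 2 ^ (2 * k) := Nat.pow_le_pow_right (by norm_num) (by omega)
      _ = (2 ^ k) ^ 2 := by rw [← pow_mul, mul_comm]
      _ ≤ q ^ 2 := Nat.pow_le_pow_left hlo.le 2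
  have h4 : lowT s C1 (q ^ 2) i = C1 * (∑ j ∈ range i, ((s.Z j).card + (s.M j).card) *
      ((C + 6) * (s.p j) ^ 4 / q ^ 2) + ∑ j ∈ range i, ((s.Z j).card + (s.M j).card) * s.κ j) := by
    unfold lowT
    rw [← Finset.sum_add_distrib, Finset.mul_sum]
    refine Finset.sum_congr rfl (fun j _ => ?_)
    ring
  rw [h4]
  calc C1 * (∑ j ∈ range i, ((s.Z j).card + (s.M j).card) *
      ((C + 6) * (s.p j) ^ 4 / q ^ 2) + ∑ j ∈ range i, ((s.Z j).card + (s.M j).card) * s.κ j)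
      ≤ C1 * ((C + 6) * 2 ^ 13 * σ * q ^ 2 + q ^ 2) := Nat.mul_le_mul_left _ (Nat.add_le_add h2 h3)
    _ ≤ C1 * ((C + 6) * 2 ^ 13 * σ * q ^ 2 + σ * q ^ 2) := by
        refine Nat.mul_le_mul_left _ (Nat.add_le_add_left ?_ _)
        exact Nat.le_mul_of_pos_left _ (by omega)
    _ = (C1 * ((C + 6) * 2 ^ 13 + 1)) * σ * q ^ 2 := by ring

theorem Pr_fst (X Y : RFS) (A : X.Ω → Prop) : (pair X Y).Pr (fun ω => A ω.1) = X.Pr A := by
  unfold RFS.Pr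
  have h := E_pair X Y (fun ω => ind (A ω.1))
  refine h.trans ?_
  congr 1
  funext x
  exact E_const Y (ind (A x))

theorem Pr_snd (X Y : RFS) (A : Y.Ω → Prop) : (pair X Y).Pr (fun ω => A ω.2) = Y.Pr A := by
  unfold RFS.Pr
  have h := E_pair X Y (fun ω => ind (A ω.2))
  refine h.trans ?_
  exact E_const X (Y.E fun ω => ind (A ω))

/-- the good sequence -/
theorem good_T (C : ℕ) :
    ∃ C3 K0 : ℕ, ∀ (s : TSys C), (∀ i, K0 ≤ s.κ i) → (∀ i, K0 ≤ s.γ i) → ∀ γz : ℕ → ℕ,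
      (∀ i, 1 ≤ γz i) → (∀ i, 2 ^ (2 * γz i) ≤ s.κ i) →
      ∃ ω : ∀ i, (s.W i).Ω, ∀ i n,
        ((((s.W1 i).S (ω i).1) ∩ refl n ((range i).biUnion (fun j => (s.W j).S (ω j)))).card : ℝ) ≤
          C3 * s.κ i / γz i ∧
        ((((s.W2 i).S (ω i).2) ∩ refl n ((range i).biUnion (fun j => (s.W j).S (ω j)))).card : ℝ) ≤
          C3 * s.κ i / s.γ i := by
  obtain ⟨CZ, kZ, hZ⟩ := reg_Z C
  obtain ⟨CM, kM, hMM⟩ := reg_M C
  obtain ⟨KS, hSpr⟩ := spr_T C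
  obtain ⟨K1, hK1⟩ := num_kappa (CZ + CM)
  obtain ⟨C3, k3, hFZ⟩ := fin_Z C ((CZ + CM) * ((C + 6) * 2 ^ 13 + 1))
  obtain ⟨C4, k4, hFM⟩ := fin_M C ((CZ + CM) * ((C + 6) * 2 ^ 13 + 1))
  refine ⟨C3 + C4, kZ + kM + KS + K1 + k3 + k4 + C + 8, ?_⟩
  intro s hK hKγ γz hγz1 hγz
  -- the events
  set F : ∀ i, (pre s.W i).Ω → (s.W i).Ω → Prop := fun i x w =>
    (RegH CZ (s.p i) (s.κ i) 1 ((s.X1 i).S w.1) ∧
      RegH CM (s.p i) (s.κ i) (s.H i) ((s.X2 i).S w.2)) ∧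
      ((∀ n, ((((s.W1 i).S w.1) ∩ refl n ((pre s.W i).S x)).card : ℝ) ≤ C3 * s.κ i / γz i) ∧
      (∀ n, ((((s.W2 i).S w.2) ∩ refl n ((pre s.W i).S x)).card : ℝ) ≤ C4 * s.κ i / s.γ i))
    with hFdef
  set Sp : ∀ i, (pre s.W i).Ω → Prop := fun i x =>
    ClsLE ((s.p i) ^ 6) ((pre s.W i).S x) 66 with hSpdef
  obtain ⟨ω, hω⟩ := exists_good s.W (T18.GG s.W F Sp) F Sp (fun x hx => hx) (fun i x w => Iff.rfl)
    (by
      intro i x hx
      have hKi := hK i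
      have hKγi := hKγ i
      obtain ⟨ω, rfl⟩ := T18.pt_surj s.W i x
      obtain ⟨hF, hS⟩ := T18.GG_pt s.W F Sp ω i hx
      have hSpt : (pre s.W i).S (pt s.W ω i) = (range i).biUnion
          (fun j => wd ((s.p j) ^ 8) (s.Z j) ((s.X1 j).S (ω j).1) ∪
            wd ((s.p j) ^ 8) (s.M j) ((s.X2 j).S (ω j).2)) := T18.S_pt s.W ω i
      have hnd : ∀ e : ℕ, ∀ j < i, ¬ s.p j ∣ (s.p i) ^ e := by
        intro e j hj hdvd
        have h1 := (s.prime j).dvd_of_dvd_pow hdvd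
        have h2 := (Nat.prime_dvd_prime_iff_eq (s.prime j) (s.prime i)).1 h1
        have := s.plt hj
        omega
      have hlt1 : ∀ j < i, ∀ y ∈ (s.X1 j).S (ω j).1, y < (C + 1 + 1 + 4) * (s.p j) ^ 8 :=
        fun j _ y hy => (blk_range (s.prime j).pos one_pos (by have := s.Cp j; omega)
          (by have := s.Cp j; omega) (s.base j) (U := 1) (by simp) _ y hy).2
      have hlt2 : ∀ j < i, ∀ y ∈ (s.X2 j).S (ω j).2, y < (C + s.H j + 1 + 4) * (s.p j) ^ 8 :=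
        fun j _ y hy => (blk_range (s.prime j).pos (s.Hpos j) (by have := s.Cp j; omega)
          (by have := s.Cp j; omega) (s.base j) (U := 1) (by simp) _ y hy).2
      have hc4 := low_clsT s (C1 := CZ + CM) (fun j => (s.X1 j).S (ω j).1)
        (fun j => (s.X2 j).S (ω j).2) (pow_pos (s.prime i).pos 4) (hnd 4) hlt1 hlt2
        (fun j hj => (hF j hj).1.1.mono (Nat.le_add_right _ _))
        (fun j hj => (hF j hj).1.2.mono (Nat.le_add_left _ _))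
      have hc2 := low_clsT s (C1 := CZ + CM) (fun j => (s.X1 j).S (ω j).1)
        (fun j => (s.X2 j).S (ω j).2) (pow_pos (s.prime i).pos 2) (hnd 2) hlt1 hlt2
        (fun j hj => (hF j hj).1.1.mono (Nat.le_add_right _ _))
        (fun j hj => (hF j hj).1.2.mono (Nat.le_add_left _ _))
      rw [← hSpt] at hc4 hc2
      have hY : ∀ y ∈ (pre s.W i).S (pt s.W ω i), y < 2 ^ 22 * (s.p i) ^ 8 :=
        fun y hy => s.pre_lt i _ hy
      have hnum := hK1 (s.κ i) (by omega)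
      have hγu := s.γu i
      have hfinZ := hFZ (s.κ i) (by omega) (γz i) (hγz1 i) (hγz i) (s.p i)
        (s.prime i).pos (s.D i) (s.lo i) (s.hi i) (s.base i) (s.u i) (s.Z i) (s.ule i) (by omega)
        (s.Zlt i) (s.width1 i) _ hY hS _ hc4
        (lowT_four s hnum) _ hc2 (lowT_two s hnum)
      have hfinM := hFM (s.κ i) (by omega) (s.γ i) (by omega) (s.p i)
        (s.prime i).pos (s.H i) (s.Hpos i) (s.D i) (s.lo i) (s.hi i) (s.base i) (s.u i) (s.M i)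
        (s.ule i) (by omega) (s.Mlt i) (s.width i) (s.β i) (s.win i) (s.βle i) _ hY hS _ hc4
        (lowT_four s hnum) _ hc2 (lowT_two s hnum)
      have hregZ := hZ (s.κ i) (by omega) (s.p i) (s.prime i).pos (s.D i) (s.prime i) (s.lo i)
        (s.hi i) (s.base i)
      have hregM := hMM (s.κ i) (by omega) (s.p i) (s.prime i).pos (s.H i) (s.Hpos i) (s.D i)
        (s.prime i) (s.lo i) (s.hi i) (s.base i) (by
          have : 8 * s.γ i < 2 ^ (8 * s.γ i) := Nat.lt_two_pow_self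
          have e : s.H i = 2 ^ (8 * s.γ i) := rfl
          omega) (by
          have e1 := s.width i
          have e2 := s.ule i
          have e3 : 2 ^ (s.u i + 2) ≤ 2 ^ s.κ i := Nat.pow_le_pow_right (by norm_num) (by omega)
          have e4 : 1 ≤ 2 ^ (s.u i + 1) := Nat.one_le_two_pow
          omega)
      have hle : (s.W i).Pr (fun w => ¬ F i (pt s.W ω i) w) ≤
          (s.W i).Pr (fun w =>
            ((¬ RegH CZ (s.p i) (s.κ i) 1 ((s.X1 i).S w.1)) ∨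
              (¬ RegH CM (s.p i) (s.κ i) (s.H i) ((s.X2 i).S w.2))) ∨
            ((¬ ∀ n, ((((s.W1 i).S w.1) ∩ refl n ((pre s.W i).S (pt s.W ω i))).card : ℝ) ≤
              C3 * s.κ i / γz i) ∨
            (¬ ∀ n, ((((s.W2 i).S w.2) ∩ refl n ((pre s.W i).S (pt s.W ω i))).card : ℝ) ≤
              C4 * s.κ i / s.γ i))) :=
        Pr_mono (s.W i) (fun w hw => by
          rcases not_and_or.1 hw with h | h
          · exact Or.inl (not_and_or.1 h)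
          · exact Or.inr (not_and_or.1 h))
      refine hle.trans ((Pr_or_le _ _ _).trans ?_)
      have b1 : (s.W i).Pr (fun w => ¬ RegH CZ (s.p i) (s.κ i) 1 ((s.X1 i).S w.1)) ≤
          1 / 2 ^ (s.κ i + 3) := (Pr_fst (s.W1 i) (s.W2 i) (fun w =>
            ¬ RegH CZ (s.p i) (s.κ i) 1 ((s.X1 i).S w))).le.trans hregZ
      have b2 : (s.W i).Pr (fun w => ¬ RegH CM (s.p i) (s.κ i) (s.H i) ((s.X2 i).S w.2)) ≤
          1 / 2 ^ (s.κ i + 3) := (Pr_snd (s.W1 i) (s.W2 i) (fun w =>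
            ¬ RegH CM (s.p i) (s.κ i) (s.H i) ((s.X2 i).S w))).le.trans hregM
      have b3 : (s.W i).Pr (fun w => ¬ ∀ n, ((((s.W1 i).S w.1) ∩
          refl n ((pre s.W i).S (pt s.W ω i))).card : ℝ) ≤ C3 * s.κ i / γz i) ≤
          1 / 2 ^ (s.κ i + 3) := (Pr_fst (s.W1 i) (s.W2 i) (fun w => ¬ ∀ n,
            ((((s.W1 i).S w) ∩ refl n ((pre s.W i).S (pt s.W ω i))).card : ℝ) ≤
              C3 * s.κ i / γz i)).le.trans hfinZ
      have b4 : (s.W i).Pr (fun w => ¬ ∀ n, ((((s.W2 i).S w.2) ∩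
          refl n ((pre s.W i).S (pt s.W ω i))).card : ℝ) ≤ C4 * s.κ i / s.γ i) ≤
          1 / 2 ^ (s.κ i + 3) := (Pr_snd (s.W1 i) (s.W2 i) (fun w => ¬ ∀ n,
            ((((s.W2 i).S w) ∩ refl n ((pre s.W i).S (pt s.W ω i))).card : ℝ) ≤
              C4 * s.κ i / s.γ i)).le.trans hfinM
      refine (add_le_add ((Pr_or_le _ _ _).trans (add_le_add b1 b2))
        ((Pr_or_le _ _ _).trans (add_le_add b3 b4))).trans ?_
      have h8 : (2 : ℝ) ^ 3 ≤ 2 ^ (s.κ i + 3) := pow_le_pow_right₀ (by norm_num) (by omega)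
      have h9 : (1 : ℝ) / 2 ^ (s.κ i + 3) ≤ 1 / 2 ^ 3 :=
        one_div_le_one_div_of_le (by norm_num) h8
      norm_num at h9 ⊢
      linarith)
    (by
      intro i
      refine (hSpr s (fun i => by have := hK i; omega) i).trans ?_
      refine one_div_le_one_div_of_le (by positivity) ?_
      have h5 : (2 : ℝ) * 4 ^ i = 2 ^ (2 * i + 1) := by
        rw [pow_succ, pow_mul]
        norm_num
        ring
      rw [h5]
      have := s.idx i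
      exact pow_le_pow_right₀ (by norm_num) (by omega))
  refine ⟨ω, fun i n => ?_⟩
  obtain ⟨-, h5, h6⟩ := (T18.GG_pt s.W F Sp ω (i + 1) (hω (i + 1))).1 i (Nat.lt_succ_self i)
  have h5' := h5 n
  have h6' := h6 n
  rw [T18.S_pt] at h5' h6'
  have hκ0 : (0 : ℝ) ≤ s.κ i := Nat.cast_nonneg _
  have e3 : (0 : ℝ) ≤ C3 := Nat.cast_nonneg _
  have e4 : (0 : ℝ) ≤ C4 := Nat.cast_nonneg _
  constructor
  · refine h5'.trans (div_le_div_of_nonneg_right ?_ (Nat.cast_nonneg _))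
    refine mul_le_mul_of_nonneg_right ?_ hκ0
    push_cast
    linarith
  · refine h6'.trans (div_le_div_of_nonneg_right ?_ (Nat.cast_nonneg _))
    refine mul_le_mul_of_nonneg_right ?_ hκ0
    push_cast
    linarith

end Pool.Agent.H708.ET
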