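import Pool.Agent.H708.ET.MSpr
import Pool.Agent.H708.ET.Seq

/-!
# The good sequence, several amplitudes
-/

set_option autoImplicit false

namespace Pool.Agent.H708.ET

open Finset Pool.Agent.H125R2.ET Pool.Agent.Helper667_AS

/-- all the coordinates have a given property -/
def AllJ (X : ℕ → RFS) (P : ∀ j, (X j).Ω → Prop) : ∀ n, (pre X n).Ω → Prop
  | 0 => fun _ => True
  | (n + 1) => fun (x : (pre X n).Ω × (X n).Ω) => AllJ X P n x.1 ∧ P n x.2

theorem allJ_pt (X : ℕ → RFS) (P : ∀ j, (X j).Ω → Prop) (ω : ∀ j, (X j).Ω) (n : ℕ) :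
    AllJ X P n (pt X ω n) ↔ ∀ j < n, P j (ω j) := by
  induction n with
  | zero => exact ⟨fun _ j hj => absurd hj (Nat.not_lt_zero j), fun _ => trivial⟩
  | succ n ih =>
    have h : AllJ X P (n + 1) (pt X ω (n + 1)) ↔ (AllJ X P n (pt X ω n) ∧ P n (ω n)) := Iff.rfl
    rw [h, ih]
    constructor
    · rintro ⟨h1, h2⟩ j hj
      rcases Nat.lt_succ_iff_lt_or_eq.1 hj with hj | rfl
      · exact h1 j hj
      · exact h2
    · intro h1
      exact ⟨fun j hj => h1 j (by omega), h1 n (Nat.lt_succ_self n)⟩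

theorem allJ_Pr (X : ℕ → RFS) (P : ∀ j, (X j).Ω → Prop) (n : ℕ) {ε : ℝ}
    (h : ∀ j < n, (X j).Pr (fun w => ¬ P j w) ≤ ε) :
    (pre X n).Pr (fun x => ¬ AllJ X P n x) ≤ n * ε := by
  induction n with
  | zero =>
    have : (fun x : (pre X 0).Ω => ind (¬ AllJ X P 0 x)) = fun _ => (0 : ℝ) := by
      funext x
      exact ind_false (fun hn => hn trivial)
    unfold RFS.Pr
    rw [this, E_const]
    simp
  | succ n ih =>
    have h1 := ih (fun j hj => h j (by omega))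
    have h2 := h n (Nat.lt_succ_self n)
    have h3 : (pre X (n + 1)).Pr (fun x => ¬ AllJ X P (n + 1) x) ≤
        (pair (pre X n) (X n)).Pr (fun x => (¬ AllJ X P n x.1) ∨ (¬ P n x.2)) :=
      Pr_mono (pair (pre X n) (X n)) (fun x hx => not_and_or.1 hx)
    refine h3.trans ((Pr_or_le _ _ _).trans ?_)
    have h4 := Pr_fst (pre X n) (X n) (fun x => ¬ AllJ X P n x)
    have h5 := Pr_snd (pre X n) (X n) (fun x => ¬ P n x)
    rw [h4, h5]
    push_cast
    linarith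

/-- the number of elements in a class of the union of the lower classes -/
def lowM {C : ℕ} (s : MSys C) (C1 d i : ℕ) : ℕ :=
  ∑ j ∈ range i, (∑ l ∈ range (s.J j + 1), (s.T j l).card) *
    (C1 * ((C + 6) * (s.p j) ^ 4 / d + s.κ j))

theorem low_clsM {C : ℕ} (s : MSys C) {C1 d i : ℕ} (S : ℕ → ℕ → Finset ℕ) (hd : 0 < d)
    (hpd : ∀ j < i, ¬ s.p j ∣ d)
    (hlt : ∀ j < i, ∀ l < s.J j + 1, ∀ x ∈ S j l, x < (C + s.H j l + 1 + 4) * (s.p j) ^ 8)
    (hreg : ∀ j < i, ∀ l < s.J j + 1, RegH C1 (s.p j) (s.κ j) (s.H j l) (S j l)) :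
    ClsLE d ((range i).biUnion (fun j => (range (s.J j + 1)).biUnion (fun l =>
      wd ((s.p j) ^ 8) (s.T j l) (S j l)))) (lowM s C1 d i) := by
  intro c
  have hsub : ((range i).biUnion (fun j => (range (s.J j + 1)).biUnion (fun l =>
      wd ((s.p j) ^ 8) (s.T j l) (S j l)))).filter (fun x => x % d = c) ⊆
      (range i).biUnion (fun j => (range (s.J j + 1)).biUnion (fun l =>
        (wd ((s.p j) ^ 8) (s.T j l) (S j l)).filter (fun x => x % d = c))) := by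
    intro x hx
    rw [mem_filter, mem_biUnion] at hx
    obtain ⟨⟨j, hj, hx1⟩, hx2⟩ := hx
    rw [mem_biUnion] at hx1
    obtain ⟨l, hl, hx1⟩ := hx1
    rw [mem_biUnion]
    refine ⟨j, hj, ?_⟩
    rw [mem_biUnion]
    exact ⟨l, hl, mem_filter.2 ⟨hx1, hx2⟩⟩
  refine (card_le_card hsub).trans (card_biUnion_le.trans (sum_le_sum fun j hj => ?_))
  have hj' : j < i := mem_range.1 hj
  have hκ := s.Cκ j
  rw [sum_mul]
  refine card_biUnion_le.trans (sum_le_sum fun l hl => ?_)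
  have hl' : l < s.J j + 1 := mem_range.1 hl
  have hH := s.Hpos j l
  exact wd_class (m := (s.p j) ^ 8) (B := s.T j l) (fun c' => regH_class (M := C + 6)
    (hreg j hj' l hl') (fun x hx => by
      refine lt_of_lt_of_le (hlt j hj' l hl' x hx) (Nat.mul_le_mul_right _ ?_)
      nlinarith) (s.prime j).pos hH (by omega) hd (hpd j hj') c') c

theorem Tsum_le {C : ℕ} (s : MSys C) (j : ℕ) :
    ∑ l ∈ range (s.J j + 1), (s.T j l).card ≤ 2 ^ (s.κ j / 32 + 1) * s.κ j := by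
  have h1 : ∀ l ∈ range (s.J j + 1), (s.T j l).card ≤ 2 ^ (s.κ j / 32 + 1) := by
    intro l hl
    calc (s.T j l).card ≤ (range (2 ^ (s.u j + 1))).card :=
          card_le_card (fun b hb => mem_range.2
            (s.Tltu (Nat.lt_succ_iff.1 (mem_range.1 hl)) b hb))
      _ = 2 ^ (s.u j + 1) := card_range _
      _ ≤ 2 ^ (s.κ j / 32 + 1) := by
          refine Nat.pow_le_pow_right (by norm_num) ?_
          have := s.ule j
          omega
  refine (Finset.sum_le_card_nsmul _ _ _ h1).trans ?_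
  rw [card_range, smul_eq_mul, mul_comm]
  exact Nat.mul_le_mul_left _ (s.Jκ j)

/-- a numerical fact -/
theorem num_kappa3 (C1 : ℕ) : ∃ K0 : ℕ, ∀ κ ≥ K0, (4 * C1 + 4) * κ ^ 3 * 2 ^ (κ / 32 + 1) ≤
    2 ^ (κ / 2) := by
  obtain ⟨N, hN⟩ := pow_le_two_pow 16
  refine ⟨N + 64 * (4 * C1 + 4), fun κ hκ => ?_⟩
  have h1 : κ ^ 16 ≤ 2 ^ κ := hN κ (by omega)
  refine (Nat.pow_le_pow_iff_left (show 4 ≠ 0 by norm_num)).1 ?_
  have h2 : (4 * C1 + 4) * 16 ≤ κ := by omega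
  calc ((4 * C1 + 4) * κ ^ 3 * 2 ^ (κ / 32 + 1)) ^ 4
      = (4 * C1 + 4) ^ 4 * 16 * (κ ^ 12) * (2 ^ (κ / 32)) ^ 4 := by rw [pow_succ 2]; ring
    _ ≤ (4 * C1 + 4) ^ 4 * 16 ^ 4 * (κ ^ 12) * (2 ^ (κ / 32)) ^ 4 := by
        refine Nat.mul_le_mul_right _ (Nat.mul_le_mul_right _ (Nat.mul_le_mul_left _ ?_))
        norm_num
    _ = ((4 * C1 + 4) * 16) ^ 4 * (κ ^ 12) * 2 ^ (4 * (κ / 32)) := by
        rw [mul_pow ((4 * C1 + 4)) 16, ← pow_mul 2, mul_comm (κ / 32) 4]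
    _ ≤ κ ^ 4 * (κ ^ 12) * 2 ^ (4 * (κ / 32)) :=
        Nat.mul_le_mul_right _ (Nat.mul_le_mul_right _ (Nat.pow_le_pow_left h2 4))
    _ = κ ^ 16 * 2 ^ (4 * (κ / 32)) := by ring
    _ ≤ 2 ^ κ * 2 ^ (4 * (κ / 32)) := Nat.mul_le_mul_right _ h1
    _ = 2 ^ (κ + 4 * (κ / 32)) := (pow_add _ _ _).symm
    _ ≤ 2 ^ (4 * (κ / 2)) := Nat.pow_le_pow_right (by norm_num) (by omega)
    _ = (2 ^ (κ / 2)) ^ 4 := by rw [← pow_mul, mul_comm]

theorem MSys.iκ {C : ℕ} (s : MSys C) (i : ℕ) : i ≤ s.κ i := by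
  refine le_trans ?_ (s.idx i)
  calc i = ∑ _i' ∈ Finset.range i, 1 := by simp
    _ ≤ ∑ i' ∈ Finset.range i, (s.J i' + 1) := sum_le_sum (fun j _ => by omega)

theorem lowM_four {C : ℕ} (s : MSys C) {C1 i : ℕ}
    (hK : (4 * C1 + 4) * (s.κ i) ^ 3 * 2 ^ (s.κ i / 32 + 1) ≤ 2 ^ (s.κ i / 2)) :
    (lowM s C1 ((s.p i) ^ 4) i) ^ 2 ≤ 2 ^ s.κ i := by
  have hCκ := s.Cκ i
  have h1 : ∀ j ∈ range i, (∑ l ∈ range (s.J j + 1), (s.T j l).card) *
      (C1 * ((C + 6) * (s.p j) ^ 4 / (s.p i) ^ 4 + s.κ j)) ≤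
      2 ^ (s.κ i / 32 + 1) * s.κ i * (C1 * (2 * s.κ i)) := by
    intro j hj
    have hj' : j < i := mem_range.1 hj
    have hp := s.plt hj'
    have hκ := s.κlt hj'
    refine Nat.mul_le_mul ((Tsum_le s j).trans (Nat.mul_le_mul
      (Nat.pow_le_pow_right (by norm_num) (by omega)) (by omega)))
      (Nat.mul_le_mul_left _ ?_)
    have h2 : (C + 6) * (s.p j) ^ 4 / (s.p i) ^ 4 ≤ C + 6 := by
      apply Nat.div_le_of_le_mul
      rw [mul_comm]
      exact Nat.mul_le_mul_right _ (Nat.pow_le_pow_left hp.le 4)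
    omega
  have h3 : lowM s C1 ((s.p i) ^ 4) i ≤ 2 ^ (s.κ i / 2) := by
    calc lowM s C1 ((s.p i) ^ 4) i ≤
          i * (2 ^ (s.κ i / 32 + 1) * s.κ i * (C1 * (2 * s.κ i))) := by
          unfold lowM
          refine (Finset.sum_le_card_nsmul _ _ _ h1).trans ?_
          rw [card_range, smul_eq_mul]
      _ ≤ s.κ i * (2 ^ (s.κ i / 32 + 1) * s.κ i * (C1 * (2 * s.κ i))) :=
          Nat.mul_le_mul_right _ (s.iκ i)
      _ = (2 * C1) * (s.κ i) ^ 3 * 2 ^ (s.κ i / 32 + 1) := by ring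
      _ ≤ (4 * C1 + 4) * (s.κ i) ^ 3 * 2 ^ (s.κ i / 32 + 1) :=
          Nat.mul_le_mul_right _ (Nat.mul_le_mul_right _ (by omega))
      _ ≤ 2 ^ (s.κ i / 2) := hK
  calc (lowM s C1 ((s.p i) ^ 4) i) ^ 2 ≤ (2 ^ (s.κ i / 2)) ^ 2 := Nat.pow_le_pow_left h3 2
    _ = 2 ^ (2 * (s.κ i / 2)) := by rw [← pow_mul, mul_comm]
    _ ≤ 2 ^ s.κ i := Nat.pow_le_pow_right (by norm_num) (by omega)

theorem sum_pow_κM {C : ℕ} (s : MSys C) (i : ℕ) :
    ∑ j ∈ range i, 2 ^ (4 * s.κ (j + 1)) ≤ 2 * 2 ^ (4 * s.κ i) := by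
  induction i with
  | zero => simp
  | succ i ih =>
    rw [sum_range_succ]
    have h1 := s.κsucc i
    have h2 : 2 * 2 ^ (4 * s.κ i) ≤ 2 ^ (4 * s.κ (i + 1)) := by
      rw [← pow_succ']
      exact Nat.pow_le_pow_right (by norm_num) (by omega)
    omega

theorem card_p4M {C : ℕ} (s : MSys C) {i j : ℕ} (hj : j < i) {N : ℕ}
    (hN : N ^ 2 ≤ 2 ^ (s.u j + 1) * s.κ j) :
    N * (s.p j) ^ 4 ≤ (Nat.sqrt (s.κ i) + 1) * 2 ^ 11 * 2 ^ (4 * s.κ (j + 1)) := by
  refine (Nat.pow_le_pow_iff_left (show 2 ≠ 0 by norm_num)).1 ?_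
  have h1 : ((s.p j) ^ 4) ^ 2 ≤ 2 ^ (8 * s.κ j + 8) := by
    calc ((s.p j) ^ 4) ^ 2 = (s.p j) ^ 8 := by ring
      _ ≤ (2 ^ (s.κ j + 1)) ^ 8 := Nat.pow_le_pow_left (s.hi j) 8
      _ = 2 ^ (8 * s.κ j + 8) := by rw [← pow_mul]; ring_nf
  have h2 := s.touch j
  have h3 : s.κ j ≤ (Nat.sqrt (s.κ i) + 1) ^ 2 := by
    have e1 := s.κlt hj
    have e2 := Nat.lt_succ_sqrt (s.κ i)
    rw [sq]
    have e3 : (Nat.sqrt (s.κ i)).succ = Nat.sqrt (s.κ i) + 1 := rfl
    rw [e3] at e2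
    omega
  calc (N * (s.p j) ^ 4) ^ 2 = N ^ 2 * ((s.p j) ^ 4) ^ 2 := mul_pow _ _ _
    _ ≤ (2 ^ (s.u j + 1) * s.κ j) * 2 ^ (8 * s.κ j + 8) := Nat.mul_le_mul hN h1
    _ = s.κ j * 2 ^ (8 * s.κ j + s.u j + 9) := by
        rw [show 8 * s.κ j + s.u j + 9 = (s.u j + 1) + (8 * s.κ j + 8) by ring, pow_add]
        ring
    _ ≤ (Nat.sqrt (s.κ i) + 1) ^ 2 * 2 ^ (22 + 8 * s.κ (j + 1)) :=
        Nat.mul_le_mul h3 (Nat.pow_le_pow_right (by norm_num) (by omega))
    _ = ((Nat.sqrt (s.κ i) + 1) * 2 ^ 11 * 2 ^ (4 * s.κ (j + 1))) ^ 2 := by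
        rw [pow_add, mul_pow, mul_pow, ← pow_mul, ← pow_mul]
        ring_nf

theorem lowM_two {C : ℕ} (s : MSys C) {C1 i : ℕ}
    (hK : (4 * C1 + 4) * (s.κ i) ^ 3 * 2 ^ (s.κ i / 32 + 1) ≤ 2 ^ (s.κ i / 2)) :
    lowM s C1 ((s.p i) ^ 2) i ≤
      (C1 * ((C + 6) * 2 ^ 13 + 1)) * (Nat.sqrt (s.κ i) + 1) * (s.p i) ^ 2 := by
  have hlo := s.lo i
  have hp4 := fun j (hj : j < i) => card_p4M s hj (s.Tcard j)
  obtain ⟨q, hq⟩ : ∃ q, q = s.p i := ⟨_, rfl⟩
  obtain ⟨k, hk⟩ : ∃ k, k = s.κ i := ⟨_, rfl⟩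
  obtain ⟨σ, hσ⟩ : ∃ σ, σ = Nat.sqrt (s.κ i) + 1 := ⟨_, rfl⟩
  rw [← hq, ← hk] at hlo
  rw [← hk] at hK
  rw [← hσ] at hp4
  rw [← hq, ← hσ]
  have hq2 : 0 < q ^ 2 := by
    have : 0 < q := lt_of_le_of_lt (Nat.zero_le _) hlo
    exact pow_pos this 2
  have hσ1 : 1 ≤ σ := by omega
  -- first part
  have h1 : ∑ j ∈ range i, (∑ l ∈ range (s.J j + 1), (s.T j l).card) * (s.p j) ^ 4 ≤
      σ * 2 ^ 13 * q ^ 4 := by
    calc ∑ j ∈ range i, (∑ l ∈ range (s.J j + 1), (s.T j l).card) * (s.p j) ^ 4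
        ≤ ∑ j ∈ range i, σ * 2 ^ 11 * 2 ^ (4 * s.κ (j + 1)) :=
          sum_le_sum (fun j hj => hp4 j (mem_range.1 hj))
      _ = σ * 2 ^ 11 * ∑ j ∈ range i, 2 ^ (4 * s.κ (j + 1)) := by rw [mul_sum]
      _ ≤ σ * 2 ^ 11 * (2 * 2 ^ (4 * s.κ i)) := Nat.mul_le_mul_left _ (sum_pow_κM s i)
      _ ≤ σ * 2 ^ 11 * (4 * 2 ^ (4 * s.κ i)) :=
          Nat.mul_le_mul_left _ (Nat.mul_le_mul_right _ (by norm_num))
      _ = σ * 2 ^ 13 * (2 ^ k) ^ 4 := by rw [← hk, ← pow_mul]; ring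
      _ ≤ σ * 2 ^ 13 * q ^ 4 := Nat.mul_le_mul_left _ (Nat.pow_le_pow_left hlo.le 4)
  have h2 : ∑ j ∈ range i, (∑ l ∈ range (s.J j + 1), (s.T j l).card) *
      ((C + 6) * (s.p j) ^ 4 / q ^ 2) ≤ (C + 6) * 2 ^ 13 * σ * q ^ 2 := by
    refine Nat.le_of_mul_le_mul_right ?_ hq2
    rw [sum_mul]
    calc ∑ j ∈ range i, (∑ l ∈ range (s.J j + 1), (s.T j l).card) *
          ((C + 6) * (s.p j) ^ 4 / q ^ 2) * q ^ 2
        ≤ ∑ j ∈ range i, (C + 6) * ((∑ l ∈ range (s.J j + 1), (s.T j l).card) *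
            (s.p j) ^ 4) := by
          refine sum_le_sum (fun j _ => ?_)
          calc (∑ l ∈ range (s.J j + 1), (s.T j l).card) *
                ((C + 6) * (s.p j) ^ 4 / q ^ 2) * q ^ 2
              = (∑ l ∈ range (s.J j + 1), (s.T j l).card) *
                ((C + 6) * (s.p j) ^ 4 / q ^ 2 * q ^ 2) := by ring
            _ ≤ (∑ l ∈ range (s.J j + 1), (s.T j l).card) * ((C + 6) * (s.p j) ^ 4) :=
                Nat.mul_le_mul_left _ (Nat.div_mul_le_self _ _)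
            _ = (C + 6) * ((∑ l ∈ range (s.J j + 1), (s.T j l).card) * (s.p j) ^ 4) := by ring
      _ = (C + 6) * ∑ j ∈ range i, (∑ l ∈ range (s.J j + 1), (s.T j l).card) *
            (s.p j) ^ 4 := by rw [mul_sum]
      _ ≤ (C + 6) * (σ * 2 ^ 13 * q ^ 4) := Nat.mul_le_mul_left _ h1
      _ = (C + 6) * 2 ^ 13 * σ * q ^ 2 * q ^ 2 := by ring
  -- second part
  have h3 : ∑ j ∈ range i, (∑ l ∈ range (s.J j + 1), (s.T j l).card) * s.κ j ≤ q ^ 2 := by
    have e1 : ∀ j ∈ range i, (∑ l ∈ range (s.J j + 1), (s.T j l).card) * s.κ j ≤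
        2 ^ (k / 32 + 1) * k * k := by
      intro j hj
      have hj' : j < i := mem_range.1 hj
      have hκ := s.κlt hj'
      rw [hk]
      exact Nat.mul_le_mul ((Tsum_le s j).trans (Nat.mul_le_mul
        (Nat.pow_le_pow_right (by norm_num) (by omega)) (by omega))) (by omega)
    calc ∑ j ∈ range i, (∑ l ∈ range (s.J j + 1), (s.T j l).card) * s.κ j
        ≤ i * (2 ^ (k / 32 + 1) * k * k) := by
          refine (Finset.sum_le_card_nsmul _ _ _ e1).trans ?_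
          rw [card_range, smul_eq_mul]
      _ ≤ k * (2 ^ (k / 32 + 1) * k * k) := Nat.mul_le_mul_right _ (by rw [hk]; exact s.iκ i)
      _ = 1 * k ^ 3 * 2 ^ (k / 32 + 1) := by ring
      _ ≤ (4 * C1 + 4) * k ^ 3 * 2 ^ (k / 32 + 1) :=
          Nat.mul_le_mul_right _ (Nat.mul_le_mul_right _ (by omega))
      _ ≤ 2 ^ (k / 2) := hK
      _ ≤ 2 ^ (2 * k) := Nat.pow_le_pow_right (by norm_num) (by omega)
      _ = (2 ^ k) ^ 2 := by rw [← pow_mul, mul_comm]
      _ ≤ q ^ 2 := Nat.pow_le_pow_left hlo.le 2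
  have h4 : lowM s C1 (q ^ 2) i = C1 * (∑ j ∈ range i, (∑ l ∈ range (s.J j + 1),
      (s.T j l).card) * ((C + 6) * (s.p j) ^ 4 / q ^ 2) +
      ∑ j ∈ range i, (∑ l ∈ range (s.J j + 1), (s.T j l).card) * s.κ j) := by
    unfold lowM
    rw [← Finset.sum_add_distrib, Finset.mul_sum]
    refine Finset.sum_congr rfl (fun j _ => ?_)
    ring
  rw [h4]
  calc C1 * (∑ j ∈ range i, (∑ l ∈ range (s.J j + 1), (s.T j l).card) *
      ((C + 6) * (s.p j) ^ 4 / q ^ 2) +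
      ∑ j ∈ range i, (∑ l ∈ range (s.J j + 1), (s.T j l).card) * s.κ j)
      ≤ C1 * ((C + 6) * 2 ^ 13 * σ * q ^ 2 + q ^ 2) := Nat.mul_le_mul_left _ (Nat.add_le_add h2 h3)
    _ ≤ C1 * ((C + 6) * 2 ^ 13 * σ * q ^ 2 + σ * q ^ 2) := by
        refine Nat.mul_le_mul_left _ (Nat.add_le_add_left ?_ _)
        exact Nat.le_mul_of_pos_left _ (by omega)
    _ = (C1 * ((C + 6) * 2 ^ 13 + 1)) * σ * q ^ 2 := by ring

/-- the hit parameters -/
def MSys.gh {C : ℕ} (s : MSys C) (γz : ℕ → ℕ) (i j : ℕ) : ℕ := if j = 0 then γz i else s.γ i j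

/-- the good sequence -/
theorem good_M (C : ℕ) :
    ∃ C3 K0 : ℕ, ∀ (s : MSys C), (∀ i, K0 ≤ s.κ i) →
      (∀ i j, 1 ≤ j → j ≤ s.J i → K0 ≤ s.γ i j) → ∀ γz : ℕ → ℕ,
      (∀ i, 1 ≤ γz i) → (∀ i, 2 ^ (2 * γz i) ≤ s.κ i) →
      ∃ ω : ∀ i j, (s.V i j).Ω, ∀ i j, j ≤ s.J i → ∀ n,
        ((((s.V i j).S (ω i j)) ∩ refl n ((range i).biUnion (fun i' =>
          (range (s.J i' + 1)).biUnion (fun l => (s.V i' l).S (ω i' l))))).card : ℝ) ≤
          C3 * s.κ i / s.gh γz i j := by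
  obtain ⟨CZ, kZ, hZ⟩ := reg_Z C
  obtain ⟨CM, kM, hMM⟩ := reg_M C
  obtain ⟨KS, hSpr⟩ := spr_M C
  obtain ⟨K1, hK1⟩ := num_kappa3 (CZ + CM)
  obtain ⟨C3, k3, hFZ⟩ := fin_Z C ((CZ + CM) * ((C + 6) * 2 ^ 13 + 1))
  obtain ⟨C4, k4, hFM⟩ := fin_M C ((CZ + CM) * ((C + 6) * 2 ^ 13 + 1))
  refine ⟨C3 + C4, kZ + kM + KS + K1 + k3 + k4 + C + 8, ?_⟩
  intro s hK hKγ γz hγz1 hγz
  -- the events
  set P : ∀ i, (pre s.W i).Ω → ∀ j, (s.V i j).Ω → Prop := fun i x j w =>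
    RegH (CZ + CM) (s.p i) (s.κ i) (s.H i j) ((s.X i j).S w) ∧
      ∀ n, ((((s.V i j).S w) ∩ refl n ((pre s.W i).S x)).card : ℝ) ≤
        ((C3 + C4 : ℕ) : ℝ) * s.κ i / s.gh γz i j with hPdef
  set F : ∀ i, (pre s.W i).Ω → (s.W i).Ω → Prop := fun i x w =>
    AllJ (s.V i) (P i x) (s.J i + 1) w with hFdef
  set Sp : ∀ i, (pre s.W i).Ω → Prop := fun i x =>
    ClsLE ((s.p i) ^ 6) ((pre s.W i).S x) 66 with hSpdef
  obtain ⟨ω0, hω0⟩ := exists_good s.W (T18.GG s.W F Sp) F Sp (fun x hx => hx) (fun i x w => Iff.rfl)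
    (by
      intro i x hx
      have hKi := hK i
      obtain ⟨ω, rfl⟩ := T18.pt_surj s.W i x
      obtain ⟨hF, hS⟩ := T18.GG_pt s.W F Sp ω i hx
      -- coordinates
      have hsurj : ∀ i', ∃ ω' : ∀ j, (s.V i' j).Ω, pt (s.V i') ω' (s.J i' + 1) = ω i' :=
        fun i' => T18.pt_surj (s.V i') (s.J i' + 1) (ω i')
      choose ω' hω' using hsurj
      have hWS : ∀ i', (s.W i').S (ω i') = (range (s.J i' + 1)).biUnion
          (fun l => wd ((s.p i') ^ 8) (s.T i' l) ((s.X i' l).S (ω' i' l))) := by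
        intro i'
        have h1 := T18.S_pt (s.V i') (ω' i') (s.J i' + 1)
        rw [hω' i'] at h1
        exact h1
      have hFP : ∀ j < i, ∀ l < s.J j + 1, P j (pt s.W ω j) l (ω' j l) := by
        intro j hj
        have h1 := hF j hj
        have h2 : AllJ (s.V j) (P j (pt s.W ω j)) (s.J j + 1) (ω j) := h1
        rw [← hω' j] at h2
        exact (allJ_pt _ _ _ _).1 h2
      have hSpt : (pre s.W i).S (pt s.W ω i) = (range i).biUnion
          (fun j => (range (s.J j + 1)).biUnion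
            (fun l => wd ((s.p j) ^ 8) (s.T j l) ((s.X j l).S (ω' j l)))) := by
        rw [T18.S_pt s.W ω i]
        exact biUnion_congr rfl (fun j _ => hWS j)
      have hnd : ∀ e : ℕ, ∀ j < i, ¬ s.p j ∣ (s.p i) ^ e := by
        intro e j hj hdvd
        have h1 := (s.prime j).dvd_of_dvd_pow hdvd
        have h2 := (Nat.prime_dvd_prime_iff_eq (s.prime j) (s.prime i)).1 h1
        have := s.plt hj
        omega
      have hlt : ∀ j < i, ∀ l < s.J j + 1, ∀ y ∈ (s.X j l).S (ω' j l),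
          y < (C + s.H j l + 1 + 4) * (s.p j) ^ 8 :=
        fun j _ l _ y hy => (blk_range (s.prime j).pos (s.Hpos j l) (by have := s.Cp j; omega)
          (by have := s.Cp j; omega) (s.base j) (U := 1) (by simp) _ y hy).2
      have hc4 := low_clsM s (C1 := CZ + CM) (fun j l => (s.X j l).S (ω' j l))
        (pow_pos (s.prime i).pos 4) (hnd 4) hlt (fun j hj l hl => (hFP j hj l hl).1)
      have hc2 := low_clsM s (C1 := CZ + CM) (fun j l => (s.X j l).S (ω' j l))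
        (pow_pos (s.prime i).pos 2) (hnd 2) hlt (fun j hj l hl => (hFP j hj l hl).1)
      rw [← hSpt] at hc4 hc2
      have hY : ∀ y ∈ (pre s.W i).S (pt s.W ω i), y < 2 ^ 22 * (s.p i) ^ 8 :=
        fun y hy => s.pre_lt i _ hy
      have hnum := hK1 (s.κ i) (by omega)
      have hu28 := s.u28 i
      have hκR : (0 : ℝ) ≤ s.κ i := Nat.cast_nonneg _
      have hone : ∀ j < s.J i + 1, (s.V i j).Pr (fun w => ¬ P i (pt s.W ω i) j w) ≤
          2 / 2 ^ (s.κ i + 3) := by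
        intro j hj
        have hor : (s.V i j).Pr (fun w => ¬ P i (pt s.W ω i) j w) ≤
            (s.V i j).Pr (fun w => (¬ RegH (CZ + CM) (s.p i) (s.κ i) (s.H i j) ((s.X i j).S w)) ∨
              (¬ ∀ n, ((((s.V i j).S w) ∩ refl n ((pre s.W i).S (pt s.W ω i))).card : ℝ) ≤
                ((C3 + C4 : ℕ) : ℝ) * s.κ i / s.gh γz i j)) :=
          Pr_mono _ (fun w hw => not_and_or.1 hw)
        refine hor.trans ((Pr_or_le _ _ _).trans ?_)
        have e2 : (2 : ℝ) / 2 ^ (s.κ i + 3) = 1 / 2 ^ (s.κ i + 3) + 1 / 2 ^ (s.κ i + 3) := by ring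
        rw [e2]
        rcases Nat.eq_zero_or_pos j with hj0 | hj0
        · -- the zone block
          subst hj0
          have hH0 := s.H0 i
          refine add_le_add ?_ ?_
          · have a1 := hZ (s.κ i) (by omega) (s.p i) (s.prime i).pos (s.D i) (s.prime i) (s.lo i)
              (s.hi i) (s.base i)
            have a2 : ∀ (H : ℕ) (hH : 0 < H), H = 1 →
                (blk (s.p i) H (s.prime i).pos hH (s.D i) {0}).Pr (fun w =>
                  ¬ RegH (CZ + CM) (s.p i) (s.κ i) H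
                    ((blk (s.p i) H (s.prime i).pos hH (s.D i) {0}).S w)) ≤
                1 / 2 ^ (s.κ i + 3) := by
              intro H hH h1
              subst h1
              refine le_trans ?_ a1
              exact Pr_mono _ (fun w hw hr => hw (RegH.mono hr (Nat.le_add_right _ _)))
            exact a2 (s.H i 0) (s.Hpos i 0) hH0
          · have a1 := hFZ (s.κ i) (by omega) (γz i) (hγz1 i) (hγz i) (s.p i)
              (s.prime i).pos (s.D i) (s.lo i) (s.hi i) (s.base i) (s.u i) (s.T i 0) (s.ule i)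
              (by omega) (s.Tltu (Nat.zero_le _)) (by
                have := s.widthu (i := i) (Nat.zero_le (s.J i))
                rw [hH0] at this
                exact this) _ hY hS _ hc4 (lowM_four s hnum) _ hc2 (lowM_two s hnum)
            have a2 : ∀ (H : ℕ) (hH : 0 < H), H = 1 →
                (wblk (s.p i) H (s.prime i).pos hH (s.D i) (s.T i 0)).Pr (fun w =>
                  ¬ ∀ n, ((((wblk (s.p i) H (s.prime i).pos hH (s.D i) (s.T i 0)).S w) ∩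
                    refl n ((pre s.W i).S (pt s.W ω i))).card : ℝ) ≤
                    ((C3 + C4 : ℕ) : ℝ) * s.κ i / s.gh γz i 0) ≤ 1 / 2 ^ (s.κ i + 3) := by
              intro H hH h1
              subst h1
              refine le_trans ?_ a1
              refine Pr_mono _ (fun w hw hr => hw (fun n => (hr n).trans ?_))
              have : s.gh γz i 0 = γz i := rfl
              rw [this]
              refine div_le_div_of_nonneg_right ?_ (Nat.cast_nonneg _)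
              refine mul_le_mul_of_nonneg_right ?_ hκR
              push_cast
              have : (0 : ℝ) ≤ C4 := Nat.cast_nonneg _
              linarith
            exact a2 (s.H i 0) (s.Hpos i 0) hH0
        · -- the main blocks
          have hj1 : j ≤ s.J i := by omega
          have hγ := hKγ i j hj0 hj1
          have hHk : C + s.H i j + 1 + 4 ≤ 2 ^ s.κ i := by
            have e1 := s.widthu hj1
            have e2 := s.ule i
            have e3 : 2 ^ (s.u i + 2) ≤ 2 ^ s.κ i :=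
              Nat.pow_le_pow_right (by norm_num) (by omega)
            have e4 : 1 ≤ 2 ^ (s.u i + 1) := Nat.one_le_two_pow
            omega
          have hHb : kM ≤ s.H i j := by
            have : 8 * s.γ i j < 2 ^ (8 * s.γ i j) := Nat.lt_two_pow_self
            have e : s.H i j = 2 ^ (8 * s.γ i j) := rfl
            omega
          have hgh : s.gh γz i j = s.γ i j := by
            unfold MSys.gh
            rw [if_neg (by omega)]
          refine add_le_add ?_ ?_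
          · have a1 := hMM (s.κ i) (by omega) (s.p i) (s.prime i).pos (s.H i j) (s.Hpos i j)
              (s.D i) (s.prime i) (s.lo i) (s.hi i) (s.base i) hHb hHk
            refine le_trans ?_ a1
            exact Pr_mono _ (fun w hw hr => hw (RegH.mono hr (Nat.le_add_left _ _)))
          · have a1 := hFM (s.κ i) (by omega) (s.γ i j) (by omega) (s.p i)
              (s.prime i).pos (s.H i j) (s.Hpos i j) (s.D i) (s.lo i) (s.hi i) (s.base i) (s.u i)
              (s.T i j) (s.ule i) (by omega) (s.Tltu hj1) (s.widthu hj1) (s.β i j)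
              (s.win i j hj0 hj1) (s.βle i j hj0 hj1) _ hY hS _ hc4
              (lowM_four s hnum) _ hc2 (lowM_two s hnum)
            refine le_trans ?_ a1
            refine Pr_mono _ (fun w hw hr => hw (fun n => (hr n).trans ?_))
            rw [hgh]
            refine div_le_div_of_nonneg_right ?_ (Nat.cast_nonneg _)
            refine mul_le_mul_of_nonneg_right ?_ hκR
            push_cast
            have : (0 : ℝ) ≤ C3 := Nat.cast_nonneg _
            linarith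
      have hall := allJ_Pr (s.V i) (P i (pt s.W ω i)) (s.J i + 1) hone
      have hall' : (s.W i).Pr (fun w => ¬ F i (pt s.W ω i) w) ≤
          ((s.J i + 1 : ℕ) : ℝ) * (2 / 2 ^ (s.κ i + 3)) := hall
      refine hall'.trans ?_
      have h7 : ((s.J i + 1 : ℕ) : ℝ) ≤ 2 ^ s.κ i := by
        have h1 := s.Jκ i
        have h2 : s.κ i < 2 ^ s.κ i := Nat.lt_two_pow_self
        exact_mod_cast (by omega : s.J i + 1 ≤ 2 ^ s.κ i)
      have h8 : (0 : ℝ) < 2 ^ s.κ i := by positivity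
      rw [mul_div_assoc', div_le_iff₀ (by positivity), pow_add]
      linarith)
    (by
      intro i
      refine (hSpr s (fun i => by have := hK i; omega) i).trans ?_
      refine one_div_le_one_div_of_le (by positivity) ?_
      have h5 : (2 : ℝ) * 4 ^ i = 2 ^ (2 * i + 1) := by
        rw [pow_succ, pow_mul]
        norm_num
        ring
      rw [h5]
      have := s.iκ i
      exact pow_le_pow_right₀ (by norm_num) (by omega))
  -- coordinates
  have hsurj : ∀ i', ∃ ω' : ∀ j, (s.V i' j).Ω, pt (s.V i') ω' (s.J i' + 1) = ω0 i' :=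
    fun i' => T18.pt_surj (s.V i') (s.J i' + 1) (ω0 i')
  choose ω' hω' using hsurj
  have hWS : ∀ i', (s.W i').S (ω0 i') = (range (s.J i' + 1)).biUnion
      (fun l => (s.V i' l).S (ω' i' l)) := by
    intro i'
    have h1 := T18.S_pt (s.V i') (ω' i') (s.J i' + 1)
    rw [hω' i'] at h1
    exact h1
  refine ⟨ω', fun i j hj n => ?_⟩
  have h1 := (T18.GG_pt s.W F Sp ω0 (i + 1) (hω0 (i + 1))).1 i (Nat.lt_succ_self i)
  have h2 : AllJ (s.V i) (P i (pt s.W ω0 i)) (s.J i + 1) (ω0 i) := h1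
  rw [← hω' i] at h2
  have h3 := ((allJ_pt _ _ _ _).1 h2 j (Nat.lt_succ_of_le hj)).2 n
  have h4 : (pre s.W i).S (pt s.W ω0 i) = (range i).biUnion (fun i' =>
      (range (s.J i' + 1)).biUnion (fun l => (s.V i' l).S (ω' i' l))) := by
    rw [T18.S_pt s.W ω0 i]
    exact biUnion_congr rfl (fun j _ => hWS j)
  rw [h4] at h3
  exact h3

end Pool.Agent.H708.ET
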