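import Pool.Agent.H708.ET.Spr

/-!
# Systems of touching wide blocks with several amplitudes
-/

set_option autoImplicit false

namespace Pool.Agent.H708.ET

open Finset Pool.Agent.H125R2.ET Pool.Agent.Helper667_AS Pool.Agent.H125R2.ET.T14aux

/-- a system of touching classes; the class `i` has the blocks `0, …, J i` with the amplitudes
`2 ^ (8 γ i j)` -/
structure MSys (C : ℕ) where
  p : ℕ → ℕ
  D : ℕ → Finset ℕ
  κ : ℕ → ℕ
  u : ℕ → ℕ
  J : ℕ → ℕ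
  T : ℕ → ℕ → Finset ℕ
  w : ℕ → ℕ → ℕ
  γ : ℕ → ℕ → ℕ
  β : ℕ → ℕ → ℕ
  prime : ∀ i, (p i).Prime
  lo : ∀ i, 2 ^ κ i < p i
  hi : ∀ i, p i ≤ 2 ^ (κ i + 1)
  base : ∀ i, IsBase C (p i) (D i)
  Tlt : ∀ i j, j ≤ J i → ∀ b ∈ T i j, b < 2 ^ (w i j + 1)
  wu : ∀ i j, j ≤ J i → w i j ≤ u i
  Tcard : ∀ i, (∑ j ∈ range (J i + 1), (T i j).card) ^ 2 ≤ 2 ^ (u i + 1) * κ i
  touch : ∀ i, 8 * κ i + u i = 8 * κ (i + 1) + 12
  ule : ∀ i, 32 * (u i + 1) ≤ κ i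
  idx : ∀ i, (∑ i' ∈ range i, (J i' + 1)) ≤ κ i
  Jκ : ∀ i, J i + 1 ≤ κ i
  γ0 : ∀ i, γ i 0 = 0
  γw : ∀ i j, j ≤ J i → 8 * γ i j + C + 36 ≤ w i j
  win : ∀ i j, 1 ≤ j → j ≤ J i → Win (2 ^ (8 * γ i j)) (T i j) (β i j)
  βle : ∀ i j, 1 ≤ j → j ≤ J i → 2 ^ (2 * γ i j) * β i j ≤ 2 ^ (8 * γ i j)

/-- the amplitudes -/
def MSys.H {C : ℕ} (s : MSys C) (i j : ℕ) : ℕ := 2 ^ (8 * s.γ i j)

theorem MSys.Hpos {C : ℕ} (s : MSys C) (i j : ℕ) : 0 < s.H i j := by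
  unfold MSys.H
  positivity

theorem MSys.H0 {C : ℕ} (s : MSys C) (i : ℕ) : s.H i 0 = 1 := by
  unfold MSys.H
  rw [s.γ0 i]
  norm_num

/-- the narrow blocks -/
def MSys.X {C : ℕ} (s : MSys C) (i j : ℕ) : RFS :=
  blk (s.p i) (s.H i j) (s.prime i).pos (s.Hpos i j) (s.D i) {0}

/-- the wide blocks -/
def MSys.V {C : ℕ} (s : MSys C) (i j : ℕ) : RFS :=
  wblk (s.p i) (s.H i j) (s.prime i).pos (s.Hpos i j) (s.D i) (s.T i j)

/-- the classes of the system -/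
def MSys.W {C : ℕ} (s : MSys C) (i : ℕ) : RFS := pre (s.V i) (s.J i + 1)

theorem MSys.u28 {C : ℕ} (s : MSys C) (i : ℕ) : C + 36 ≤ s.u i := by
  have h1 := s.γw i 0 (Nat.zero_le _)
  have h2 := s.wu i 0 (Nat.zero_le _)
  omega

theorem MSys.κsucc {C : ℕ} (s : MSys C) (i : ℕ) : s.κ i + 2 ≤ s.κ (i + 1) := by
  have h1 := s.touch i
  have h2 := s.u28 i
  omega

theorem MSys.κlt {C : ℕ} (s : MSys C) {i j : ℕ} (h : j < i) : s.κ j + 2 ≤ s.κ i := by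
  obtain ⟨d, rfl⟩ := Nat.exists_eq_add_of_lt h
  induction d with
  | zero => exact s.κsucc j
  | succ d ih =>
    have h1 := ih (by omega)
    have h2 := s.κsucc (j + d + 1)
    have e : j + (d + 1) + 1 = j + d + 1 + 1 := by omega
    rw [e]
    omega

theorem MSys.κmono {C : ℕ} (s : MSys C) {i j : ℕ} (h : j ≤ i) : s.κ j ≤ s.κ i := by
  rcases h.eq_or_lt with rfl | h
  · exact le_rfl
  · have := s.κlt h
    omega

theorem MSys.plt {C : ℕ} (s : MSys C) {i j : ℕ} (h : j < i) : s.p j < s.p i := by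
  have h1 := s.κlt h
  calc s.p j ≤ 2 ^ (s.κ j + 1) := s.hi j
    _ ≤ 2 ^ s.κ i := Nat.pow_le_pow_right (by norm_num) (by omega)
    _ < s.p i := s.lo i

theorem MSys.Cκ {C : ℕ} (s : MSys C) (i : ℕ) : C + 28 ≤ s.κ i := by
  have h1 := s.u28 i
  have h2 := s.ule i
  omega

theorem MSys.Cp {C : ℕ} (s : MSys C) (i : ℕ) : 2 * C + 56 ≤ s.p i := by
  have h1 := s.Cκ i
  have h2 := s.lo i
  have h3 : 2 * s.κ i ≤ 2 ^ s.κ i := by
    obtain ⟨k, hk⟩ : ∃ k, s.κ i = k + 1 := ⟨s.κ i - 1, by omega⟩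
    rw [hk, pow_succ]
    have : k < 2 ^ k := Nat.lt_two_pow_self
    omega
  omega

theorem MSys.width {C : ℕ} (s : MSys C) {i j : ℕ} (hj : j ≤ s.J i) :
    C + s.H i j + 2 ^ (s.w i j + 1) + 4 ≤ 2 ^ (s.w i j + 2) := by
  have h1 := s.γw i j hj
  have e1 : 2 ^ (s.w i j + 2) = 2 ^ (s.w i j + 1) + (2 ^ s.w i j + 2 ^ s.w i j) := by ring
  have e2 : s.H i j ≤ 2 ^ s.w i j := by
    unfold MSys.H
    exact Nat.pow_le_pow_right (by norm_num) (by omega)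
  have e3 : s.w i j < 2 ^ s.w i j := Nat.lt_two_pow_self
  omega

theorem MSys.widthu {C : ℕ} (s : MSys C) {i j : ℕ} (hj : j ≤ s.J i) :
    C + s.H i j + 2 ^ (s.u i + 1) + 4 ≤ 2 ^ (s.u i + 2) := by
  have h1 := s.γw i j hj
  have h2 := s.wu i j hj
  have e1 : 2 ^ (s.u i + 2) = 2 ^ (s.u i + 1) + (2 ^ s.u i + 2 ^ s.u i) := by ring
  have e2 : s.H i j ≤ 2 ^ s.u i := by
    unfold MSys.H
    exact Nat.pow_le_pow_right (by norm_num) (by omega)
  have e3 : s.u i < 2 ^ s.u i := Nat.lt_two_pow_self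
  omega

theorem MSys.Tltu {C : ℕ} (s : MSys C) {i j : ℕ} (hj : j ≤ s.J i) :
    ∀ b ∈ s.T i j, b < 2 ^ (s.u i + 1) := by
  intro b hb
  refine lt_of_lt_of_le (s.Tlt i j hj b hb) (Nat.pow_le_pow_right (by norm_num) ?_)
  have := s.wu i j hj
  omega

theorem MSys.SV {C : ℕ} (s : MSys C) (i j : ℕ) (ω : (s.V i j).Ω) :
    ∃ t, (s.V i j).S ω =
      (blk (s.p i) (s.H i j) (s.prime i).pos (s.Hpos i j) (s.D i) (s.T i j)).S t :=
  ⟨_, wblk_S (s.prime i).pos (s.Hpos i j) (s.D i) (s.T i j) ω⟩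

/-- the elements of the blocks -/
theorem MSys.rangeV {C : ℕ} (s : MSys C) {i j : ℕ} (hj : j ≤ s.J i) (ω : (s.V i j).Ω) :
    ∀ v ∈ (s.V i j).S ω, (s.p i) ^ 8 ≤ v ∧ v < 2 ^ (s.w i j + 2) * (s.p i) ^ 8 := by
  intro v hv
  obtain ⟨t, ht⟩ := s.SV i j ω
  rw [ht] at hv
  have h1 := blk_range (s.prime i).pos (s.Hpos i j) (by have := s.Cp i; omega)
    (by have := s.Cp i; omega) (s.base i) (s.Tlt i j hj) _ v hv
  exact ⟨h1.1, lt_of_lt_of_le h1.2 (Nat.mul_le_mul_right _ (s.width hj))⟩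

theorem MSys.range {C : ℕ} (s : MSys C) (i : ℕ) (ω : (s.W i).Ω) :
    ∀ v ∈ (s.W i).S ω, (s.p i) ^ 8 ≤ v ∧ v < 2 ^ (s.u i + 2) * (s.p i) ^ 8 := by
  intro v hv
  obtain ⟨j, hj, w, hw⟩ := mem_pre (s.V i) (s.J i + 1) ω hv
  have h1 := s.rangeV (Nat.lt_succ_iff.1 hj) w v hw
  refine ⟨h1.1, lt_of_lt_of_le h1.2 (Nat.mul_le_mul_right _ ?_)⟩
  refine Nat.pow_le_pow_right (by norm_num) ?_
  have := s.wu i j (Nat.lt_succ_iff.1 hj)
  omega

theorem MSys.topj {C : ℕ} (s : MSys C) {i j : ℕ} (h : j < i) :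
    2 ^ (s.u j + 2) * (s.p j) ^ 8 ≤ 2 ^ 22 * 2 ^ (8 * s.κ i) := by
  have h2 : (s.p j) ^ 8 ≤ 2 ^ (8 * s.κ j + 8) := by
    calc (s.p j) ^ 8 ≤ (2 ^ (s.κ j + 1)) ^ 8 := Nat.pow_le_pow_left (s.hi j) 8
      _ = 2 ^ (8 * s.κ j + 8) := by rw [← pow_mul]; ring_nf
  calc 2 ^ (s.u j + 2) * (s.p j) ^ 8 ≤ 2 ^ (s.u j + 2) * 2 ^ (8 * s.κ j + 8) :=
        Nat.mul_le_mul_left _ h2
    _ = 2 ^ (8 * s.κ j + s.u j + 10) := by rw [← pow_add]; congr 1; ring
    _ ≤ 2 ^ (22 + 8 * s.κ i) := by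
        refine Nat.pow_le_pow_right (by norm_num) ?_
        have h3 := s.touch j
        have h4 := s.κmono (Nat.succ_le_of_lt h)
        have h5 : j.succ = j + 1 := rfl
        rw [h5] at h4
        omega
    _ = 2 ^ 22 * 2 ^ (8 * s.κ i) := pow_add _ _ _

theorem MSys.pre_lt {C : ℕ} (s : MSys C) (i : ℕ) (x : (pre s.W i).Ω) {y : ℕ}
    (hy : y ∈ (pre s.W i).S x) : y < 2 ^ 22 * (s.p i) ^ 8 := by
  obtain ⟨j, hj, w, hw⟩ := mem_pre s.W i x hy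
  have h1 := (s.range j w y hw).2
  have h2 := s.topj hj
  have h3 : 2 ^ (8 * s.κ i) ≤ (s.p i) ^ 8 := by
    calc 2 ^ (8 * s.κ i) = (2 ^ s.κ i) ^ 8 := by rw [← pow_mul, mul_comm]
      _ ≤ (s.p i) ^ 8 := Nat.pow_le_pow_left (s.lo i).le 8
  have h4 : 2 ^ 22 * 2 ^ (8 * s.κ i) ≤ 2 ^ 22 * (s.p i) ^ 8 := Nat.mul_le_mul_left _ h3
  omega

/-- the union of the lower classes has boundedly many elements in each class modulo `p ^ 6` -/
theorem spr_M (C : ℕ) :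
    ∃ K0 : ℕ, ∀ (s : MSys C), (∀ i, K0 ≤ s.κ i) → ∀ i : ℕ,
    (pre s.W i).Pr (fun x => ¬ ClsLE ((s.p i) ^ 6) ((pre s.W i).S x) 66) ≤
      1 / 2 ^ (4 * s.κ i + 3) := by
  obtain ⟨KM, hKM, hM⟩ := blk_mom C
  obtain ⟨M, hMM⟩ := exists_nat_ge KM
  refine ⟨8 * M + 40 + C + 8, ?_⟩
  intro s hK i
  obtain ⟨k, hk⟩ : ∃ k, k = s.κ i := ⟨_, rfl⟩
  have hKi := hK i
  have hqlo : 2 ^ k < s.p i := by rw [hk]; exact s.lo i
  have hqhi : s.p i ≤ 2 ^ (k + 1) := by rw [hk]; exact s.hi i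
  have hqp := s.prime i
  have hprelt := fun x y (hy : y ∈ (pre s.W i).S x) => s.pre_lt i x hy
  obtain ⟨q, hq⟩ : ∃ q, q = s.p i := ⟨_, rfl⟩
  rw [← hk] at hKi ⊢
  have hpq : ∀ j < i, s.p j < q := by
    intro j hj
    rw [hq]
    exact s.plt hj
  rw [← hq] at hqlo hqhi hqp hprelt ⊢
  have hk0 : (0 : ℝ) < k := by
    have : 0 < k := by omega
    exact_mod_cast this
  have hlog : 0 < Real.log 2 := Real.log_pos (by norm_num)
  obtain ⟨lam, hlamdef⟩ : ∃ lam : ℝ, lam = k * Real.log 2 / 4 := ⟨_, rfl⟩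
  have hlam : 0 ≤ lam := by rw [hlamdef]; positivity
  have hl : Real.exp lam ^ 4 = 2 ^ k := by
    rw [← Real.exp_nat_mul, hlamdef]
    have : ((4 : ℕ) : ℝ) * (k * Real.log 2 / 4) = k * Real.log 2 := by
      push_cast
      ring
    rw [this, Real.exp_nat_mul, Real.exp_log (by norm_num)]
  have hik : (∑ i' ∈ Finset.range i, (s.J i' + 1)) ≤ k := by rw [hk]; exact s.idx i
  -- moment of the prefix
  have hmom : ∀ c, (pre s.W i).mom lam (Vd q c) ≤ Real.exp 2 := by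
    intro c
    refine (mom_pre s.W hlam _ i).trans ?_
    have h1 : ∏ j ∈ Finset.range i, (s.W j).mom lam (Vd q c) ≤
        ∏ j ∈ Finset.range i, Real.exp (((s.J j + 1 : ℕ) : ℝ) * (1 / (k : ℝ))) := by
      refine prod_le_prod (fun j _ => mom_nonneg _ _ _) (fun j hj => ?_)
      rw [Finset.mem_range] at hj
      have hκ := s.κlt hj
      refine (mom_pre (s.V j) hlam _ (s.J j + 1)).trans ?_
      have h2 : ∏ l ∈ Finset.range (s.J j + 1), (s.V j l).mom lam (Vd q c) ≤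
          ∏ _l ∈ Finset.range (s.J j + 1), Real.exp (1 / (k : ℝ)) := by
        refine prod_le_prod (fun l _ => mom_nonneg _ _ _) (fun l hl' => ?_)
        rw [Finset.mem_range] at hl'
        unfold MSys.V
        rw [wblk_mom]
        exact mom_blk_V hKM hM (L := M) hMM Nat.lt_two_pow_self.le (by omega) (by omega)
          (s.prime j) hqp (hpq j hj) (by have := s.Cp j; omega) (s.lo j) (s.hi j) hqlo (s.ule j)
          (by omega) (s.Hpos j l) (s.D j) (s.base j) (s.T j l) (s.Tltu (by omega))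
          (s.widthu (by omega)) hlam hl c
      refine h2.trans (le_of_eq ?_)
      rw [prod_const, card_range, ← Real.exp_nat_mul]
    refine h1.trans ?_
    rw [← Real.exp_sum, ← Finset.sum_mul]
    refine Real.exp_le_exp.2 ?_
    have hik' : ((∑ i' ∈ Finset.range i, (s.J i' + 1) : ℕ) : ℝ) ≤ k := by exact_mod_cast hik
    rw [Nat.cast_sum] at hik'
    rw [mul_one_div, div_le_iff₀ hk0]
    linarith
  -- union bound
  have hun : (pre s.W i).Pr (fun x => ¬ ClsLE (q ^ 6) ((pre s.W i).S x) 66) ≤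
      ∑ c ∈ Finset.range (q ^ 6), Real.exp (-(lam * ((64 : ℕ) : ℝ))) * Real.exp 2 := by
    refine (Pr_mono (pre s.W i) (B := fun x => ∃ c ∈ Finset.range (q ^ 6),
      ((64 : ℕ) : ℝ) ≤ ((((pre s.W i).S x) ∩ Vd q c).card : ℝ)) (fun x h => ?_)).trans
      ((Pr_exists_le _ _ _).trans (sum_le_sum fun c _ => ?_))
    · unfold ClsLE at h
      push Not at h
      obtain ⟨c, hc⟩ := h
      have hq6 : 0 < q ^ 6 := pow_pos hqp.pos 6
      have hcq : c < q ^ 6 := by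
        by_contra hcc
        have : ((pre s.W i).S x).filter (fun v => v % q ^ 6 = c) = ∅ := by
          rw [Finset.filter_eq_empty_iff]
          intro v _ hv
          have := Nat.mod_lt v hq6
          omega
        rw [this] at hc
        simp at hc
      refine ⟨c, Finset.mem_range.2 hcq, ?_⟩
      have hsub : ((pre s.W i).S x).filter (fun v => v % q ^ 6 = c) ⊆
          (((pre s.W i).S x) ∩ Vd q c) ∪
          ((pre s.W i).S x).filter (fun v => v % q ^ 6 = c ∧ v < q ^ 6) := by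
        intro v hv
        rw [mem_filter] at hv
        rw [mem_union, mem_inter, mem_filter]
        by_cases hv2 : v < q ^ 6
        · exact Or.inr ⟨hv.1, hv.2, hv2⟩
        · exact Or.inl ⟨hv.1, mem_filter.2 ⟨Finset.mem_range.2 (hprelt x v hv.1), hv.2,
            by omega⟩⟩
      have h1 := (card_le_card hsub).trans (card_union_le _ _)
      have h2 : (((pre s.W i).S x).filter
          (fun v => v % q ^ 6 = c ∧ v < q ^ 6)).card ≤ 2 := by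
        refine (card_le_of_modEq (N := q ^ 6) (M := q ^ 6) ?_ ?_).trans ?_
        · intro v hv
          exact (mem_filter.1 hv).2.2
        · intro v hv w hw
          rw [(mem_filter.1 hv).2.1, (mem_filter.1 hw).2.1]
        · rw [Nat.div_self hq6]
      exact_mod_cast (by omega : 64 ≤ (((pre s.W i).S x) ∩ Vd q c).card)
    · refine (Pr_hits_le (pre s.W i) hlam (Vd q c) _).trans ?_
      exact mul_le_mul_of_nonneg_left (hmom c) (Real.exp_pos _).le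
  refine hun.trans ?_
  rw [sum_const, nsmul_eq_mul, card_range]
  have he : Real.exp (lam * ((64 : ℕ) : ℝ)) = 2 ^ (16 * k) := by
    rw [mul_comm, Real.exp_nat_mul]
    calc Real.exp lam ^ 64 = (Real.exp lam ^ 4) ^ 16 := by rw [← pow_mul]
      _ = 2 ^ (16 * k) := by rw [hl, ← pow_mul, mul_comm]
  have he1 : Real.exp 2 ≤ 16 := by
    have h1 : Real.exp 2 = Real.exp 1 * Real.exp 1 := by
      rw [← Real.exp_add]
      norm_num
    have := Real.exp_one_lt_d9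
    have h0 := Real.exp_pos 1
    nlinarith
  have hnat : q ^ 6 * 16 * 2 ^ (4 * k + 3) ≤ 2 ^ (16 * k) := by
    calc q ^ 6 * 16 * 2 ^ (4 * k + 3) ≤ (2 ^ (k + 1)) ^ 6 * 16 * 2 ^ (4 * k + 3) :=
          Nat.mul_le_mul_right _ (Nat.mul_le_mul_right _ (Nat.pow_le_pow_left hqhi 6))
      _ = 2 ^ (10 * k + 13) := by
          rw [← pow_mul, show (16 : ℕ) = 2 ^ 4 by norm_num, ← pow_add, ← pow_add]
          congr 1
          ring
      _ ≤ 2 ^ (16 * k) := Nat.pow_le_pow_right (by norm_num) (by omega)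
  have hreal : ((q ^ 6 : ℕ) : ℝ) * 16 * 2 ^ (4 * k + 3) ≤ 2 ^ (16 * k) := by
    exact_mod_cast hnat
  rw [Real.exp_neg, he]
  have h16 : (0 : ℝ) < 2 ^ (16 * k) := by positivity
  have h43 : (0 : ℝ) < 2 ^ (4 * k + 3) := by positivity
  rw [le_div_iff₀ h43]
  calc ((q ^ 6 : ℕ) : ℝ) * ((2 ^ (16 * k))⁻¹ * Real.exp 2) * 2 ^ (4 * k + 3)
      ≤ ((q ^ 6 : ℕ) : ℝ) * ((2 ^ (16 * k))⁻¹ * 16) * 2 ^ (4 * k + 3) := by gcongr
    _ = (((q ^ 6 : ℕ) : ℝ) * 16 * 2 ^ (4 * k + 3)) * (2 ^ (16 * k))⁻¹ := by ring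
    _ ≤ 2 ^ (16 * k) * (2 ^ (16 * k))⁻¹ := by gcongr
    _ = 1 := mul_inv_cancel₀ h16.ne'

end Pool.Agent.H708.ET
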