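import Pool.Agent.H708.ET.PlanMain

/-!
# The induction
-/

set_option autoImplicit false

namespace Pool.Agent.H708.ET

open Finset Pool.Agent.H125R2.ET Pool.Agent.Helper667_AS

/-- exact bases with the bound `log n / log log n`, and a bound for the sum over the scales of the
maxima of the representation function -/
structure GoodM (d : ℕ) (A : Set ℕ) (c : ℕ) : Prop where
  bas : ∀ n, ∃ a ∈ A, ∃ b ∈ A, a + b = n
  all : ∀ n, rA A n * Nat.log 2 (Nat.log 2 n + 2) ≤ c * (Nat.log 2 n + 1)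
  sum : ∀ K, (Sm A K) ^ d ≤ c * K ^ (d + 2)

theorem log2_pos (K : ℕ) : 1 ≤ Nat.log 2 (K + 2) :=
  (Nat.le_log_iff_pow_le (by norm_num) (by omega)).2 (by omega)

theorem all_crude {A : Set ℕ} {c : ℕ}
    (h : ∀ n, rA A n * Nat.log 2 (Nat.log 2 n + 2) ≤ c * (Nat.log 2 n + 1)) (n : ℕ) :
    rA A n ≤ c * (Nat.log 2 n + 1) :=
  le_trans (Nat.le_mul_of_pos_right _ (log2_pos _)) (h n)

theorem mx_crude {A : Set ℕ} {c : ℕ} (h : ∀ n, rA A n ≤ c * (Nat.log 2 n + 1)) (k : ℕ) :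
    mx A k ≤ c * (k + 1) := by
  refine mx_le (fun n h1 h2 => (h n).trans (Nat.mul_le_mul_left _ ?_))
  have hn : n ≠ 0 := by
    have : 0 < 2 ^ k := by positivity
    omega
  have := (Nat.log_lt_iff_lt_pow (b := 2) (by norm_num) hn).2 h2
  omega

theorem Sm_crude {A : Set ℕ} {c : ℕ} (h : ∀ n, rA A n ≤ c * (Nat.log 2 n + 1)) (K : ℕ) :
    Sm A K ≤ c * K ^ 2 := by
  unfold Sm
  calc ∑ k ∈ range K, mx A k ≤ ∑ _k ∈ range K, c * K := by
        refine sum_le_sum (fun k hk => (mx_crude h k).trans (Nat.mul_le_mul_left _ ?_))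
        exact mem_range.1 hk
    _ = c * K ^ 2 := by rw [sum_const, card_range, smul_eq_mul]; ring

theorem pow_succ_ge (x n : ℕ) : x ^ (n + 1) + (n + 1) * x ^ n ≤ (x + 1) ^ (n + 1) := by
  induction n with
  | zero => simp
  | succ n ih =>
    calc x ^ (n + 1 + 1) + (n + 1 + 1) * x ^ (n + 1)
        ≤ (x + 1) * (x ^ (n + 1) + (n + 1) * x ^ n) := by
          have e1 : (x + 1) * (x ^ (n + 1) + (n + 1) * x ^ n) =
            x ^ (n + 1 + 1) + (n + 1 + 1) * x ^ (n + 1) + (n + 1) * x ^ n := by ring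
          rw [e1]
          exact Nat.le_add_right _ _
      _ ≤ (x + 1) * (x + 1) ^ (n + 1) := Nat.mul_le_mul_left _ ih
      _ = (x + 1) ^ (n + 1 + 1) := by ring

/-- the thin basis -/
theorem goodM_base : ∃ (A : Set ℕ) (c : ℕ), GoodM 2 A c := by
  obtain ⟨A0, ⟨n₀, h1⟩, -, ⟨B, hB, h2⟩, -⟩ := thin_basis
  set A : Set ℕ := A0 ∪ {m | m ≤ n₀} with hA
  obtain ⟨Cn, hCn⟩ : ∃ Cn, Cn = 2 * (n₀ + 1) := ⟨_, rfl⟩
  have hr : ∀ n, rA A n ≤ rA A0 n + Cn := by
    intro n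
    rw [hCn]
    exact rA_union A0 n₀ n
  obtain ⟨c1, hc1⟩ := exists_nat_ge (8 * B)
  have hall : ∀ n, rA A n * Nat.log 2 (Nat.log 2 n + 2) ≤
      (c1 + Cn + 16) * (Nat.log 2 n + 1) := by
    intro n
    obtain ⟨K, hK⟩ : ∃ K, K = Nat.log 2 n := ⟨_, rfl⟩
    rw [← hK]
    have hLK : Nat.log 2 (K + 2) ≤ K + 1 := by
      have : Nat.log 2 (K + 2) < K + 2 := Nat.log_lt_self _ (by omega)
      omega
    have hA0 : rA A0 n * Nat.log 2 (K + 2) ≤ (c1 + 16) * (K + 1) := by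
      rcases Nat.lt_or_ge K 3 with hK3 | hK3
      · have hn8 : n < 2 ^ (K + 1) := by
          rw [hK]
          exact Nat.lt_pow_succ_log_self (by norm_num) n
        have hn8' : n < 8 := lt_of_lt_of_le hn8 (by
          calc 2 ^ (K + 1) ≤ 2 ^ 3 := Nat.pow_le_pow_right (by norm_num) (by omega)
            _ = 8 := by norm_num)
        have e1 := rA_le A0 n
        calc rA A0 n * Nat.log 2 (K + 2) ≤ 16 * (K + 1) :=
              Nat.mul_le_mul (by omega) hLK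
          _ ≤ (c1 + 16) * (K + 1) := Nat.mul_le_mul_right _ (by omega)
      · have hn0 : n ≠ 0 := by
          rintro rfl
          simp at hK
          omega
        have hn2 : 2 ^ K ≤ n := by rw [hK]; exact Nat.pow_log_le_self 2 hn0
        have hn3 : 8 ≤ n := le_trans (by
          calc 8 = 2 ^ 3 := by norm_num
            _ ≤ 2 ^ K := Nat.pow_le_pow_right (by norm_num) hK3) hn2
        have e1 := h2 n (by omega)
        have hlog2 := Real.log_two_gt_d9
        have hlog2' := Real.log_two_lt_d9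
        have hKR : (3 : ℝ) ≤ K := by exact_mod_cast hK3
        -- log n ≥ K / 2
        have f1 : (K : ℝ) / 2 ≤ Real.log n := by
          have g1 : ((2 : ℝ)) ^ K ≤ n := by exact_mod_cast hn2
          have g2 := Real.log_le_log (by positivity) g1
          rw [Real.log_pow] at g2
          nlinarith
        have f2 : Real.log ((K : ℝ) / 2) ≤ Real.log (Real.log n) :=
          Real.log_le_log (by positivity) f1
        have f3 : Real.log ((K : ℝ) + 2) ≤ 4 * Real.log ((K : ℝ) / 2) := by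
          have g1 : (K : ℝ) + 2 ≤ ((K : ℝ) / 2) ^ 4 := by
            have e : ((K : ℝ) / 2) ^ 4 = (K : ℝ) ^ 4 / 16 := by ring
            rw [e, le_div_iff₀ (by norm_num)]
            have : (27 : ℝ) * K ≤ (K : ℝ) ^ 4 := by
              have h9 : (9 : ℝ) ≤ (K : ℝ) ^ 2 := by nlinarith
              nlinarith [mul_le_mul h9 h9 (by norm_num) (by positivity)]
            nlinarith
          have g2 := Real.log_le_log (by positivity) g1
          rw [Real.log_pow] at g2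
          push_cast at g2
          linarith
        have f4 : (Nat.log 2 (K + 2) : ℝ) ≤ 2 * Real.log ((K : ℝ) + 2) := by
          have g1 : 2 ^ Nat.log 2 (K + 2) ≤ K + 2 := Nat.pow_log_le_self 2 (by omega)
          have g2 : ((2 : ℝ)) ^ Nat.log 2 (K + 2) ≤ (K : ℝ) + 2 := by exact_mod_cast g1
          have g3 := Real.log_le_log (by positivity) g2
          rw [Real.log_pow] at g3
          have g4 : (0 : ℝ) ≤ (Nat.log 2 (K + 2) : ℝ) := Nat.cast_nonneg _
          nlinarith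
        have f5 : (Nat.log 2 (K + 2) : ℝ) ≤ 8 * Real.log (Real.log n) := by linarith
        have f6 : 0 < Real.log (Real.log n) :=
          Real.log_pos (T22.one_lt_log (by omega))
        have f7 : 0 ≤ Real.log n := by
          have := T22.one_lt_log (show 3 ≤ n by omega)
          linarith
        have f8 := log_le (show 1 ≤ n by omega)
        rw [← hK] at f8
        have e2 : ((rA A0 n * Nat.log 2 (K + 2) : ℕ) : ℝ) ≤ ((c1 * (K + 1) : ℕ) : ℝ) := by
          rw [Nat.cast_mul]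
          calc (rA A0 n : ℝ) * (Nat.log 2 (K + 2) : ℝ)
              ≤ (B * (Real.log n / Real.log (Real.log n))) * (8 * Real.log (Real.log n)) :=
                mul_le_mul e1 f5 (Nat.cast_nonneg _) (by positivity)
            _ = 8 * B * Real.log n := by field_simp
            _ ≤ c1 * ((K + 1 : ℕ) : ℝ) := mul_le_mul hc1 f8 f7 (Nat.cast_nonneg _)
            _ = ((c1 * (K + 1) : ℕ) : ℝ) := by push_cast; ring
        have e3 : rA A0 n * Nat.log 2 (K + 2) ≤ c1 * (K + 1) := by exact_mod_cast e2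
        exact e3.trans (Nat.mul_le_mul_right _ (by omega))
    calc rA A n * Nat.log 2 (K + 2) ≤ (rA A0 n + Cn) * Nat.log 2 (K + 2) :=
          Nat.mul_le_mul_right _ (hr n)
      _ = rA A0 n * Nat.log 2 (K + 2) + Cn * Nat.log 2 (K + 2) := by ring
      _ ≤ (c1 + 16) * (K + 1) + Cn * (K + 1) :=
          Nat.add_le_add hA0 (Nat.mul_le_mul_left _ hLK)
      _ = (c1 + Cn + 16) * (K + 1) := by ring
  refine ⟨A, (c1 + Cn + 16) ^ 2 + (c1 + Cn + 16), ?_, ?_, ?_⟩
  · intro n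
    rcases Nat.lt_or_ge n n₀ with hlt | hge
    · exact ⟨n, Or.inr hlt.le, 0, Or.inr (Nat.zero_le _), Nat.add_zero n⟩
    · obtain ⟨a, ha, b, hb, hab⟩ := of_one_le_rA (h1 n hge)
      exact ⟨a, Or.inl ha, b, Or.inl hb, hab⟩
  · intro n
    exact (hall n).trans (Nat.mul_le_mul_right _ (Nat.le_add_left _ _))
  · intro K
    calc (Sm A K) ^ 2 ≤ ((c1 + Cn + 16) * K ^ 2) ^ 2 :=
          Nat.pow_le_pow_left (Sm_crude (all_crude hall) K) 2
      _ = (c1 + Cn + 16) ^ 2 * K ^ (2 + 2) := by rw [mul_pow]; ring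
      _ ≤ ((c1 + Cn + 16) ^ 2 + (c1 + Cn + 16)) * K ^ (2 + 2) :=
          Nat.mul_le_mul_right _ (Nat.le_add_right _ _)

/-- logarithms are small -/
theorem log_small (M e : ℕ) : ∃ N : ℕ, ∀ x ≥ N, M * (Nat.log 2 (x ^ e) + 1) ≤ x := by
  obtain ⟨N, hN⟩ := pow_le_two_pow (2 * (e * M))
  refine ⟨N + 2 * M + 1, fun x hx => ?_⟩
  have h1 := hN x (by omega)
  have hx0 : x ^ e ≠ 0 := by
    have : 0 < x ^ e := Nat.pow_pos (by omega)
    omega
  have h2 : 2 ^ (Nat.log 2 (x ^ e)) ≤ x ^ e := Nat.pow_log_le_self 2 hx0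
  have h3 : 2 ^ (2 * (Nat.log 2 (x ^ e) * M)) ≤ 2 ^ x := by
    calc 2 ^ (2 * (Nat.log 2 (x ^ e) * M)) = (2 ^ (Nat.log 2 (x ^ e))) ^ (2 * M) := by
          rw [← pow_mul]; congr 1; ring
      _ ≤ (x ^ e) ^ (2 * M) := Nat.pow_le_pow_left h2 _
      _ = x ^ (2 * (e * M)) := by rw [← pow_mul]; congr 1; ring
      _ ≤ 2 ^ x := h1
  have h4 : 2 * (Nat.log 2 (x ^ e) * M) ≤ x := (Nat.pow_le_pow_iff_right (by norm_num)).1 h3
  have h5 : M * (Nat.log 2 (x ^ e) + 1) = Nat.log 2 (x ^ e) * M + M := by ring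
  omega

/-- the induction step -/
theorem goodM_succ {d : ℕ} (hd : 2 ≤ d) {B : Set ℕ} {c : ℕ} (hB : GoodM d B c) :
    ∃ (A : Set ℕ) (c' : ℕ), GoodM (d + 1) A c' := by
  obtain ⟨C, hC⟩ := base_exists
  obtain ⟨C7, K0, hmain⟩ := plan_set C hC
  obtain ⟨cv, hcv⟩ : ∃ cv, cv = (d + 1) * 2 ^ d := ⟨_, rfl⟩
  obtain ⟨M, hM⟩ : ∃ M, M = d ^ 2 * (c * (8 * cv + 14)) + d := ⟨_, rfl⟩
  obtain ⟨N1, hN1⟩ := log_small M (d + 1)
  obtain ⟨N2, hN2⟩ := pow_le_two_pow (d + 1)
  obtain ⟨x0, hx0⟩ : ∃ x0, x0 = N1 + N2 + 32 * (8 * cv + 13) + 2 * (c * (8 * cv + 14)) + d +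
    K0 + C + 50 := ⟨_, rfl⟩
  -- the widths
  have hvle : ∀ x, 1 ≤ x → (x + 1) ^ (d + 1) - x ^ (d + 1) ≤ cv * x ^ d := by
    intro x hx
    have h1 := pow_succ_sub x d
    have h2 : (x + 1) ^ d ≤ (2 * x) ^ d := Nat.pow_le_pow_left (by omega) _
    have h3 : (d + 1) * (x + 1) ^ d ≤ cv * x ^ d := by
      calc (d + 1) * (x + 1) ^ d ≤ (d + 1) * (2 * x) ^ d := Nat.mul_le_mul_left _ h2
        _ = cv * x ^ d := by rw [hcv, mul_pow]; ring
    omega
  have hvge : ∀ x : ℕ, (d + 1) * x ^ d ≤ (x + 1) ^ (d + 1) - x ^ (d + 1) := by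
    intro x
    have := pow_succ_ge x d
    omega
  have hxd : ∀ x : ℕ, 1 ≤ x → 1 ≤ x ^ d := fun x hx => Nat.one_le_pow _ _ hx
  have hJ : d - 1 + 1 = d := by omega
  obtain ⟨P, hPκ, hPv, hPx, hPJ, hPB⟩ : ∃ P : Plan C K0, (∀ i, P.κ i = (x0 + i) ^ (d + 1)) ∧
      (∀ i, P.v i = (x0 + i + 1) ^ (d + 1) - (x0 + i) ^ (d + 1)) ∧ (∀ i, P.x i = x0 + i) ∧
      (∀ i, P.J i = d - 1) ∧ (∀ i, P.B i = B) := by
    refine ⟨{ κ := fun i => (x0 + i) ^ (d + 1),
              v := fun i => (x0 + i + 1) ^ (d + 1) - (x0 + i) ^ (d + 1),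
              x := fun i => x0 + i, J := fun _ => d - 1, c := fun _ => c, B := fun _ => B,
              bas := fun _ => hB.bas, all := fun _ => all_crude hB.all,
              κs := ?_, r1 := ?_, r2 := ?_, r3 := ?_, r4 := ?_, r5 := ?_, r6 := ?_, r7 := ?_,
              J1 := ?_ }, fun _ => rfl, fun _ => rfl, fun _ => rfl, fun _ => rfl, fun _ => rfl⟩
    · intro i
      have : (x0 + i) ^ (d + 1) ≤ (x0 + i + 1) ^ (d + 1) := Nat.pow_le_pow_left (by omega) _
      show (x0 + (i + 1)) ^ (d + 1) = (x0 + i) ^ (d + 1) + _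
      rw [← add_assoc]
      omega
    · intro i
      have h1 := hvle (x0 + i) (by omega)
      have h2 := hxd (x0 + i) (by omega)
      show 32 * (8 * ((x0 + i + 1) ^ (d + 1) - (x0 + i) ^ (d + 1)) + 13) ≤ (x0 + i) ^ (d + 1)
      calc 32 * (8 * ((x0 + i + 1) ^ (d + 1) - (x0 + i) ^ (d + 1)) + 13)
          ≤ 32 * (8 * (cv * (x0 + i) ^ d) + 13 * (x0 + i) ^ d) :=
            Nat.mul_le_mul_left _ (Nat.add_le_add (Nat.mul_le_mul_left _ h1) (by omega))
        _ = 32 * (8 * cv + 13) * (x0 + i) ^ d := by ring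
        _ ≤ (x0 + i) * (x0 + i) ^ d := Nat.mul_le_mul_right _ (by omega)
        _ = (x0 + i) ^ (d + 1) := by ring
    · intro i
      have h1 := hvle (x0 + i) (by omega)
      have h2 := hxd (x0 + i) (by omega)
      have h3 := hN1 (x0 + i) (by omega)
      show (d - 1 + 1) ^ 2 * (c * (8 * ((x0 + i + 1) ^ (d + 1) - (x0 + i) ^ (d + 1)) + 14)) *
        (Nat.log 2 ((x0 + i) ^ (d + 1)) + 1) ≤ (x0 + i) ^ (d + 1)
      rw [hJ]
      calc d ^ 2 * (c * (8 * ((x0 + i + 1) ^ (d + 1) - (x0 + i) ^ (d + 1)) + 14)) *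
            (Nat.log 2 ((x0 + i) ^ (d + 1)) + 1)
          ≤ d ^ 2 * (c * (8 * (cv * (x0 + i) ^ d) + 14 * (x0 + i) ^ d)) *
            (Nat.log 2 ((x0 + i) ^ (d + 1)) + 1) :=
            Nat.mul_le_mul_right _ (Nat.mul_le_mul_left _ (Nat.mul_le_mul_left _
              (Nat.add_le_add (Nat.mul_le_mul_left _ h1) (by omega))))
        _ = (d ^ 2 * (c * (8 * cv + 14))) * (Nat.log 2 ((x0 + i) ^ (d + 1)) + 1) *
            (x0 + i) ^ d := by ring
        _ ≤ M * (Nat.log 2 ((x0 + i) ^ (d + 1)) + 1) * (x0 + i) ^ d :=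
            Nat.mul_le_mul_right _ (Nat.mul_le_mul_right _ (by omega))
        _ ≤ (x0 + i) * (x0 + i) ^ d := Nat.mul_le_mul_right _ h3
        _ = (x0 + i) ^ (d + 1) := by ring
    · intro i
      have h1 := hvge (x0 + i)
      have h2 : (x0 + i) ^ (d - 1) ≤ (x0 + i) ^ d := Nat.pow_le_pow_right (by omega) (by omega)
      have h3 : x0 + i ≤ (x0 + i) ^ d := Nat.le_self_pow (by omega) _
      have h4 : 3 * (x0 + i) ^ d ≤ (d + 1) * (x0 + i) ^ d := Nat.mul_le_mul_right _ (by omega)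
      show 8 * (x0 + i) ^ (d - 1) + C + 36 ≤
        8 * ((x0 + i + 1) ^ (d + 1) - (x0 + i) ^ (d + 1)) + 12
      omega
    · intro i
      have h1 := hvle (x0 + i) (by omega)
      have h2 := hxd (x0 + i) (by omega)
      have h3 := hN2 (x0 + i) (by omega)
      show 2 * (c * (8 * ((x0 + i + 1) ^ (d + 1) - (x0 + i) ^ (d + 1)) + 14)) ≤ 2 ^ (4 * (x0 + i))
      calc 2 * (c * (8 * ((x0 + i + 1) ^ (d + 1) - (x0 + i) ^ (d + 1)) + 14))
          ≤ 2 * (c * (8 * (cv * (x0 + i) ^ d) + 14 * (x0 + i) ^ d)) :=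
            Nat.mul_le_mul_left _ (Nat.mul_le_mul_left _
              (Nat.add_le_add (Nat.mul_le_mul_left _ h1) (by omega)))
        _ = 2 * (c * (8 * cv + 14)) * (x0 + i) ^ d := by ring
        _ ≤ (x0 + i) * (x0 + i) ^ d := Nat.mul_le_mul_right _ (by omega)
        _ = (x0 + i) ^ (d + 1) := by ring
        _ ≤ 2 ^ (x0 + i) := h3
        _ ≤ 2 ^ (4 * (x0 + i)) := Nat.pow_le_pow_right (by norm_num) (by omega)
    · intro i
      have h3 := hN1 (x0 + i) (by omega)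
      show (d - 1 + 1) * (Nat.log 2 ((x0 + i) ^ (d + 1)) + 1) ≤ x0 + i
      rw [hJ]
      exact (Nat.mul_le_mul_right _ (by omega)).trans h3
    · intro i
      show ∑ _i' ∈ range i, (d - 1 + 1) ≤ (x0 + i) ^ (d + 1)
      rw [sum_const, card_range, smul_eq_mul, hJ]
      calc i * d ≤ (x0 + i) * (x0 + i) := Nat.mul_le_mul (by omega) (by omega)
        _ = (x0 + i) ^ 2 := by ring
        _ ≤ (x0 + i) ^ (d + 1) := Nat.pow_le_pow_right (by omega) (by omega)
    · intro i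
      show K0 + C + 50 ≤ x0 + i
      omega
    · intro i
      show 1 ≤ d - 1
      omega
  obtain ⟨A, Cn, c1, hA1, hA2, hA3⟩ := hmain P
  -- the bound for a class
  obtain ⟨c5, hc5⟩ : ∃ c5, c5 = c * (8 * cv) ^ (d + 2) + 1 := ⟨_, rfl⟩
  obtain ⟨c6, hc6⟩ : ∃ c6, c6 = C7 * (d + d ^ 2 * c5 + 2 * cv) + Cn := ⟨_, rfl⟩
  have hclass : ∀ i, ∑ l ∈ range (8 * P.v i), mx A (8 * P.κ i + l) ≤ c6 * (x0 + i) ^ (d + 2) := by
    intro i
    refine (hA3 i).trans ?_
    rw [hPκ, hPx, hPJ, hPB, hJ]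
    obtain ⟨x, hx⟩ : ∃ x, x = x0 + i := ⟨_, rfl⟩
    have hv : P.v i ≤ cv * x ^ d := by
      rw [hPv, hx]
      exact hvle _ (by omega)
    rw [← hx]
    have hx1 : 1 ≤ x := by omega
    have g1 : Sm B (8 * P.v i) ≤ c5 * x ^ (d + 2) := by
      refine (Nat.pow_le_pow_iff_left (show d ≠ 0 by omega)).1 ((hB.sum _).trans ?_)
      calc c * (8 * P.v i) ^ (d + 2) ≤ c * (8 * (cv * x ^ d)) ^ (d + 2) :=
            Nat.mul_le_mul_left _ (Nat.pow_le_pow_left (Nat.mul_le_mul_left _ hv) _)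
        _ = c * (8 * cv) ^ (d + 2) * (x ^ (d + 2)) ^ d := by
            rw [← mul_assoc 8, mul_pow, ← pow_mul, ← pow_mul, mul_comm d (d + 2), mul_assoc]
        _ ≤ c5 ^ d * (x ^ (d + 2)) ^ d := by
            refine Nat.mul_le_mul_right _ ?_
            calc c * (8 * cv) ^ (d + 2) ≤ c5 := by omega
              _ ≤ c5 ^ d := Nat.le_self_pow (by omega) _
        _ = (c5 * x ^ (d + 2)) ^ d := (mul_pow _ _ _).symm
    have g2 : P.v i * (x ^ (d + 1) / x ^ (d - 1) + 1) ≤ 2 * cv * x ^ (d + 2) := by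
      have e1 : x ^ (d + 1) / x ^ (d - 1) = x ^ 2 := by
        rw [show d + 1 = (d - 1) + 2 by omega, pow_add]
        exact Nat.mul_div_cancel_left _ (Nat.pow_pos (by omega))
      rw [e1]
      have e2 : x ^ 2 + 1 ≤ 2 * x ^ 2 := by
        have : 1 ≤ x ^ 2 := Nat.one_le_pow _ _ hx1
        omega
      calc P.v i * (x ^ 2 + 1) ≤ cv * x ^ d * (2 * x ^ 2) := Nat.mul_le_mul hv e2
        _ = 2 * cv * x ^ (d + 2) := by ring
    have g3 : Cn * x ^ (d + 1) ≤ Cn * x ^ (d + 2) :=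
      Nat.mul_le_mul_left _ (Nat.pow_le_pow_right hx1 (by omega))
    calc C7 * (d * (x * x ^ (d + 1)) + d ^ 2 * Sm B (8 * P.v i) +
          P.v i * (x ^ (d + 1) / x ^ (d - 1) + 1)) + Cn * x ^ (d + 1)
        ≤ C7 * (d * (x * x ^ (d + 1)) + d ^ 2 * (c5 * x ^ (d + 2)) + 2 * cv * x ^ (d + 2)) +
          Cn * x ^ (d + 2) := by
          refine Nat.add_le_add (Nat.mul_le_mul_left _ ?_) g3
          exact Nat.add_le_add (Nat.add_le_add_left (Nat.mul_le_mul_left _ g1) _) g2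
      _ = c6 * x ^ (d + 2) := by rw [hc6]; ring
  -- the sum up to a class
  obtain ⟨S0, hS0⟩ : ∃ S0, S0 = Sm A (8 * x0 ^ (d + 1)) := ⟨_, rfl⟩
  have hsum : ∀ i, Sm A (8 * (x0 + i) ^ (d + 1)) ≤ S0 + i * (c6 * (x0 + i) ^ (d + 2)) := by
    intro i
    induction i with
    | zero =>
      rw [Nat.add_zero, ← hS0]
      exact Nat.le_add_right _ _
    | succ i ih =>
      have e1 : 8 * (x0 + (i + 1)) ^ (d + 1) = 8 * P.κ i + 8 * P.v i := by
        have f1 := P.κs i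
        rw [hPκ (i + 1)] at f1
        omega
      have e2 : Sm A (8 * (x0 + (i + 1)) ^ (d + 1)) =
          Sm A (8 * P.κ i) + ∑ l ∈ range (8 * P.v i), mx A (8 * P.κ i + l) := by
        rw [e1]
        unfold Sm
        rw [sum_range_add]
      rw [e2]
      have e3 : Sm A (8 * P.κ i) ≤ S0 + i * (c6 * (x0 + i) ^ (d + 2)) := by
        rw [hPκ i]
        exact ih
      have e4 := hclass i
      have e5 : (x0 + i) ^ (d + 2) ≤ (x0 + (i + 1)) ^ (d + 2) := Nat.pow_le_pow_left (by omega) _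
      have e6 : c6 * (x0 + i) ^ (d + 2) ≤ c6 * (x0 + (i + 1)) ^ (d + 2) :=
        Nat.mul_le_mul_left _ e5
      have e7 : i * (c6 * (x0 + i) ^ (d + 2)) ≤ i * (c6 * (x0 + (i + 1)) ^ (d + 2)) :=
        Nat.mul_le_mul_left _ e6
      have e8 : (i + 1) * (c6 * (x0 + (i + 1)) ^ (d + 2)) =
          i * (c6 * (x0 + (i + 1)) ^ (d + 2)) + c6 * (x0 + (i + 1)) ^ (d + 2) := by ring
      omega
  obtain ⟨c7, hc7⟩ : ∃ c7, c7 = S0 + c6 * 2 ^ (d + 3) := ⟨_, rfl⟩
  refine ⟨A, c1 + (S0 ^ (d + 1) + c7 ^ (d + 1)), hA1, ?_, ?_⟩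
  · intro n
    exact (hA2 n).trans (Nat.mul_le_mul_right _ (Nat.le_add_right _ _))
  · intro K
    by_cases hK : K ≤ 8 * x0 ^ (d + 1)
    · rcases Nat.eq_zero_or_pos K with h0 | h0
      · rw [h0]
        have : Sm A 0 = 0 := by unfold Sm; simp
        rw [this, zero_pow (by omega)]
        exact Nat.zero_le _
      · calc (Sm A K) ^ (d + 1) ≤ S0 ^ (d + 1) := by
              refine Nat.pow_le_pow_left ?_ _
              rw [hS0]
              exact Sm_mono A hK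
          _ = S0 ^ (d + 1) * 1 := (mul_one _).symm
          _ ≤ S0 ^ (d + 1) * K ^ (d + 1 + 2) :=
              Nat.mul_le_mul_left _ (Nat.one_le_pow _ _ h0)
          _ ≤ _ := Nat.mul_le_mul_right _ (by
              have := Nat.zero_le (c7 ^ (d + 1))
              omega)
    · push Not at hK
      have hex : ∃ i, K ≤ 8 * (x0 + i) ^ (d + 1) := by
        refine ⟨K, ?_⟩
        have : x0 + K ≤ (x0 + K) ^ (d + 1) := Nat.le_self_pow (by omega) _
        omega
      classical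
      obtain ⟨m, hm, hmin⟩ : ∃ m, K ≤ 8 * (x0 + m) ^ (d + 1) ∧
          ∀ i < m, ¬ K ≤ 8 * (x0 + i) ^ (d + 1) :=
        ⟨Nat.find hex, Nat.find_spec hex, fun i hi => Nat.find_min hex hi⟩
      have hm0 : m ≠ 0 := by
        rintro rfl
        rw [Nat.add_zero] at hm
        omega
      obtain ⟨i, rfl⟩ := Nat.exists_eq_succ_of_ne_zero hm0
      have hi : 8 * (x0 + i) ^ (d + 1) < K := not_le.1 (hmin i (Nat.lt_succ_self i))
      obtain ⟨x, hx⟩ : ∃ x, x = x0 + i := ⟨_, rfl⟩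
      have hx1 : 1 ≤ x := by omega
      have e1 : Sm A K ≤ c7 * x ^ (d + 3) := by
        refine (Sm_mono A hm).trans ((hsum (i + 1)).trans ?_)
        have f0 : x0 + (i + 1) = x + 1 := by omega
        rw [f0]
        have f1 : (x + 1) ^ (d + 2) ≤ 2 ^ (d + 2) * x ^ (d + 2) := by
          rw [← mul_pow]
          exact Nat.pow_le_pow_left (by omega) _
        have f2 : (i + 1) * (c6 * (x + 1) ^ (d + 2)) ≤
            (2 * x) * (c6 * (2 ^ (d + 2) * x ^ (d + 2))) :=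
          Nat.mul_le_mul (by omega) (Nat.mul_le_mul_left _ f1)
        have f3 : (2 * x) * (c6 * (2 ^ (d + 2) * x ^ (d + 2))) =
            c6 * 2 ^ (d + 3) * x ^ (d + 3) := by ring
        have f4 : S0 * 1 ≤ S0 * x ^ (d + 3) := Nat.mul_le_mul_left _ (Nat.one_le_pow _ _ hx1)
        have f5 : c7 * x ^ (d + 3) = S0 * x ^ (d + 3) + c6 * 2 ^ (d + 3) * x ^ (d + 3) := by
          rw [hc7]; ring
        omega
      have e2 : x ^ (d + 1) ≤ K := by
        rw [hx]
        omega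
      calc (Sm A K) ^ (d + 1) ≤ (c7 * x ^ (d + 3)) ^ (d + 1) := Nat.pow_le_pow_left e1 _
        _ = c7 ^ (d + 1) * (x ^ (d + 1)) ^ (d + 3) := by
            rw [mul_pow, ← pow_mul, ← pow_mul, mul_comm (d + 3) (d + 1)]
        _ ≤ c7 ^ (d + 1) * K ^ (d + 3) := Nat.mul_le_mul_left _ (Nat.pow_le_pow_left e2 _)
        _ = c7 ^ (d + 1) * K ^ (d + 1 + 2) := by congr 2
        _ ≤ _ := Nat.mul_le_mul_right _ (by
            have := Nat.zero_le (S0 ^ (d + 1))
            omega)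

theorem goodM_exists (d : ℕ) (hd : 2 ≤ d) : ∃ (A : Set ℕ) (c : ℕ), GoodM d A c := by
  induction d, hd using Nat.le_induction with
  | base => exact goodM_base
  | succ d hd ih =>
    obtain ⟨B, c, hB⟩ := ih
    exact goodM_succ hd hB

end Pool.Agent.H708.ET
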