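import Pool.Agent.H708.ET.MCount
import Pool.Graph.R_pool_sql_team_seeded_620a6dc7.Helper667_AS.Step

/-!
# Plans: the parameters of a system of touching classes
-/

set_option autoImplicit false

namespace Pool.Agent.H708.ET

open Finset Pool.Agent.H125R2.ET Pool.Agent.Helper667_AS

/-- the maximum of `r_A` on the scale `k` -/
noncomputable def mx (A : Set ℕ) (k : ℕ) : ℕ := (Finset.Ico (2 ^ k) (2 ^ (k + 1))).sup (rA A)

theorem le_mx {A : Set ℕ} {k n : ℕ} (h1 : 2 ^ k ≤ n) (h2 : n < 2 ^ (k + 1)) :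
    rA A n ≤ mx A k :=
  Finset.le_sup (f := rA A) (mem_Ico.2 ⟨h1, h2⟩)

theorem mx_le {A : Set ℕ} {k R : ℕ} (h : ∀ n, 2 ^ k ≤ n → n < 2 ^ (k + 1) → rA A n ≤ R) :
    mx A k ≤ R := by
  refine Finset.sup_le (fun n hn => ?_)
  rw [mem_Ico] at hn
  exact h n hn.1 hn.2

/-- the sum of the maxima -/
noncomputable def Sm (A : Set ℕ) (K : ℕ) : ℕ := ∑ k ∈ range K, mx A k

theorem Sm_mono (A : Set ℕ) {K L : ℕ} (h : K ≤ L) : Sm A K ≤ Sm A L :=
  Finset.sum_le_sum_of_subset (range_subset_range.2 h)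

/-- the shift of the block `j` -/
def shf (x j : ℕ) : ℕ := if j = 0 then 0 else 2 ^ (8 * x ^ j)

/-- the amplitude exponent of the block `j` -/
def gam (x j : ℕ) : ℕ := if j = 0 then 0 else x ^ j

/-- the width of the block `j` -/
def wid (x u J j : ℕ) : ℕ := if j < J then 8 * x ^ (j + 1) + 6 else u

/-- the top of the block `j` -/
noncomputable def top (B : Set ℕ) (x u J j : ℕ) : Finset ℕ :=
  (cut B (wid x u J j)).image (fun b => b + shf x j)

theorem shf_le (x j : ℕ) : shf x j ≤ 2 ^ (8 * gam x j) := by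
  unfold shf gam
  split_ifs with h
  · exact Nat.zero_le _
  · exact le_rfl

/-! ### representations by tops -/

theorem repF_image (S S' : Finset ℕ) (a b N : ℕ) :
    repF (S.image (fun y => y + a)) (S'.image (fun y => y + b)) N ≤
      if a + b ≤ N then repF S S' (N - (a + b)) else 0 := by
  classical
  split_ifs with h
  · unfold repF
    refine (card_le_card (t := ((S ×ˢ S').filter
      (fun x => x.1 + x.2 = N - (a + b))).image (fun y => (y.1 + a, y.2 + b))) ?_).trans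
      card_image_le
    rintro ⟨y, y'⟩ hy
    rw [mem_filter, mem_product, mem_image, mem_image] at hy
    obtain ⟨⟨⟨s, hs, h1⟩, ⟨s', hs', h2⟩⟩, h3⟩ := hy
    simp only at h1 h2 h3
    rw [mem_image]
    refine ⟨(s, s'), mem_filter.2 ⟨mem_product.2 ⟨hs, hs'⟩, ?_⟩, ?_⟩
    · simp only
      omega
    · rw [Prod.mk.injEq]
      exact ⟨h1, h2⟩
  · refine le_of_eq ?_
    unfold repF
    rw [card_eq_zero, filter_eq_empty_iff]
    rintro ⟨y, y'⟩ hy hN
    rw [mem_product, mem_image, mem_image] at hy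
    obtain ⟨⟨s, hs, h1⟩, ⟨s', hs', h2⟩⟩ := hy
    simp only at h1 h2 hN
    omega

theorem repF_le_rA2 {A : Set ℕ} {S S' : Finset ℕ} (hS : ∀ b ∈ S, b ∈ A) (hS' : ∀ b ∈ S', b ∈ A)
    (n : ℕ) : repF S S' n ≤ rA A n := by
  unfold repF rA
  rw [← Set.ncard_coe_finset]
  refine Set.ncard_le_ncard ?_ (repset_finite A n)
  intro x hx
  rw [mem_coe, mem_filter, mem_product] at hx
  exact ⟨hS _ hx.1.1, hS' _ hx.1.2, hx.2⟩

theorem repF_cut_le {B : Set ℕ} {c : ℕ} (hc : ∀ n, rA B n ≤ c * (Nat.log 2 n + 1)) {w w' u : ℕ}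
    (hw : w ≤ u) (hw' : w' ≤ u) (M : ℕ) : repF (cut B w) (cut B w') M ≤ c * (u + 2) := by
  by_cases hM : M < 2 ^ (u + 1)
  · refine (repF_le_rA2 (A := B) (fun b hb => (mem_cut.1 hb).2) (fun b hb => (mem_cut.1 hb).2)
      M).trans ((hc M).trans (Nat.mul_le_mul_left _ ?_))
    rcases Nat.eq_zero_or_pos M with h0 | h0
    · rw [h0]; simp
    · have := (Nat.log_lt_iff_lt_pow (b := 2) (by norm_num) (by omega : M ≠ 0)).2 hM
      omega
  · have h0 : repF (cut B w) (cut B w') M = 0 := by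
      unfold repF
      rw [card_eq_zero, filter_eq_empty_iff]
      rintro x hx hxn
      rw [mem_product, mem_cut, mem_cut] at hx
      have e1 : 2 ^ (u + 1) = 2 ^ u + 2 ^ u := by ring
      have e2 : 2 ^ w ≤ 2 ^ u := Nat.pow_le_pow_right (by norm_num) hw
      have e3 : 2 ^ w' ≤ 2 ^ u := Nat.pow_le_pow_right (by norm_num) hw'
      omega
    rw [h0]
    exact Nat.zero_le _

theorem repF_top_le {B : Set ℕ} {c : ℕ} (hc : ∀ n, rA B n ≤ c * (Nat.log 2 n + 1))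
    {x u J j j' : ℕ} (hw : wid x u J j ≤ u) (hw' : wid x u J j' ≤ u) (N : ℕ) :
    repF (top B x u J j) (top B x u J j') N ≤ c * (u + 2) := by
  refine (repF_image _ _ _ _ _).trans ?_
  split_ifs with h
  · exact repF_cut_le hc hw hw' _
  · exact Nat.zero_le _

/-- intervals of length `H` contain few elements -/
theorem win_of_rep {T : Finset ℕ} {ρ H : ℕ} (hρ : ∀ N, repF T T N ≤ ρ) :
    Win H T (Nat.sqrt (2 * H * ρ)) := by
  classical
  intro w
  set F := T.filter (fun b => b ≤ w ∧ w < b + H) with hF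
  rw [Nat.le_sqrt, ← card_product]
  have hmap : ∀ x ∈ F ×ˢ F, 2 * w - (x.1 + x.2) ∈ range (2 * H) := by
    intro x hx
    rw [mem_product, hF, mem_filter, mem_filter] at hx
    rw [mem_range]
    omega
  rw [card_eq_sum_card_fiberwise hmap]
  calc ∑ r ∈ range (2 * H), ((F ×ˢ F).filter (fun x => 2 * w - (x.1 + x.2) = r)).card
      ≤ ∑ _r ∈ range (2 * H), ρ := by
        refine sum_le_sum (fun r _ => ?_)
        refine le_trans (card_le_card ?_) (hρ (2 * w - r))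
        intro x hx
        rw [mem_filter, mem_product, hF, mem_filter, mem_filter] at hx
        rw [mem_filter, mem_product]
        exact ⟨⟨hx.1.1.1, hx.1.2.1⟩, by omega⟩
    _ = 2 * H * ρ := by rw [sum_const, card_range, smul_eq_mul]

theorem cut_card_le {B : Set ℕ} {c : ℕ} (hc : ∀ n, rA B n ≤ c * (Nat.log 2 n + 1)) (u : ℕ) :
    (cut B u).card ^ 2 ≤ 2 ^ (u + 1) * (c * (u + 2)) := by
  classical
  have hmap : ∀ x ∈ (cut B u) ×ˢ (cut B u), x.1 + x.2 ∈ range (2 ^ (u + 1)) := by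
    intro x hx
    rw [mem_product, mem_cut, mem_cut] at hx
    rw [mem_range]
    have : 2 ^ (u + 1) = 2 ^ u + 2 ^ u := by ring
    omega
  calc (cut B u).card ^ 2 = ((cut B u) ×ˢ (cut B u)).card := by rw [card_product, sq]
    _ = ∑ n ∈ range (2 ^ (u + 1)),
        (((cut B u) ×ˢ (cut B u)).filter (fun x => x.1 + x.2 = n)).card :=
        card_eq_sum_card_fiberwise hmap
    _ ≤ ∑ _n ∈ range (2 ^ (u + 1)), c * (u + 2) :=
        sum_le_sum (fun n _ => repF_cut_le hc le_rfl le_rfl n)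
    _ = 2 ^ (u + 1) * (c * (u + 2)) := by rw [sum_const, card_range, smul_eq_mul]

/-- the parameters -/
structure Plan (C K0 : ℕ) where
  κ : ℕ → ℕ
  v : ℕ → ℕ
  x : ℕ → ℕ
  J : ℕ → ℕ
  c : ℕ → ℕ
  B : ℕ → Set ℕ
  bas : ∀ i n, ∃ a ∈ B i, ∃ b ∈ B i, a + b = n
  all : ∀ i n, rA (B i) n ≤ c i * (Nat.log 2 n + 1)
  κs : ∀ i, κ (i + 1) = κ i + v i
  r1 : ∀ i, 32 * (8 * v i + 13) ≤ κ i
  r2 : ∀ i, (J i + 1) ^ 2 * (c i * (8 * v i + 14)) * (Nat.log 2 (κ i) + 1) ≤ κ i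
  r3 : ∀ i, 8 * (x i) ^ (J i) + C + 36 ≤ 8 * v i + 12
  r4 : ∀ i, 2 * (c i * (8 * v i + 14)) ≤ 2 ^ (4 * x i)
  r5 : ∀ i, (J i + 1) * (Nat.log 2 (κ i) + 1) ≤ x i
  r6 : ∀ i, (∑ i' ∈ range i, (J i' + 1)) ≤ κ i
  r7 : ∀ i, K0 + C + 50 ≤ x i
  J1 : ∀ i, 1 ≤ J i

/-- the width of a class -/
def Plan.u {C K0 : ℕ} (P : Plan C K0) (i : ℕ) : ℕ := 8 * P.v i + 12

theorem Plan.xJ {C K0 : ℕ} (P : Plan C K0) (i : ℕ) : P.x i ≤ (P.x i) ^ (P.J i) := by
  have := P.J1 i
  exact Nat.le_self_pow (by omega) _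

theorem Plan.xpow {C K0 : ℕ} (P : Plan C K0) (i : ℕ) {j : ℕ} (hj : 1 ≤ j) :
    P.x i ≤ (P.x i) ^ j := Nat.le_self_pow (by omega) _

theorem Plan.xu {C K0 : ℕ} (P : Plan C K0) (i : ℕ) : 8 * P.x i + C + 36 ≤ P.u i := by
  have h1 := P.xJ i
  have h2 := P.r3 i
  unfold Plan.u
  omega

theorem Plan.xκ {C K0 : ℕ} (P : Plan C K0) (i : ℕ) : P.x i ≤ P.κ i := by
  have h1 := P.xu i
  have h2 := P.r1 i
  unfold Plan.u at h1
  omega

theorem Plan.wid_le {C K0 : ℕ} (P : Plan C K0) (i j : ℕ) :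
    wid (P.x i) (P.u i) (P.J i) j ≤ P.u i := by
  unfold wid
  split_ifs with h
  · have h1 := P.r3 i
    have h2 : (P.x i) ^ (j + 1) ≤ (P.x i) ^ (P.J i) := by
      refine Nat.pow_le_pow_right ?_ (by omega)
      have := P.r7 i
      omega
    unfold Plan.u
    omega
  · exact le_rfl

theorem Plan.gam_wid {C K0 : ℕ} (P : Plan C K0) (i j : ℕ) (hj : j ≤ P.J i) :
    8 * gam (P.x i) j + C + 36 ≤ wid (P.x i) (P.u i) (P.J i) j := by
  have h7 := P.r7 i
  unfold wid gam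
  split_ifs with h0 h1 h1
  · subst h0
    rw [zero_add, pow_one]
    omega
  · have := P.xu i
    omega
  · have e1 : (P.x i) ^ (j + 1) = (P.x i) ^ j * P.x i := pow_succ _ _
    have e2 : P.x i ≤ (P.x i) ^ j := Nat.le_self_pow (by omega) _
    have e3 : (P.x i) ^ j * 2 ≤ (P.x i) ^ j * P.x i := Nat.mul_le_mul_left _ (by omega)
    omega
  · have e : j = P.J i := by omega
    rw [e]
    have := P.r3 i
    unfold Plan.u
    omega

theorem plan_sys {C : ℕ} (hC : ∀ p : ℕ, p.Prime → 7 < p → ∃ D : Finset ℕ, IsBase C p D) {K0 : ℕ}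
    (P : Plan C K0) : ∃ s : MSys C, (∀ i, s.κ i = P.κ i) ∧ (∀ i, s.u i = P.u i) ∧
      (∀ i, s.J i = P.J i) ∧ (∀ i j, s.T i j = top (P.B i) (P.x i) (P.u i) (P.J i) j) ∧
      (∀ i j, s.w i j = wid (P.x i) (P.u i) (P.J i) j) ∧
      (∀ i j, s.γ i j = gam (P.x i) j) := by
  have hprime : ∀ i : ℕ, ∃ p : ℕ, p.Prime ∧ 2 ^ P.κ i < p ∧ p ≤ 2 ^ (P.κ i + 1) := by
    intro i
    obtain ⟨p, hp, h1, h2⟩ := Nat.exists_prime_lt_and_le_two_mul (2 ^ P.κ i)
      (pow_ne_zero _ two_ne_zero)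
    exact ⟨p, hp, h1, by rw [pow_succ]; omega⟩
  choose p hp hlo hhi using hprime
  have h7 : ∀ i, 7 < p i := by
    intro i
    have h3 : 2 ^ 3 ≤ 2 ^ P.κ i := Nat.pow_le_pow_right (by norm_num) (by
      have := P.r7 i
      have := P.xκ i
      omega)
    have := hlo i
    omega
  have h2 : ∀ i, ∃ D : Finset ℕ, IsBase C (p i) D := fun i => hC (p i) (hp i) (h7 i)
  choose D hD using h2
  refine ⟨{ p := p, D := D, κ := P.κ, u := P.u, J := P.J,
            T := fun i j => top (P.B i) (P.x i) (P.u i) (P.J i) j,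
            w := fun i j => wid (P.x i) (P.u i) (P.J i) j,
            γ := fun i j => gam (P.x i) j,
            β := fun i j => Nat.sqrt (2 * 2 ^ (8 * gam (P.x i) j) *
              (P.c i * (P.u i + 2))),
            prime := hp, lo := hlo, hi := hhi, base := hD,
            Tlt := ?_, wu := ?_, Tcard := ?_, touch := ?_, ule := ?_, idx := P.r6, Jκ := ?_,
            γ0 := ?_, γw := ?_, win := ?_, βle := ?_ },
    fun i => rfl, fun i => rfl, fun i => rfl, fun i j => rfl, fun i j => rfl, fun i j => rfl⟩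
  · intro i j hj b hb
    unfold top at hb
    rw [mem_image] at hb
    obtain ⟨b', hb', rfl⟩ := hb
    have e1 := (mem_cut.1 hb').1
    have e2 := shf_le (P.x i) j
    have e3 : 2 ^ (8 * gam (P.x i) j) ≤ 2 ^ wid (P.x i) (P.u i) (P.J i) j := by
      refine Nat.pow_le_pow_right (by norm_num) ?_
      have := P.gam_wid i j hj
      omega
    have e4 : 2 ^ (wid (P.x i) (P.u i) (P.J i) j + 1) = 2 ^ wid (P.x i) (P.u i) (P.J i) j +
        2 ^ wid (P.x i) (P.u i) (P.J i) j := by ring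
    show b' + shf (P.x i) j < 2 ^ (wid (P.x i) (P.u i) (P.J i) j + 1)
    omega
  · intro i j _
    exact P.wid_le i j
  · intro i
    have e1 : ∑ j ∈ range (P.J i + 1), (top (P.B i) (P.x i) (P.u i) (P.J i) j).card ≤
        (P.J i + 1) * (cut (P.B i) (P.u i)).card := by
      calc ∑ j ∈ range (P.J i + 1), (top (P.B i) (P.x i) (P.u i) (P.J i) j).card
          ≤ ∑ _j ∈ range (P.J i + 1), (cut (P.B i) (P.u i)).card := by
            refine sum_le_sum (fun j _ => card_image_le.trans (card_le_card ?_))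
            intro b hb
            rw [mem_cut] at hb ⊢
            exact ⟨lt_of_lt_of_le hb.1 (Nat.pow_le_pow_right (by norm_num) (P.wid_le i j)), hb.2⟩
        _ = (P.J i + 1) * (cut (P.B i) (P.u i)).card := by
            rw [sum_const, card_range, smul_eq_mul]
    have e2 := cut_card_le (P.all i) (P.u i)
    have e3 := P.r2 i
    have e4 : (P.J i + 1) ^ 2 * (P.c i * (P.u i + 2)) ≤ P.κ i := by
      refine le_trans ?_ e3
      exact Nat.le_mul_of_pos_right _ (by omega)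
    calc (∑ j ∈ range (P.J i + 1), (top (P.B i) (P.x i) (P.u i) (P.J i) j).card) ^ 2
        ≤ ((P.J i + 1) * (cut (P.B i) (P.u i)).card) ^ 2 := Nat.pow_le_pow_left e1 2
      _ = (P.J i + 1) ^ 2 * (cut (P.B i) (P.u i)).card ^ 2 := mul_pow _ _ _
      _ ≤ (P.J i + 1) ^ 2 * (2 ^ (P.u i + 1) * (P.c i * (P.u i + 2))) :=
          Nat.mul_le_mul_left _ e2
      _ = 2 ^ (P.u i + 1) * ((P.J i + 1) ^ 2 * (P.c i * (P.u i + 2))) := by ring
      _ ≤ 2 ^ (P.u i + 1) * P.κ i := Nat.mul_le_mul_left _ e4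
  · intro i
    have := P.κs i
    unfold Plan.u
    omega
  · intro i
    have := P.r1 i
    unfold Plan.u
    omega
  · intro i
    have h1 := P.r5 i
    have h2 : (P.J i + 1) * 1 ≤ (P.J i + 1) * (Nat.log 2 (P.κ i) + 1) :=
      Nat.mul_le_mul_left _ (by omega)
    have h3 := P.xκ i
    omega
  · intro i
    rfl
  · intro i j hj
    exact P.gam_wid i j hj
  · intro i j _ hj
    exact win_of_rep (fun N => repF_top_le (P.all i) (P.wid_le i j) (P.wid_le i j) N)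
  · intro i j hj1 hj
    refine (Nat.pow_le_pow_iff_left (show 2 ≠ 0 by norm_num)).1 ?_
    show (2 ^ (2 * gam (P.x i) j) * Nat.sqrt (2 * 2 ^ (8 * gam (P.x i) j) *
      (P.c i * (P.u i + 2)))) ^ 2 ≤ (2 ^ (8 * gam (P.x i) j)) ^ 2
    obtain ⟨g, hg⟩ : ∃ g, g = gam (P.x i) j := ⟨_, rfl⟩
    have hxg : P.x i ≤ g := by
      rw [hg]
      unfold gam
      rw [if_neg (by omega)]
      exact P.xpow i hj1
    rw [← hg]
    have e1 := Nat.sqrt_le (2 * 2 ^ (8 * g) * (P.c i * (P.u i + 2)))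
    have e2 := P.r4 i
    have e3 : 2 ^ (4 * P.x i) ≤ 2 ^ (4 * g) := Nat.pow_le_pow_right (by norm_num) (by omega)
    have e4 : 2 * (P.c i * (P.u i + 2)) ≤ 2 ^ (4 * g) := e2.trans e3
    calc (2 ^ (2 * g) * Nat.sqrt (2 * 2 ^ (8 * g) * (P.c i * (P.u i + 2)))) ^ 2
        = 2 ^ (4 * g) * (Nat.sqrt (2 * 2 ^ (8 * g) * (P.c i * (P.u i + 2))) *
            Nat.sqrt (2 * 2 ^ (8 * g) * (P.c i * (P.u i + 2)))) := by
          rw [mul_pow, ← pow_mul, sq (Nat.sqrt _)]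
          ring_nf
      _ ≤ 2 ^ (4 * g) * (2 * 2 ^ (8 * g) * (P.c i * (P.u i + 2))) := Nat.mul_le_mul_left _ e1
      _ = 2 ^ (4 * g) * 2 ^ (8 * g) * (2 * (P.c i * (P.u i + 2))) := by ring
      _ ≤ 2 ^ (4 * g) * 2 ^ (8 * g) * 2 ^ (4 * g) := Nat.mul_le_mul_left _ e4
      _ = (2 ^ (8 * g)) ^ 2 := by rw [← pow_add, ← pow_add, ← pow_mul]; congr 1; ring

end Pool.Agent.H708.ET
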