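import Pool.Agent.H708.ET.PlanSet

/-!
# The set given by a plan: the theorem
-/

set_option autoImplicit false

namespace Pool.Agent.H708.ET

open Finset Pool.Agent.H125R2.ET Pool.Agent.Helper667_AS

theorem window_nat {C x J l κ m n : ℕ} {B : Set ℕ} {u : ℕ} (hx : C + 50 ≤ x)
    (hl : 8 * x + 20 ≤ l) (hTr : l ∉ Trs x J) (hm1 : 2 ^ (8 * κ) ≤ m) (hm2 : m ≤ 2 ^ (8 * κ + 8))
    (hn1 : 2 ^ (8 * κ + l) ≤ n) (hn2 : n < 2 ^ (8 * κ + l + 1)) {j j' : ℕ} (hj : j ≤ J)
    (hj' : j' ≤ J) {N : ℕ}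
    (hN1 : n / m - (2 * C + (2 ^ (8 * gam x j) + 2 ^ (8 * gam x j')) + 4) ≤ N)
    (hN2 : N ≤ n / m) :
    repF (top B x u J j) (top B x u J j') N ≤
      ∑ s ∈ range 11, if s ≤ l then mx B (l - s) else 0 := by
  have hm0 : 0 < m := lt_of_lt_of_le (by positivity) hm1
  have hup : n / m < 2 ^ (l + 1) := by
    refine Nat.div_lt_of_lt_mul ?_
    calc n < 2 ^ (8 * κ + l + 1) := hn2
      _ = 2 ^ (8 * κ) * 2 ^ (l + 1) := by rw [← pow_add]; congr 1
      _ ≤ m * 2 ^ (l + 1) := Nat.mul_le_mul_right _ hm1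
  have hlow : 2 ^ (l - 8) ≤ n / m := by
    rw [Nat.le_div_iff_mul_le hm0]
    calc 2 ^ (l - 8) * m ≤ 2 ^ (l - 8) * 2 ^ (8 * κ + 8) := Nat.mul_le_mul_left _ hm2
      _ = 2 ^ (8 * κ + l) := by rw [← pow_add]; congr 1; omega
      _ ≤ n := hn1
  have hsmall : ∀ i ≤ J, shf x i ≤ N → 2 ^ (8 * gam x i) ≤ 2 ^ (l - 20) := by
    intro i hi hs
    refine Nat.pow_le_pow_right (by norm_num) ?_
    unfold gam
    unfold shf at hs
    split_ifs with h0
    · omega
    · rw [if_neg h0] at hs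
      have e1 : 2 ^ (8 * x ^ i) < 2 ^ (l + 1) := lt_of_le_of_lt (hs.trans hN2) hup
      have e2 : 8 * x ^ i < l + 1 := (Nat.pow_lt_pow_iff_right (by norm_num)).1 e1
      by_contra hc
      apply hTr
      unfold Trs
      rw [mem_biUnion]
      exact ⟨i, mem_Icc.2 ⟨by omega, hi⟩, mem_Ico.2 ⟨by omega, by omega⟩⟩
  unfold top
  refine (repF_image _ _ _ _ _).trans ?_
  split_ifs with h
  · have h1 := hsmall j hj (by omega)
    have h2 := hsmall j' hj' (by omega)
    have h3 := shf_le x j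
    have h4 := shf_le x j'
    obtain ⟨y, hy⟩ : ∃ y, y = 2 ^ (l - 20) := ⟨_, rfl⟩
    have e8 : 2 ^ (l - 8) = 4096 * y := by
      rw [hy, show l - 8 = (l - 20) + 12 by omega, pow_add]
      ring
    have e9 : 2 ^ (l - 9) = 2048 * y := by
      rw [hy, show l - 9 = (l - 20) + 11 by omega, pow_add]
      ring
    have ey : 2 * C + 4 ≤ y := by
      have : l - 20 < 2 ^ (l - 20) := Nat.lt_two_pow_self
      omega
    rw [← hy] at h1 h2
    rw [e8] at hlow
    obtain ⟨M, hM⟩ : ∃ M, M = N - (shf x j + shf x j') := ⟨_, rfl⟩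
    have hM1 : 2 ^ (l - 9) ≤ M := by
      rw [e9]
      omega
    have hM2 : M < 2 ^ (l + 1) := by omega
    rw [← hM]
    refine (repF_le_rA2 (A := B) (fun b hb => (mem_cut.1 hb).2) (fun b hb => (mem_cut.1 hb).2)
      M).trans ?_
    have hM0 : M ≠ 0 := by
      have : 0 < 2 ^ (l - 9) := by positivity
      omega
    obtain ⟨k, hk⟩ : ∃ k, k = Nat.log 2 M := ⟨_, rfl⟩
    have k1 : 2 ^ k ≤ M := by rw [hk]; exact Nat.pow_log_le_self 2 hM0
    have k2 : M < 2 ^ (k + 1) := by rw [hk]; exact Nat.lt_pow_succ_log_self (by norm_num) M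
    have k3 : k < l + 1 := (Nat.pow_lt_pow_iff_right (by norm_num)).1 (lt_of_le_of_lt k1 hM2)
    have k4 : l - 9 < k + 1 := (Nat.pow_lt_pow_iff_right (by norm_num)).1 (lt_of_le_of_lt hM1 k2)
    refine (le_mx k1 k2).trans ?_
    have h5 := Finset.single_le_sum (f := fun s => if s ≤ l then mx B (l - s) else 0)
      (fun s _ => Nat.zero_le _) (mem_range.2 (show l - k < 11 by omega))
    rw [if_pos (Nat.sub_le _ _), show l - (l - k) = k by omega] at h5
    exact h5
  · exact Nat.zero_le _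

/-- **The set given by a plan.** -/
theorem plan_set (C : ℕ) (hC : ∀ p : ℕ, p.Prime → 7 < p → ∃ D : Finset ℕ, IsBase C p D) :
    ∃ C7 K0 : ℕ, ∀ P : Plan C K0, ∃ (A : Set ℕ) (Cn c : ℕ),
      (∀ n, ∃ a ∈ A, ∃ b ∈ A, a + b = n) ∧
      (∀ n, rA A n * Nat.log 2 (Nat.log 2 n + 2) ≤ c * (Nat.log 2 n + 1)) ∧
      (∀ t, ∑ l ∈ range (8 * P.v t), mx A (8 * P.κ t + l) ≤
        C7 * ((P.J t + 1) * (P.x t * P.κ t) + (P.J t + 1) ^ 2 * Sm (P.B t) (8 * P.v t) +
          P.v t * (P.κ t / (P.x t) ^ (P.J t) + 1)) + Cn * P.κ t) := by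
  obtain ⟨C5, K0, hmain⟩ := touch_setM C
  refine ⟨800 * C5, K0, fun P => ?_⟩
  obtain ⟨s, hsκ, hsu, hsJ, hsT, hsw, hsγ⟩ := plan_sys hC P
  set γz : ℕ → ℕ := fun i => Nat.log 2 (P.κ i) / 2 with hγzdef
  have hκ50 : ∀ i, K0 + C + 50 ≤ P.κ i := by
    intro i
    have := P.r7 i
    have := P.xκ i
    omega
  have hlog : ∀ i, 3 ≤ Nat.log 2 (P.κ i) := by
    intro i
    have := hκ50 i
    exact (Nat.le_log_iff_pow_le (by norm_num) (by omega)).2 (by omega)
  obtain ⟨A0, h1, h2, h3, h4⟩ := hmain s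
    (fun i => by rw [hsκ]; have := hκ50 i; omega)
    (fun i j hj1 hj => by
      rw [hsγ]
      unfold gam
      rw [if_neg (by omega)]
      have := P.xpow i hj1
      have := P.r7 i
      omega)
    γz (fun i => by
      have := hlog i
      show 1 ≤ Nat.log 2 (P.κ i) / 2
      omega)
    (fun i => by
      rw [hsκ]
      refine le_trans (Nat.pow_le_pow_right (by norm_num) ?_) (Nat.pow_log_le_self 2 (by
        have := hκ50 i
        omega : P.κ i ≠ 0))
      show 2 * (Nat.log 2 (P.κ i) / 2) ≤ _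
      omega)
    (fun i N hN => by
      rw [hsw] at hN
      rw [hsT]
      obtain ⟨a, ha, b, hb, hab⟩ := P.bas i N
      refine ⟨a, ?_, b, ?_, hab⟩
      · unfold top
        rw [mem_image]
        exact ⟨a, mem_cut.2 ⟨by omega, ha⟩, by unfold shf; simp⟩
      · unfold top
        rw [mem_image]
        exact ⟨b, mem_cut.2 ⟨by omega, hb⟩, by unfold shf; simp⟩)
    (fun i j N hj1 hj hN1 hN2 => by
      rw [hsw] at hN2
      rw [hsT]
      have hH : s.H i j = shf (P.x i) j := by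
        unfold MSys.H shf
        rw [hsγ, if_neg (by omega)]
        unfold gam
        rw [if_neg (by omega)]
      rw [hH] at hN1
      obtain ⟨a, ha, b, hb, hab⟩ := P.bas i (N - 2 * shf (P.x i) j)
      refine ⟨a + shf (P.x i) j, ?_, b + shf (P.x i) j, ?_, by omega⟩
      · unfold top
        rw [mem_image]
        exact ⟨a, mem_cut.2 ⟨by omega, ha⟩, rfl⟩
      · unfold top
        rw [mem_image]
        exact ⟨b, mem_cut.2 ⟨by omega, hb⟩, rfl⟩)
    (fun i j hj => by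
      rw [hsJ] at hj
      rw [hsw, hsγ]
      unfold wid gam
      rw [if_pos hj, if_neg (by omega)])
    (fun i => by
      rw [hsw, hsJ, hsu]
      unfold wid
      rw [if_neg (by omega)])
  -- the hit numbers
  have hgh : ∀ t j, ((P.κ t : ℕ) : ℝ) / (s.gh γz t j : ℝ) ≤ ((hitn (P.κ t) (P.x t) j : ℕ) : ℝ) := by
    intro t j
    have e : s.gh γz t j = (if j = 0 then Nat.log 2 (P.κ t) / 2 else (P.x t) ^ j) := by
      unfold MSys.gh
      rw [hsγ]
      unfold gam
      split_ifs <;> rfl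
    rw [e]
    exact div_le_nat _ _
  -- the crude bound of the representations
  have hcrude : ∀ t n, CBdM s t n (P.c t * (P.u t + 2)) := by
    intro t n j j' _ _ N _ _
    rw [hsT, hsT]
    exact repF_top_le (P.all t) (P.wid_le t j) (P.wid_le t j') N
  obtain ⟨G, hG⟩ : ∃ G : ℕ → ℕ, ∀ t, G t = ∑ j ∈ range (P.J t + 1), hitn (P.κ t) (P.x t) j :=
    ⟨_, fun _ => rfl⟩
  obtain ⟨Q, hQ⟩ : ∃ Q : ℕ → ℕ, ∀ t, Q t = (P.J t + 1) ^ 2 * (P.c t * (P.u t + 2)) :=
    ⟨_, fun _ => rfl⟩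
  have hall : ∀ t n, 2 ^ (8 * P.κ t) ≤ n → n < 2 ^ (8 * P.κ (t + 1)) →
      rA A0 n ≤ C5 * (Q t + Q (t - 1) + G t + G (t - 1)) := by
    intro t n hn1 hn2
    have e1 := h3 t n _ _ (by rw [hsκ]; exact hn1) (by rw [hsκ]; exact hn2) (hcrude t n)
      (hcrude (t - 1) n)
    rw [hsJ, hsJ, hsκ, hsκ, ← hQ, ← hQ] at e1
    have e2 : ∀ t, ∑ j ∈ range (P.J t + 1), (P.κ t : ℝ) / s.gh γz t j ≤ ((G t : ℕ) : ℝ) := by
      intro t
      rw [hG, Nat.cast_sum]
      exact Finset.sum_le_sum (fun j _ => hgh t j)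
    have e3 : (rA A0 n : ℝ) ≤ ((C5 * (Q t + Q (t - 1) + G t + G (t - 1)) : ℕ) : ℝ) := by
      refine e1.trans ?_
      have f1 := e2 t
      have f2 := e2 (t - 1)
      push_cast
      refine mul_le_mul_of_nonneg_left ?_ (Nat.cast_nonneg _)
      linarith
    exact_mod_cast e3
  -- numerical facts
  have hxκ := P.xκ
  have hQℓ : ∀ t, Q t * (Nat.log 2 (P.κ t) + 1) ≤ P.κ t := by
    intro t
    rw [hQ]
    exact P.r2 t
  have hGℓ : ∀ t, G t * (Nat.log 2 (P.κ t) + 1) ≤ 7 * P.κ t := by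
    intro t
    rw [hG]
    exact hitn_sum (by have := hκ50 t; omega) (hxκ t) (P.r5 t)
  have hv : ∀ t, 8 * P.v t + 13 ≤ P.κ t := by
    intro t
    have := P.r1 t
    omega
  have hκt1 : ∀ t, P.κ (t - 1) ≤ P.κ t ∧ P.κ t ≤ 2 * P.κ (t - 1) := by
    intro t
    rcases Nat.eq_zero_or_pos t with h0 | h0
    · subst h0
      exact ⟨le_rfl, by show P.κ 0 ≤ 2 * P.κ 0; omega⟩
    · obtain ⟨t', rfl⟩ : ∃ t', t = t' + 1 := ⟨t - 1, by omega⟩
      have e1 := P.κs t'
      have e2 := hv t'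
      rw [Nat.add_sub_cancel]
      omega
  have hℓt1 : ∀ t, Nat.log 2 (P.κ t) + 1 ≤ 2 * (Nat.log 2 (P.κ (t - 1)) + 1) := by
    intro t
    have e1 := (hκt1 t).2
    have e2 : Nat.log 2 (P.κ t) ≤ Nat.log 2 (P.κ (t - 1) * 2) := Nat.log_mono_right (by omega)
    rw [Nat.log_mul_base (by norm_num) (by have := hκ50 (t - 1); omega)] at e2
    omega
  have hsumℓ : ∀ t, (Q t + Q (t - 1) + G t + G (t - 1)) * (Nat.log 2 (P.κ t) + 1) ≤
      24 * P.κ t := by
    intro t
    have a1 := hQℓ t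
    have a2 := hQℓ (t - 1)
    have a3 := hGℓ t
    have a4 := hGℓ (t - 1)
    have a5 := hℓt1 t
    have a6 := (hκt1 t).1
    have b2 : Q (t - 1) * (Nat.log 2 (P.κ t) + 1) ≤ 2 * P.κ t := by
      calc Q (t - 1) * (Nat.log 2 (P.κ t) + 1)
          ≤ Q (t - 1) * (2 * (Nat.log 2 (P.κ (t - 1)) + 1)) := Nat.mul_le_mul_left _ a5
        _ = 2 * (Q (t - 1) * (Nat.log 2 (P.κ (t - 1)) + 1)) := by ring
        _ ≤ 2 * P.κ t := Nat.mul_le_mul_left _ (a2.trans a6)
    have b4 : G (t - 1) * (Nat.log 2 (P.κ t) + 1) ≤ 14 * P.κ t := by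
      calc G (t - 1) * (Nat.log 2 (P.κ t) + 1)
          ≤ G (t - 1) * (2 * (Nat.log 2 (P.κ (t - 1)) + 1)) := Nat.mul_le_mul_left _ a5
        _ = 2 * (G (t - 1) * (Nat.log 2 (P.κ (t - 1)) + 1)) := by ring
        _ ≤ 2 * (7 * P.κ t) := Nat.mul_le_mul_left _ (a4.trans (Nat.mul_le_mul_left _ a6))
        _ = 14 * P.κ t := by ring
    calc (Q t + Q (t - 1) + G t + G (t - 1)) * (Nat.log 2 (P.κ t) + 1)
        = Q t * (Nat.log 2 (P.κ t) + 1) + Q (t - 1) * (Nat.log 2 (P.κ t) + 1) +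
          G t * (Nat.log 2 (P.κ t) + 1) + G (t - 1) * (Nat.log 2 (P.κ t) + 1) := by ring
      _ ≤ P.κ t + 2 * P.κ t + 7 * P.κ t + 14 * P.κ t := by omega
      _ = 24 * P.κ t := by ring
  -- the set
  obtain ⟨N0, hN0⟩ : ∃ N0, N0 = 14 * (s.p 0) ^ 8 := ⟨_, rfl⟩
  obtain ⟨Cn, hCn⟩ : ∃ Cn, Cn = 2 * (N0 + 1) := ⟨_, rfl⟩
  have hr : ∀ n, rA (A0 ∪ {m | m ≤ N0}) n ≤ rA A0 n + Cn := by
    intro n
    rw [hCn]
    exact rA_union A0 N0 n
  refine ⟨A0 ∪ {m | m ≤ N0}, Cn, 120 * C5 + Cn, ?_, ?_, ?_⟩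
  · -- basis
    intro n
    rcases Nat.lt_or_ge n N0 with hlt | hge
    · exact ⟨n, Or.inr hlt.le, 0, Or.inr (Nat.zero_le _), Nat.add_zero n⟩
    · obtain ⟨a, ha, b, hb, hab⟩ := h4 n (by rw [← hN0]; exact hge)
      exact ⟨a, Or.inl ha, b, Or.inl hb, hab⟩
  · -- all numbers
    intro n
    obtain ⟨K, hK⟩ : ∃ K, K = Nat.log 2 n := ⟨_, rfl⟩
    rw [← hK]
    have hLK : Nat.log 2 (K + 2) ≤ K + 1 := by
      have : Nat.log 2 (K + 2) < K + 2 := Nat.log_lt_self _ (by omega)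
      omega
    have hCL : Cn * Nat.log 2 (K + 2) ≤ Cn * (K + 1) := Nat.mul_le_mul_left _ hLK
    by_cases hn : n < 2 ^ (8 * P.κ 0)
    · have e1 := h1 n (by rw [hsκ]; exact hn)
      have e2 := hr n
      rw [e1, zero_add] at e2
      calc rA (A0 ∪ {m | m ≤ N0}) n * Nat.log 2 (K + 2) ≤ Cn * Nat.log 2 (K + 2) :=
            Nat.mul_le_mul_right _ e2
        _ ≤ Cn * (K + 1) := hCL
        _ ≤ (120 * C5 + Cn) * (K + 1) := Nat.mul_le_mul_right _ (Nat.le_add_left _ _)
    · have hex : ∃ t, n < 2 ^ (8 * P.κ t) := by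
        refine ⟨n, ?_⟩
        have e1 : n ≤ P.κ n := by
          have := s.iκ n
          rw [hsκ] at this
          exact this
        have e2 : n < 2 ^ n := Nat.lt_two_pow_self
        exact lt_of_lt_of_le e2 (Nat.pow_le_pow_right (by norm_num) (by omega))
      classical
      obtain ⟨t0, ht0, hmin⟩ : ∃ t, n < 2 ^ (8 * P.κ t) ∧ ∀ i < t, ¬ n < 2 ^ (8 * P.κ i) :=
        ⟨Nat.find hex, Nat.find_spec hex, fun i hi => Nat.find_min hex hi⟩
      have hm0 : t0 ≠ 0 := by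
        rintro rfl
        exact hn ht0
      obtain ⟨t, rfl⟩ := Nat.exists_eq_succ_of_ne_zero hm0
      have hnt : 2 ^ (8 * P.κ t) ≤ n := not_lt.1 (hmin t (Nat.lt_succ_self t))
      have e5 : t.succ = t + 1 := rfl
      rw [e5] at ht0
      have hn0 : n ≠ 0 := by
        have : 0 < 2 ^ (8 * P.κ t) := by positivity
        omega
      have hK1 : 8 * P.κ t ≤ K := by
        rw [hK]
        exact (Nat.le_log_iff_pow_le (by norm_num) hn0).2 hnt
      have hK2 : K < 8 * P.κ (t + 1) := by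
        rw [hK]
        exact (Nat.log_lt_iff_lt_pow (by norm_num) hn0).2 ht0
      have hK3 : K + 2 < 32 * P.κ t := by
        have e1 := P.κs t
        have e2 := hv t
        omega
      have hLℓ : Nat.log 2 (K + 2) ≤ 5 * (Nat.log 2 (P.κ t) + 1) := by
        have e1 : P.κ t < 2 ^ (Nat.log 2 (P.κ t) + 1) :=
          Nat.lt_pow_succ_log_self (by norm_num) _
        have e2 : K + 2 < 2 ^ (Nat.log 2 (P.κ t) + 1 + 5) := by
          rw [pow_add]
          omega
        have e3 := (Nat.log_lt_iff_lt_pow (b := 2) (by norm_num) (by omega : K + 2 ≠ 0)).2 e2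
        omega
      have e6 := hall t n hnt ht0
      have e7 := hr n
      have e8 := hsumℓ t
      calc rA (A0 ∪ {m | m ≤ N0}) n * Nat.log 2 (K + 2)
          ≤ (C5 * (Q t + Q (t - 1) + G t + G (t - 1)) + Cn) * Nat.log 2 (K + 2) :=
            Nat.mul_le_mul_right _ (e7.trans (Nat.add_le_add_right e6 _))
        _ = C5 * ((Q t + Q (t - 1) + G t + G (t - 1)) * Nat.log 2 (K + 2)) +
            Cn * Nat.log 2 (K + 2) := by ring
        _ ≤ C5 * ((Q t + Q (t - 1) + G t + G (t - 1)) * (5 * (Nat.log 2 (P.κ t) + 1))) +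
            Cn * (K + 1) :=
            Nat.add_le_add (Nat.mul_le_mul_left _ (Nat.mul_le_mul_left _ hLℓ)) hCL
        _ = 5 * C5 * ((Q t + Q (t - 1) + G t + G (t - 1)) * (Nat.log 2 (P.κ t) + 1)) +
            Cn * (K + 1) := by ring
        _ ≤ 5 * C5 * (24 * P.κ t) + Cn * (K + 1) :=
            Nat.add_le_add_right (Nat.mul_le_mul_left _ e8) _
        _ = 120 * C5 * P.κ t + Cn * (K + 1) := by ring
        _ ≤ 120 * C5 * (K + 1) + Cn * (K + 1) :=
            Nat.add_le_add_right (Nat.mul_le_mul_left _ (by omega)) _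
        _ = (120 * C5 + Cn) * (K + 1) := by ring
  · -- the sum of the maxima
    intro t
    have hκt := P.κs t
    have hx7 := P.r7 t
    have hℓ1 : 1 ≤ Nat.log 2 (P.κ t) + 1 := by omega
    have hcr : Q t + Q (t - 1) + G t + G (t - 1) ≤ 24 * P.κ t :=
      le_trans (Nat.le_mul_of_pos_right _ (by omega)) (hsumℓ t)
    have hQκ : Q t ≤ P.κ t := le_trans (Nat.le_mul_of_pos_right _ (by omega)) (hQℓ t)
    have hscale : ∀ l ∈ range (8 * P.v t), mx (A0 ∪ {m | m ≤ N0}) (8 * P.κ t + l) ≤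
        gB (P.B t) C5 (P.κ t) (P.u t) (P.x t) (P.J t) (24 * C5 * P.κ t) Cn l := by
      intro l hl
      rw [mem_range] at hl
      refine mx_le (fun n hn1 hn2 => ?_)
      have hn3 : n < 2 ^ (8 * P.κ (t + 1)) :=
        lt_of_lt_of_le hn2 (Nat.pow_le_pow_right (by norm_num) (by omega))
      refine (hr n).trans ?_
      unfold gB
      refine Nat.add_le_add_right ?_ _
      by_cases hzone : l < 8 * P.x t + 20
      · rw [if_pos hzone]
        have e1 := hall t n (le_trans (Nat.pow_le_pow_right (by norm_num) (by omega)) hn1) hn3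
        refine (e1.trans ?_).trans (Nat.le_add_right _ _)
        calc C5 * (Q t + Q (t - 1) + G t + G (t - 1)) ≤ C5 * (24 * P.κ t) :=
              Nat.mul_le_mul_left _ hcr
          _ = 24 * C5 * P.κ t := by ring
      · rw [if_neg hzone, zero_add]
        -- the sum of the hits
        have hhits : (∑ j ∈ range (s.J t + 1), if l < s.w t j + 11 then
            (s.κ t : ℝ) / s.gh γz t j else 0) ≤
            ((∑ j ∈ Finset.Icc 1 (P.J t), if l < wid (P.x t) (P.u t) (P.J t) j + 11 then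
              hitn (P.κ t) (P.x t) j else 0 : ℕ) : ℝ) := by
          have e1 : (∑ j ∈ Finset.Icc 1 (P.J t), if l < wid (P.x t) (P.u t) (P.J t) j + 11 then
              hitn (P.κ t) (P.x t) j else 0) = ∑ j ∈ range (P.J t + 1),
              if l < wid (P.x t) (P.u t) (P.J t) j + 11 then hitn (P.κ t) (P.x t) j else 0 := by
            refine Finset.sum_subset ?_ ?_
            · intro j hj
              rw [mem_Icc] at hj
              exact mem_range.2 (by omega)
            · intro j hj hj2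
              rw [mem_range] at hj
              rw [mem_Icc] at hj2
              have hj0 : j = 0 := by omega
              subst hj0
              rw [if_neg]
              have := P.J1 t
              unfold wid
              rw [if_pos (by omega), zero_add, pow_one]
              omega
          rw [e1, hsJ, Nat.cast_sum]
          refine Finset.sum_le_sum (fun j _ => ?_)
          rw [hsw, hsκ]
          split_ifs
          · exact hgh t j
          · simp
        have hfar : ∀ R, CBdM s t n R → rA A0 n ≤ C5 * ((P.J t + 1) ^ 2 * R +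
            ∑ j ∈ Finset.Icc 1 (P.J t), if l < wid (P.x t) (P.u t) (P.J t) j + 11 then
              hitn (P.κ t) (P.x t) j else 0) := by
          intro R hR
          have e1 := h2 t l n R (by omega) (by rw [hsκ]; exact hn1) (by rw [hsκ]; exact hn3) hR
          obtain ⟨Y, hY⟩ : ∃ Y : ℕ, Y = ∑ j ∈ Finset.Icc 1 (P.J t),
            if l < wid (P.x t) (P.u t) (P.J t) j + 11 then hitn (P.κ t) (P.x t) j else 0 :=
            ⟨_, rfl⟩
          rw [← hY] at hhits ⊢
          have e3 : (s.J t + 1) ^ 2 * R = (P.J t + 1) ^ 2 * R := by rw [hsJ]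
          obtain ⟨X, hX⟩ : ∃ X : ℕ, X = (P.J t + 1) ^ 2 * R := ⟨_, rfl⟩
          rw [e3, ← hX] at e1
          rw [← hX]
          have e2 : (rA A0 n : ℝ) ≤ ((C5 * (X + Y) : ℕ) : ℝ) := by
            refine e1.trans ?_
            rw [Nat.cast_mul, Nat.cast_add]
            exact mul_le_mul_of_nonneg_left (add_le_add le_rfl hhits) (Nat.cast_nonneg _)
          exact_mod_cast e2
        by_cases hTr : l ∈ Trs (P.x t) (P.J t)
        · rw [if_pos hTr]
          refine (hfar _ (hcrude t n)).trans (Nat.mul_le_mul_left _ (Nat.add_le_add_right ?_ _))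
          rw [← hQ]
          exact hQκ.trans (Nat.le_add_left _ _)
        · rw [if_neg hTr, add_zero]
          refine hfar _ ?_
          intro j j' hj hj' N hN1 hN2
          rw [hsJ] at hj hj'
          rw [hsT, hsT]
          have eH : ∀ j, s.H t j = 2 ^ (8 * gam (P.x t) j) := by
            intro j
            unfold MSys.H
            rw [hsγ]
          rw [eH, eH] at hN1
          have em1 := p8_loM s t
          have em2 := p8_hiM s t
          rw [hsκ] at em1 em2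
          exact window_nat (by omega) (by omega) hTr em1 em2 hn1 hn2 hj hj' hN1 hN2
    refine (sum_le_sum hscale).trans ((sum_gB _ _ _ _ _ _ _ _ _).trans ?_)
    have hxJκ : (P.x t) ^ (P.J t) ≤ P.κ t := by
      have e1 := P.r3 t
      have e2 := hv t
      omega
    have f1 := hit_scales (κ := P.κ t) (u := P.u t) (x := P.x t) (J := P.J t) (by omega)
      (P.J1 t) hxJκ
    obtain ⟨J', hJ'⟩ : ∃ J', J' = P.J t + 1 := ⟨_, rfl⟩
    obtain ⟨X, hX⟩ : ∃ X, X = P.x t * P.κ t := ⟨_, rfl⟩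
    obtain ⟨S, hS⟩ : ∃ S, S = Sm (P.B t) (8 * P.v t) := ⟨_, rfl⟩
    obtain ⟨D, hD⟩ : ∃ D, D = P.κ t / (P.x t) ^ (P.J t) + 1 := ⟨_, rfl⟩
    rw [← hS, ← hX, ← hD, ← hJ']
    rw [← hX, ← hD] at f1
    have hJ1 : P.J t ≤ J' := by omega
    have hJ0 : 1 ≤ J' := by omega
    have hXκ : P.κ t ≤ X := by rw [hX]; exact Nat.le_mul_of_pos_left _ (by omega)
    have hv1 : 1 ≤ P.v t := by
      have e1 := P.xu t
      unfold Plan.u at e1
      omega
    have g1 : (8 * P.x t + 20) * (24 * C5 * P.κ t) ≤ 672 * C5 * (J' * X) := by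
      calc (8 * P.x t + 20) * (24 * C5 * P.κ t) ≤ (28 * P.x t) * (24 * C5 * P.κ t) :=
            Nat.mul_le_mul_right _ (by omega)
        _ = 672 * C5 * (1 * X) := by rw [hX]; ring
        _ ≤ 672 * C5 * (J' * X) := Nat.mul_le_mul_left _ (Nat.mul_le_mul_right _ hJ0)
    have g2 : P.J t * 21 * P.κ t ≤ 21 * (J' * X) := by
      calc P.J t * 21 * P.κ t ≤ J' * 21 * X := Nat.mul_le_mul (Nat.mul_le_mul_right _ hJ1) hXκ
        _ = 21 * (J' * X) := by ring
    have g3 : 50 * P.J t * X ≤ 50 * (J' * X) := by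
      calc 50 * P.J t * X ≤ 50 * J' * X := Nat.mul_le_mul_right _ (Nat.mul_le_mul_left _ hJ1)
        _ = 50 * (J' * X) := by ring
    have g4 : (P.u t + 11) * D ≤ 31 * (P.v t * D) := by
      calc (P.u t + 11) * D ≤ (31 * P.v t) * D := Nat.mul_le_mul_right _ (by
            unfold Plan.u
            omega)
        _ = 31 * (P.v t * D) := by ring
    have g5 : 8 * P.v t * Cn ≤ Cn * P.κ t := by
      rw [mul_comm]
      exact Nat.mul_le_mul_left _ (by have := hv t; omega)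
    refine Nat.add_le_add ?_ g5
    have g6 : C5 * (J' ^ 2 * (11 * S) + P.J t * 21 * P.κ t +
        ∑ j ∈ Finset.Icc 1 (P.J t), (wid (P.x t) (P.u t) (P.J t) j + 11) *
          hitn (P.κ t) (P.x t) j) ≤
        C5 * (11 * (J' ^ 2 * S) + 21 * (J' * X) + (50 * (J' * X) + 31 * (P.v t * D))) := by
      refine Nat.mul_le_mul_left _ (Nat.add_le_add (Nat.add_le_add (le_of_eq (by ring)) g2) ?_)
      exact f1.trans (Nat.add_le_add g3 g4)
    calc (8 * P.x t + 20) * (24 * C5 * P.κ t) + C5 * (J' ^ 2 * (11 * S) + P.J t * 21 * P.κ t +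
        ∑ j ∈ Finset.Icc 1 (P.J t), (wid (P.x t) (P.u t) (P.J t) j + 11) *
          hitn (P.κ t) (P.x t) j)
        ≤ 672 * C5 * (J' * X) +
          C5 * (11 * (J' ^ 2 * S) + 21 * (J' * X) + (50 * (J' * X) + 31 * (P.v t * D))) :=
          Nat.add_le_add g1 g6
      _ = 743 * C5 * (J' * X) + 11 * C5 * (J' ^ 2 * S) + 31 * C5 * (P.v t * D) := by ring
      _ ≤ 800 * C5 * (J' * X) + 800 * C5 * (J' ^ 2 * S) + 800 * C5 * (P.v t * D) := by
          refine Nat.add_le_add (Nat.add_le_add (Nat.mul_le_mul_right _ ?_)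
            (Nat.mul_le_mul_right _ ?_)) (Nat.mul_le_mul_right _ ?_) <;> omega
      _ = 800 * C5 * (J' * X + J' ^ 2 * S + P.v t * D) := by ring

end Pool.Agent.H708.ET
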