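import Pool.Agent.H708.ET.Plan

/-!
# The set given by a plan
-/

set_option autoImplicit false

namespace Pool.Agent.H708.ET

open Finset Pool.Agent.H125R2.ET Pool.Agent.Helper667_AS

theorem div_le_nat (a b : ℕ) : (a : ℝ) / b ≤ ((a / b + 1 : ℕ) : ℝ) := by
  rcases Nat.eq_zero_or_pos b with h | h
  · rw [h]
    simp
  · have hb : (0 : ℝ) < b := by exact_mod_cast h
    rw [div_le_iff₀ hb]
    have := Nat.lt_mul_div_succ a h
    have h2 : a ≤ (a / b + 1) * b := by
      rw [mul_comm]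
      exact this.le
    exact_mod_cast h2

/-- adding an initial interval -/
theorem rA_union (A : Set ℕ) (N n : ℕ) :
    rA (A ∪ {m | m ≤ N}) n ≤ rA A n + 2 * (N + 1) := by
  classical
  have hfin := repset_finite A n
  have hsub : {x : ℕ × ℕ | x.1 ∈ A ∪ {m | m ≤ N} ∧ x.2 ∈ A ∪ {m | m ≤ N} ∧ x.1 + x.2 = n} ⊆
      {x : ℕ × ℕ | x.1 ∈ A ∧ x.2 ∈ A ∧ x.1 + x.2 = n} ∪
      (((range (N + 1)).image (fun a => (a, n - a)) ∪
        (range (N + 1)).image (fun b => (n - b, b)) : Finset (ℕ × ℕ)) : Set (ℕ × ℕ)) := by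
    rintro ⟨a, b⟩ ⟨h1, h2, h3⟩
    simp only at h1 h2 h3
    rcases h1 with h1 | h1
    · rcases h2 with h2 | h2
      · exact Or.inl ⟨h1, h2, h3⟩
      · refine Or.inr ?_
        rw [mem_coe, mem_union, mem_image, mem_image]
        right
        have h2' : b ≤ N := h2
        refine ⟨b, mem_range.2 (by omega), ?_⟩
        rw [Prod.mk.injEq]
        exact ⟨by omega, rfl⟩
    · refine Or.inr ?_
      rw [mem_coe, mem_union, mem_image, mem_image]
      left
      have h1' : a ≤ N := h1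
      refine ⟨a, mem_range.2 (by omega), ?_⟩
      rw [Prod.mk.injEq]
      exact ⟨rfl, by omega⟩
  unfold rA
  refine (Set.ncard_le_ncard hsub (hfin.union (Finset.finite_toSet _))).trans
    ((Set.ncard_union_le _ _).trans (Nat.add_le_add_left ?_ _))
  rw [Set.ncard_coe_finset]
  refine (card_union_le _ _).trans ?_
  have e1 : ((range (N + 1)).image (fun a => (a, n - a))).card ≤ N + 1 :=
    card_image_le.trans (by rw [card_range])
  have e2 : ((range (N + 1)).image (fun b => (n - b, b))).card ≤ N + 1 :=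
    card_image_le.trans (by rw [card_range])
  omega

/-- the hit numbers -/
def hitn (κ x j : ℕ) : ℕ := κ / (if j = 0 then Nat.log 2 κ / 2 else x ^ j) + 1

theorem hitn_sum {κ x J : ℕ} (hκ : 8 ≤ κ) (hx : x ≤ κ)
    (h : (J + 1) * (Nat.log 2 κ + 1) ≤ x) :
    (∑ j ∈ range (J + 1), hitn κ x j) * (Nat.log 2 κ + 1) ≤ 7 * κ := by
  obtain ⟨ℓ, hℓ⟩ : ∃ ℓ, ℓ = Nat.log 2 κ := ⟨_, rfl⟩
  have hℓ3 : 3 ≤ ℓ := by
    rw [hℓ]
    exact (Nat.le_log_iff_pow_le (by norm_num) (by omega)).2 (by omega)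
  have hx0 : 0 < x := by
    have : 1 * 1 ≤ (J + 1) * (Nat.log 2 κ + 1) := Nat.mul_le_mul (by omega) (by omega)
    omega
  have h0 : hitn κ x 0 * (ℓ + 1) ≤ 5 * κ := by
    unfold hitn
    rw [if_pos rfl, ← hℓ]
    have e1 : ℓ + 1 ≤ 4 * (ℓ / 2) := by omega
    have e2 : κ / (ℓ / 2) * (ℓ / 2) ≤ κ := Nat.div_mul_le_self _ _
    have e3 : ℓ + 1 ≤ κ := by
      have : ℓ < κ := by
        rw [hℓ]
        exact Nat.log_lt_self _ (by omega)
      omega
    calc (κ / (ℓ / 2) + 1) * (ℓ + 1) = κ / (ℓ / 2) * (ℓ + 1) + (ℓ + 1) := by ring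
      _ ≤ κ / (ℓ / 2) * (4 * (ℓ / 2)) + κ := Nat.add_le_add (Nat.mul_le_mul_left _ e1) e3
      _ = 4 * (κ / (ℓ / 2) * (ℓ / 2)) + κ := by ring
      _ ≤ 5 * κ := by omega
  have h1 : ∀ j ∈ range J, hitn κ x (j + 1) ≤ κ / x + 1 := by
    intro j _
    unfold hitn
    rw [if_neg (by omega)]
    refine Nat.add_le_add_right (Nat.div_le_div_left ?_ hx0) 1
    exact Nat.le_self_pow (by omega) _
  have h2 : (∑ j ∈ range J, hitn κ x (j + 1)) * (ℓ + 1) ≤ 2 * κ := by
    have e1 : ∑ j ∈ range J, hitn κ x (j + 1) ≤ J * (κ / x + 1) := by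
      refine (Finset.sum_le_card_nsmul _ _ _ h1).trans ?_
      rw [card_range, smul_eq_mul]
    have e2 : J * (ℓ + 1) ≤ x := by
      refine le_trans (Nat.mul_le_mul_right _ (Nat.le_succ J)) ?_
      rw [hℓ]
      exact h
    calc (∑ j ∈ range J, hitn κ x (j + 1)) * (ℓ + 1) ≤ J * (κ / x + 1) * (ℓ + 1) :=
          Nat.mul_le_mul_right _ e1
      _ = (κ / x + 1) * (J * (ℓ + 1)) := by ring
      _ ≤ (κ / x + 1) * x := Nat.mul_le_mul_left _ e2
      _ = κ / x * x + x := by ring
      _ ≤ κ + κ := Nat.add_le_add (Nat.div_mul_le_self _ _) hx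
      _ = 2 * κ := by ring
  rw [sum_range_succ', ← hℓ, add_mul]
  omega

/-- the scales which are transitions between two blocks -/
def Trs (x J : ℕ) : Finset ℕ :=
  (Finset.Icc 1 J).biUnion (fun j => Finset.Ico (8 * x ^ j - 1) (8 * x ^ j + 20))

theorem Trs_card (x J : ℕ) : (Trs x J).card ≤ J * 21 := by
  unfold Trs
  refine (card_biUnion_le_card_mul _ _ 21 (fun j _ => ?_)).trans ?_
  · rw [Nat.card_Ico]
    omega
  · rw [Nat.card_Icc]
    exact le_of_eq (by simp)

/-- the bound for a scale of a class -/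
noncomputable def gB (B : Set ℕ) (C5 κ u x J Z Cn l : ℕ) : ℕ :=
  (if l < 8 * x + 20 then Z else 0) +
    C5 * ((J + 1) ^ 2 * (∑ s ∈ range 11, if s ≤ l then mx B (l - s) else 0) +
      (if l ∈ Trs x J then κ else 0) +
      ∑ j ∈ Finset.Icc 1 J, if l < wid x u J j + 11 then hitn κ x j else 0) + Cn

theorem sum_gB (B : Set ℕ) (C5 κ u x J Z Cn L : ℕ) :
    ∑ l ∈ range L, gB B C5 κ u x J Z Cn l ≤ (8 * x + 20) * Z +
      C5 * ((J + 1) ^ 2 * (11 * Sm B L) + J * 21 * κ +
        ∑ j ∈ Finset.Icc 1 J, (wid x u J j + 11) * hitn κ x j) + L * Cn := by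
  unfold gB
  rw [sum_add_distrib, sum_add_distrib, ← mul_sum, sum_add_distrib, sum_add_distrib, ← mul_sum]
  refine Nat.add_le_add (Nat.add_le_add ?_ (Nat.mul_le_mul_left _ (Nat.add_le_add
    (Nat.add_le_add (Nat.mul_le_mul_left _ ?_) ?_) ?_))) ?_
  · rw [← sum_filter, sum_const, smul_eq_mul]
    refine Nat.mul_le_mul_right _ ?_
    calc ((range L).filter (fun l => l < 8 * x + 20)).card ≤ (range (8 * x + 20)).card := by
          refine card_le_card (fun l hl => ?_)
          rw [mem_filter] at hl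
          exact mem_range.2 hl.2
      _ = 8 * x + 20 := card_range _
  · rw [sum_comm]
    have h1 : ∀ s ∈ range 11, ∑ l ∈ range L, (if s ≤ l then mx B (l - s) else 0) ≤ Sm B L := by
      intro s _
      rw [← sum_filter]
      unfold Sm
      have h2 : ∑ l ∈ (range L).filter (fun l => s ≤ l), mx B (l - s) =
          ∑ k ∈ ((range L).filter (fun l => s ≤ l)).image (fun l => l - s), mx B k := by
        rw [sum_image]
        intro a ha b hb hab
        rw [mem_coe, mem_filter] at ha hb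
        have : a - s = b - s := hab
        omega
      rw [h2]
      refine Finset.sum_le_sum_of_subset ?_
      intro k hk
      rw [mem_image] at hk
      obtain ⟨l, hl, rfl⟩ := hk
      rw [mem_filter, mem_range] at hl
      rw [mem_range]
      omega
    refine (Finset.sum_le_card_nsmul _ _ _ h1).trans ?_
    rw [card_range, smul_eq_mul]
  · rw [← sum_filter, sum_const, smul_eq_mul]
    refine Nat.mul_le_mul_right _ ?_
    refine le_trans (card_le_card (fun l hl => ?_)) (Trs_card x J)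
    rw [mem_filter] at hl
    exact hl.2
  · rw [sum_comm]
    refine sum_le_sum (fun j _ => ?_)
    rw [← sum_filter, sum_const, smul_eq_mul]
    refine Nat.mul_le_mul_right _ ?_
    calc ((range L).filter (fun l => l < wid x u J j + 11)).card ≤
          (range (wid x u J j + 11)).card := by
          refine card_le_card (fun l hl => ?_)
          rw [mem_filter] at hl
          exact mem_range.2 hl.2
      _ = wid x u J j + 11 := card_range _
  · rw [sum_const, card_range, smul_eq_mul]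

/-- the sum of the hit numbers over the scales -/
theorem hit_scales {κ u x J : ℕ} (hx : 2 ≤ x) (hJ : 1 ≤ J) (hxJ : x ^ J ≤ κ) :
    ∑ j ∈ Finset.Icc 1 J, (wid x u J j + 11) * hitn κ x j ≤
      50 * J * (x * κ) + (u + 11) * (κ / x ^ J + 1) := by
  have h1 : ∀ j ∈ Finset.Icc 1 J, (wid x u J j + 11) * hitn κ x j ≤
      50 * (x * κ) + (if j = J then (u + 11) * (κ / x ^ J + 1) else 0) := by
    intro j hj
    rw [mem_Icc] at hj
    have hhit : hitn κ x j = κ / x ^ j + 1 := by
      unfold hitn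
      rw [if_neg (by omega)]
    rw [hhit]
    rcases hj.2.eq_or_lt with h | h
    · rw [if_pos h, h]
      unfold wid
      rw [if_neg (by omega)]
      exact Nat.le_add_left _ _
    · rw [if_neg (by omega), add_zero]
      unfold wid
      rw [if_pos h]
      have e1 : 1 ≤ x ^ (j + 1) := Nat.one_le_pow _ _ (by omega)
      have e2 : x ^ (j + 1) ≤ x ^ J := Nat.pow_le_pow_right (by omega) (by omega)
      have e3 : x ^ j * (κ / x ^ j) ≤ κ := Nat.mul_div_le _ _
      have e4 : κ ≤ x * κ := Nat.le_mul_of_pos_left _ (by omega)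
      calc (8 * x ^ (j + 1) + 6 + 11) * (κ / x ^ j + 1) ≤ (25 * x ^ (j + 1)) * (κ / x ^ j + 1) :=
            Nat.mul_le_mul_right _ (by omega)
        _ = 25 * (x * (x ^ j * (κ / x ^ j))) + 25 * x ^ (j + 1) := by rw [pow_succ]; ring
        _ ≤ 25 * (x * κ) + 25 * (x * κ) :=
            Nat.add_le_add (Nat.mul_le_mul_left _ (Nat.mul_le_mul_left _ e3))
              (Nat.mul_le_mul_left _ (by omega))
        _ = 50 * (x * κ) := by ring
  refine (sum_le_sum h1).trans ?_
  rw [sum_add_distrib, sum_const, Nat.card_Icc, smul_eq_mul, Finset.sum_ite_eq' (Finset.Icc 1 J) J,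
    if_pos (mem_Icc.2 ⟨hJ, le_rfl⟩)]
  refine Nat.add_le_add_right (le_of_eq ?_) _
  have : J + 1 - 1 = J := by omega
  rw [this]
  ring

end Pool.Agent.H708.ET
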