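import Pool.Agent.H708.ET.CovRep

/-!
# Regularity of the blocks `blk p H D {0}`
-/

set_option autoImplicit false

namespace Pool.Agent.H708.ET

open Finset Pool.Agent.H125R2.ET Pool.Agent.Helper667_AS Pool.Agent.H125R2.ET.T11aux

/-- regularity with amplitude `H` -/
def RegH (C1 p k H : ℕ) (S : Finset ℕ) : Prop :=
  ∀ d, ¬ p ∣ d → ∀ s, (S ∩ AP s d (p ^ 4 * (H * k))).card ≤ C1 * k

theorem regH_class {C1 p k H M d : ℕ} {S : Finset ℕ} (hR : RegH C1 p k H S)
    (hS : ∀ s ∈ S, s < M * H * p ^ 8) (hp : 0 < p) (hH : 0 < H) (hk : 0 < k) (hd : 0 < d)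
    (hpd : ¬ p ∣ d) (c : ℕ) :
    (S.filter (fun s => s % d = c)).card ≤ C1 * (M * p ^ 4 / d + k) := by
  classical
  set L := p ^ 4 * (H * k) with hL
  have hL0 : 0 < L := Nat.mul_pos (pow_pos hp 4) (Nat.mul_pos hH hk)
  set N := M * H * p ^ 8 / d / L + 1 with hN
  have hsub : S.filter (fun s => s % d = c) ⊆
      (range N).biUnion (fun m => S ∩ AP (c + d * (L * m)) d L) := by
    intro s hs
    rw [mem_filter] at hs
    obtain ⟨hsS, hsc⟩ := hs
    rw [mem_biUnion]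
    refine ⟨s / d / L, ?_, ?_⟩
    · rw [mem_range, hN]
      have h1 : s / d ≤ M * H * p ^ 8 / d := Nat.div_le_div_right (hS s hsS).le
      have h2 : s / d / L ≤ M * H * p ^ 8 / d / L := Nat.div_le_div_right h1
      omega
    · rw [mem_inter]
      refine ⟨hsS, mem_AP.2 ⟨s / d % L, Nat.mod_lt _ hL0, ?_⟩⟩
      have h1 := Nat.div_add_mod s d
      have h2 := Nat.div_add_mod (s / d) L
      calc c + d * (L * (s / d / L)) + d * (s / d % L)
          = d * (L * (s / d / L) + s / d % L) + c := by ring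
        _ = d * (s / d) + s % d := by rw [h2, hsc]
        _ = s := h1
  have h1 : (S.filter (fun s => s % d = c)).card ≤ N * (C1 * k) := by
    refine (card_le_card hsub).trans (card_biUnion_le.trans ?_)
    calc ∑ m ∈ range N, (S ∩ AP (c + d * (L * m)) d L).card
        ≤ ∑ _m ∈ range N, C1 * k := Finset.sum_le_sum fun m _ => hR d hpd _
      _ = N * (C1 * k) := by rw [Finset.sum_const, card_range, smul_eq_mul]
  have h2 : M * H * p ^ 8 / d / L * k ≤ M * p ^ 4 / d := by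
    have e1 : M * H * p ^ 8 / d / L = M * p ^ 4 / d / k := by
      have e2 : M * H * p ^ 8 = (p ^ 4 * H) * (M * p ^ 4) := by ring
      have e3 : d * L = (p ^ 4 * H) * (d * k) := by rw [hL]; ring
      rw [Nat.div_div_eq_div_mul, e2, e3, Nat.mul_div_mul_left _ _ (Nat.mul_pos (pow_pos hp 4) hH),
        Nat.div_div_eq_div_mul]
    rw [e1]
    exact Nat.div_mul_le_self _ _
  calc (S.filter (fun s => s % d = c)).card ≤ N * (C1 * k) := h1
    _ = C1 * (M * H * p ^ 8 / d / L * k + k) := by rw [hN]; ring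
    _ ≤ C1 * (M * p ^ 4 / d + k) := Nat.mul_le_mul_left _ (by omega)

/-- regularity from the moments -/
theorem regH_of_mom (X : RFS) {p k H N C1 : ℕ} (hk : 1 ≤ k)
    (hrange : ∀ ω, ∀ s ∈ X.S ω, s < N) (hN : N * N * 2 ^ (k + 3) ≤ 2 ^ (40 * k))
    (hmom : ∀ d, ¬ p ∣ d → ∀ s, X.mom 1 (AP s d (p ^ 4 * (H * k))) ≤ Real.exp (C1 * k)) :
    X.Pr (fun ω => ¬ RegH (C1 + 40) p k H (X.S ω)) ≤ 1 / 2 ^ (k + 3) := by
  have hone : ∀ d, ¬ p ∣ d → ∀ s, X.Pr
      (fun ω => ¬ ((X.S ω) ∩ AP s d (p ^ 4 * (H * k))).card ≤ (C1 + 40) * k) ≤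
      Real.exp (-(40 * k)) := by
    intro d hd s
    have hmark := Pr_hits_le X zero_le_one (AP s d (p ^ 4 * (H * k)))
      (((C1 + 40) * k : ℕ) : ℝ)
    refine (Pr_mono X (B := fun ω => (((C1 + 40) * k : ℕ) : ℝ) ≤
      (((X.S ω) ∩ AP s d (p ^ 4 * (H * k))).card : ℝ)) (fun ω h => ?_)).trans
      (hmark.trans ?_)
    · push Not at h
      exact_mod_cast h.le
    · refine (mul_le_mul_of_nonneg_left (hmom d hd s) (Real.exp_pos _).le).trans ?_
      rw [← Real.exp_add]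
      refine Real.exp_le_exp.2 ?_
      have hk0 : (0 : ℝ) ≤ k := Nat.cast_nonneg k
      push_cast
      linarith
  -- union bound
  have hun : X.Pr (fun ω => ¬ RegH (C1 + 40) p k H (X.S ω)) ≤
      ∑ x ∈ range N ×ˢ range N, Real.exp (-(40 * k)) := by
    refine (Pr_mono X (B := fun ω => ∃ x ∈ range N ×ˢ range N, ¬ p ∣ x.2 ∧
      ¬ ((X.S ω) ∩ AP x.1 x.2 (p ^ 4 * (H * k))).card ≤ (C1 + 40) * k)
      (fun ω h => ?_)).trans ((Pr_exists_le _ _ _).trans (sum_le_sum fun x _ => ?_))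
    · unfold RegH at h
      push Not at h
      obtain ⟨d, hd, s, hs⟩ := h
      have hrange := hrange ω
      have hk40 : 1 ≤ (C1 + 40) * k := Nat.mul_pos (by omega) (by omega)
      have hsN : s < N := by
        by_contra hsN
        have : (X.S ω) ∩ AP s d (p ^ 4 * (H * k)) = ∅ := by
          rw [← Finset.not_nonempty_iff_eq_empty]
          rintro ⟨v, hv⟩
          rw [mem_inter, mem_AP] at hv
          obtain ⟨hv1, i, -, rfl⟩ := hv
          have := hrange _ hv1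
          omega
        rw [this] at hs
        simp at hs
      have hdN : d < N := by
        by_contra hdN
        have h1 : (X.S ω) ∩ AP s d (p ^ 4 * (H * k)) ⊆ {s} := by
          intro v hv
          rw [mem_inter, mem_AP] at hv
          obtain ⟨hv1, i, -, rfl⟩ := hv
          have h2 := hrange _ hv1
          rcases Nat.eq_zero_or_pos i with hi | hi
          · simp [hi]
          · exfalso
            have h3 : d ≤ d * i := Nat.le_mul_of_pos_right d hi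
            omega
        have h2 := card_le_card h1
        rw [card_singleton] at h2
        omega
      exact ⟨(s, d), mem_product.2 ⟨mem_range.2 hsN, mem_range.2 hdN⟩, hd, not_le.2 hs⟩
    · by_cases hx : p ∣ x.2
      · refine le_trans (le_of_eq ?_) (Real.exp_pos _).le
        have : (fun ω => ind (¬ p ∣ x.2 ∧ ¬ ((X.S ω) ∩
            AP x.1 x.2 (p ^ 4 * (H * k))).card ≤ (C1 + 40) * k)) = fun _ => (0 : ℝ) := by
          funext ω
          exact ind_false fun h => h.1 hx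
        unfold RFS.Pr
        rw [this, E_const]
      · exact (Pr_mono _ fun ω h => h.2).trans (hone x.2 hx x.1)
  refine hun.trans ?_
  rw [sum_const, nsmul_eq_mul, card_product, card_range]
  -- numerics
  have hexp : (2 : ℝ) ^ (40 * k) ≤ Real.exp (40 * k) := by
    have h1 : (2 : ℝ) ≤ Real.exp 1 := by
      have := Real.add_one_le_exp (1 : ℝ)
      linarith
    calc (2 : ℝ) ^ (40 * k) ≤ (Real.exp 1) ^ (40 * k) := pow_le_pow_left₀ (by norm_num) h1 _
      _ = Real.exp (40 * k) := by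
          rw [← Real.exp_nat_mul]
          congr 1
          push_cast
          ring
  have hreal : ((N * N : ℕ) : ℝ) * 2 ^ (k + 3) ≤ Real.exp (40 * k) := by
    refine le_trans ?_ hexp
    exact_mod_cast hN
  rw [Real.exp_neg, ← div_eq_mul_inv, div_le_div_iff₀ (Real.exp_pos _) (by positivity), one_mul]
  exact hreal

theorem range_num {C H k p : ℕ} (hhi : p ≤ 2 ^ (k + 1)) (hCH : C + H + 1 + 4 ≤ 2 ^ k)
    (hk : 1 ≤ k) :
    ((C + H + 1 + 4) * p ^ 8) * ((C + H + 1 + 4) * p ^ 8) * 2 ^ (k + 3) ≤ 2 ^ (40 * k) := by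
  have e1 : (C + H + 1 + 4) * p ^ 8 ≤ 2 ^ k * (2 ^ (k + 1)) ^ 8 :=
    Nat.mul_le_mul hCH (Nat.pow_le_pow_left hhi 8)
  calc ((C + H + 1 + 4) * p ^ 8) * ((C + H + 1 + 4) * p ^ 8) * 2 ^ (k + 3) ≤
        (2 ^ k * (2 ^ (k + 1)) ^ 8) * (2 ^ k * (2 ^ (k + 1)) ^ 8) *
        2 ^ (k + 3) := Nat.mul_le_mul_right _ (Nat.mul_le_mul e1 e1)
    _ = 2 ^ (19 * k + 19) := by
        rw [← pow_mul, ← pow_add, ← pow_add, ← pow_add]
        congr 1
        ring
    _ ≤ 2 ^ (40 * k) := Nat.pow_le_pow_right (by norm_num) (by omega)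

/-- the blocks without amplitude are regular -/
def RegZ (C : ℕ) : Prop :=
  ∃ C1 k0 : ℕ, ∀ k ≥ k0, ∀ (p : ℕ) (hp : 0 < p) (D : Finset ℕ), p.Prime → 2 ^ k < p →
    p ≤ 2 ^ (k + 1) → IsBase C p D →
    (blk p 1 hp one_pos D {0}).Pr (fun ω => ¬ RegH C1 p k 1 ((blk p 1 hp one_pos D {0}).S ω)) ≤
      1 / 2 ^ (k + 3)

theorem reg_Z (C : ℕ) : RegZ C := by
  obtain ⟨K, hK, hM⟩ := blk_mom C
  obtain ⟨C1', hC1'⟩ := exists_nat_ge (2 * K * Real.exp 2)
  refine ⟨C1' + 40, max (C + 8) C1', ?_⟩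
  intro k hk p hp D hpp hlo hhi hD
  have hk1 : C + 8 ≤ k := (le_max_left _ _).trans hk
  have hk2 : C1' ≤ k := (le_max_right _ _).trans hk
  have hk2p : k < 2 ^ k := Nat.lt_two_pow_self
  have hp7 : 7 < p := by omega
  have hCp : C ≤ p := by omega
  have hsq : k ^ 2 ≤ 2 ^ k := sq_le_two_pow k (by omega)
  refine regH_of_mom _ (N := (C + 1 + 1 + 4) * p ^ 8) (by omega)
    (fun ω s hs => (blk_range hp one_pos hp7 hCp hD (U := 1) (by simp) ω s hs).2)
    (range_num hhi (by omega) (by omega)) ?_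
  intro d hd s
  have h6 : ClsLE (p ^ 6) (AP s d (p ^ 4 * (1 * k))) 2 := by
    refine cls_AP hpp hd 2 ?_
    have : p ^ 4 * (1 * k) / p ^ 6 = 0 := by
      rw [Nat.div_eq_zero_iff]
      right
      have e : p ^ 6 = p ^ 4 * p ^ 2 := by ring
      rw [e, one_mul]
      refine Nat.mul_lt_mul_of_pos_left ?_ (by positivity)
      nlinarith
    omega
  have h4 : ClsLE (p ^ 4) (AP s d (p ^ 4 * (1 * k))) (2 * k) := by
    refine cls_AP hpp hd _ ?_
    rw [Nat.mul_div_cancel_left _ (by positivity)]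
    omega
  have h2 : ClsLE (p ^ 2) (AP s d (p ^ 4 * (1 * k))) (2 * (p ^ 2 * k)) := by
    refine cls_AP hpp hd _ ?_
    have e : p ^ 4 * (1 * k) = p ^ 2 * (p ^ 2 * k) := by ring
    rw [e, Nat.mul_div_cancel_left _ (by positivity)]
    have : 0 < p ^ 2 * k := by
      have : 0 < k := by omega
      positivity
    omega
  have hKp : K * Real.exp (1 * (2 : ℕ)) * ((2 * k : ℕ) : ℝ) ≤ p := by
    have e1 : (1 : ℝ) * ((2 : ℕ) : ℝ) = 2 := by norm_num
    rw [e1]
    have e2 : 2 * K * Real.exp 2 ≤ k := hC1'.trans (by exact_mod_cast hk2)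
    have e3 : (k : ℝ) ^ 2 ≤ 2 ^ k := by exact_mod_cast hsq
    have e4 : (2 : ℝ) ^ k ≤ p := by exact_mod_cast hlo.le
    have hk0 : (0 : ℝ) ≤ k := Nat.cast_nonneg k
    push_cast
    nlinarith
  refine (hM p 1 hp one_pos D {0} hD 1 zero_le_one 2 (2 * k) (2 * (p ^ 2 * k)) _
    h6 h4 h2 hKp).trans (Real.exp_le_exp.2 ?_)
  have hp0 : (0 : ℝ) < p := by exact_mod_cast hp
  have e1 : K * Real.exp (1 * ((2 : ℕ) : ℝ)) * ((2 * (p ^ 2 * k) : ℕ) : ℝ) / (p : ℝ) ^ 2 =
      2 * K * Real.exp 2 * k := by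
    push_cast
    rw [one_mul]
    field_simp
  rw [e1]
  have hk0 : (0 : ℝ) ≤ k := Nat.cast_nonneg k
  exact mul_le_mul_of_nonneg_right hC1' hk0

theorem win_zero (H : ℕ) : Win H {0} 1 := by
  intro w
  exact (card_filter_le _ _).trans (by simp)

/-- the blocks with large amplitude are regular -/
def RegM (C : ℕ) : Prop :=
  ∃ C1 k0 : ℕ, ∀ k ≥ k0, ∀ (p : ℕ) (hp : 0 < p) (H : ℕ) (hH : 0 < H) (D : Finset ℕ),
    p.Prime → 2 ^ k < p →
    p ≤ 2 ^ (k + 1) → IsBase C p D → k0 ≤ H → C + H + 1 + 4 ≤ 2 ^ k →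
    (blk p H hp hH D {0}).Pr (fun ω => ¬ RegH C1 p k H ((blk p H hp hH D {0}).S ω)) ≤
      1 / 2 ^ (k + 3)

theorem reg_M (C : ℕ) : RegM C := by
  obtain ⟨K, hK, hM⟩ := blk_mom2 C
  obtain ⟨C1', hC1'⟩ := exists_nat_ge (2 * K * Real.exp 2)
  refine ⟨C1' + 40, max (C + 8) C1', ?_⟩
  intro k hk p hp H hH D hpp hlo hhi hD hH0 hHk
  have hk1 : C + 8 ≤ k := (le_max_left _ _).trans hk
  have hk2 : C1' ≤ k := (le_max_right _ _).trans hk
  have hH1 : C1' ≤ H := (le_max_right _ _).trans hH0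
  have hk2p : k < 2 ^ k := Nat.lt_two_pow_self
  have hp7 : 7 < p := by omega
  have hCp : C ≤ p := by omega
  have hsq : k ^ 2 ≤ 2 ^ k := sq_le_two_pow k (by omega)
  have hHp : H * k < p ^ 2 := by
    have e1 : H < p := by omega
    have e2 : k < p := by omega
    nlinarith
  refine regH_of_mom _ (N := (C + H + 1 + 4) * p ^ 8) (by omega)
    (fun ω s hs => (blk_range hp hH hp7 hCp hD (U := 1) (by simp) ω s hs).2)
    (range_num hhi (by omega) (by omega)) ?_
  intro d hd s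
  have hHk0 : 0 < H * k := Nat.mul_pos hH (by omega)
  have h8 : ClsLE (p ^ 8) (AP s d (p ^ 4 * (H * k))) 2 := by
    refine cls_AP hpp hd 2 ?_
    have : p ^ 4 * (H * k) / p ^ 8 = 0 := by
      rw [Nat.div_eq_zero_iff]
      right
      have e : p ^ 8 = p ^ 4 * (p ^ 2 * p ^ 2) := by ring
      rw [e]
      refine Nat.mul_lt_mul_of_pos_left ?_ (by positivity)
      have e2 : 1 ≤ p ^ 2 := Nat.one_le_pow _ _ hp
      nlinarith
    omega
  have h6 : ClsLE (p ^ 6) (AP s d (p ^ 4 * (H * k))) 2 := by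
    refine cls_AP hpp hd 2 ?_
    have : p ^ 4 * (H * k) / p ^ 6 = 0 := by
      rw [Nat.div_eq_zero_iff]
      right
      have e : p ^ 6 = p ^ 4 * p ^ 2 := by ring
      rw [e]
      exact Nat.mul_lt_mul_of_pos_left hHp (by positivity)
    omega
  have h4 : ClsLE (p ^ 4) (AP s d (p ^ 4 * (H * k))) (2 * (H * k)) := by
    refine cls_AP hpp hd _ ?_
    rw [Nat.mul_div_cancel_left _ (by positivity)]
    omega
  have h2 : ClsLE (p ^ 2) (AP s d (p ^ 4 * (H * k))) (2 * (p ^ 2 * (H * k))) := by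
    refine cls_AP hpp hd _ ?_
    have e : p ^ 4 * (H * k) = p ^ 2 * (p ^ 2 * (H * k)) := by ring
    rw [e, Nat.mul_div_cancel_left _ (by positivity)]
    have : 0 < p ^ 2 * (H * k) := by positivity
    omega
  have hHr : (0 : ℝ) < H := by exact_mod_cast hH
  have hkr : (0 : ℝ) ≤ k := Nat.cast_nonneg k
  have hp0 : (0 : ℝ) < p := by exact_mod_cast hp
  have eE : Real.exp (1 * ((2 : ℕ) : ℝ)) = Real.exp 2 := by norm_num
  have hK6 : K * (Real.exp (1 * ((2 : ℕ) : ℝ)) * ((1 : ℕ) : ℝ) / H) * ((2 : ℕ) : ℝ) ≤ 1 := by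
    rw [eE]
    have e1 : K * (Real.exp 2 * ((1 : ℕ) : ℝ) / H) * ((2 : ℕ) : ℝ) = 2 * K * Real.exp 2 / H := by
      push_cast
      ring
    rw [e1, div_le_one hHr]
    exact hC1'.trans (by exact_mod_cast hH1)
  have hK4 : K * (Real.exp (1 * ((2 : ℕ) : ℝ)) * ((1 : ℕ) : ℝ) / H) * ((2 * (H * k) : ℕ) : ℝ) ≤
      p := by
    rw [eE]
    have e1 : K * (Real.exp 2 * ((1 : ℕ) : ℝ) / H) * ((2 * (H * k) : ℕ) : ℝ) =
        2 * K * Real.exp 2 * k := by
      push_cast
      field_simp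
    rw [e1]
    have e2 : 2 * K * Real.exp 2 ≤ k := hC1'.trans (by exact_mod_cast hk2)
    have e3 : (k : ℝ) ^ 2 ≤ 2 ^ k := by exact_mod_cast hsq
    have e4 : (2 : ℝ) ^ k ≤ p := by exact_mod_cast hlo.le
    nlinarith
  refine (hM p H hp hH D {0} hD 1 (win_zero H) 1 zero_le_one 2 2 (2 * (H * k))
    (2 * (p ^ 2 * (H * k))) _ h8 h6 h4 h2 hK6 hK4).trans (Real.exp_le_exp.2 ?_)
  rw [eE]
  have e1 : K * (Real.exp 2 * ((1 : ℕ) : ℝ) / H) * ((2 * (p ^ 2 * (H * k)) : ℕ) : ℝ) /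
      (p : ℝ) ^ 2 = 2 * K * Real.exp 2 * k := by
    push_cast
    field_simp
  rw [e1]
  exact mul_le_mul_of_nonneg_right hC1' hkr

end Pool.Agent.H708.ET
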