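import Pool.Agent.H708.ET.Reg

/-!
# Systems of touching wide blocks, and the classes modulo `q ^ 6` of the union of the lower ones
-/

set_option autoImplicit false

namespace Pool.Agent.H708.ET

open Finset Pool.Agent.H125R2.ET Pool.Agent.Helper667_AS Pool.Agent.H125R2.ET.T14aux

/-- the part of the class `c` modulo `q ^ 6` above `q ^ 6` -/
def Vd (q c : ℕ) : Finset ℕ :=
  (range (2 ^ 22 * q ^ 8)).filter (fun n => n % q ^ 6 = c ∧ q ^ 6 ≤ n)

/-- the moment of the hits of `Vd` by a block -/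
theorem mom_blk_V {C : ℕ} {KM : ℝ} (hKM : 0 < KM)
    (hM : ∀ (p H : ℕ) (hp : 0 < p) (hH : 0 < H) (D B : Finset ℕ), IsBase C p D →
    ∀ (lam : ℝ), 0 ≤ lam → ∀ (g h G : ℕ) (V : Finset ℕ),
      ClsLE (p ^ 6) V g → ClsLE (p ^ 4) V h → ClsLE (p ^ 2) V G →
      KM * Real.exp (lam * g) * h ≤ p →
      (blk p H hp hH D B).mom lam V ≤ Real.exp (KM * Real.exp (lam * g) * G / (p : ℝ) ^ 2))
    {M L k κ u H : ℕ} (hMM : KM ≤ M)
    (hL : M ≤ 2 ^ L) (hLk : 8 * L + 40 ≤ k) (hk : C + 8 ≤ k)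
    {p q : ℕ} (hp : p.Prime) (hq : q.Prime) (hpq : p < q)
    (hpk : C + 8 ≤ p) (hlo : 2 ^ κ < p) (hhi : p ≤ 2 ^ (κ + 1)) (hqk : 2 ^ k < q)
    (hu : 32 * (u + 1) ≤ κ) (hκk : κ ≤ k) (hH : 0 < H)
    (D : Finset ℕ) (hD : IsBase C p D) (B : Finset ℕ) (hB : ∀ b ∈ B, b < 2 ^ (u + 1))
    (hW : C + H + 2 ^ (u + 1) + 4 ≤ 2 ^ (u + 2)) {lam : ℝ}
    (hlam : 0 ≤ lam) (hl : Real.exp lam ^ 4 = 2 ^ k) (c : ℕ) :
    (blk p H hp.pos hH D B).mom lam (Vd q c) ≤ Real.exp (1 / (k : ℝ)) := by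
  have hrange := blk_range hp.pos hH (by omega) (by omega) hD hB
  have hk0 : (0 : ℝ) < k := by
    have : 0 < k := by omega
    exact_mod_cast this
  have hm0 : 0 < p ^ 8 := pow_pos hp.pos 8
  have hWlt : ∀ ω : (blk p H hp.pos hH D B).Ω, ∀ v ∈ (blk p H hp.pos hH D B).S ω,
      v < 2 ^ (u + 2) * p ^ 8 := by
    intro ω v hv
    exact lt_of_lt_of_le (hrange ω v hv).2 (Nat.mul_le_mul_right _ hW)
  by_cases h : 2 ^ (u + 2) * p ^ 8 ≤ q ^ 6
  · rw [mom_empty]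
    · exact Real.one_le_exp (by positivity)
    · intro ω
      rw [← Finset.not_nonempty_iff_eq_empty]
      rintro ⟨v, hv⟩
      rw [mem_inter] at hv
      have h1 := hWlt ω v hv.1
      have h2 := (mem_filter.1 hv.2).2.2
      omega
  · push Not at h
    have h6k : 6 * k ≤ 8 * κ + u + 10 := by
      by_contra hc
      push Not at hc
      have e2 : p ^ 8 ≤ 2 ^ (8 * κ + 8) := by
        calc p ^ 8 ≤ (2 ^ (κ + 1)) ^ 8 := Nat.pow_le_pow_left hhi 8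
          _ = 2 ^ (8 * κ + 8) := by rw [← pow_mul]; ring_nf
      have e3 : 2 ^ (u + 2) * p ^ 8 ≤ q ^ 6 := by
        calc 2 ^ (u + 2) * p ^ 8 ≤ 2 ^ (u + 2) * 2 ^ (8 * κ + 8) :=
              Nat.mul_le_mul_left _ e2
          _ = 2 ^ (8 * κ + u + 10) := by rw [← pow_add]; congr 1; ring
          _ ≤ 2 ^ (6 * k) := Nat.pow_le_pow_right (by norm_num) (by omega)
          _ = (2 ^ k) ^ 6 := by rw [← pow_mul]; ring_nf
          _ ≤ q ^ 6 := Nat.pow_le_pow_left hqk.le 6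
      omega
    have hq1 : 1 ≤ q := hq.pos
    have hup : 2 ^ (u + 2) ≤ 2 ^ κ := Nat.pow_le_pow_right (by norm_num) (by omega)
    have hcq : 2 ^ (u + 2) ≤ q := by omega
    set V : Finset ℕ := (Vd q c).filter (fun v => v < 2 ^ (u + 2) * p ^ 8) with hV
    have hcong : (blk p H hp.pos hH D B).mom lam (Vd q c) =
        (blk p H hp.pos hH D B).mom lam V := by
      apply mom_congr
      intro ω
      ext v
      simp only [mem_inter, hV, mem_filter]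
      constructor
      · rintro ⟨h1, h2⟩
        exact ⟨h1, h2, hWlt ω v h1⟩
      · rintro ⟨h1, h2, -⟩
        exact ⟨h1, h2⟩
    -- classes
    have hcls : ∀ e : ℕ, ClsLE (p ^ e) V (2 ^ (u + 2) * p ^ 8 / (q ^ 6 * p ^ e) + 1) := by
      intro e c'
      have hcop : Nat.Coprime (q ^ 6) (p ^ e) :=
        Nat.Coprime.pow 6 e ((Nat.coprime_primes hq hp).2 hpq.ne')
      refine card_le_of_modEq (N := 2 ^ (u + 2) * p ^ 8) (M := q ^ 6 * p ^ e) ?_ ?_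
      · intro v hv
        exact (mem_filter.1 (mem_filter.1 hv).1).2
      · intro v hv w hw
        have hv1 := (mem_filter.1 hv).2
        have hw1 := (mem_filter.1 hw).2
        have hv2 := (mem_filter.1 (mem_filter.1 (mem_filter.1 hv).1).1).2.1
        have hw2 := (mem_filter.1 (mem_filter.1 (mem_filter.1 hw).1).1).2.1
        exact (Nat.modEq_and_modEq_iff_modEq_mul hcop).1 ⟨hv2.trans hw2.symm, hv1.trans hw1.symm⟩
    have h6 : ClsLE (p ^ 6) V 1 := by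
      have h1 := hcls 6
      rw [Nat.div_eq_of_lt, zero_add] at h1
      · exact h1
      · calc 2 ^ (u + 2) * p ^ 8 = 2 ^ (u + 2) * p ^ 2 * p ^ 6 := by ring
          _ < q ^ 6 * p ^ 6 := by
            refine Nat.mul_lt_mul_of_pos_right ?_ (pow_pos hp.pos 6)
            calc 2 ^ (u + 2) * p ^ 2 ≤ q * p ^ 2 := Nat.mul_le_mul_right _ hcq
              _ < q * q ^ 2 := by
                refine Nat.mul_lt_mul_of_pos_left ?_ hq1
                exact Nat.pow_lt_pow_left hpq (by norm_num)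
              _ = q ^ 3 := by ring
              _ ≤ q ^ 6 := Nat.pow_le_pow_right hq1 (by norm_num)
    have h2' : ClsLE (p ^ 2) V (2 ^ (u + 3)) := by
      intro c'
      refine (hcls 2 c').trans ?_
      have h1 : 2 ^ (u + 2) * p ^ 8 / (q ^ 6 * p ^ 2) ≤ 2 ^ (u + 2) := by
        apply Nat.div_le_of_le_mul
        have h2 : p ^ 6 ≤ q ^ 6 := Nat.pow_le_pow_left hpq.le 6
        calc 2 ^ (u + 2) * p ^ 8 = p ^ 6 * (p ^ 2 * 2 ^ (u + 2)) := by ring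
          _ ≤ q ^ 6 * (p ^ 2 * 2 ^ (u + 2)) := Nat.mul_le_mul_right _ h2
          _ = q ^ 6 * p ^ 2 * 2 ^ (u + 2) := by ring
      have h3 : 2 ^ (u + 3) = 2 ^ (u + 2) + 2 ^ (u + 2) := by ring
      have h4 : 1 ≤ 2 ^ (u + 2) := Nat.one_le_two_pow
      omega
    have h4' : ClsLE (p ^ 4) V (2 ^ (u + 3)) := cls_dvd (pow_dvd_pow p (by norm_num)) h2'
    rw [hcong]
    set Λ := Real.exp lam with hΛ
    have hΛ0 : 0 < Λ := Real.exp_pos _
    have hΛ1 : Real.exp (lam * ((1 : ℕ) : ℝ)) = Λ := by rw [hΛ]; norm_num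
    have hMh : M * 2 ^ (u + 3) ≤ 2 ^ (L + (u + 3)) := by
      calc M * 2 ^ (u + 3) ≤ 2 ^ L * 2 ^ (u + 3) := Nat.mul_le_mul_right _ hL
        _ = 2 ^ (L + (u + 3)) := (pow_add _ _ _).symm
    have hcond : KM * Λ * ((2 ^ (u + 3) : ℕ) : ℝ) ≤ p := by
      have h1 : (KM * Λ * ((2 ^ (u + 3) : ℕ) : ℝ)) ^ 4 ≤ (p : ℝ) ^ 4 := by
        calc (KM * Λ * ((2 ^ (u + 3) : ℕ) : ℝ)) ^ 4
            = (KM * ((2 ^ (u + 3) : ℕ) : ℝ)) ^ 4 * Λ ^ 4 := by ring
          _ ≤ ((M : ℝ) * ((2 ^ (u + 3) : ℕ) : ℝ)) ^ 4 * Λ ^ 4 := by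
              have : KM * ((2 ^ (u + 3) : ℕ) : ℝ) ≤ (M : ℝ) * ((2 ^ (u + 3) : ℕ) : ℝ) :=
                mul_le_mul_of_nonneg_right hMM (Nat.cast_nonneg _)
              have h0 : 0 ≤ KM * ((2 ^ (u + 3) : ℕ) : ℝ) :=
                mul_nonneg hKM.le (Nat.cast_nonneg _)
              exact mul_le_mul_of_nonneg_right (pow_le_pow_left₀ h0 this 4) (by positivity)
          _ ≤ ((2 : ℝ) ^ (L + (u + 3))) ^ 4 * 2 ^ k := by
              rw [hl]
              have h2 : ((M : ℝ) * ((2 ^ (u + 3) : ℕ) : ℝ)) ≤ 2 ^ (L + (u + 3)) := by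
                exact_mod_cast hMh
              exact mul_le_mul_of_nonneg_right
                (pow_le_pow_left₀ (mul_nonneg (Nat.cast_nonneg _) (Nat.cast_nonneg _)) h2 4)
                (by positivity)
          _ = (2 : ℝ) ^ (4 * (L + (u + 3)) + k) := by
              rw [← pow_mul, ← pow_add, mul_comm (L + (u + 3)) 4]
          _ ≤ (2 : ℝ) ^ (4 * κ) := pow_le_pow_right₀ (by norm_num) (by omega)
          _ = ((2 : ℝ) ^ κ) ^ 4 := by rw [← pow_mul, mul_comm]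
          _ ≤ (p : ℝ) ^ 4 := by
              refine pow_le_pow_left₀ (by positivity) ?_ 4
              exact_mod_cast hlo.le
      exact le_of_pow_le_pow_left₀ (by norm_num) (by positivity) h1
    refine (hM p H hp.pos hH D B hD lam hlam 1 _ _ _ h6 h4' h2' (by rw [hΛ1]; exact hcond)).trans ?_
    refine Real.exp_le_exp.2 ?_
    have hp0 : (0 : ℝ) < p := by exact_mod_cast hp.pos
    have hkp : k ≤ p := by
      have e1 : k ≤ 2 * κ := by omega
      have e2 : 2 * κ ≤ 2 ^ κ := by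
        obtain ⟨κ', rfl⟩ : ∃ κ', κ = κ' + 1 := ⟨κ - 1, by omega⟩
        have := Nat.lt_two_pow_self (n := κ')
        have e3 : 2 ^ (κ' + 1) = 2 * 2 ^ κ' := by ring
        omega
      omega
    have hkp' : (k : ℝ) ≤ p := by exact_mod_cast hkp
    rw [hΛ1, div_le_div_iff₀ (by positivity) hk0]
    calc KM * Λ * ((2 ^ (u + 3) : ℕ) : ℝ) * (k : ℝ)
        ≤ p * p := mul_le_mul hcond hkp' hk0.le hp0.le
      _ = 1 * (p : ℝ) ^ 2 := by ring

/-- a system of touching wide blocks -/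
structure TSys (C : ℕ) where
  p : ℕ → ℕ
  D : ℕ → Finset ℕ
  Z : ℕ → Finset ℕ
  M : ℕ → Finset ℕ
  κ : ℕ → ℕ
  u : ℕ → ℕ
  γ : ℕ → ℕ
  β : ℕ → ℕ
  prime : ∀ i, (p i).Prime
  lo : ∀ i, 2 ^ κ i < p i
  hi : ∀ i, p i ≤ 2 ^ (κ i + 1)
  base : ∀ i, IsBase C (p i) (D i)
  Zlt : ∀ i, ∀ b ∈ Z i, b < 2 ^ (u i + 1)
  Mlt : ∀ i, ∀ b ∈ M i, b < 2 ^ (u i + 1)
  Zcard : ∀ i, (Z i).card ^ 2 ≤ 2 ^ (u i + 1) * κ i
  Mcard : ∀ i, (M i).card ^ 2 ≤ 2 ^ (u i + 1) * κ i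
  touch : ∀ i, 8 * κ i + u i = 8 * κ (i + 1) + 12
  ule : ∀ i, 32 * (u i + 1) ≤ κ i
  idx : ∀ i, i ≤ κ i
  γu : ∀ i, 8 * γ i + C + 28 ≤ u i
  win : ∀ i, Win (2 ^ (8 * γ i)) (M i) (β i)
  βle : ∀ i, 2 ^ (2 * γ i) * β i ≤ 2 ^ (8 * γ i)

/-- the amplitude -/
def TSys.H {C : ℕ} (s : TSys C) (i : ℕ) : ℕ := 2 ^ (8 * s.γ i)

theorem TSys.Hpos {C : ℕ} (s : TSys C) (i : ℕ) : 0 < s.H i := by
  unfold TSys.H
  positivity

/-- the zone blocks (narrow version) -/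
def TSys.X1 {C : ℕ} (s : TSys C) (i : ℕ) : RFS := blk (s.p i) 1 (s.prime i).pos one_pos (s.D i) {0}

/-- the main blocks (narrow version) -/
def TSys.X2 {C : ℕ} (s : TSys C) (i : ℕ) : RFS :=
  blk (s.p i) (s.H i) (s.prime i).pos (s.Hpos i) (s.D i) {0}

/-- the zone blocks -/
def TSys.W1 {C : ℕ} (s : TSys C) (i : ℕ) : RFS :=
  wblk (s.p i) 1 (s.prime i).pos one_pos (s.D i) (s.Z i)

/-- the main blocks -/
def TSys.W2 {C : ℕ} (s : TSys C) (i : ℕ) : RFS :=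
  wblk (s.p i) (s.H i) (s.prime i).pos (s.Hpos i) (s.D i) (s.M i)

/-- the classes of the system -/
def TSys.W {C : ℕ} (s : TSys C) (i : ℕ) : RFS := pair (s.W1 i) (s.W2 i)

theorem TSys.κsucc {C : ℕ} (s : TSys C) (i : ℕ) : s.κ i + 2 ≤ s.κ (i + 1) := by
  have h1 := s.touch i
  have h2 := s.γu i
  omega

theorem TSys.κlt {C : ℕ} (s : TSys C) {i j : ℕ} (h : j < i) : s.κ j + 2 ≤ s.κ i := by
  obtain ⟨d, rfl⟩ := Nat.exists_eq_add_of_lt h
  induction d with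
  | zero => exact s.κsucc j
  | succ d ih =>
    have h1 := ih (by omega)
    have h2 := s.κsucc (j + d + 1)
    have e : j + (d + 1) + 1 = j + d + 1 + 1 := by omega
    rw [e]
    omega

theorem TSys.κmono {C : ℕ} (s : TSys C) {i j : ℕ} (h : j ≤ i) : s.κ j ≤ s.κ i := by
  rcases h.eq_or_lt with rfl | h
  · exact le_rfl
  · have := s.κlt h
    omega

theorem TSys.plt {C : ℕ} (s : TSys C) {i j : ℕ} (h : j < i) : s.p j < s.p i := by
  have h1 := s.κlt h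
  calc s.p j ≤ 2 ^ (s.κ j + 1) := s.hi j
    _ ≤ 2 ^ s.κ i := Nat.pow_le_pow_right (by norm_num) (by omega)
    _ < s.p i := s.lo i

theorem TSys.Cκ {C : ℕ} (s : TSys C) (i : ℕ) : C + 28 ≤ s.κ i := by
  have h1 := s.γu i
  have h2 := s.ule i
  omega

theorem TSys.Cp {C : ℕ} (s : TSys C) (i : ℕ) : 2 * C + 56 ≤ s.p i := by
  have h1 := s.Cκ i
  have h2 := s.lo i
  have h3 : 2 * s.κ i ≤ 2 ^ s.κ i := by
    obtain ⟨k, hk⟩ : ∃ k, s.κ i = k + 1 := ⟨s.κ i - 1, by omega⟩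
    rw [hk, pow_succ]
    have : k < 2 ^ k := Nat.lt_two_pow_self
    omega
  omega

theorem TSys.width {C : ℕ} (s : TSys C) (i : ℕ) :
    C + s.H i + 2 ^ (s.u i + 1) + 4 ≤ 2 ^ (s.u i + 2) := by
  have h1 := s.γu i
  have e1 : 2 ^ (s.u i + 2) = 2 ^ (s.u i + 1) + (2 ^ s.u i + 2 ^ s.u i) := by ring
  have e2 : s.H i ≤ 2 ^ s.u i := by
    unfold TSys.H
    exact Nat.pow_le_pow_right (by norm_num) (by omega)
  have e3 : s.u i < 2 ^ s.u i := Nat.lt_two_pow_self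
  omega

theorem TSys.width1 {C : ℕ} (s : TSys C) (i : ℕ) :
    C + 1 + 2 ^ (s.u i + 1) + 4 ≤ 2 ^ (s.u i + 2) := by
  have h1 := s.width i
  have h2 := s.Hpos i
  omega

theorem TSys.S1 {C : ℕ} (s : TSys C) (j : ℕ) (ω : (s.W1 j).Ω) :
    ∃ t, (s.W1 j).S ω = (blk (s.p j) 1 (s.prime j).pos one_pos (s.D j) (s.Z j)).S t :=
  ⟨_, wblk_S (s.prime j).pos one_pos (s.D j) (s.Z j) ω⟩

theorem TSys.S2 {C : ℕ} (s : TSys C) (j : ℕ) (ω : (s.W2 j).Ω) :
    ∃ t, (s.W2 j).S ω = (blk (s.p j) (s.H j) (s.prime j).pos (s.Hpos j) (s.D j) (s.M j)).S t :=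
  ⟨_, wblk_S (s.prime j).pos (s.Hpos j) (s.D j) (s.M j) ω⟩

/-- the elements of the zone blocks -/
theorem TSys.range1 {C : ℕ} (s : TSys C) (j : ℕ) (ω : (s.W1 j).Ω) :
    ∀ v ∈ (s.W1 j).S ω, (s.p j) ^ 8 ≤ v ∧ v < 2 ^ (s.u j + 2) * (s.p j) ^ 8 := by
  intro v hv
  obtain ⟨t, ht⟩ := s.S1 j ω
  rw [ht] at hv
  have h1 := blk_range (s.prime j).pos one_pos (by have := s.Cp j; omega)
    (by have := s.Cp j; omega) (s.base j) (s.Zlt j) _ v hv
  exact ⟨h1.1, lt_of_lt_of_le h1.2 (Nat.mul_le_mul_right _ (s.width1 j))⟩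

/-- the elements of the main blocks -/
theorem TSys.range2 {C : ℕ} (s : TSys C) (j : ℕ) (ω : (s.W2 j).Ω) :
    ∀ v ∈ (s.W2 j).S ω, (s.p j) ^ 8 ≤ v ∧ v < 2 ^ (s.u j + 2) * (s.p j) ^ 8 := by
  intro v hv
  obtain ⟨t, ht⟩ := s.S2 j ω
  rw [ht] at hv
  have h1 := blk_range (s.prime j).pos (s.Hpos j) (by have := s.Cp j; omega)
    (by have := s.Cp j; omega) (s.base j) (s.Mlt j) _ v hv
  exact ⟨h1.1, lt_of_lt_of_le h1.2 (Nat.mul_le_mul_right _ (s.width j))⟩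

theorem TSys.range {C : ℕ} (s : TSys C) (j : ℕ) (ω : (s.W j).Ω) :
    ∀ v ∈ (s.W j).S ω, (s.p j) ^ 8 ≤ v ∧ v < 2 ^ (s.u j + 2) * (s.p j) ^ 8 := by
  intro v hv
  rcases mem_union.1 hv with hv | hv
  · exact s.range1 j ω.1 v hv
  · exact s.range2 j ω.2 v hv

theorem TSys.topj {C : ℕ} (s : TSys C) {i j : ℕ} (h : j < i) :
    2 ^ (s.u j + 2) * (s.p j) ^ 8 ≤ 2 ^ 22 * 2 ^ (8 * s.κ i) := by
  have h2 : (s.p j) ^ 8 ≤ 2 ^ (8 * s.κ j + 8) := by
    calc (s.p j) ^ 8 ≤ (2 ^ (s.κ j + 1)) ^ 8 := Nat.pow_le_pow_left (s.hi j) 8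
      _ = 2 ^ (8 * s.κ j + 8) := by rw [← pow_mul]; ring_nf
  calc 2 ^ (s.u j + 2) * (s.p j) ^ 8 ≤ 2 ^ (s.u j + 2) * 2 ^ (8 * s.κ j + 8) :=
        Nat.mul_le_mul_left _ h2
    _ = 2 ^ (8 * s.κ j + s.u j + 10) := by rw [← pow_add]; congr 1; ring
    _ ≤ 2 ^ (22 + 8 * s.κ i) := by
        refine Nat.pow_le_pow_right (by norm_num) ?_
        have h3 := s.touch j
        have h4 := s.κmono (Nat.succ_le_of_lt h)
        have h5 : j.succ = j + 1 := rfl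
        rw [h5] at h4
        omega
    _ = 2 ^ 22 * 2 ^ (8 * s.κ i) := pow_add _ _ _

theorem TSys.pre_lt {C : ℕ} (s : TSys C) (i : ℕ) (x : (pre s.W i).Ω) {y : ℕ}
    (hy : y ∈ (pre s.W i).S x) : y < 2 ^ 22 * (s.p i) ^ 8 := by
  obtain ⟨j, hj, w, hw⟩ := mem_pre s.W i x hy
  have h1 := (s.range j w y hw).2
  have h2 := s.topj hj
  have h3 : 2 ^ (8 * s.κ i) ≤ (s.p i) ^ 8 := by
    calc 2 ^ (8 * s.κ i) = (2 ^ s.κ i) ^ 8 := by rw [← pow_mul, mul_comm]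
      _ ≤ (s.p i) ^ 8 := Nat.pow_le_pow_left (s.lo i).le 8
  have h4 : 2 ^ 22 * 2 ^ (8 * s.κ i) ≤ 2 ^ 22 * (s.p i) ^ 8 := Nat.mul_le_mul_left _ h3
  omega

/-- the union of the lower classes has boundedly many elements in each class modulo `p ^ 6` -/
theorem spr_T (C : ℕ) :
    ∃ K0 : ℕ, ∀ (s : TSys C), (∀ i, K0 ≤ s.κ i) → ∀ i : ℕ,
    (pre s.W i).Pr (fun x => ¬ ClsLE ((s.p i) ^ 6) ((pre s.W i).S x) 66) ≤
      1 / 2 ^ (4 * s.κ i + 3) := by
  obtain ⟨KM, hKM, hM⟩ := blk_mom C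
  obtain ⟨M, hMM⟩ := exists_nat_ge KM
  refine ⟨8 * M + 40 + C + 8, ?_⟩
  intro s hK i
  obtain ⟨k, hk⟩ : ∃ k, k = s.κ i := ⟨_, rfl⟩
  have hKi := hK i
  have hqlo : 2 ^ k < s.p i := by rw [hk]; exact s.lo i
  have hqhi : s.p i ≤ 2 ^ (k + 1) := by rw [hk]; exact s.hi i
  have hqp := s.prime i
  have hprelt := fun x y (hy : y ∈ (pre s.W i).S x) => s.pre_lt i x hy
  obtain ⟨q, hq⟩ : ∃ q, q = s.p i := ⟨_, rfl⟩
  rw [← hk] at hKi ⊢
  have hpq : ∀ j < i, s.p j < q := by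
    intro j hj
    rw [hq]
    exact s.plt hj
  rw [← hq] at hqlo hqhi hqp hprelt ⊢
  have hk0 : (0 : ℝ) < k := by
    have : 0 < k := by omega
    exact_mod_cast this
  have hlog : 0 < Real.log 2 := Real.log_pos (by norm_num)
  obtain ⟨lam, hlamdef⟩ : ∃ lam : ℝ, lam = k * Real.log 2 / 4 := ⟨_, rfl⟩
  have hlam : 0 ≤ lam := by rw [hlamdef]; positivity
  have hl : Real.exp lam ^ 4 = 2 ^ k := by
    rw [← Real.exp_nat_mul, hlamdef]
    have : ((4 : ℕ) : ℝ) * (k * Real.log 2 / 4) = k * Real.log 2 := by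
      push_cast
      ring
    rw [this, Real.exp_nat_mul, Real.exp_log (by norm_num)]
  have hik : i ≤ k := by rw [hk]; exact s.idx i
  -- moment of the prefix
  have hmom : ∀ c, (pre s.W i).mom lam (Vd q c) ≤ Real.exp 2 := by
    intro c
    refine (mom_pre s.W hlam _ i).trans ?_
    have h1 : ∏ j ∈ Finset.range i, (s.W j).mom lam (Vd q c) ≤
        ∏ j ∈ Finset.range i, Real.exp (2 / (k : ℝ)) := by
      refine prod_le_prod (fun j _ => mom_nonneg _ _ _) (fun j hj => ?_)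
      rw [Finset.mem_range] at hj
      have hκ := s.κlt hj
      have e1 : (s.W1 j).mom lam (Vd q c) ≤ Real.exp (1 / (k : ℝ)) := by
        unfold TSys.W1
        rw [wblk_mom]
        exact mom_blk_V hKM hM (L := M) hMM Nat.lt_two_pow_self.le (by omega) (by omega)
          (s.prime j) hqp (hpq j hj) (by have := s.Cp j; omega) (s.lo j) (s.hi j) hqlo (s.ule j)
          (by omega) one_pos (s.D j) (s.base j) (s.Z j) (s.Zlt j) (s.width1 j) hlam hl c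
      have e2 : (s.W2 j).mom lam (Vd q c) ≤ Real.exp (1 / (k : ℝ)) := by
        unfold TSys.W2
        rw [wblk_mom]
        exact mom_blk_V hKM hM (L := M) hMM Nat.lt_two_pow_self.le (by omega) (by omega)
          (s.prime j) hqp (hpq j hj) (by have := s.Cp j; omega) (s.lo j) (s.hi j) hqlo (s.ule j)
          (by omega) (s.Hpos j) (s.D j) (s.base j) (s.M j) (s.Mlt j) (s.width j) hlam hl c
      calc (s.W j).mom lam (Vd q c) ≤ (s.W1 j).mom lam (Vd q c) * (s.W2 j).mom lam (Vd q c) :=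
            mom_pair _ _ hlam _
        _ ≤ Real.exp (1 / (k : ℝ)) * Real.exp (1 / (k : ℝ)) :=
            mul_le_mul e1 e2 (mom_nonneg _ _ _) (Real.exp_pos _).le
        _ = Real.exp (2 / (k : ℝ)) := by
            rw [← Real.exp_add]
            congr 1
            ring
    refine h1.trans ?_
    rw [prod_const, card_range, ← Real.exp_nat_mul]
    refine Real.exp_le_exp.2 ?_
    have hik' : (i : ℝ) ≤ k := by exact_mod_cast hik
    rw [mul_div_assoc', div_le_iff₀ hk0]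
    linarith
  -- union bound
  have hun : (pre s.W i).Pr (fun x => ¬ ClsLE (q ^ 6) ((pre s.W i).S x) 66) ≤
      ∑ c ∈ Finset.range (q ^ 6), Real.exp (-(lam * ((64 : ℕ) : ℝ))) * Real.exp 2 := by
    refine (Pr_mono (pre s.W i) (B := fun x => ∃ c ∈ Finset.range (q ^ 6),
      ((64 : ℕ) : ℝ) ≤ ((((pre s.W i).S x) ∩ Vd q c).card : ℝ)) (fun x h => ?_)).trans
      ((Pr_exists_le _ _ _).trans (sum_le_sum fun c _ => ?_))
    · unfold ClsLE at h
      push Not at h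
      obtain ⟨c, hc⟩ := h
      have hq6 : 0 < q ^ 6 := pow_pos hqp.pos 6
      have hcq : c < q ^ 6 := by
        by_contra hcc
        have : ((pre s.W i).S x).filter (fun v => v % q ^ 6 = c) = ∅ := by
          rw [Finset.filter_eq_empty_iff]
          intro v _ hv
          have := Nat.mod_lt v hq6
          omega
        rw [this] at hc
        simp at hc
      refine ⟨c, Finset.mem_range.2 hcq, ?_⟩
      have hsub : ((pre s.W i).S x).filter (fun v => v % q ^ 6 = c) ⊆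
          (((pre s.W i).S x) ∩ Vd q c) ∪
          ((pre s.W i).S x).filter (fun v => v % q ^ 6 = c ∧ v < q ^ 6) := by
        intro v hv
        rw [mem_filter] at hv
        rw [mem_union, mem_inter, mem_filter]
        by_cases hv2 : v < q ^ 6
        · exact Or.inr ⟨hv.1, hv.2, hv2⟩
        · exact Or.inl ⟨hv.1, mem_filter.2 ⟨Finset.mem_range.2 (hprelt x v hv.1), hv.2,
            by omega⟩⟩
      have h1 := (card_le_card hsub).trans (card_union_le _ _)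
      have h2 : (((pre s.W i).S x).filter
          (fun v => v % q ^ 6 = c ∧ v < q ^ 6)).card ≤ 2 := by
        refine (card_le_of_modEq (N := q ^ 6) (M := q ^ 6) ?_ ?_).trans ?_
        · intro v hv
          exact (mem_filter.1 hv).2.2
        · intro v hv w hw
          rw [(mem_filter.1 hv).2.1, (mem_filter.1 hw).2.1]
        · rw [Nat.div_self hq6]
      exact_mod_cast (by omega : 64 ≤ (((pre s.W i).S x) ∩ Vd q c).card)
    · refine (Pr_hits_le (pre s.W i) hlam (Vd q c) _).trans ?_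
      exact mul_le_mul_of_nonneg_left (hmom c) (Real.exp_pos _).le
  refine hun.trans ?_
  rw [sum_const, nsmul_eq_mul, card_range]
  have he : Real.exp (lam * ((64 : ℕ) : ℝ)) = 2 ^ (16 * k) := by
    rw [mul_comm, Real.exp_nat_mul]
    calc Real.exp lam ^ 64 = (Real.exp lam ^ 4) ^ 16 := by rw [← pow_mul]
      _ = 2 ^ (16 * k) := by rw [hl, ← pow_mul, mul_comm]
  have he1 : Real.exp 2 ≤ 16 := by
    have h1 : Real.exp 2 = Real.exp 1 * Real.exp 1 := by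
      rw [← Real.exp_add]
      norm_num
    have := Real.exp_one_lt_d9
    have h0 := Real.exp_pos 1
    nlinarith
  have hnat : q ^ 6 * 16 * 2 ^ (4 * k + 3) ≤ 2 ^ (16 * k) := by
    calc q ^ 6 * 16 * 2 ^ (4 * k + 3) ≤ (2 ^ (k + 1)) ^ 6 * 16 * 2 ^ (4 * k + 3) :=
          Nat.mul_le_mul_right _ (Nat.mul_le_mul_right _ (Nat.pow_le_pow_left hqhi 6))
      _ = 2 ^ (10 * k + 13) := by
          rw [← pow_mul, show (16 : ℕ) = 2 ^ 4 by norm_num, ← pow_add, ← pow_add]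
          congr 1
          ring
      _ ≤ 2 ^ (16 * k) := Nat.pow_le_pow_right (by norm_num) (by omega)
  have hreal : ((q ^ 6 : ℕ) : ℝ) * 16 * 2 ^ (4 * k + 3) ≤ 2 ^ (16 * k) := by
    exact_mod_cast hnat
  rw [Real.exp_neg, he]
  have h16 : (0 : ℝ) < 2 ^ (16 * k) := by positivity
  have h43 : (0 : ℝ) < 2 ^ (4 * k + 3) := by positivity
  rw [le_div_iff₀ h43]
  calc ((q ^ 6 : ℕ) : ℝ) * ((2 ^ (16 * k))⁻¹ * Real.exp 2) * 2 ^ (4 * k + 3)
      ≤ ((q ^ 6 : ℕ) : ℝ) * ((2 ^ (16 * k))⁻¹ * 16) * 2 ^ (4 * k + 3) := by gcongr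
    _ = (((q ^ 6 : ℕ) : ℝ) * 16 * 2 ^ (4 * k + 3)) * (2 ^ (16 * k))⁻¹ := by ring
    _ ≤ 2 ^ (16 * k) * (2 ^ (16 * k))⁻¹ := by gcongr
    _ = 1 := mul_inv_cancel₀ h16.ne'

end Pool.Agent.H708.ET
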