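import Pool.Graph.R_pool_sql_team_seeded_620a6dc7.Helper667_AS.Prep

/-!
# Random blocks with a shifted top: definitions and exponential moments
-/

set_option autoImplicit false

namespace Pool.Agent.H708.ET

open Finset Pool.Agent.H125R2.ET

/-- top digit in `D`, then a uniform shift below `H` (independent for the digits), then an element
of `B` -/
def topH (P H : ℕ) (hH : 0 < H) (D B : Finset ℕ) : RFS where
  Ω := (D → Fin H)
  ft := by classical exact inferInstance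
  ne := ⟨fun _ => ⟨0, hH⟩⟩
  S := fun t => Finset.univ.biUnion
    (fun a : D => B.image (fun b => a.1 + P * ((t a).1 + b)))

theorem mem_topH_S {P H : ℕ} {hH : 0 < H} {D B : Finset ℕ} {t : (topH P H hH D B).Ω} {n : ℕ} :
    n ∈ (topH P H hH D B).S t ↔ ∃ a : D, ∃ b ∈ B, a.1 + P * ((t a).1 + b) = n := by
  simp [topH]

/-- the block of the prime `p`, with shifts below `H` above the fourth digit, and with the set `B`
on the top -/
def blk (p H : ℕ) (hp : 0 < p) (hH : 0 < H) (D B : Finset ℕ) : RFS :=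
  step (p ^ 2) (pow_pos hp 2) D (step (p ^ 2) (pow_pos hp 2) D
    (step (p ^ 2) (pow_pos hp 2) D (topH (p ^ 2) H hH D B)))

/-! ### the first lemma -/

theorem topH_hits {P H : ℕ} (hP : 0 < P) (hH : 0 < H) (D B V : Finset ℕ)
    (t : (topH P H hH D B).Ω) :
    ∑ τ ∈ range P, ((topH P H hH D B).S t ∩ sh V τ).card ≤ D.card * V.card := by
  classical
  set S := (topH P H hH D B).S t with hS
  have h1 : ∀ τ, (S ∩ sh V τ).card = (S.filter (fun s => τ + s ∈ V)).card := by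
    intro τ
    congr 1
    ext s
    rw [mem_inter, mem_filter, mem_sh]
  have h3 : ∀ s ∈ S, ∃ a : ℕ, a ∈ D ∧ ∃ u, s = a + P * u := by
    intro s hs
    rw [hS, mem_topH_S] at hs
    obtain ⟨a, b, hb, rfl⟩ := hs
    exact ⟨a.1, a.2, _, rfl⟩
  choose! f hfD hf using h3
  rw [sum_congr rfl (fun τ _ => h1 τ), ← card_sigma]
  have hc : (D ×ˢ V).card = D.card * V.card := card_product _ _
  rw [← hc]
  refine card_le_card_of_injOn (fun x : (Σ _ : ℕ, ℕ) => (f x.2, x.1 + x.2)) ?_ ?_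
  · intro x hx
    simp only [mem_coe, mem_sigma, mem_range, mem_filter] at hx
    exact mem_coe.2 (mem_product.2 ⟨hfD _ hx.2.1, hx.2.2⟩)
  · intro x hx y hy h
    simp only [mem_coe, mem_sigma, mem_range, mem_filter] at hx hy
    simp only [Prod.mk.injEq] at h
    obtain ⟨u, ex⟩ := hf x.2 hx.2.1
    obtain ⟨u', ey⟩ := hf y.2 hy.2.1
    rw [← h.1] at ey
    have h4 : x.1 + P * u = y.1 + P * u' := by
      have := h.2
      omega
    have e1 : x.1 = y.1 := by
      have h3 := congrArg (fun n => n % P) h4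
      simp only [Nat.add_mul_mod_self_left] at h3
      rwa [Nat.mod_eq_of_lt hx.1, Nat.mod_eq_of_lt hy.1] at h3
    have e2 : x.2 = y.2 := by
      have := h.2
      omega
    rcases x with ⟨x1, x2⟩
    rcases y with ⟨y1, y2⟩
    simp only at e1 e2
    rw [e1, e2]

/-- `exp (lam x) ≤ 1 + exp (lam g) x` for a natural number `x ≤ g` -/
theorem exp_lin {lam : ℝ} (hlam : 0 ≤ lam) {x g : ℕ} (hx : x ≤ g) :
    Real.exp (lam * (x : ℝ)) ≤ 1 + Real.exp (lam * g) * (x : ℝ) := by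
  rcases Nat.eq_zero_or_pos x with h0 | h0
  · rw [h0]
    simp
  · have h2 : (x : ℝ) ≤ g := by exact_mod_cast hx
    have h3 : Real.exp (lam * (x : ℝ)) ≤ Real.exp (lam * g) :=
      Real.exp_le_exp.mpr (mul_le_mul_of_nonneg_left h2 hlam)
    have h4 : (1 : ℝ) ≤ (x : ℝ) := by exact_mod_cast h0
    have h5 := Real.exp_pos (lam * g)
    nlinarith

theorem avg_topH (P H : ℕ) (hP : 0 < P) (hH : 0 < H) (D B : Finset ℕ) (lam : ℝ) (hlam : 0 ≤ lam)
    (g : ℕ) (V : Finset ℕ) (hV : V.card ≤ g) :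
    (∑ τ ∈ range P, (topH P H hH D B).mom lam (sh V τ)) / (P : ℝ) ≤
      1 + Real.exp (lam * g) * D.card * V.card / P := by
  have hP' : (0 : ℝ) < P := by exact_mod_cast hP
  set X := topH P H hH D B with hX
  have h1 : ∀ τ ∈ range P, X.mom lam (sh V τ) ≤
      1 + Real.exp (lam * g) * X.E (fun ω => ((X.S ω ∩ sh V τ).card : ℝ)) := by
    intro τ _
    rw [← E_mul_left]
    have e : (1 : ℝ) = X.E (fun _ => 1) := (E_const X 1).symm
    rw [e, ← E_add]
    refine E_mono X (fun ω => exp_lin hlam ?_)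
    exact (card_le_card inter_subset_right).trans ((t9_card_sh V τ).trans hV)
  have h2 : ∑ τ ∈ range P, X.mom lam (sh V τ) ≤
      P + Real.exp (lam * g) * (D.card * V.card) := by
    calc ∑ τ ∈ range P, X.mom lam (sh V τ)
        ≤ ∑ τ ∈ range P, (1 + Real.exp (lam * g) *
            X.E (fun ω => ((X.S ω ∩ sh V τ).card : ℝ))) := sum_le_sum h1
      _ = P + Real.exp (lam * g) * X.E (fun ω => ∑ τ ∈ range P, ((X.S ω ∩ sh V τ).card : ℝ)) := by
          rw [sum_add_distrib, ← mul_sum, E_sum]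
          simp
      _ ≤ P + Real.exp (lam * g) * (D.card * V.card) := by
          have h3 : X.E (fun ω => ∑ τ ∈ range P, ((X.S ω ∩ sh V τ).card : ℝ)) ≤
              X.E (fun _ => ((D.card : ℝ) * V.card)) := by
            refine E_mono X (fun ω => ?_)
            exact_mod_cast topH_hits hP hH D B V ω
          rw [E_const] at h3
          have := Real.exp_pos (lam * g)
          nlinarith
  calc (∑ τ ∈ range P, X.mom lam (sh V τ)) / (P : ℝ)
      ≤ (P + Real.exp (lam * g) * (D.card * V.card)) / P := by gcongr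
    _ = 1 + Real.exp (lam * g) * D.card * V.card / P := by
        field_simp

open Pool.Agent.H125R2.ET.T10

/-- the moments of `blk`: first lemma -/
def BlkMom (C : ℕ) : Prop :=
  ∃ K : ℝ, 0 < K ∧ ∀ (p H : ℕ) (hp : 0 < p) (hH : 0 < H) (D B : Finset ℕ), IsBase C p D →
    ∀ (lam : ℝ), 0 ≤ lam → ∀ (g h G : ℕ) (V : Finset ℕ),
      ClsLE (p ^ 6) V g → ClsLE (p ^ 4) V h → ClsLE (p ^ 2) V G →
      K * Real.exp (lam * g) * h ≤ p →
      (blk p H hp hH D B).mom lam V ≤ Real.exp (K * Real.exp (lam * g) * G / (p : ℝ) ^ 2)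

theorem blk_mom (C : ℕ) : BlkMom C := by
  refine ⟨4 * C ^ 4 + 2 * C ^ 3 + C ^ 2 + 1, by positivity, ?_⟩
  intro p H hp hH D B hD lam hlam g h G V hg hh hG hK
  set P := p ^ 2 with hPdef
  have hP : 0 < P := pow_pos hp 2
  have hpr : (0:ℝ) < p := by exact_mod_cast hp
  have hPr : ((P : ℕ) : ℝ) = (p:ℝ) ^ 2 := by rw [hPdef]; push_cast; rfl
  have hPp : (0:ℝ) < P := by exact_mod_cast hP
  set e := Real.exp (lam * g) with he
  have he0 : 0 < e := Real.exp_pos _
  have hn : (D.card : ℝ) ≤ C * p := by exact_mod_cast hD.card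
  have hn0 : (0:ℝ) ≤ D.card := Nat.cast_nonneg _
  have hC0 : (0:ℝ) ≤ C := Nat.cast_nonneg _
  have hh0 : (0:ℝ) ≤ h := Nat.cast_nonneg _
  have hG0 : (0:ℝ) ≤ G := Nat.cast_nonneg _
  have hDlt : ∀ a ∈ D, a < C * P := hD.hi
  set X := topH P H hH D B with hX
  set κ1 : ℝ := e * D.card / P with hκ1
  set κ2 : ℝ := 2 * κ1 * D.card / P with hκ2
  set κ3 : ℝ := 2 * κ2 * D.card / P with hκ3
  have hκ10 : 0 ≤ κ1 := by positivity
  have hκ20 : 0 ≤ κ2 := by positivity
  have hκ30 : 0 ≤ κ3 := by positivity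
  have b1 : κ1 ≤ e * C / p := by
    rw [hκ1, hPr, div_le_div_iff₀ (by positivity) hpr]
    calc e * D.card * p ≤ e * (C * p) * p := by gcongr
      _ = e * C * (p:ℝ) ^ 2 := by ring
  have b2 : κ2 ≤ 2 * e * C ^ 2 / (p:ℝ) ^ 2 := by
    rw [hκ2, hPr]
    refine div_le_div_of_nonneg_right ?_ (by positivity)
    calc 2 * κ1 * D.card ≤ 2 * (e * C / p) * (C * p) := by gcongr
      _ = 2 * e * C ^ 2 := by field_simp
  have b3 : κ3 ≤ 4 * e * C ^ 3 / (p:ℝ) ^ 3 := by
    rw [hκ3, hPr]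
    rw [div_le_div_iff₀ (by positivity) (by positivity)]
    calc 2 * κ2 * D.card * (p:ℝ) ^ 3 ≤ 2 * (2 * e * C ^ 2 / (p:ℝ) ^ 2) * (C * p) * (p:ℝ) ^ 3 := by
          gcongr
      _ = 4 * e * C ^ 3 * (p:ℝ) ^ 2 := by field_simp; ring
  -- step 2
  have s2 : ∀ W : Finset ℕ, ClsLE P W g →
      (step P hP D X).mom lam W ≤ Real.exp (κ1 * (Qn P D W : ℝ)) := by
    intro W hW
    refine step_le P hP D X lam κ1 W (mom_step P hP D X lam hlam W) ?_
    intro a _
    have := avg_topH P H hP hH D B lam hlam g (quo P W a) (quo_card hP hW a)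
    refine this.trans (le_of_eq ?_)
    rw [hκ1]
    ring
  -- step 3
  have s3 : ∀ W : Finset ℕ, W.card ≤ h → ClsLE P W g →
      (∑ τ ∈ range P, (step P hP D X).mom lam (sh W τ)) / (P : ℝ) ≤ 1 + κ2 * W.card := by
    intro W hWh hW
    have := avg_step P hP D (step P hP D X) lam κ1 hκ10 W
      (fun τ _ => s2 _ (clsLE_sh hW τ)) (fun τ _ => by
        have h1 : (Qn P D (sh W τ) : ℝ) ≤ C * h := by
          have h2 : Qn P D (sh W τ) ≤ C * h :=
            (Qn_le_card hP hDlt).trans (Nat.mul_le_mul_left C ((sh_card W τ).trans hWh))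
          exact_mod_cast h2
        calc κ1 * (Qn P D (sh W τ) : ℝ) ≤ (e * C / p) * (C * h) := by gcongr
          _ = (C ^ 2 * e * h) / p := by ring
          _ ≤ 1 := by
            rw [div_le_one hpr]
            refine le_trans ?_ hK
            have : (C:ℝ) ^ 2 ≤ 4 * C ^ 4 + 2 * C ^ 3 + C ^ 2 + 1 := by
              have : (0:ℝ) ≤ 4 * C ^ 4 + 2 * C ^ 3 + 1 := by positivity
              linarith
            gcongr)
    refine this.trans (le_of_eq ?_)
    rw [hκ2]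
    ring
  -- step 4
  have s4 : ∀ W : Finset ℕ, ClsLE P W h → ClsLE (P * P) W g →
      (step P hP D (step P hP D X)).mom lam W ≤ Real.exp (κ2 * (Qn P D W : ℝ)) := by
    intro W hWh hWg
    refine step_le P hP D _ lam κ2 W (mom_step P hP D _ lam hlam W) ?_
    intro a _
    exact s3 _ (quo_card hP hWh a) (clsLE_quo hP hWg a)
  -- step 5
  have s5 : ∀ W : Finset ℕ, ClsLE P W h → ClsLE (P * P) W g →
      (∑ τ ∈ range P, (step P hP D (step P hP D X)).mom lam (sh W τ)) / (P : ℝ) ≤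
        1 + κ3 * W.card := by
    intro W hWh hWg
    have := avg_step P hP D (step P hP D (step P hP D X)) lam κ2 hκ20 W
      (fun τ _ => s4 _ (clsLE_sh hWh τ) (clsLE_sh hWg τ)) (fun τ _ => by
        have h1 : (Qn P D (sh W τ) : ℝ) ≤ D.card * h := by
          exact_mod_cast Qn_le hP (clsLE_sh hWh τ)
        calc κ2 * (Qn P D (sh W τ) : ℝ) ≤ (2 * e * C ^ 2 / (p:ℝ) ^ 2) * ((C * p) * h) := by
              gcongr
              exact h1.trans (by gcongr)
          _ = (2 * C ^ 3 * e * h) / p := by field_simp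
          _ ≤ 1 := by
            rw [div_le_one hpr]
            refine le_trans ?_ hK
            have : 2 * (C:ℝ) ^ 3 ≤ 4 * C ^ 4 + 2 * C ^ 3 + C ^ 2 + 1 := by
              have : (0:ℝ) ≤ 4 * C ^ 4 + C ^ 2 + 1 := by positivity
              linarith
            gcongr)
    refine this.trans (le_of_eq ?_)
    rw [hκ3]
    ring
  -- step 6
  have e4 : p ^ 4 = P * P := by rw [hPdef]; ring
  have e6 : p ^ 6 = P * (P * P) := by rw [hPdef]; ring
  rw [e4] at hh
  rw [e6] at hg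
  have s6 : (blk p H hp hH D B).mom lam V ≤ Real.exp (κ3 * (Qn P D V : ℝ)) := by
    change (step P hP D (step P hP D (step P hP D X))).mom lam V ≤ _
    refine step_le P hP D _ lam κ3 V (mom_step P hP D _ lam hlam V) ?_
    intro a _
    exact s5 _ (clsLE_quo hP hh a) (clsLE_quo hP hg a)
  refine s6.trans (Real.exp_le_exp.mpr ?_)
  have h1 : (Qn P D V : ℝ) ≤ D.card * G := by exact_mod_cast Qn_le hP hG
  calc κ3 * (Qn P D V : ℝ) ≤ (4 * e * C ^ 3 / (p:ℝ) ^ 3) * ((C * p) * G) := by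
        gcongr
        exact h1.trans (by gcongr)
    _ = (4 * C ^ 4) * e * G / (p:ℝ) ^ 2 := by field_simp
    _ ≤ (4 * C ^ 4 + 2 * C ^ 3 + C ^ 2 + 1) * e * G / (p:ℝ) ^ 2 := by
      have : 4 * (C:ℝ) ^ 4 ≤ 4 * C ^ 4 + 2 * C ^ 3 + C ^ 2 + 1 := by
        have : (0:ℝ) ≤ 2 * C ^ 3 + C ^ 2 + 1 := by positivity
        linarith
      gcongr

/-! ### the second lemma -/

/-- every interval of length `H` has at most `β` elements of `B` -/
def Win (H : ℕ) (B : Finset ℕ) (β : ℕ) : Prop :=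
  ∀ w, (B.filter (fun b => b ≤ w ∧ w < b + H)).card ≤ β

theorem sum_win {H β : ℕ} {B : Finset ℕ} (hB : Win H B β) (W : Finset ℕ) :
    ∑ τ ∈ range H, (B ∩ sh W τ).card ≤ W.card * β := by
  classical
  have h1 : ∀ τ, (B ∩ sh W τ).card = ∑ s ∈ B, (if τ + s ∈ W then 1 else 0) := by
    intro τ
    rw [← card_filter]
    congr 1
    ext s
    rw [mem_inter, mem_filter, mem_sh]
  have h0 : ∑ τ ∈ range H, (B ∩ sh W τ).card =
      ((range H ×ˢ B).filter (fun x => x.1 + x.2 ∈ W)).card := by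
    rw [sum_congr rfl (fun τ _ => h1 τ), card_filter, sum_product]
  rw [h0]
  have hsub : (range H ×ˢ B).filter (fun x => x.1 + x.2 ∈ W) ⊆
      W.biUnion (fun w => (B.filter (fun b => b ≤ w ∧ w < b + H)).image (fun b => (w - b, b))) := by
    rintro ⟨τ, b⟩ h
    rw [mem_filter, mem_product, mem_range] at h
    obtain ⟨⟨h2, h3⟩, h4⟩ := h
    simp only at h2 h3 h4
    rw [mem_biUnion]
    refine ⟨τ + b, h4, mem_image.2 ⟨b, mem_filter.2 ⟨h3, by omega, by omega⟩, ?_⟩⟩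
    rw [Nat.add_sub_cancel]
  refine (card_le_card hsub).trans ((card_biUnion_le_card_mul _ _ β (fun w _ => ?_)))
  exact card_image_le.trans (hB w)

theorem topH_point (P H : ℕ) (hP : 0 < P) (hH : 0 < H) (D B : Finset ℕ) (lam : ℝ) (hlam : 0 ≤ lam)
    (V : Finset ℕ) (t : (topH P H hH D B).Ω) :
    Real.exp (lam * ((((topH P H hH D B).S t) ∩ V).card : ℝ)) ≤
      ∏ a : D, Real.exp (lam * ((B ∩ sh (quo P V a.1) (t a).1).card : ℝ)) := by
  classical
  rw [← Real.exp_sum, ← Finset.mul_sum]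
  refine Real.exp_le_exp.2 (mul_le_mul_of_nonneg_left ?_ hlam)
  have hsub : ((topH P H hH D B).S t) ∩ V ⊆ Finset.univ.biUnion (fun a : D =>
      (B ∩ sh (quo P V a.1) (t a).1).image (fun s => a.1 + P * ((t a).1 + s))) := by
    intro n hn
    rw [mem_inter] at hn
    obtain ⟨h1, h2⟩ := hn
    obtain ⟨a, s, hs, hn⟩ := mem_topH_S.1 h1
    rw [mem_biUnion]
    refine ⟨a, mem_univ _, mem_image.2 ⟨s, ?_, hn⟩⟩
    rw [mem_inter]
    refine ⟨hs, mem_sh.2 ((mem_quo hP).2 ?_)⟩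
    rw [hn]
    exact h2
  have h1 : (((topH P H hH D B).S t) ∩ V).card ≤
      ∑ a : D, (B ∩ sh (quo P V a.1) (t a).1).card :=
    (card_le_card hsub).trans (card_biUnion_le.trans (sum_le_sum fun a _ => card_image_le))
  exact_mod_cast h1

theorem mom_topH (P H : ℕ) (hP : 0 < P) (hH : 0 < H) (D B : Finset ℕ) (lam : ℝ) (hlam : 0 ≤ lam)
    (V : Finset ℕ) :
    (topH P H hH D B).mom lam V ≤
      ∏ a ∈ D, ((∑ τ ∈ range H, Real.exp (lam * ((B ∩ sh (quo P V a) τ).card : ℝ))) / (H : ℝ)) := by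
  classical
  have hH0 : (0 : ℝ) < H := by exact_mod_cast hH
  set f : D → Fin H → ℝ := fun a x =>
    Real.exp (lam * ((B ∩ sh (quo P V a.1) x.1).card : ℝ)) with hf
  have hcard : (Fintype.card (topH P H hH D B).Ω : ℝ) = ∏ _a : D, (H : ℝ) := by
    have h1 : Fintype.card (topH P H hH D B).Ω = Fintype.card (D → Fin H) :=
      Fintype.card_congr (Equiv.refl _)
    rw [h1, Fintype.card_pi]
    push_cast
    refine Finset.prod_congr rfl fun a _ => ?_
    rw [Fintype.card_fin]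
  have hsum : ∑ t : (topH P H hH D B).Ω, ∏ a : D, f a (t a) = ∏ a : D, ∑ x : Fin H, f a x := by
    have h1 : ∑ t : (topH P H hH D B).Ω, ∏ a : D, f a (t a) =
        ∑ t : (D → Fin H), ∏ a : D, f a (t a) :=
      Fintype.sum_equiv (Equiv.refl _) _ _ fun _ => rfl
    rw [h1, Finset.prod_univ_sum, Fintype.piFinset_univ]
  have hmom : (topH P H hH D B).mom lam V ≤
      (∏ a : D, ∑ x : Fin H, f a x) / ∏ _a : D, (H : ℝ) := by
    unfold RFS.mom RFS.E
    rw [← hcard, ← hsum]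
    refine div_le_div_of_nonneg_right (sum_le_sum fun t _ => ?_) (Nat.cast_nonneg _)
    exact topH_point P H hP hH D B lam hlam V t
  refine hmom.trans (le_of_eq ?_)
  rw [← Finset.prod_div_distrib, ← Finset.prod_coe_sort D
    (fun a => ((∑ τ ∈ range H, Real.exp (lam * ((B ∩ sh (quo P V a) τ).card : ℝ))) / (H : ℝ)))]
  refine Finset.prod_congr rfl fun a _ => ?_
  rw [Finset.sum_range]

theorem mom_topH_le (P H : ℕ) (hP : 0 < P) (hH : 0 < H) (D B : Finset ℕ) (lam : ℝ)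
    (hlam : 0 ≤ lam) {β g : ℕ} (hB : Win H B β) (V : Finset ℕ) (hV : ClsLE P V g) :
    (topH P H hH D B).mom lam V ≤
      Real.exp ((Real.exp (lam * g) * β / H) * (Qn P D V : ℝ)) := by
  have hH0 : (0 : ℝ) < H := by exact_mod_cast hH
  refine (mom_topH P H hP hH D B lam hlam V).trans ?_
  have h1 : ∏ a ∈ D, ((∑ τ ∈ range H, Real.exp (lam * ((B ∩ sh (quo P V a) τ).card : ℝ))) /
      (H : ℝ)) ≤ ∏ a ∈ D, Real.exp ((Real.exp (lam * g) * β / H) * (quo P V a).card) := by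
    refine Finset.prod_le_prod (fun a _ => ?_) (fun a _ => ?_)
    · exact div_nonneg (Finset.sum_nonneg fun τ _ => (Real.exp_pos _).le) hH0.le
    · have e1 : ∑ τ ∈ range H, Real.exp (lam * ((B ∩ sh (quo P V a) τ).card : ℝ)) ≤
          H + Real.exp (lam * g) * ((quo P V a).card * β) := by
        calc ∑ τ ∈ range H, Real.exp (lam * ((B ∩ sh (quo P V a) τ).card : ℝ))
            ≤ ∑ τ ∈ range H, (1 + Real.exp (lam * g) * ((B ∩ sh (quo P V a) τ).card : ℝ)) := by
              refine sum_le_sum fun τ _ => exp_lin hlam ?_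
              exact (card_le_card inter_subset_right).trans
                ((t9_card_sh _ τ).trans (quo_card hP hV a))
          _ = H + Real.exp (lam * g) * ((∑ τ ∈ range H, (B ∩ sh (quo P V a) τ).card : ℕ) : ℝ) := by
              rw [sum_add_distrib, ← mul_sum]
              simp
          _ ≤ H + Real.exp (lam * g) * ((quo P V a).card * β) := by
              gcongr
              exact_mod_cast sum_win hB (quo P V a)
      calc (∑ τ ∈ range H, Real.exp (lam * ((B ∩ sh (quo P V a) τ).card : ℝ))) / (H : ℝ)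
          ≤ (H + Real.exp (lam * g) * ((quo P V a).card * β)) / H := by gcongr
        _ = (Real.exp (lam * g) * β / H) * (quo P V a).card + 1 := by
            field_simp
            ring
        _ ≤ Real.exp ((Real.exp (lam * g) * β / H) * (quo P V a).card) :=
            Real.add_one_le_exp _
  refine h1.trans (le_of_eq ?_)
  rw [← Real.exp_sum, ← Finset.mul_sum]
  unfold Qn
  push_cast
  rfl

/-- the moments of `blk`: second lemma -/
def BlkMom2 (C : ℕ) : Prop :=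
  ∃ K : ℝ, 0 < K ∧ ∀ (p H : ℕ) (hp : 0 < p) (hH : 0 < H) (D B : Finset ℕ), IsBase C p D →
    ∀ (β : ℕ), Win H B β → ∀ (lam : ℝ), 0 ≤ lam → ∀ (g8 g6 h G : ℕ) (V : Finset ℕ),
      ClsLE (p ^ 8) V g8 → ClsLE (p ^ 6) V g6 → ClsLE (p ^ 4) V h → ClsLE (p ^ 2) V G →
      K * (Real.exp (lam * g8) * β / H) * g6 ≤ 1 →
      K * (Real.exp (lam * g8) * β / H) * h ≤ p →
      (blk p H hp hH D B).mom lam V ≤
        Real.exp (K * (Real.exp (lam * g8) * β / H) * G / (p : ℝ) ^ 2)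

theorem blk_mom2 (C : ℕ) : BlkMom2 C := by
  refine ⟨8 * C ^ 4 + 4 * C ^ 3 + 2 * C ^ 2 + C + 1, by positivity, ?_⟩
  intro p H hp hH D B hD β hB lam hlam g8 g6 h G V h8 h6 hh hG hK6 hK4
  set P := p ^ 2 with hPdef
  have hP : 0 < P := pow_pos hp 2
  have hpr : (0:ℝ) < p := by exact_mod_cast hp
  have hHr : (0:ℝ) < H := by exact_mod_cast hH
  have hPr : ((P : ℕ) : ℝ) = (p:ℝ) ^ 2 := by rw [hPdef]; push_cast; rfl
  have hPp : (0:ℝ) < P := by exact_mod_cast hP
  set κ0 : ℝ := Real.exp (lam * g8) * β / H with hκ0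
  have hκ00 : 0 ≤ κ0 := by positivity
  have hn : (D.card : ℝ) ≤ C * p := by exact_mod_cast hD.card
  have hn0 : (0:ℝ) ≤ D.card := Nat.cast_nonneg _
  have hC0 : (0:ℝ) ≤ C := Nat.cast_nonneg _
  have hh0 : (0:ℝ) ≤ h := Nat.cast_nonneg _
  have hg60 : (0:ℝ) ≤ g6 := Nat.cast_nonneg _
  have hG0 : (0:ℝ) ≤ G := Nat.cast_nonneg _
  have hDlt : ∀ a ∈ D, a < C * P := hD.hi
  set X := topH P H hH D B with hX
  set κ1 : ℝ := 2 * κ0 * D.card / P with hκ1
  set κ2 : ℝ := 2 * κ1 * D.card / P with hκ2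
  set κ3 : ℝ := 2 * κ2 * D.card / P with hκ3
  have hκ10 : 0 ≤ κ1 := by positivity
  have hκ20 : 0 ≤ κ2 := by positivity
  have hκ30 : 0 ≤ κ3 := by positivity
  have b1 : κ1 ≤ 2 * κ0 * C / p := by
    rw [hκ1, hPr, div_le_div_iff₀ (by positivity) hpr]
    calc 2 * κ0 * D.card * p ≤ 2 * κ0 * (C * p) * p := by gcongr
      _ = 2 * κ0 * C * (p:ℝ) ^ 2 := by ring
  have b2 : κ2 ≤ 4 * κ0 * C ^ 2 / (p:ℝ) ^ 2 := by
    rw [hκ2, hPr]
    refine div_le_div_of_nonneg_right ?_ (by positivity)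
    calc 2 * κ1 * D.card ≤ 2 * (2 * κ0 * C / p) * (C * p) := by gcongr
      _ = 4 * κ0 * C ^ 2 := by field_simp; ring
  have b3 : κ3 ≤ 8 * κ0 * C ^ 3 / (p:ℝ) ^ 3 := by
    rw [hκ3, hPr]
    rw [div_le_div_iff₀ (by positivity) (by positivity)]
    calc 2 * κ2 * D.card * (p:ℝ) ^ 3 ≤ 2 * (4 * κ0 * C ^ 2 / (p:ℝ) ^ 2) * (C * p) * (p:ℝ) ^ 3 := by
          gcongr
      _ = 8 * κ0 * C ^ 3 * (p:ℝ) ^ 2 := by field_simp; ring
  -- the top
  have s0 : ∀ W : Finset ℕ, ClsLE P W g8 → X.mom lam W ≤ Real.exp (κ0 * (Qn P D W : ℝ)) :=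
    fun W hW => mom_topH_le P H hP hH D B lam hlam hB W hW
  have s1 : ∀ W : Finset ℕ, W.card ≤ g6 → ClsLE P W g8 →
      (∑ τ ∈ range P, X.mom lam (sh W τ)) / (P : ℝ) ≤ 1 + κ1 * W.card := by
    intro W hWh hW
    have := avg_step P hP D X lam κ0 hκ00 W
      (fun τ _ => s0 _ (clsLE_sh hW τ)) (fun τ _ => by
        have h1 : (Qn P D (sh W τ) : ℝ) ≤ C * g6 := by
          have h2 : Qn P D (sh W τ) ≤ C * g6 :=
            (Qn_le_card hP hDlt).trans (Nat.mul_le_mul_left C ((sh_card W τ).trans hWh))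
          exact_mod_cast h2
        calc κ0 * (Qn P D (sh W τ) : ℝ) ≤ κ0 * (C * g6) := by gcongr
          _ = C * κ0 * g6 := by ring
          _ ≤ 1 := by
            refine le_trans ?_ hK6
            have : (C:ℝ) ≤ 8 * C ^ 4 + 4 * C ^ 3 + 2 * C ^ 2 + C + 1 := by
              have : (0:ℝ) ≤ 8 * C ^ 4 + 4 * C ^ 3 + 2 * C ^ 2 + 1 := by positivity
              linarith
            gcongr)
    refine this.trans (le_of_eq ?_)
    rw [hκ1]
    ring
  -- step 2
  have s2 : ∀ W : Finset ℕ, ClsLE P W g6 → ClsLE (P * P) W g8 →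
      (step P hP D X).mom lam W ≤ Real.exp (κ1 * (Qn P D W : ℝ)) := by
    intro W hW hW8
    refine step_le P hP D X lam κ1 W (mom_step P hP D X lam hlam W) ?_
    intro a _
    exact s1 _ (quo_card hP hW a) (clsLE_quo hP hW8 a)
  -- step 3
  have s3 : ∀ W : Finset ℕ, W.card ≤ h → ClsLE P W g6 → ClsLE (P * P) W g8 →
      (∑ τ ∈ range P, (step P hP D X).mom lam (sh W τ)) / (P : ℝ) ≤ 1 + κ2 * W.card := by
    intro W hWh hW hW8
    have := avg_step P hP D (step P hP D X) lam κ1 hκ10 W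
      (fun τ _ => s2 _ (clsLE_sh hW τ) (clsLE_sh hW8 τ)) (fun τ _ => by
        have h1 : (Qn P D (sh W τ) : ℝ) ≤ D.card * g6 := by
          exact_mod_cast Qn_le hP (clsLE_sh hW τ)
        calc κ1 * (Qn P D (sh W τ) : ℝ) ≤ (2 * κ0 * C / p) * ((C * p) * g6) := by
              gcongr
              exact h1.trans (by gcongr)
          _ = 2 * C ^ 2 * κ0 * g6 := by field_simp
          _ ≤ 1 := by
            refine le_trans ?_ hK6
            have : 2 * (C:ℝ) ^ 2 ≤ 8 * C ^ 4 + 4 * C ^ 3 + 2 * C ^ 2 + C + 1 := by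
              have : (0:ℝ) ≤ 8 * C ^ 4 + 4 * C ^ 3 + C + 1 := by positivity
              linarith
            gcongr)
    refine this.trans (le_of_eq ?_)
    rw [hκ2]
    ring
  -- step 4
  have s4 : ∀ W : Finset ℕ, ClsLE P W h → ClsLE (P * P) W g6 → ClsLE (P * (P * P)) W g8 →
      (step P hP D (step P hP D X)).mom lam W ≤ Real.exp (κ2 * (Qn P D W : ℝ)) := by
    intro W hWh hWg hW8
    refine step_le P hP D _ lam κ2 W (mom_step P hP D _ lam hlam W) ?_
    intro a _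
    exact s3 _ (quo_card hP hWh a) (clsLE_quo hP hWg a) (clsLE_quo hP hW8 a)
  -- step 5
  have s5 : ∀ W : Finset ℕ, ClsLE P W h → ClsLE (P * P) W g6 → ClsLE (P * (P * P)) W g8 →
      (∑ τ ∈ range P, (step P hP D (step P hP D X)).mom lam (sh W τ)) / (P : ℝ) ≤
        1 + κ3 * W.card := by
    intro W hWh hWg hW8
    have := avg_step P hP D (step P hP D (step P hP D X)) lam κ2 hκ20 W
      (fun τ _ => s4 _ (clsLE_sh hWh τ) (clsLE_sh hWg τ) (clsLE_sh hW8 τ)) (fun τ _ => by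
        have h1 : (Qn P D (sh W τ) : ℝ) ≤ D.card * h := by
          exact_mod_cast Qn_le hP (clsLE_sh hWh τ)
        calc κ2 * (Qn P D (sh W τ) : ℝ) ≤ (4 * κ0 * C ^ 2 / (p:ℝ) ^ 2) * ((C * p) * h) := by
              gcongr
              exact h1.trans (by gcongr)
          _ = (4 * C ^ 3 * κ0 * h) / p := by field_simp
          _ ≤ 1 := by
            rw [div_le_one hpr]
            refine le_trans ?_ hK4
            have : 4 * (C:ℝ) ^ 3 ≤ 8 * C ^ 4 + 4 * C ^ 3 + 2 * C ^ 2 + C + 1 := by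
              have : (0:ℝ) ≤ 8 * C ^ 4 + 2 * C ^ 2 + C + 1 := by positivity
              linarith
            gcongr)
    refine this.trans (le_of_eq ?_)
    rw [hκ3]
    ring
  -- step 6
  have e4 : p ^ 4 = P * P := by rw [hPdef]; ring
  have e6 : p ^ 6 = P * (P * P) := by rw [hPdef]; ring
  have e8 : p ^ 8 = P * (P * (P * P)) := by rw [hPdef]; ring
  rw [e4] at hh
  rw [e6] at h6
  rw [e8] at h8
  have s6 : (blk p H hp hH D B).mom lam V ≤ Real.exp (κ3 * (Qn P D V : ℝ)) := by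
    change (step P hP D (step P hP D (step P hP D X))).mom lam V ≤ _
    refine step_le P hP D _ lam κ3 V (mom_step P hP D _ lam hlam V) ?_
    intro a _
    exact s5 _ (clsLE_quo hP hh a) (clsLE_quo hP h6 a) (clsLE_quo hP h8 a)
  refine s6.trans (Real.exp_le_exp.mpr ?_)
  have h1 : (Qn P D V : ℝ) ≤ D.card * G := by exact_mod_cast Qn_le hP hG
  calc κ3 * (Qn P D V : ℝ) ≤ (8 * κ0 * C ^ 3 / (p:ℝ) ^ 3) * ((C * p) * G) := by
        gcongr
        exact h1.trans (by gcongr)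
    _ = (8 * C ^ 4) * κ0 * G / (p:ℝ) ^ 2 := by field_simp
    _ ≤ (8 * C ^ 4 + 4 * C ^ 3 + 2 * C ^ 2 + C + 1) * κ0 * G / (p:ℝ) ^ 2 := by
      have : 8 * (C:ℝ) ^ 4 ≤ 8 * C ^ 4 + 4 * C ^ 3 + 2 * C ^ 2 + C + 1 := by
        have : (0:ℝ) ≤ 4 * C ^ 3 + 2 * C ^ 2 + C + 1 := by positivity
        linarith
      gcongr

end Pool.Agent.H708.ET
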